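import Mathlib
set_option autoImplicit false

/-!
# The discrepancy of the multiples of a real number
-/

namespace Pool.Agent.Q158.EqD
open Finset

/-- The number of the `n ≤ N` for which the fractional part of `n x` lies in `[a, b)`. -/
noncomputable def cnt (x : ℝ) (N : ℕ) (a b : ℝ) : ℕ :=
  ((Icc 1 N).filter fun n : ℕ => a ≤ Int.fract (n * x) ∧ Int.fract (n * x) < b).card

/-- The discrepancy of `x, 2 x, …, N x` modulo one. -/
noncomputable def disc (x : ℝ) (N : ℕ) : ℝ :=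
  sSup {d | ∃ a b : ℝ, 0 ≤ a ∧ a ≤ b ∧ b ≤ 1 ∧ d = |(cnt x N a b : ℝ) / N - (b - a)|}

theorem cnt_le (x : ℝ) (N : ℕ) (a b : ℝ) : cnt x N a b ≤ N := by
  unfold cnt
  refine (card_filter_le _ _).trans ?_
  simp

theorem disc_set_le_one (x : ℝ) (N : ℕ) : ∀ d ∈ {d : ℝ | ∃ a b : ℝ, 0 ≤ a ∧ a ≤ b ∧ b ≤ 1 ∧
    d = |(cnt x N a b : ℝ) / N - (b - a)|}, d ≤ 1 := by
  rintro d ⟨a, b, h0, h1, h2, rfl⟩
  have h3 : (cnt x N a b : ℝ) / N ≤ 1 := by
    rcases Nat.eq_zero_or_pos N with h | h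
    · subst h; simp
    · rw [div_le_one (by exact_mod_cast h)]
      exact_mod_cast cnt_le x N a b
  have h4 : (0 : ℝ) ≤ (cnt x N a b : ℝ) / N := by positivity
  rw [abs_le]; constructor <;> linarith

theorem le_disc (x : ℝ) (N : ℕ) (a b : ℝ) (h0 : 0 ≤ a) (h1 : a ≤ b) (h2 : b ≤ 1) :
    |(cnt x N a b : ℝ) / N - (b - a)| ≤ disc x N :=
  le_csSup ⟨1, disc_set_le_one x N⟩ ⟨a, b, h0, h1, h2, rfl⟩

theorem disc_nonneg (x : ℝ) (N : ℕ) : 0 ≤ disc x N :=
  (abs_nonneg _).trans (le_disc x N 0 0 le_rfl le_rfl zero_le_one)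

theorem disc_le_one (x : ℝ) (N : ℕ) : disc x N ≤ 1 :=
  csSup_le ⟨_, 0, 0, le_rfl, le_rfl, zero_le_one, rfl⟩ (disc_set_le_one x N)

theorem disc_le (x : ℝ) (N : ℕ) (B : ℝ) (h : ∀ a b : ℝ, 0 ≤ a → a ≤ b → b ≤ 1 →
    |(cnt x N a b : ℝ) / N - (b - a)| ≤ B) : disc x N ≤ B :=
  csSup_le ⟨_, 0, 0, le_rfl, le_rfl, zero_le_one, rfl⟩ (by
    rintro d ⟨a, b, h0, h1, h2, rfl⟩
    exact h a b h0 h1 h2)

/-- one block of `q` consecutive multiples -/
theorem block (x : ℝ) (r : ℚ) (hr : |x - r| ≤ 1 / (r.den : ℝ) ^ 2) (n0 : ℕ) (a b : ℝ)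
    (hab : a ≤ b) :
    (((Ioc n0 (n0 + r.den)).filter fun n : ℕ =>
      a ≤ Int.fract (n * x) ∧ Int.fract (n * x) < b).card : ℝ) ≤ r.den * (b - a) + 3 := by
  set q := r.den with hq
  have hq0 : 0 < q := r.den_pos
  have hqR : (0 : ℝ) < q := by exact_mod_cast hq0
  set c : ℝ := n0 * x with hc
  set u : ℝ := q * (a - c) - 1 with hu
  set v : ℝ := q * (b - c) + 1 with hv
  have hrq : (r : ℝ) = r.num / q := by
    rw [hq]; exact_mod_cast (Rat.num_div_den r).symm
  have hcard : ((Ioc n0 (n0 + q)).filter fun n : ℕ =>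
      a ≤ Int.fract (n * x) ∧ Int.fract (n * x) < b).card ≤ (Icc ⌈u⌉ ⌊v⌋).card := by
    apply Finset.card_le_card_of_injOn (fun n : ℕ => ((n : ℤ) - n0) * r.num - ⌊(n : ℝ) * x⌋ * q)
    · intro n hn
      simp only [coe_filter, Set.mem_setOf_eq, mem_Ioc] at hn
      obtain ⟨⟨h1, h2⟩, h3, h4⟩ := hn
      simp only [coe_Icc, Set.mem_Icc]
      have hj0 : (0 : ℝ) < (n : ℝ) - n0 := by
        have : (n0 : ℝ) < n := by exact_mod_cast h1
        linarith
      have hj1 : (n : ℝ) - n0 ≤ q := by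
        have : (n : ℝ) ≤ n0 + q := by exact_mod_cast h2
        linarith
      have hfr : Int.fract ((n : ℝ) * x) * q = q * c +
          ((((n : ℤ) - n0) * r.num - ⌊(n : ℝ) * x⌋ * q : ℤ) : ℝ) + ((n : ℝ) - n0) * (x - r) * q := by
        rw [← Int.self_sub_floor, hrq, hc]
        push_cast
        field_simp
        ring
      have hE : |((n : ℝ) - n0) * (x - r) * q| ≤ 1 := by
        rw [abs_mul, abs_mul, abs_of_pos hj0, abs_of_pos hqR]
        calc ((n : ℝ) - n0) * |x - r| * q ≤ q * (1 / (q : ℝ) ^ 2) * q := by gcongr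
          _ = 1 := by field_simp
      have hE' := abs_le.1 hE
      set m : ℤ := ((n : ℤ) - n0) * r.num - ⌊(n : ℝ) * x⌋ * q with hm
      have h5 : a * q ≤ Int.fract ((n : ℝ) * x) * q := mul_le_mul_of_nonneg_right h3 hqR.le
      have h6 : Int.fract ((n : ℝ) * x) * q ≤ b * q := mul_le_mul_of_nonneg_right h4.le hqR.le
      constructor
      · apply Int.ceil_le.2
        rw [hu]; nlinarith
      · apply Int.le_floor.2
        rw [hv]; nlinarith
    · intro n hn n' hn' h
      simp only [coe_filter, Set.mem_setOf_eq, mem_Ioc] at hn hn'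
      simp only at h
      have h1 : ((q : ℕ) : ℤ) ∣ ((n : ℤ) - n') * r.num := by
        refine ⟨⌊(n : ℝ) * x⌋ - ⌊(n' : ℝ) * x⌋, ?_⟩
        linear_combination h
      have h2 : IsCoprime ((q : ℕ) : ℤ) r.num := by
        rw [Int.isCoprime_iff_gcd_eq_one, Int.gcd_comm]
        have := r.reduced
        rw [Nat.Coprime] at this
        rw [Int.gcd, Int.natAbs_natCast]
        exact this
      have h3 : ((q : ℕ) : ℤ) ∣ (n : ℤ) - n' := h2.dvd_of_dvd_mul_right h1
      obtain ⟨k, hk⟩ := h3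
      have h4 : |(n : ℤ) - n'| < q := by
        rw [abs_lt]; omega
      rw [hk, abs_mul, Nat.abs_cast] at h4
      have hk0 : k = 0 := by
        by_contra hne
        have : (1 : ℤ) ≤ |k| := Int.one_le_abs hne
        have hq' : (0 : ℤ) < q := by exact_mod_cast hq0
        nlinarith
      rw [hk0, mul_zero] at hk
      omega
  have h2 : ((Icc ⌈u⌉ ⌊v⌋).card : ℝ) ≤ v - u + 1 := by
    have huv : u ≤ v := by
      rw [hu, hv]
      nlinarith
    rw [Int.card_Icc]
    have h3 : (((⌊v⌋ + 1 - ⌈u⌉).toNat : ℕ) : ℝ) = ((max (⌊v⌋ + 1 - ⌈u⌉) 0 : ℤ) : ℝ) := by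
      exact_mod_cast Int.toNat_eq_max _
    rw [h3]
    push_cast
    apply max_le
    · have := Int.floor_le v
      have := Int.le_ceil u
      linarith
    · linarith
  have h3 : v - u + 1 = q * (b - a) + 3 := by rw [hu, hv]; ring
  rw [← h3]
  exact le_trans (by exact_mod_cast hcard) h2

/-- upper bound for the number of points in an interval -/
theorem cnt_upper (x : ℝ) (r : ℚ) (hr : |x - r| ≤ 1 / (r.den : ℝ) ^ 2) (N : ℕ) (a b : ℝ)
    (hab : a ≤ b) (hab1 : b - a ≤ 1) :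
    (cnt x N a b : ℝ) ≤ N * (b - a) + 3 * N / r.den + r.den + 3 := by
  classical
  set q := r.den with hq
  have hq0 : 0 < q := r.den_pos
  have hqR : (0 : ℝ) < q := by exact_mod_cast hq0
  have hsub : ((Icc 1 N).filter fun n : ℕ => a ≤ Int.fract (n * x) ∧ Int.fract (n * x) < b) ⊆
      (range (N / q + 1)).biUnion fun i => (Ioc (i * q) (i * q + q)).filter fun n : ℕ =>
        a ≤ Int.fract (n * x) ∧ Int.fract (n * x) < b := by
    intro n hn
    rw [mem_filter, mem_Icc] at hn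
    obtain ⟨⟨h1, h2⟩, h3⟩ := hn
    rw [mem_biUnion]
    refine ⟨(n - 1) / q, ?_, ?_⟩
    · rw [mem_range, Nat.lt_succ_iff]
      exact Nat.div_le_div_right (by omega)
    · rw [mem_filter, mem_Ioc]
      refine ⟨?_, h3⟩
      have h4 := Nat.div_add_mod (n - 1) q
      have h5 := Nat.mod_lt (n - 1) hq0
      have h6 : (n - 1) / q * q = q * ((n - 1) / q) := mul_comm _ _
      constructor
      · rw [h6]; omega
      · rw [h6]; omega
  have h1 : (cnt x N a b : ℝ) ≤ ∑ i ∈ range (N / q + 1),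
      (((Ioc (i * q) (i * q + q)).filter fun n : ℕ =>
        a ≤ Int.fract (n * x) ∧ Int.fract (n * x) < b).card : ℝ) := by
    have := (card_le_card hsub).trans card_biUnion_le
    unfold cnt
    exact_mod_cast this
  have h2 : ∑ i ∈ range (N / q + 1),
      (((Ioc (i * q) (i * q + q)).filter fun n : ℕ =>
        a ≤ Int.fract (n * x) ∧ Int.fract (n * x) < b).card : ℝ) ≤
      ∑ _i ∈ range (N / q + 1), ((q : ℝ) * (b - a) + 3) := by
    apply sum_le_sum
    intro i _
    exact block x r hr (i * q) a b hab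
  rw [sum_const, card_range, nsmul_eq_mul] at h2
  have h3 : ((N / q + 1 : ℕ) : ℝ) ≤ N / q + 1 := by
    push_cast
    have : ((N / q : ℕ) : ℝ) ≤ (N : ℝ) / q := Nat.cast_div_le
    linarith
  have h4 : ((N / q + 1 : ℕ) : ℝ) * ((q : ℝ) * (b - a) + 3) ≤
      ((N : ℝ) / q + 1) * ((q : ℝ) * (b - a) + 3) := by
    apply mul_le_mul_of_nonneg_right h3
    have : 0 ≤ (q : ℝ) * (b - a) := mul_nonneg hqR.le (by linarith)
    linarith
  have h5 : ((N : ℝ) / q + 1) * ((q : ℝ) * (b - a) + 3) =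
      N * (b - a) + 3 * N / q + q * (b - a) + 3 := by
    field_simp
    ring
  have h6 : (q : ℝ) * (b - a) ≤ q := by nlinarith
  linarith

theorem cnt_total (x : ℝ) (N : ℕ) (a b : ℝ) :
    (N : ℝ) ≤ cnt x N 0 a + cnt x N a b + cnt x N b 1 := by
  classical
  have h : Icc 1 N ⊆ ((Icc 1 N).filter fun n : ℕ => 0 ≤ Int.fract (n * x) ∧ Int.fract (n * x) < a) ∪
      ((Icc 1 N).filter fun n : ℕ => a ≤ Int.fract (n * x) ∧ Int.fract (n * x) < b) ∪
      ((Icc 1 N).filter fun n : ℕ => b ≤ Int.fract (n * x) ∧ Int.fract (n * x) < 1) := by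
    intro n hn
    simp only [mem_union, mem_filter]
    have h0 := Int.fract_nonneg ((n : ℝ) * x)
    have h1 := Int.fract_lt_one ((n : ℝ) * x)
    by_cases ha : Int.fract ((n : ℝ) * x) < a
    · exact Or.inl (Or.inl ⟨hn, h0, ha⟩)
    · by_cases hb : Int.fract ((n : ℝ) * x) < b
      · exact Or.inl (Or.inr ⟨hn, not_lt.1 ha, hb⟩)
      · exact Or.inr ⟨hn, not_lt.1 hb, h1⟩
  have h2 := (card_le_card h).trans ((card_union_le _ _).trans
    (Nat.add_le_add_right (card_union_le _ _) _))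
  rw [Nat.card_Icc] at h2
  unfold cnt
  have h3 : N ≤ ((Icc 1 N).filter fun n : ℕ => 0 ≤ Int.fract (n * x) ∧ Int.fract (n * x) < a).card +
      ((Icc 1 N).filter fun n : ℕ => a ≤ Int.fract (n * x) ∧ Int.fract (n * x) < b).card +
      ((Icc 1 N).filter fun n : ℕ => b ≤ Int.fract (n * x) ∧ Int.fract (n * x) < 1).card := by
    simpa using h2
  exact_mod_cast h3

/-- the discrepancy and one rational approximation -/
theorem disc_upper (x : ℝ) (r : ℚ) (hr : |x - r| ≤ 1 / (r.den : ℝ) ^ 2) (N : ℕ) (hN : 0 < N) :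
    disc x N ≤ 6 / r.den + 8 * r.den / N := by
  set q := r.den with hq
  have hq0 : 0 < q := r.den_pos
  have hqR : (1 : ℝ) ≤ q := by exact_mod_cast hq0
  have hNR : (0 : ℝ) < N := by exact_mod_cast hN
  apply disc_le
  intro a b h0 h1 h2
  have hu := cnt_upper x r hr N a b h1 (by linarith)
  have hl1 := cnt_upper x r hr N 0 a h0 (by linarith)
  have hl2 := cnt_upper x r hr N b 1 h2 (by linarith)
  have ht := cnt_total x N a b
  rw [← hq] at hu hl1 hl2
  have hlow : N * (b - a) - 2 * (3 * N / q + q + 3) ≤ (cnt x N a b : ℝ) := by linarith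
  have h3 : (0 : ℝ) ≤ 3 * N / q := by positivity
  have hupp : (cnt x N a b : ℝ) ≤ N * (b - a) + 2 * (3 * N / q + q + 3) := by linarith
  have h4 : |(cnt x N a b : ℝ) / N - (b - a)| ≤ 2 * (3 * N / q + q + 3) / N := by
    have e : (cnt x N a b : ℝ) / N - (b - a) = ((cnt x N a b : ℝ) - N * (b - a)) / N := by
      field_simp
    rw [e, abs_div, abs_of_pos hNR]
    apply div_le_div_of_nonneg_right _ hNR.le
    rw [abs_le]
    constructor <;> linarith
  refine h4.trans ?_
  have h5 : 2 * (3 * N / q + q + 3) / N = 6 / q + 2 * (q + 3) / (N : ℝ) := by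
    field_simp
    ring
  rw [h5]
  have h6 : 2 * ((q : ℝ) + 3) / N ≤ 8 * q / N := by
    apply div_le_div_of_nonneg_right _ hNR.le
    linarith
  linarith

/-- **Key lemma.** A large discrepancy comes from a good rational approximation with a small
denominator. -/
theorem approx (x : ℝ) (N : ℕ) (hN : 0 < N) (δ : ℝ) (hδ : 0 < δ) (h : δ < disc x N) :
    ∃ r : ℚ, (r.den : ℝ) ≤ 12 / δ ∧ |x - r| ≤ 16 / (δ * N * r.den) := by
  have hNR : (0 : ℝ) < N := by exact_mod_cast hN
  have hδ1 : δ < 1 := h.trans_le (disc_le_one x N)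
  by_cases hQ : 1 ≤ δ * N / 16
  · have hn : 0 < ⌊δ * N / 16⌋₊ := Nat.floor_pos.2 hQ
    obtain ⟨r, h1, h2⟩ := Real.exists_rat_abs_sub_le_and_den_le x hn
    have hd : (0 : ℝ) < r.den := by exact_mod_cast r.den_pos
    have h3 : (r.den : ℝ) ≤ δ * N / 16 := by
      have h4 : ((⌊δ * N / 16⌋₊ : ℕ) : ℝ) ≤ δ * N / 16 := Nat.floor_le (by positivity)
      have h5 : (r.den : ℝ) ≤ ((⌊δ * N / 16⌋₊ : ℕ) : ℝ) := by exact_mod_cast h2
      linarith
    have h6 : |x - r| ≤ 1 / ((δ * N / 16) * r.den) := by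
      refine h1.trans ?_
      apply one_div_le_one_div_of_le (by positivity)
      apply mul_le_mul_of_nonneg_right _ hd.le
      exact (Nat.lt_floor_add_one _).le
    refine ⟨r, ?_, ?_⟩
    · by_contra hlt
      push Not at hlt
      have h7 : |x - r| ≤ 1 / (r.den : ℝ) ^ 2 := by
        refine h6.trans ?_
        apply one_div_le_one_div_of_le (by positivity)
        rw [sq]
        exact mul_le_mul_of_nonneg_right h3 hd.le
      have h8 := disc_upper x r h7 N hN
      have h9 : 6 / (r.den : ℝ) < δ / 2 := by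
        rw [div_lt_iff₀ hd]
        rw [div_lt_iff₀ hδ] at hlt
        linarith
      have h10 : 8 * (r.den : ℝ) / N ≤ δ / 2 := by
        rw [div_le_iff₀ hNR]
        linarith
      linarith
    · refine h6.trans (le_of_eq ?_)
      field_simp
  · push Not at hQ
    refine ⟨((round x : ℤ) : ℚ), ?_, ?_⟩
    · rw [Rat.den_intCast]
      rw [Nat.cast_one, le_div_iff₀ hδ]
      linarith
    · rw [Rat.den_intCast]
      push_cast
      have h1 := abs_sub_round x
      have h2 : 1 ≤ 16 / (δ * N * 1) := by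
        rw [le_div_iff₀ (by positivity)]
        linarith
      linarith

end Pool.Agent.Q158.EqD
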