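import Mathlib
import Pool.Agent.Q158.EqD.Disc
import Pool.Agent.TH647.NR.Res

/-!
# The minimal polynomial at a scale
-/

set_option autoImplicit false

namespace Pool.Agent.Q158.EqD
open Polynomial

/-- If all nonconstant irreducible factors are at least `ε` then so is the polynomial, up to a
power. -/
theorem small_factor (θ ε : ℝ) (hε0 : 0 < ε) (hε1 : ε ≤ 1) (g : ℤ[X]) (hg : g ≠ 0)
    (hall : ∀ f : ℤ[X], Irreducible f → 0 < f.natDegree → f ∣ g → ε < |aeval θ f|) :
    ε ^ g.natDegree ≤ |aeval θ g| := by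
  induction g using WfDvdMonoid.induction_on_irreducible with
  | zero => exact absurd rfl hg
  | unit u hu =>
    obtain ⟨r, hr, rfl⟩ := Polynomial.isUnit_iff.1 hu
    rcases Int.isUnit_iff.1 hr with h | h <;> simp [h]
  | mul a i ha hi ih =>
    have h1 := ih ha (fun f hf hd hdvd => hall f hf hd (Dvd.dvd.mul_left hdvd i))
    rw [natDegree_mul hi.ne_zero ha, map_mul, abs_mul, pow_add]
    refine mul_le_mul ?_ h1 (by positivity) (abs_nonneg _)
    by_cases hd : 0 < i.natDegree
    · calc ε ^ i.natDegree ≤ ε ^ 1 := pow_le_pow_of_le_one hε0.le hε1 hd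
        _ ≤ |aeval θ i| := by
          rw [pow_one]
          exact (hall i hi hd (Dvd.intro _ rfl)).le
    · have h0 : i.natDegree = 0 := by omega
      rw [h0, pow_zero]
      have h2 : i = C (i.coeff 0) := eq_C_of_natDegree_eq_zero h0
      have h3 : i.coeff 0 ≠ 0 := by
        intro h
        rw [h, C_0] at h2
        exact hi.ne_zero h2
      rw [h2, aeval_C]
      simp only [algebraMap_int_eq, Int.coe_castRingHom]
      have : (1 : ℤ) ≤ |i.coeff 0| := Int.one_le_abs h3
      exact_mod_cast this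

theorem factor_height (g f : ℤ[X]) (hg : g ≠ 0) (hfg : f ∣ g) (d : ℕ) (hd : g.natDegree ≤ d) (A : ℝ)
    (hA : ∀ i, |(g.coeff i : ℝ)| ≤ A) (i : ℕ) : |(f.coeff i : ℝ)| ≤ 2 ^ d * ((d + 1) * A) := by
  obtain ⟨h, rfl⟩ := hfg
  have hA0 : 0 ≤ A := (abs_nonneg _).trans (hA 0)
  have hf0 : f ≠ 0 := left_ne_zero_of_mul hg
  have hh0 : h ≠ 0 := right_ne_zero_of_mul hg
  set φ := Int.castRingHom ℂ with hφ
  have hinj : Function.Injective φ := RingHom.injective_int φ
  have h1 : 1 ≤ (h.map φ).mahlerMeasure := by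
    apply one_le_mahlerMeasure_of_one_le_norm_leadingCoeff
    rw [leadingCoeff_map_of_injective hinj, hφ]
    simp only [Int.coe_castRingHom, Complex.norm_intCast]
    have : (1 : ℤ) ≤ |h.leadingCoeff| := Int.one_le_abs (leadingCoeff_ne_zero.2 hh0)
    exact_mod_cast this
  have h2 := norm_coeff_le_choose_mul_mahlerMeasure_of_one_le_mahlerMeasure i (f.map φ) (h.map φ) h1
  rw [← Polynomial.map_mul, coeff_map, hφ] at h2
  simp only [Int.coe_castRingHom, Complex.norm_intCast] at h2
  rw [← hφ, natDegree_map_eq_of_injective hinj] at h2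
  refine h2.trans ?_
  have h3 : ((f.natDegree.choose i : ℕ) : ℝ) ≤ 2 ^ d := by
    have e1 : f.natDegree.choose i ≤ 2 ^ f.natDegree := Nat.choose_le_two_pow _ _
    have e2 : f.natDegree ≤ d := (natDegree_le_of_dvd (Dvd.intro _ rfl) hg).trans hd
    have e3 : 2 ^ f.natDegree ≤ 2 ^ d := Nat.pow_le_pow_right (by norm_num) e2
    exact_mod_cast e1.trans e3
  have h4 : ((f * h).map φ).mahlerMeasure ≤ (d + 1) * A := by
    refine (mahlerMeasure_le_sum_norm_coeff _).trans ?_
    rw [sum_over_range _ (by simp)]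
    have e1 : ((f * h).map φ).natDegree + 1 ≤ d + 1 := by
      rw [natDegree_map_eq_of_injective hinj]
      omega
    calc ∑ i ∈ Finset.range (((f * h).map φ).natDegree + 1), ‖((f * h).map φ).coeff i‖
        ≤ ∑ _i ∈ Finset.range (((f * h).map φ).natDegree + 1), A := by
          apply Finset.sum_le_sum
          intro i _
          rw [coeff_map, hφ]
          simp only [Int.coe_castRingHom, Complex.norm_intCast]
          exact hA i
      _ = ((((f * h).map φ).natDegree + 1 : ℕ) : ℝ) * A := by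
          rw [Finset.sum_const, Finset.card_range, nsmul_eq_mul]
      _ ≤ (d + 1) * A := by
          apply mul_le_mul_of_nonneg_right _ hA0
          exact_mod_cast e1
  exact mul_le_mul h3 h4 (mahlerMeasure_nonneg _) (by positivity)

theorem res_ne (P Q : ℤ[X]) (hP : Irreducible P) (hQ : Irreducible Q)
    (hP0 : 0 < P.natDegree) (hQ0 : 0 < Q.natDegree) (hne : ¬ Associated P Q) :
    resultant P Q ≠ 0 := by
  classical
  set ι := algebraMap ℤ (FractionRing ℤ) with hι
  have hinj : Function.Injective ι := IsFractionRing.injective _ _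
  have hPp : P.IsPrimitive := hP.isPrimitive hP0.ne'
  have hQp : Q.IsPrimitive := hQ.isPrimitive hQ0.ne'
  have hP' : Irreducible (P.map ι) :=
    (IsPrimitive.irreducible_iff_irreducible_map_fraction_map (K := FractionRing ℤ) hPp).1 hP
  have hcop : IsCoprime (P.map ι) (Q.map ι) := by
    refine (hP'.coprime_iff_not_dvd).2 fun hdvd => hne ?_
    have h1 : P ∣ Q := hPp.dvd_of_fraction_map_dvd_fraction_map (K := FractionRing ℤ) hdvd
    exact (hP.dvd_irreducible_iff_associated hQ).1 h1
  have h2 := resultant_ne_zero _ _ hcop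
  rw [natDegree_map_eq_of_injective hinj, natDegree_map_eq_of_injective hinj, resultant_map_map] at h2
  intro h0
  exact h2 (by rw [h0, map_zero])

/-- Two irreducible polynomials which are small at the same point are associated. -/
theorem assoc_of_small (θ T : ℝ) (hT : 1 ≤ T) (hθ : |θ| ≤ T) (d : ℕ) (B ε : ℝ) (hB : 1 ≤ B)
    (f g : ℤ[X]) (hf : Irreducible f) (hg : Irreducible g) (hf0 : 0 < f.natDegree)
    (hg0 : 0 < g.natDegree) (hfd : f.natDegree ≤ d) (hgd : g.natDegree ≤ d)
    (hfB : ∀ i, |(f.coeff i : ℝ)| ≤ B) (hgB : ∀ i, |(g.coeff i : ℝ)| ≤ B)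
    (hfε : |aeval θ f| ≤ ε) (hgε : |aeval θ g| ≤ ε)
    (hsmall : (2 * d) * (T ^ (2 * d) * ε) * ((2 * d).factorial * B ^ (2 * d)) < 1) :
    Associated f g := by
  by_contra hne
  have h0 := res_ne f g hf hg hf0 hg0 hne
  have hε : 0 ≤ ε := (abs_nonneg _).trans hfε
  set φ := Int.castRingHom ℂ with hφ
  have hinj : Function.Injective φ := RingHom.injective_int φ
  have hval : ∀ p : ℤ[X], ‖(p.map φ).eval (θ : ℂ)‖ = |aeval θ p| := by
    intro p
    rw [hφ, eval_map, ← algebraMap_int_eq, ← aeval_def]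
    have : aeval (θ : ℂ) p = ((aeval θ p : ℝ) : ℂ) := by
      rw [← Complex.coe_algebraMap, aeval_algebraMap_apply]
    rw [this, Complex.norm_real, Real.norm_eq_abs]
  have hcoef : ∀ p : ℤ[X], ∀ i, ‖(p.map φ).coeff i‖ = |(p.coeff i : ℝ)| := by
    intro p i
    rw [coeff_map, hφ]
    simp only [Int.coe_castRingHom, Complex.norm_intCast]
  have h1 := Pool.Agent.TH647.NR.norm_resultant_le (f.map φ) (g.map φ) f.natDegree g.natDegree
    (natDegree_map_le) (natDegree_map_le) (by omega) B T ε hB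
    (fun i => by rw [hcoef]; exact hfB i) (fun i => by rw [hcoef]; exact hgB i) (θ : ℂ) hT
    (by rw [Complex.norm_real, Real.norm_eq_abs]; exact hθ) (by rw [hval]; exact hfε)
    (by rw [hval]; exact hgε)
  rw [resultant_map_map, hφ] at h1
  simp only [Int.coe_castRingHom, Complex.norm_intCast] at h1
  have h2 : (1 : ℝ) ≤ |((resultant f g : ℤ) : ℝ)| := by
    have : (1 : ℤ) ≤ |resultant f g| := Int.one_le_abs h0
    exact_mod_cast this
  have h3 : ((f.natDegree : ℝ) + g.natDegree) ≤ 2 * d := by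
    have : f.natDegree + g.natDegree ≤ 2 * d := by omega
    exact_mod_cast this
  have h4 : T ^ (f.natDegree + g.natDegree) ≤ T ^ (2 * d) := pow_le_pow_right₀ hT (by omega)
  have h5 : ((f.natDegree + g.natDegree).factorial : ℝ) ≤ (2 * d).factorial := by
    exact_mod_cast Nat.factorial_le (by omega)
  have h6 : B ^ (f.natDegree + g.natDegree) ≤ B ^ (2 * d) := pow_le_pow_right₀ hB (by omega)
  have h7 : ((f.natDegree : ℝ) + g.natDegree) * (T ^ (f.natDegree + g.natDegree) * ε) *
      ((f.natDegree + g.natDegree).factorial * B ^ (f.natDegree + g.natDegree)) ≤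
      (2 * d) * (T ^ (2 * d) * ε) * ((2 * d).factorial * B ^ (2 * d)) := by
    gcongr
  linarith

/-- **The minimal polynomial at a scale.** -/
theorem minpol (θ c μ : ℝ) (hc : 0 < c) (hμ : 0 < μ)
    (hθ : ∀ (q : ℕ) (p : ℤ), 0 < q → c ≤ (q : ℝ) ^ μ * |θ - p / q|) (d : ℕ) :
    ∃ κ K : ℝ, 0 < κ ∧ 0 < K ∧ ∀ N : ℕ, 0 < N → ∃ f : ℤ[X], Irreducible f ∧ 2 ≤ f.natDegree ∧
      ∀ P : ℤ[X], 0 < P.natDegree → P.natDegree ≤ d → (∀ i, |(P.coeff i : ℝ)| ≤ (N : ℝ) ^ κ) →
        (∃ M : ℕ, N ≤ M ∧ K * (N : ℝ) ^ (-κ) < disc (aeval θ P) M) →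
        ∃ (q : ℕ) (p : ℤ), 0 < q ∧ f ∣ C (q : ℤ) * P - C p := by
  classical
  obtain ⟨m, hm⟩ := exists_nat_ge (4 * d + 2 * μ + 1)
  have hm4 : 4 * d + 1 ≤ m := by
    have : ((4 * d + 1 : ℕ) : ℝ) ≤ m := by push_cast; linarith
    exact_mod_cast this
  obtain ⟨E, hE⟩ : ∃ E : ℕ, E = d * m + 3 := ⟨_, rfl⟩
  set T : ℝ := max 1 |θ| with hT
  have hT1 : 1 ≤ T := le_max_left _ _
  have hθT : |θ| ≤ T := le_max_right _ _
  set C1 : ℝ := 12 + 12 * ((d + 1) * T ^ d) + 192 with hC1
  have hC1' : 1 ≤ C1 := by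
    have : 0 ≤ 12 * (((d : ℝ) + 1) * T ^ d) := by positivity
    linarith
  set C2 : ℝ := 2 ^ d * ((d + 1) * C1) with hC2
  have hC2' : 1 ≤ C2 := by
    have e1 : (1 : ℝ) ≤ 2 ^ d := one_le_pow₀ (by norm_num)
    have e2 : (1 : ℝ) ≤ (d + 1) * C1 := by nlinarith [(Nat.cast_nonneg d : (0 : ℝ) ≤ d)]
    nlinarith
  set C3 : ℝ := (2 * d) * T ^ (2 * d) * ((2 * d).factorial * C2 ^ (2 * d)) with hC3
  have hC3' : 0 ≤ C3 := by positivity
  obtain ⟨x0, hx0⟩ : ∃ x0 : ℝ, x0 = 192 + C3 + C2 ^ μ / c := ⟨_, rfl⟩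
  have hx0' : 192 ≤ x0 := by
    have : 0 ≤ C2 ^ μ / c := by positivity
    linarith
  refine ⟨1 / E, x0, ?_, by linarith, ?_⟩
  · have : (0 : ℝ) < E := by rw [hE]; positivity
    positivity
  intro N hN
  have hN1 : (1 : ℝ) ≤ N := by exact_mod_cast hN
  have hN0 : (0 : ℝ) < N := by linarith
  have hE0 : (0 : ℝ) < E := by rw [hE]; positivity
  obtain ⟨x, hx⟩ : ∃ x : ℝ, x = (N : ℝ) ^ (1 / (E : ℝ)) := ⟨_, rfl⟩
  have hxN : x ^ E = N := by
    rw [hx, ← Real.rpow_natCast, ← Real.rpow_mul hN0.le, one_div_mul_cancel hE0.ne', Real.rpow_one]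
  have hx1 : 1 ≤ x := by
    rw [hx]; exact Real.one_le_rpow hN1 (by positivity)
  have hxp : 0 < x := by linarith
  have hxinv : (N : ℝ) ^ (-(1 / (E : ℝ))) = 1 / x := by
    rw [hx, Real.rpow_neg hN0.le, one_div, one_div]
  -- the property of bad polynomials
  have key : ∀ P : ℤ[X], 0 < P.natDegree → P.natDegree ≤ d → (∀ i, |(P.coeff i : ℝ)| ≤ x) →
      (∃ M : ℕ, N ≤ M ∧ x0 * (1 / x) < disc (aeval θ P) M) →
      x0 < x ∧ ∃ (q : ℕ) (p : ℤ) (f : ℤ[X]), 0 < q ∧ Irreducible f ∧ 0 < f.natDegree ∧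
        f.natDegree ≤ d ∧ f ∣ C (q : ℤ) * P - C p ∧ (∀ i, |(f.coeff i : ℝ)| ≤ C2 * x ^ 2) ∧
        |aeval θ f| ≤ 1 / x ^ m := by
    intro P hP0 hPd hPx hbad
    obtain ⟨M, hNM, hM⟩ := hbad
    have hxx0 : x0 < x := by
      have h1 := disc_le_one (aeval θ P) M
      have h2 : x0 * (1 / x) < 1 := by linarith
      rw [mul_one_div, div_lt_one hxp] at h2
      exact h2
    have hδ : 1 / x < disc (aeval θ P) M := by
      refine lt_of_le_of_lt ?_ hM
      have : 0 < 1 / x := by positivity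
      nlinarith
    obtain ⟨r, hr1, hr2⟩ := approx (aeval θ P) M (by omega) (1 / x) (by positivity) hδ
    have hden1 : (1 : ℝ) ≤ r.den := by exact_mod_cast r.den_pos
    have hden0 : (0 : ℝ) < r.den := by linarith
    have hr1' : (r.den : ℝ) ≤ 12 * x := by
      refine hr1.trans (le_of_eq ?_)
      field_simp
    have hMN : (N : ℝ) ≤ M := by exact_mod_cast hNM
    have hM0 : (0 : ℝ) < M := by linarith
    have hr2' : |aeval θ P - r| ≤ 16 * x / N := by
      refine hr2.trans ?_
      rw [div_le_div_iff₀ (by positivity) hN0]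
      have : 16 * x * (1 / x * M * r.den) = 16 * (M * r.den) := by
        field_simp
      rw [this]
      have : (N : ℝ) ≤ M * r.den := hMN.trans (le_mul_of_one_le_right (by positivity) hden1)
      linarith
    set g : ℤ[X] := C (r.den : ℤ) * P - C r.num with hg
    have hgdeg : g.natDegree = P.natDegree := by
      rw [hg, natDegree_sub_C, natDegree_C_mul]
      exact_mod_cast r.den_pos.ne'
    have hg0 : g ≠ 0 := by
      intro h
      rw [h, natDegree_zero] at hgdeg
      omega
    have hPθ : |aeval θ P| ≤ (d + 1) * T ^ d * x := by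
      rw [aeval_eq_sum_range' (show P.natDegree < d + 1 by omega)]
      refine (Finset.abs_sum_le_sum_abs _ _).trans ?_
      calc ∑ i ∈ Finset.range (d + 1), |P.coeff i • θ ^ i|
          ≤ ∑ _i ∈ Finset.range (d + 1), T ^ d * x := by
            apply Finset.sum_le_sum
            intro i hi
            rw [zsmul_eq_mul, abs_mul, abs_pow, mul_comm]
            have hi' : i ≤ d := by
              have := Finset.mem_range.1 hi
              omega
            apply mul_le_mul _ (hPx i) (abs_nonneg _) (by positivity)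
            exact (pow_le_pow_left₀ (abs_nonneg _) hθT i).trans (pow_le_pow_right₀ hT1 hi')
        _ = (d + 1) * T ^ d * x := by
            rw [Finset.sum_const, Finset.card_range, nsmul_eq_mul]
            push_cast
            ring
    have hxle : x ≤ N := by
      rw [← hxN]
      exact le_self_pow₀ hx1 (by rw [hE]; omega)
    have hnum : |(r.num : ℝ)| ≤ 12 * x * ((d + 1) * T ^ d * x + 16) := by
      have e1 : (r.num : ℝ) = r.den * r := by exact_mod_cast (Rat.den_mul_eq_num r).symm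
      have e2 : |(r : ℝ)| ≤ |aeval θ P| + |aeval θ P - r| := by
        calc |(r : ℝ)| = |aeval θ P - (aeval θ P - r)| := by ring_nf
          _ ≤ _ := abs_sub _ _
      have e3 : 16 * x / N ≤ 16 := by
        rw [div_le_iff₀ hN0]
        linarith
      rw [e1, abs_mul, abs_of_pos hden0]
      exact mul_le_mul hr1' (by linarith) (abs_nonneg _) (by positivity)
    have hgcoef : ∀ i, |(g.coeff i : ℝ)| ≤ C1 * x ^ 2 := by
      intro i
      have e1 : |(g.coeff i : ℝ)| ≤ r.den * |(P.coeff i : ℝ)| + |(r.num : ℝ)| := by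
        rw [hg, coeff_sub, coeff_C_mul, coeff_C]
        push_cast
        have f1 : |((r.den : ℝ) * (P.coeff i : ℝ)) - ((if i = 0 then r.num else 0 : ℤ) : ℝ)| ≤
            |(r.den : ℝ) * (P.coeff i : ℝ)| + |((if i = 0 then r.num else 0 : ℤ) : ℝ)| := abs_sub _ _
        rw [abs_mul, abs_of_pos hden0] at f1
        have f2 : |((if i = 0 then r.num else 0 : ℤ) : ℝ)| ≤ |(r.num : ℝ)| := by
          split_ifs
          · exact le_rfl
          · simp
        push_cast at f1 f2 ⊢
        linarith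
      have e2 : (r.den : ℝ) * |(P.coeff i : ℝ)| ≤ 12 * x * x :=
        mul_le_mul hr1' (hPx i) (abs_nonneg _) (by positivity)
      have e3 : 12 * x * 16 ≤ 192 * x ^ 2 := by nlinarith
      calc |(g.coeff i : ℝ)| ≤ 12 * x * x + 12 * x * ((d + 1) * T ^ d * x + 16) := by linarith
        _ = 12 * x ^ 2 + 12 * ((d + 1) * T ^ d) * x ^ 2 + 12 * x * 16 := by ring
        _ ≤ 12 * x ^ 2 + 12 * ((d + 1) * T ^ d) * x ^ 2 + 192 * x ^ 2 := by linarith
        _ = C1 * x ^ 2 := by rw [hC1]; ring
    have hgval : |aeval θ g| ≤ 192 * x ^ 2 / N := by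
      have e1 : aeval θ g = r.den * (aeval θ P - r) := by
        rw [hg, map_sub, map_mul, aeval_C, aeval_C]
        simp only [algebraMap_int_eq, Int.coe_castRingHom, Int.cast_natCast]
        have : (r.num : ℝ) = r.den * r := by exact_mod_cast (Rat.den_mul_eq_num r).symm
        rw [this]
        ring
      rw [e1, abs_mul, abs_of_pos hden0]
      calc (r.den : ℝ) * |aeval θ P - r| ≤ 12 * x * (16 * x / N) :=
            mul_le_mul hr1' hr2' (abs_nonneg _) (by positivity)
        _ = 192 * x ^ 2 / N := by ring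
    have hgval2 : |aeval θ g| < (1 / x ^ m) ^ g.natDegree := by
      have e1 : (1 / x ^ m) ^ d ≤ (1 / x ^ m) ^ g.natDegree := by
        apply pow_le_pow_of_le_one (by positivity) _ (by rw [hgdeg]; exact hPd)
        rw [div_le_one (by positivity)]
        exact one_le_pow₀ hx1
      refine lt_of_lt_of_le (lt_of_le_of_lt hgval ?_) e1
      rw [← hxN, hE, one_div, inv_pow, ← pow_mul, div_lt_iff₀ (by positivity)]
      have e2 : (x ^ (m * d))⁻¹ * x ^ (d * m + 3) = x ^ 3 := by
        rw [pow_add, mul_comm d m]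
        field_simp
      rw [e2]
      have : 192 < x := by linarith
      nlinarith [pow_pos hxp 2]
    obtain ⟨f, hf1, hf2, hf3, hf4⟩ : ∃ f : ℤ[X], Irreducible f ∧ 0 < f.natDegree ∧ f ∣ g ∧
        |aeval θ f| ≤ 1 / x ^ m := by
      by_contra hcon
      push Not at hcon
      have := small_factor θ (1 / x ^ m) (by positivity) (by
        rw [div_le_one (by positivity)]
        exact one_le_pow₀ hx1) g hg0 hcon
      linarith
    refine ⟨hxx0, r.den, r.num, f, r.den_pos, hf1, hf2, ?_, hf3, ?_, hf4⟩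
    · exact (natDegree_le_of_dvd hf3 hg0).trans (by rw [hgdeg]; exact hPd)
    · intro i
      have := factor_height g f hg0 hf3 d (by rw [hgdeg]; exact hPd) (C1 * x ^ 2) hgcoef i
      calc |(f.coeff i : ℝ)| ≤ 2 ^ d * ((d + 1) * (C1 * x ^ 2)) := this
        _ = C2 * x ^ 2 := by rw [hC2]; ring
  by_cases hex : ∃ P : ℤ[X], 0 < P.natDegree ∧ P.natDegree ≤ d ∧ (∀ i, |(P.coeff i : ℝ)| ≤ x) ∧
      (∃ M : ℕ, N ≤ M ∧ x0 * (1 / x) < disc (aeval θ P) M)
  · obtain ⟨P0, h1, h2, h3, h4⟩ := hex
    obtain ⟨hxx0, q, p, f, hq, hf1, hf2, hf3, hf4, hf5, hf6⟩ := key P0 h1 h2 h3 h4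
    have hBx : 1 ≤ C2 * x ^ 2 := by
      have : 1 ≤ x ^ 2 := one_le_pow₀ hx1
      nlinarith
    have hd1 : 1 ≤ d := by omega
    refine ⟨f, hf1, ?_, ?_⟩
    · by_contra hlt
      have hdeg1 : f.natDegree = 1 := by omega
      have hform : f = C (f.coeff 1) * X + C (f.coeff 0) := eq_X_add_C_of_natDegree_le_one (by omega)
      have ha : f.coeff 1 ≠ 0 := by
        have : f.leadingCoeff ≠ 0 := leadingCoeff_ne_zero.2 hf1.ne_zero
        rwa [leadingCoeff, hdeg1] at this
      set a := f.coeff 1 with haa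
      set b := f.coeff 0 with hbb
      have hval : aeval θ f = a * θ + b := by
        rw [hform]
        simp only [map_add, map_mul, aeval_C, aeval_X, algebraMap_int_eq, Int.coe_castRingHom]
      have habs : (0 : ℝ) < |(a : ℝ)| := abs_pos.2 (by exact_mod_cast ha)
      have ha1 : (1 : ℝ) ≤ |(a : ℝ)| := by
        have : (1 : ℤ) ≤ |a| := Int.one_le_abs ha
        exact_mod_cast this
      have hmeas := hθ a.natAbs (-(a.sign * b)) (Int.natAbs_pos.2 ha)
      have hnat : ((a.natAbs : ℕ) : ℝ) = |(a : ℝ)| := by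
        rw [Nat.cast_natAbs, Int.cast_abs]
      rw [hnat] at hmeas
      have e1 : |(a : ℝ)| * abs (θ - ((-(a.sign * b) : ℤ) : ℝ) / |(a : ℝ)|) = |aeval θ f| := by
        rw [hval, ← abs_of_pos habs, ← abs_mul, abs_of_pos habs]
        have e2 : |(a : ℝ)| * (θ - ((-(a.sign * b) : ℤ) : ℝ) / |(a : ℝ)|) =
            |(a : ℝ)| * θ + a.sign * b := by
          field_simp
          push_cast
          ring
        rw [e2]
        rcases lt_or_gt_of_ne ha with h | h
        · have h' : |(a : ℝ)| = -(a : ℝ) := abs_of_neg (by exact_mod_cast h)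
          rw [Int.sign_eq_neg_one_of_neg h, h', ← abs_neg]
          congr 1
          push_cast
          ring
        · have h' : |(a : ℝ)| = (a : ℝ) := abs_of_pos (by exact_mod_cast h)
          rw [Int.sign_eq_one_of_pos h, h']
          push_cast
          rw [one_mul]
      have e3 : abs (θ - ((-(a.sign * b) : ℤ) : ℝ) / |(a : ℝ)|) ≤ 1 / x ^ m := by
        refine le_trans ?_ (e1.le.trans hf6)
        exact le_mul_of_one_le_left (abs_nonneg _) ha1
      have e4 : |(a : ℝ)| ^ μ ≤ (C2 * x ^ 2) ^ μ := Real.rpow_le_rpow habs.le (hf5 1) hμ.le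
      have e5 : c ≤ (C2 * x ^ 2) ^ μ * (1 / x ^ m) :=
        hmeas.trans (mul_le_mul e4 e3 (abs_nonneg _) (by positivity))
      have e6 : (C2 * x ^ 2) ^ μ * x ≤ C2 ^ μ * x ^ m := by
        rw [Real.mul_rpow (by linarith) (by positivity), mul_assoc]
        apply mul_le_mul_of_nonneg_left _ (by positivity)
        rw [← Real.rpow_natCast x 2, ← Real.rpow_mul hxp.le, ← Real.rpow_natCast x m]
        nth_rewrite 2 [← Real.rpow_one x]
        rw [← Real.rpow_add hxp]
        apply Real.rpow_le_rpow_of_exponent_le hx1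
        push_cast
        have : (0 : ℝ) ≤ d := by positivity
        linarith
      have e7 : c * x ≤ C2 ^ μ := by
        have f1 : c * (x ^ m * x) ≤ C2 ^ μ * x ^ m := by
          calc c * (x ^ m * x) ≤ ((C2 * x ^ 2) ^ μ * (1 / x ^ m)) * (x ^ m * x) :=
                mul_le_mul_of_nonneg_right e5 (by positivity)
            _ = (C2 * x ^ 2) ^ μ * x := by field_simp
            _ ≤ _ := e6
        have f2 : 0 < x ^ m := by positivity
        nlinarith
      have e8 : C2 ^ μ / c < x := by linarith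
      rw [div_lt_iff₀ hc] at e8
      linarith
    · intro P hP0 hPd hPx hbad
      rw [← hx] at hPx
      rw [hxinv] at hbad
      obtain ⟨_, q', p', f', hq', g1, g2, g3, g4, g5, g6⟩ := key P hP0 hPd hPx hbad
      refine ⟨q', p', hq', ?_⟩
      have hass : Associated f f' := by
        refine assoc_of_small θ T hT1 hθT d (C2 * x ^ 2) (1 / x ^ m) hBx f f' hf1 g1 hf2 g2 hf3 g3
          hf5 g5 hf6 g6 ?_
        have e1 : (2 * (d : ℝ)) * (T ^ (2 * d) * (1 / x ^ m)) *
            ((2 * d).factorial * (C2 * x ^ 2) ^ (2 * d)) = C3 * x ^ (4 * d) / x ^ m := by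
          rw [hC3, mul_pow, ← pow_mul]
          have : 2 * (2 * d) = 4 * d := by ring
          rw [this]
          ring
        rw [e1, div_lt_one (by positivity)]
        calc C3 * x ^ (4 * d) < x * x ^ (4 * d) := by
              apply mul_lt_mul_of_pos_right _ (by positivity)
              have : 0 ≤ C2 ^ μ / c := by positivity
              linarith
          _ = x ^ (4 * d + 1) := by ring
          _ ≤ x ^ m := pow_le_pow_right₀ hx1 hm4
      exact hass.dvd.trans g4
  · refine ⟨cyclotomic 3 ℤ, cyclotomic.irreducible (by norm_num), ?_, ?_⟩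
    · rw [natDegree_cyclotomic]
      decide
    · intro P hP0 hPd hPx hbad
      rw [← hx] at hPx
      rw [hxinv] at hbad
      exact absurd ⟨P, hP0, hPd, hPx, hbad⟩ hex

end Pool.Agent.Q158.EqD
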