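import Mathlib
import Pool.Agent.Q158.EqD.MinPol

/-!
# Polynomials in two variables: substitution, heights of factors, small factors
-/

set_option autoImplicit false

namespace Pool.Agent.Q158.EqD
open Polynomial Polynomial.Bivariate

theorem coeff_swap (P : ℤ[X][Y]) (i j : ℕ) :
    ((Bivariate.swap P).coeff j).coeff i = (P.coeff i).coeff j := by
  induction P using Polynomial.induction_on' with
  | add p q hp hq =>
    rw [map_add, coeff_add, coeff_add, hp, hq, coeff_add, coeff_add]
  | monomial n a =>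
    induction a using Polynomial.induction_on' with
    | add p q hp hq =>
      rw [show monomial n (p + q) = monomial n p + monomial n q from map_add _ _ _, map_add,
        coeff_add, coeff_add, hp, hq, coeff_add, coeff_add]
    | monomial m r =>
      rw [Bivariate.swap_monomial_monomial]
      simp only [coeff_monomial]
      by_cases h1 : m = j <;> by_cases h2 : n = i <;> simp [h1, h2, coeff_monomial]

/-- The substitution `Y = X ^ D`. -/
noncomputable def kr (D : ℕ) : ℤ[X][Y] →+* ℤ[X] := evalRingHom (X ^ D)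

theorem kr_coeff (D : ℕ) (P : ℤ[X][Y]) (hP : ∀ i, (P.coeff i).natDegree < D) (i j : ℕ)
    (hj : j < D) : (kr D P).coeff (j + D * i) = (P.coeff i).coeff j := by
  have h0 : (kr D P) = ∑ k ∈ Finset.range (max (P.natDegree + 1) (i + 1)), P.coeff k * X ^ (D * k) := by
    unfold kr
    rw [coe_evalRingHom, eval_eq_sum_range' (lt_of_lt_of_le (Nat.lt_succ_self _) (le_max_left _ _))]
    apply Finset.sum_congr rfl
    intro k _
    rw [← pow_mul]
  rw [h0, finsetSum_coeff, Finset.sum_eq_single i]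
  · rw [coeff_mul_X_pow]
  · intro k _ hk
    rw [coeff_mul_X_pow']
    split_ifs with h
    · have hki : k < i := by
        rcases lt_or_gt_of_ne hk with h' | h'
        · exact h'
        · have : D * (i + 1) ≤ D * k := Nat.mul_le_mul_left D h'
          rw [mul_add, mul_one] at this
          omega
      apply coeff_eq_zero_of_natDegree_lt
      have : D * (k + 1) ≤ D * i := Nat.mul_le_mul_left D hki
      rw [mul_add, mul_one] at this
      have := hP k
      omega
    · rfl
  · intro h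
    exact absurd (Finset.mem_range.2 (lt_of_lt_of_le (Nat.lt_succ_self _) (le_max_right _ _))) h

theorem swap_natDegree_le (P : ℤ[X][Y]) (d : ℕ) :
    (Bivariate.swap P).natDegree ≤ d ↔ ∀ i, (P.coeff i).natDegree ≤ d := by
  constructor
  · intro h i
    rw [natDegree_le_iff_coeff_eq_zero]
    intro j hj
    rw [← coeff_swap, coeff_eq_zero_of_natDegree_lt (lt_of_le_of_lt h hj), coeff_zero]
  · intro h
    rw [natDegree_le_iff_coeff_eq_zero]
    intro j hj
    ext i
    rw [coeff_swap, coeff_zero]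
    exact coeff_eq_zero_of_natDegree_lt (lt_of_le_of_lt (h i) hj)

theorem swap_dvd {f g : ℤ[X][Y]} (h : f ∣ g) : Bivariate.swap f ∣ Bivariate.swap g := by
  obtain ⟨k, rfl⟩ := h
  exact ⟨Bivariate.swap k, map_mul _ _ _⟩

theorem swap_ne_zero {f : ℤ[X][Y]} (h : f ≠ 0) : Bivariate.swap f ≠ 0 := by
  intro h0
  exact h ((map_eq_zero_iff _ Bivariate.swap.injective).1 h0)

theorem factor_height2 (G f : ℤ[X][Y]) (hG : G ≠ 0) (hfG : f ∣ G) (d : ℕ) (h1 : G.natDegree ≤ d)
    (h2 : ∀ i, (G.coeff i).natDegree ≤ d) (A : ℝ) (hA : ∀ i j, |((G.coeff i).coeff j : ℝ)| ≤ A) :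
    f.natDegree ≤ d ∧ (∀ i, (f.coeff i).natDegree ≤ d) ∧
      ∀ i j, |((f.coeff i).coeff j : ℝ)| ≤ 2 ^ ((d + 1) ^ 2) * ((((d + 1) ^ 2 : ℕ) + 1) * A) := by
  have hf1 : f.natDegree ≤ d := (natDegree_le_of_dvd hfG hG).trans h1
  have hf2 : ∀ i, (f.coeff i).natDegree ≤ d := by
    rw [← swap_natDegree_le]
    exact (natDegree_le_of_dvd (swap_dvd hfG) (swap_ne_zero hG)).trans
      ((swap_natDegree_le G d).2 h2)
  refine ⟨hf1, hf2, ?_⟩
  have hA0 : 0 ≤ A := (abs_nonneg _).trans (hA 0 0)
  have hfl : ∀ i, (f.coeff i).natDegree < d + 1 := fun i => Nat.lt_succ_of_le (hf2 i)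
  have hGl : ∀ i, (G.coeff i).natDegree < d + 1 := fun i => Nat.lt_succ_of_le (h2 i)
  have hkcoef : ∀ n, (kr (d + 1) G).coeff n = (G.coeff (n / (d + 1))).coeff (n % (d + 1)) := by
    intro n
    rw [← kr_coeff (d + 1) G hGl (n / (d + 1)) (n % (d + 1)) (Nat.mod_lt _ (by omega)),
      Nat.mod_add_div]
  have hkG0 : kr (d + 1) G ≠ 0 := by
    intro h0
    apply hG
    ext i j
    by_cases hj : j < d + 1
    · rw [← kr_coeff (d + 1) G hGl i j hj, h0]
      simp
    · rw [coeff_eq_zero_of_natDegree_lt (by have := hGl i; omega)]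
      simp
  have hkdeg : (kr (d + 1) G).natDegree ≤ (d + 1) ^ 2 := by
    rw [natDegree_le_iff_coeff_eq_zero]
    intro n hn
    rw [hkcoef]
    have : d + 1 ≤ n / (d + 1) := by
      rw [Nat.le_div_iff_mul_le (by omega)]
      nlinarith
    rw [coeff_eq_zero_of_natDegree_lt (p := G) (by omega), coeff_zero]
  intro i j
  by_cases hj : j < d + 1
  · rw [← kr_coeff (d + 1) f hfl i j hj]
    have := factor_height (kr (d + 1) G) (kr (d + 1) f) hkG0 (map_dvd _ hfG) ((d + 1) ^ 2) hkdeg A
      (fun n => by rw [hkcoef]; exact hA _ _) (j + (d + 1) * i)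
    exact_mod_cast this
  · rw [coeff_eq_zero_of_natDegree_lt (by have := hfl i; omega)]
    simp only [Int.cast_zero, abs_zero]
    positivity

/-- The value `P(x, t)` -/
noncomputable def ev (x t : ℝ) : ℤ[X][Y] →+* ℝ := eval₂RingHom (eval₂RingHom (Int.castRingHom ℝ) x) t

/-- the sum of the two degrees -/
noncomputable def wt (P : ℤ[X][Y]) : ℕ := P.natDegree + (Bivariate.swap P).natDegree

theorem wt_mul {P Q : ℤ[X][Y]} (hP : P ≠ 0) (hQ : Q ≠ 0) : wt (P * Q) = wt P + wt Q := by
  unfold wt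
  rw [natDegree_mul hP hQ, map_mul, natDegree_mul (swap_ne_zero hP) (swap_ne_zero hQ)]
  ring

theorem eq_C_of_wt {P : ℤ[X][Y]} (h : wt P = 0) : P = C (C ((P.coeff 0).coeff 0)) := by
  unfold wt at h
  have h1 : P.natDegree = 0 := by omega
  have h2 : (Bivariate.swap P).natDegree = 0 := by omega
  have h3 : P = C (P.coeff 0) := eq_C_of_natDegree_eq_zero h1
  have h4 : (P.coeff 0).natDegree = 0 := by
    have := (swap_natDegree_le P 0).1 h2.le 0
    omega
  have h5 : P.coeff 0 = C ((P.coeff 0).coeff 0) := eq_C_of_natDegree_eq_zero h4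
  rw [← h5]
  exact h3

theorem ev_CC (x t : ℝ) (n : ℤ) : ev x t (C (C n)) = n := by
  unfold ev
  rw [coe_eval₂RingHom, eval₂_C, coe_eval₂RingHom, eval₂_C]
  rfl

theorem ev_C (x t : ℝ) (p : ℤ[X]) : ev x t (C p) = aeval x p := by
  unfold ev
  rw [coe_eval₂RingHom, eval₂_C]
  rfl

theorem small_factor2 (x t ε : ℝ) (hε0 : 0 < ε) (hε1 : ε ≤ 1) (g : ℤ[X][Y]) (hg : g ≠ 0)
    (hall : ∀ f : ℤ[X][Y], Irreducible f → 0 < wt f → f ∣ g → ε < |ev x t f|) :
    ε ^ wt g ≤ |ev x t g| := by
  induction g using WfDvdMonoid.induction_on_irreducible with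
  | zero => exact absurd rfl hg
  | unit u hu =>
    obtain ⟨r, hr, rfl⟩ := Polynomial.isUnit_iff.1 hu
    obtain ⟨s, hs, rfl⟩ := Polynomial.isUnit_iff.1 hr
    have h1 : |ev x t (C (C s))| = 1 := by
      rw [ev_CC]
      rcases Int.isUnit_iff.1 hs with h | h <;> simp [h]
    rw [h1]
    exact pow_le_one₀ hε0.le hε1
  | mul a i ha hi ih =>
    have h1 := ih ha (fun f hf hd hdvd => hall f hf hd (Dvd.dvd.mul_left hdvd i))
    rw [wt_mul hi.ne_zero ha, map_mul, abs_mul, pow_add]
    refine mul_le_mul ?_ h1 (by positivity) (abs_nonneg _)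
    by_cases hd : 0 < wt i
    · calc ε ^ wt i ≤ ε ^ 1 := pow_le_pow_of_le_one hε0.le hε1 hd
        _ ≤ |ev x t i| := by
          rw [pow_one]
          exact (hall i hi hd (Dvd.intro _ rfl)).le
    · have h0 : wt i = 0 := by omega
      rw [h0, pow_zero]
      have h2 := eq_C_of_wt h0
      have h3 : (i.coeff 0).coeff 0 ≠ 0 := by
        intro h
        rw [h, C_0, C_0] at h2
        exact hi.ne_zero h2
      rw [h2, ev_CC]
      have : (1 : ℤ) ≤ |(i.coeff 0).coeff 0| := Int.one_le_abs h3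
      exact_mod_cast this

end Pool.Agent.Q158.EqD
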