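import Mathlib
import Pool.Agent.Q158.EqD.Disc
import Pool.Agent.W47.LC.EBound
set_option autoImplicit false

/-!
# Two numbers with a linear relation to `e`
-/

namespace Pool.Agent.Q158.EqD
open Real

/-- if `A u + B v = K e + l` then the discrepancies of the multiples of `u` and of `v` are not both
large -/
theorem lin_aux (u v : ℝ) (A B K l : ℤ) (hK : K ≠ 0) (huv : A * u + B * v = K * exp 1 + l)
    (N N1 N2 : ℕ) (hN : 0 < N) (hN1 : N ≤ N1) (hN2 : N ≤ N2) (δ δ' : ℝ) (hδ : 0 < δ) (hδ' : 0 < δ')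
    (hu : δ < disc u N1) (hv : δ' < disc v N2) :
    N * (δ * δ') ^ 2 ≤ 27648000 * |(K : ℝ)| * (|(A : ℝ)| + |(B : ℝ)|) *
      (1 + log (144 * |(K : ℝ)| / (δ * δ'))) := by
  obtain ⟨r, hr1, hr2'⟩ := approx u N1 (by omega) δ hδ hu
  obtain ⟨s, hs1, hs2'⟩ := approx v N2 (by omega) δ' hδ' hv
  have hNR : (0 : ℝ) < N := by exact_mod_cast hN
  have hN1R : (N : ℝ) ≤ N1 := by exact_mod_cast hN1
  have hN2R : (N : ℝ) ≤ N2 := by exact_mod_cast hN2
  have hrd : (0 : ℝ) < r.den := by exact_mod_cast r.den_pos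
  have hsd : (0 : ℝ) < s.den := by exact_mod_cast s.den_pos
  have hr2 : |u - r| ≤ 16 / (δ * N * r.den) := by
    refine hr2'.trans ?_
    apply div_le_div_of_nonneg_left (by norm_num) (by positivity)
    gcongr
  have hs2 : |v - s| ≤ 16 / (δ' * N * s.den) := by
    refine hs2'.trans ?_
    apply div_le_div_of_nonneg_left (by norm_num) (by positivity)
    gcongr
  have hq : (1 : ℝ) ≤ r.den := by exact_mod_cast r.den_pos
  have hs : (1 : ℝ) ≤ s.den := by exact_mod_cast s.den_pos
  have hr : (r : ℝ) = r.num / r.den := by exact_mod_cast (Rat.num_div_den r).symm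
  have hs' : (s : ℝ) = s.num / s.den := by exact_mod_cast (Rat.num_div_den s).symm
  -- the integer relation
  set q := r.den with hqd
  set w := s.den with hwd
  set P : ℤ := A * r.num * w + B * s.num * q - l * q * w with hP
  set k : ℕ := K.natAbs with hk
  have hk1 : 1 ≤ k := Int.natAbs_pos.2 hK
  have hkR : (k : ℝ) = |(K : ℝ)| := by rw [hk, Nat.cast_natAbs]; simp
  have hk1R : (1 : ℝ) ≤ |(K : ℝ)| := by rw [← hkR]; exact_mod_cast hk1
  have hval : |(K : ℝ) * q * w * exp 1 - P| ≤
      16 / N * (|(A : ℝ)| * w / δ + |(B : ℝ)| * q / δ') := by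
    have e1 : (K : ℝ) * q * w * exp 1 - P = (A * (u - r) + B * (v - s)) * (q * w) := by
      have h1 : (K : ℝ) * exp 1 = A * u + B * v - l := by linarith
      have h2 : (K : ℝ) * q * w * exp 1 = (K * exp 1) * (q * w) := by ring
      rw [h2, h1, hP, hr, hs']
      push_cast
      field_simp
      ring
    rw [e1, abs_mul, abs_of_pos (by positivity : (0 : ℝ) < q * w)]
    have h3 : |A * (u - r) + B * (v - s)| ≤
        |(A : ℝ)| * (16 / (δ * N * q)) + |(B : ℝ)| * (16 / (δ' * N * w)) := by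
      refine (abs_add_le _ _).trans ?_
      rw [abs_mul, abs_mul]
      gcongr
    calc |A * (u - r) + B * (v - s)| * (q * w)
        ≤ (|(A : ℝ)| * (16 / (δ * N * q)) + |(B : ℝ)| * (16 / (δ' * N * w))) * (q * w) := by
          gcongr
      _ = _ := by
          field_simp
  obtain ⟨P', hP'⟩ : ∃ P' : ℤ, |((k * q * w : ℕ) : ℝ) * exp 1 - P'| =
      |(K : ℝ) * q * w * exp 1 - P| := by
    rcases le_total 0 K with h | h
    · refine ⟨P, ?_⟩
      have h1 : (0 : ℝ) ≤ K := by exact_mod_cast h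
      push_cast
      rw [hkR, abs_of_nonneg h1]
    · refine ⟨-P, ?_⟩
      have h1 : (K : ℝ) ≤ 0 := by exact_mod_cast h
      push_cast
      rw [hkR, abs_of_nonpos h1, ← abs_neg]
      congr 1
      ring
  have hb := W47.LC.eBound (k * q * w) (by
    have := r.den_pos
    have := s.den_pos
    exact Nat.mul_pos (Nat.mul_pos hk1 r.den_pos) s.den_pos) P'
  rw [hP', pow_one] at hb
  have hqw : ((k * q * w : ℕ) : ℝ) ≤ 144 * |(K : ℝ)| / (δ * δ') := by
    push_cast
    rw [hkR]
    have h1 : (q : ℝ) * w ≤ (12 / δ) * (12 / δ') := by gcongr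
    calc |(K : ℝ)| * q * w = |(K : ℝ)| * (q * w) := by ring
      _ ≤ |(K : ℝ)| * ((12 / δ) * (12 / δ')) := by gcongr
      _ = _ := by field_simp; norm_num
  have hone : (1 : ℝ) ≤ ((k * q * w : ℕ) : ℝ) := by
    push_cast
    rw [hkR]
    have : (1 : ℝ) ≤ |(K : ℝ)| * q := by nlinarith
    nlinarith
  set R : ℝ := 144 * |(K : ℝ)| / (δ * δ') with hR
  have hlog : log ((k * q * w : ℕ) : ℝ) ≤ log R := log_le_log (by linarith) hqw
  have hlog0 : 0 ≤ log ((k * q * w : ℕ) : ℝ) := log_nonneg hone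
  have hw12 : (w : ℝ) / δ ≤ 12 / (δ * δ') := by
    rw [div_le_div_iff₀ hδ (by positivity)]
    rw [le_div_iff₀ hδ'] at hs1
    nlinarith
  have hq12 : (q : ℝ) / δ' ≤ 12 / (δ * δ') := by
    rw [div_le_div_iff₀ hδ' (by positivity)]
    rw [le_div_iff₀ hδ] at hr1
    nlinarith
  have hAB : |(A : ℝ)| * w / δ + |(B : ℝ)| * q / δ' ≤ (|(A : ℝ)| + |(B : ℝ)|) * (12 / (δ * δ')) := by
    have h1 : |(A : ℝ)| * w / δ ≤ |(A : ℝ)| * (12 / (δ * δ')) := by
      rw [mul_div_assoc]
      exact mul_le_mul_of_nonneg_left hw12 (abs_nonneg _)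
    have h2 : |(B : ℝ)| * q / δ' ≤ |(B : ℝ)| * (12 / (δ * δ')) := by
      rw [mul_div_assoc]
      exact mul_le_mul_of_nonneg_left hq12 (abs_nonneg _)
    linarith
  have hfin : (1 / 1000 : ℝ) ≤ R * (1 + log R) *
      (16 / N * ((|(A : ℝ)| + |(B : ℝ)|) * (12 / (δ * δ')))) := by
    refine hb.trans ?_
    apply mul_le_mul _ (hval.trans (by gcongr)) (abs_nonneg _) (by
      have : 0 < R := by positivity
      have : 0 ≤ log R := hlog0.trans hlog
      positivity)
    apply mul_le_mul hqw (by linarith) (by linarith) (by positivity)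
  have hfin2 : (1 / 1000 : ℝ) * (N * (δ * δ') ^ 2) ≤
      27648 * |(K : ℝ)| * (|(A : ℝ)| + |(B : ℝ)|) * (1 + log R) := by
    have h1 := mul_le_mul_of_nonneg_right hfin (by positivity : (0 : ℝ) ≤ N * (δ * δ') ^ 2)
    refine h1.trans (le_of_eq ?_)
    rw [hR]
    field_simp
    ring
  linarith

/-- **Product inequality.** -/
theorem lin (u v : ℝ) (A B K l : ℤ) (hK : K ≠ 0) (huv : A * u + B * v = K * exp 1 + l)
    (N N1 N2 : ℕ) (hN : 0 < N) (hN1 : N ≤ N1) (hN2 : N ≤ N2) :
    disc u N1 * disc v N2 ≤ 60000 * √(|(K : ℝ)| * (|(A : ℝ)| + |(B : ℝ)|) *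
      (1 + log (|(K : ℝ)| * N)) / N) := by
  have hNR : (1 : ℝ) ≤ N := by exact_mod_cast hN
  have hK1 : (1 : ℝ) ≤ |(K : ℝ)| := by exact_mod_cast Int.one_le_abs hK
  have hAB : (1 : ℝ) ≤ |(A : ℝ)| + |(B : ℝ)| := by
    by_cases hA : A = 0
    · by_cases hB : B = 0
      · exfalso
        subst hA; subst hB
        have hb := W47.LC.eBound K.natAbs (Int.natAbs_pos.2 hK) (-(K.sign * l))
        have h0 : (K : ℝ) * exp 1 = -l := by
          have : (0 : ℝ) = K * exp 1 + l := by simpa using huv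
          linarith
        have h1 : (K.natAbs : ℝ) * exp 1 - ((-(K.sign * l) : ℤ) : ℝ) = 0 := by
          have h2 : ((K.natAbs : ℤ) : ℝ) = K.sign * K := by
            rw [← Int.cast_mul]
            exact_mod_cast (Int.sign_mul_self_eq_natAbs K).symm
          have h3 : (K.natAbs : ℝ) = ((K.natAbs : ℤ) : ℝ) := by simp
          rw [h3, h2]
          push_cast
          linear_combination (K.sign : ℝ) * h0
        rw [h1] at hb
        norm_num at hb
      · have := Int.one_le_abs hB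
        have h2 : (1 : ℝ) ≤ |(B : ℝ)| := by exact_mod_cast this
        have := abs_nonneg (A : ℝ)
        linarith
    · have := Int.one_le_abs hA
      have h2 : (1 : ℝ) ≤ |(A : ℝ)| := by exact_mod_cast this
      have := abs_nonneg (B : ℝ)
      linarith
  have hKN : 1 ≤ |(K : ℝ)| * N := by nlinarith
  have hlogKN : 0 ≤ log (|(K : ℝ)| * N) := log_nonneg hKN
  set D := disc u N1 with hD
  set D' := disc v N2 with hD'
  have hD0 : 0 ≤ D := disc_nonneg u N1
  have hD0' : 0 ≤ D' := disc_nonneg v N2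
  set X : ℝ := |(K : ℝ)| * (|(A : ℝ)| + |(B : ℝ)|) with hX
  have hX1 : 1 ≤ X := by rw [hX]; nlinarith
  set Y : ℝ := X * (1 + log (|(K : ℝ)| * N)) / N with hY
  have hY0 : 0 < Y := by positivity
  by_cases hsmall : D * D' ≤ 1 / √N
  · refine hsmall.trans ?_
    have h1 : 1 / √(N : ℝ) = √(1 / N) := by rw [Real.sqrt_div zero_le_one, Real.sqrt_one]
    rw [h1]
    have h2 : √(1 / (N : ℝ)) ≤ √Y := by
      apply Real.sqrt_le_sqrt
      rw [hY]
      apply div_le_div_of_nonneg_right _ (by positivity)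
      nlinarith
    have h3 := Real.sqrt_nonneg Y
    linarith
  · push Not at hsmall
    have hsN : 0 < 1 / √(N : ℝ) := by positivity
    have hDD : 0 < D * D' := hsN.trans hsmall
    have hDp : 0 < D := by
      rcases eq_or_lt_of_le hD0 with h | h
      · rw [← h, zero_mul] at hDD; exact absurd hDD (lt_irrefl _)
      · exact h
    have hDp' : 0 < D' := by
      rcases eq_or_lt_of_le hD0' with h | h
      · rw [← h, mul_zero] at hDD; exact absurd hDD (lt_irrefl _)
      · exact h
    have h1 := lin_aux u v A B K l hK huv N N1 N2 hN hN1 hN2 (D / 2) (D' / 2) (by positivity)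
      (by positivity) (by linarith) (by linarith)
    have h2 : (D / 2) * (D' / 2) = D * D' / 4 := by ring
    rw [h2] at h1
    have h3 : 144 * |(K : ℝ)| / (D * D' / 4) ≤ 576 * (|(K : ℝ)| * N) := by
      have h4 : 1 / (D * D') ≤ N := by
        rw [div_le_iff₀ hDD]
        have h5 : 1 / √(N : ℝ) * N ≤ D * D' * N := by
          apply mul_le_mul_of_nonneg_right hsmall.le (by positivity)
        have h6 : 1 / √(N : ℝ) * N = √N := by
          rw [one_div, inv_mul_eq_div, Real.div_sqrt]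
        have h7 : 1 ≤ √(N : ℝ) := by
          rw [Real.one_le_sqrt]; exact hNR
        rw [h6] at h5
        linarith
      calc 144 * |(K : ℝ)| / (D * D' / 4) = 576 * |(K : ℝ)| * (1 / (D * D')) := by
            field_simp
            norm_num
        _ ≤ 576 * |(K : ℝ)| * N := by gcongr
        _ = _ := by ring
    have h8 : log (144 * |(K : ℝ)| / (D * D' / 4)) ≤ 7 + log (|(K : ℝ)| * N) := by
      refine (log_le_log (by positivity) h3).trans ?_
      rw [log_mul (by norm_num) (by linarith)]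
      have : log 576 ≤ 7 := by
        rw [Real.log_le_iff_le_exp (by norm_num)]
        have he := Real.exp_one_gt_d9
        have : (2.7182818283 : ℝ) ^ 7 ≤ exp 7 := by
          calc (2.7182818283 : ℝ) ^ 7 ≤ (exp 1) ^ 7 := by gcongr
            _ = exp 7 := by rw [← Real.exp_nat_mul]; norm_num
        have h9 : (576 : ℝ) ≤ (2.7182818283 : ℝ) ^ 7 := by norm_num
        linarith
      linarith
    have h9 : 1 + log (144 * |(K : ℝ)| / (D * D' / 4)) ≤ 8 * (1 + log (|(K : ℝ)| * N)) := by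
      linarith
    have h10 : N * (D * D' / 4) ^ 2 ≤ 27648000 * X * (8 * (1 + log (|(K : ℝ)| * N))) := by
      refine h1.trans ?_
      have : 27648000 * |(K : ℝ)| * (|(A : ℝ)| + |(B : ℝ)|) = 27648000 * X := by rw [hX]; ring
      rw [this]
      exact mul_le_mul_of_nonneg_left h9 (by positivity)
    have h11 : (D * D') ^ 2 ≤ 60000 ^ 2 * Y := by
      have h12 : (D * D') ^ 2 ≤ 16 * 27648000 * 8 * (X * (1 + log (|(K : ℝ)| * N))) / N := by
        rw [le_div_iff₀ (by positivity)]
        nlinarith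
      refine h12.trans ?_
      have h13 : 16 * 27648000 * 8 * (X * (1 + log (|(K : ℝ)| * N))) / N =
          (16 * 27648000 * 8) * Y := by rw [hY]; ring
      rw [h13]
      apply mul_le_mul_of_nonneg_right _ hY0.le
      norm_num
    have h14 : D * D' ≤ √(60000 ^ 2 * Y) := Real.le_sqrt_of_sq_le h11
    rw [Real.sqrt_mul (by norm_num), Real.sqrt_sq (by norm_num)] at h14
    exact h14

end Pool.Agent.Q158.EqD
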