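import Mathlib
import Pool.Agent.Q158.EqD.Lin
set_option autoImplicit false

/-!
# The product inequality for `t + e`, `t - e` is sharp up to a logarithm
-/

namespace Pool.Agent.Q158.EqD
open Real

/-- multiples of a number close to zero are badly distributed -/
theorem disc_small (x : ℝ) (N : ℕ) (hN : 0 < N) (hx : N * |x| ≤ 1 / 4) : 1 / 4 ≤ disc x N := by
  have hcnt : cnt x N (3 / 8) (5 / 8) = 0 := by
    unfold cnt
    rw [Finset.card_eq_zero, Finset.filter_eq_empty_iff]
    intro n hn h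
    rw [Finset.mem_Icc] at hn
    have h1 : |(n : ℝ) * x| ≤ 1 / 4 := by
      rw [abs_mul, abs_of_nonneg (by positivity : (0 : ℝ) ≤ n)]
      have : (n : ℝ) ≤ N := by exact_mod_cast hn.2
      calc (n : ℝ) * |x| ≤ N * |x| := by gcongr
        _ ≤ 1 / 4 := hx
    have h2 := abs_le.1 h1
    obtain ⟨h3, h4⟩ := h
    have h5 := Int.self_sub_floor ((n : ℝ) * x)
    have h6 : (⌊(n : ℝ) * x⌋ : ℝ) < 0 := by linarith
    have h7 : (-1 : ℝ) < ⌊(n : ℝ) * x⌋ := by linarith
    have h8 : ⌊(n : ℝ) * x⌋ < 0 := by exact_mod_cast h6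
    have h9 : -1 < ⌊(n : ℝ) * x⌋ := by exact_mod_cast h7
    omega
  have h := le_disc x N (3 / 8) (5 / 8) (by norm_num) (by norm_num) (by norm_num)
  rw [hcnt] at h
  norm_num at h
  linarith

/-- multiples of a rational number -/
theorem disc_rat (r : ℚ) (N : ℕ) : 1 / (3 * r.den) ≤ disc (r : ℝ) N := by
  set q := r.den with hq
  have hqR : (1 : ℝ) ≤ q := by exact_mod_cast r.den_pos
  have hcnt : cnt (r : ℝ) N (1 / (3 * q)) (2 / (3 * q)) = 0 := by
    unfold cnt
    rw [Finset.card_eq_zero, Finset.filter_eq_empty_iff]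
    intro n hn h
    obtain ⟨h3, h4⟩ := h
    have hr : (r : ℝ) = r.num / q := by exact_mod_cast (Rat.num_div_den r).symm
    have h5 : Int.fract ((n : ℝ) * r) * q = ((n * r.num - ⌊(n : ℝ) * r⌋ * q : ℤ) : ℝ) := by
      rw [← Int.self_sub_floor]
      push_cast
      rw [sub_mul]
      congr 1
      rw [hr]
      field_simp
    have h6 : 1 / 3 ≤ Int.fract ((n : ℝ) * r) * q := by
      have := mul_le_mul_of_nonneg_right h3 (by linarith : (0 : ℝ) ≤ q)
      have h7 : 1 / (3 * (q : ℝ)) * q = 1 / 3 := by field_simp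
      linarith
    have h8 : Int.fract ((n : ℝ) * r) * q < 2 / 3 := by
      have := mul_lt_mul_of_pos_right h4 (by linarith : (0 : ℝ) < q)
      have h7 : 2 / (3 * (q : ℝ)) * q = 2 / 3 := by field_simp
      linarith
    rw [h5] at h6 h8
    set m : ℤ := n * r.num - ⌊(n : ℝ) * r⌋ * q with hm
    have h9 : (0 : ℝ) < m := by linarith
    have h10 : (m : ℝ) < 1 := by linarith
    have h11 : 0 < m := by exact_mod_cast h9
    have h12 : m < 1 := by exact_mod_cast h10
    omega
  have h1 : (2 : ℝ) / (3 * q) ≤ 1 := by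
    rw [div_le_one (by positivity)]; linarith
  have h := le_disc (r : ℝ) N (1 / (3 * q)) (2 / (3 * q)) (by positivity)
    (by apply div_le_div_of_nonneg_right _ (by positivity); norm_num) h1
  rw [hcnt] at h
  have h2 : |((0 : ℕ) : ℝ) / N - (2 / (3 * q) - 1 / (3 * q))| = 1 / (3 * (q : ℝ)) := by
    have : ((0 : ℕ) : ℝ) / N - (2 / (3 * q) - 1 / (3 * (q : ℝ))) = -(1 / (3 * (q : ℝ))) := by
      push_cast
      ring
    rw [this, abs_neg, abs_of_pos (by positivity)]
  rw [h2] at h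
  exact h

theorem sharp (N : ℕ) (hN : 0 < N) : ∃ t : ℝ,
    1 / (4000 * √(N * (1 + log N))) ≤ disc (t + exp 1) N * disc (t - exp 1) N := by
  have hNR : (1 : ℝ) ≤ N := by exact_mod_cast hN
  have hlog : 0 ≤ log (N : ℝ) := log_nonneg hNR
  set W : ℝ := √(N * (1 + log N)) with hW
  have hW1 : 1 ≤ W := by
    rw [hW, Real.one_le_sqrt]
    nlinarith
  have hWsq : W ^ 2 = N * (1 + log N) := Real.sq_sqrt (by positivity)
  set n : ℕ := ⌈300 * W⌉₊ with hn
  have hn1 : 300 * W ≤ n := Nat.le_ceil _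
  have hn2 : (n : ℝ) < 300 * W + 1 := Nat.ceil_lt_add_one (by positivity)
  have hn0 : 0 < n := by
    have : (0 : ℝ) < n := by linarith
    exact_mod_cast this
  obtain ⟨r, hr1, hr2⟩ := Real.exists_rat_abs_sub_le_and_den_le (2 * exp 1) hn0
  set s := r.den with hs
  have hsR : (1 : ℝ) ≤ s := by exact_mod_cast r.den_pos
  have hsn : (s : ℝ) ≤ n := by exact_mod_cast hr2
  have hr : (r : ℝ) = r.num / s := by exact_mod_cast (Rat.num_div_den r).symm
  -- the denominator is not small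
  have hb := W47.LC.eBound (2 * s) (Nat.mul_pos two_pos r.den_pos) r.num
  rw [pow_one] at hb
  push_cast at hb
  have h1 : |2 * (s : ℝ) * exp 1 - r.num| ≤ 1 / (n + 1) := by
    have e1 : 2 * (s : ℝ) * exp 1 - r.num = s * (2 * exp 1 - r) := by
      rw [hr]; field_simp
    rw [e1, abs_mul, abs_of_pos (by linarith)]
    calc (s : ℝ) * |2 * exp 1 - r| ≤ s * (1 / ((n + 1) * s)) := by gcongr
      _ = 1 / (n + 1) := by field_simp
  have hlog2s : 0 ≤ log (2 * (s : ℝ)) := log_nonneg (by linarith)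
  have h2 : (1 / 1000 : ℝ) ≤ 2 * s * (1 + log (2 * s)) * (1 / (n + 1)) := by
    refine hb.trans ?_
    gcongr
  have h3 : (n : ℝ) + 1 ≤ 2000 * s * (1 + log (2 * s)) := by
    rw [mul_one_div, le_div_iff₀ (by positivity)] at h2
    linarith
  have h4 : log (2 * (s : ℝ)) ≤ 6.5 + 2 * log N := by
    have h5 : 2 * (s : ℝ) ≤ 602 * (N * (1 + log N)) := by
      have h6 : W ≤ W ^ 2 := by nlinarith
      rw [← hWsq]
      nlinarith
    refine (log_le_log (by linarith) h5).trans ?_
    rw [log_mul (by norm_num) (by positivity), log_mul (by linarith) (by positivity)]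
    have h7 : log 602 ≤ 6.5 := by
      rw [Real.log_le_iff_le_exp (by norm_num)]
      have he := Real.exp_one_gt_d9
      have h8 : (2.7182818283 : ℝ) ^ 13 ≤ (exp 6.5) ^ 2 := by
        calc (2.7182818283 : ℝ) ^ 13 ≤ (exp 1) ^ 13 := by gcongr
          _ = (exp 6.5) ^ 2 := by rw [← Real.exp_nat_mul, ← Real.exp_nat_mul]; norm_num
      have h9 : (602 : ℝ) ^ 2 ≤ (2.7182818283 : ℝ) ^ 13 := by norm_num
      exact (pow_le_pow_iff_left₀ (by norm_num) (exp_pos _).le (by norm_num)).1 (h9.trans h8)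
    have h10 : log (1 + log (N : ℝ)) ≤ log N := by
      have := Real.log_le_sub_one_of_pos (x := 1 + log (N : ℝ)) (by positivity)
      linarith
    linarith
  have h5 : 1 + log (2 * (s : ℝ)) ≤ 8.5 * (1 + log N) := by linarith
  have h6 : (n : ℝ) + 1 ≤ 17000 * s * (1 + log N) := by
    calc (n : ℝ) + 1 ≤ 2000 * s * (1 + log (2 * s)) := h3
      _ ≤ 2000 * s * (8.5 * (1 + log N)) := by gcongr
      _ = _ := by ring
  have h7 : 4 * (N : ℝ) ≤ (n + 1) * s := by
    have h8 : (n : ℝ) + 1 ≤ 17000 * s * (1 + log N) := h6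
    have h9 : (300 * W) ^ 2 ≤ ((n : ℝ) + 1) * (n + 1) := by
      have : 300 * W ≤ (n : ℝ) + 1 := by linarith
      nlinarith
    have h10 : ((n : ℝ) + 1) * (n + 1) ≤ (n + 1) * (17000 * s * (1 + log N)) := by gcongr
    rw [mul_pow, hWsq] at h9
    have h11 : (5 * N) * (17000 * (1 + log (N : ℝ))) ≤ ((n + 1) * s) * (17000 * (1 + log N)) := by
      calc (5 * N) * (17000 * (1 + log (N : ℝ))) ≤ 300 ^ 2 * (N * (1 + log N)) := by nlinarith
        _ ≤ ((n : ℝ) + 1) * (n + 1) := h9
        _ ≤ (n + 1) * (17000 * s * (1 + log N)) := h10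
        _ = _ := by ring
    have h12 := le_of_mul_le_mul_right h11 (by positivity)
    linarith
  refine ⟨exp 1 - r, ?_⟩
  have e1 : exp 1 - (r : ℝ) + exp 1 = 2 * exp 1 - r := by ring
  have e2 : exp 1 - (r : ℝ) - exp 1 = ((-r : ℚ) : ℝ) := by push_cast; ring
  rw [e1, e2]
  have h8 : 1 / 4 ≤ disc (2 * exp 1 - r) N := by
    apply disc_small _ _ hN
    have h9 : |2 * exp 1 - (r : ℝ)| ≤ 1 / (4 * N) := by
      refine hr1.trans ?_
      apply one_div_le_one_div_of_le (by positivity) h7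
    calc (N : ℝ) * |2 * exp 1 - (r : ℝ)| ≤ N * (1 / (4 * N)) := by gcongr
      _ = 1 / 4 := by field_simp
  have h9 := disc_rat (-r) N
  rw [Rat.neg_den] at h9
  have h10 : 1 / (1000 * W) ≤ disc ((-r : ℚ) : ℝ) N := by
    refine le_trans ?_ h9
    apply one_div_le_one_div_of_le (by positivity)
    linarith
  calc 1 / (4000 * W) = 1 / 4 * (1 / (1000 * W)) := by
        field_simp
        norm_num
    _ ≤ _ := by
        apply mul_le_mul h8 h10 (by positivity)
        exact disc_nonneg _ _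

end Pool.Agent.Q158.EqD
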