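import Mathlib
import Pool.Agent.Q158.EqD.Sharp
set_option autoImplicit false

/-!
# The discrepancy tends to zero exactly for the irrational numbers
-/

namespace Pool.Agent.Q158.EqD
open Real Filter

theorem tendsto_of_irrational (u : ℝ) (hu : Irrational u) :
    Tendsto (fun N : ℕ => disc u N) atTop (nhds 0) := by
  rw [Metric.tendsto_atTop]
  by_contra hcon
  push Not at hcon
  obtain ⟨δ, hδ, hcon⟩ := hcon
  -- arbitrarily good approximations with bounded denominators
  set D : ℕ := ⌊12 / (δ / 2)⌋₊ with hD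
  set m : ℕ := D.factorial with hm
  have hm0 : (0 : ℝ) < m := by exact_mod_cast Nat.factorial_pos D
  have key : ∀ ε : ℝ, 0 < ε → |m * u - round (m * u)| ≤ ε := by
    intro ε hε
    obtain ⟨N0, hN0⟩ := exists_nat_gt (16 * m / ((δ / 2) * ε))
    obtain ⟨N, hN, hdN⟩ := hcon (N0 + 1)
    have hNpos : 0 < N := by omega
    have hNR : (0 : ℝ) < N := by exact_mod_cast hNpos
    have h1 : δ / 2 < disc u N := by
      have h2 : δ ≤ dist (disc u N) 0 := hdN
      rw [Real.dist_eq, sub_zero, abs_of_nonneg (disc_nonneg u N)] at h2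
      linarith
    obtain ⟨r, hr1, hr2⟩ := approx u N hNpos (δ / 2) (by positivity) h1
    have hrD : r.den ≤ D := Nat.le_floor hr1
    have hrdvd : r.den ∣ m := Nat.dvd_factorial r.den_pos hrD
    obtain ⟨k, hk⟩ := hrdvd
    have hd1 : (1 : ℝ) ≤ r.den := by exact_mod_cast r.den_pos
    have hint : (m : ℝ) * r = ((k * r.num : ℤ) : ℝ) := by
      have hr : (r : ℝ) = r.num / r.den := by exact_mod_cast (Rat.num_div_den r).symm
      rw [hr, hk]
      push_cast
      field_simp
    calc |m * u - round (m * u)| ≤ |m * u - ((k * r.num : ℤ) : ℝ)| := round_le _ _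
      _ = m * |u - r| := by
          rw [← hint, ← mul_sub, abs_mul, abs_of_pos hm0]
      _ ≤ m * (16 / (δ / 2 * N * r.den)) := by gcongr
      _ ≤ m * (16 / (δ / 2 * N)) := by
          apply mul_le_mul_of_nonneg_left _ hm0.le
          have h5 : 0 < δ / 2 * N := by positivity
          apply div_le_div_of_nonneg_left (by norm_num) h5
          nlinarith
      _ ≤ ε := by
          have h3 : 16 * m / ((δ / 2) * ε) < N := by
            have : (N0 : ℝ) < N := by exact_mod_cast (by omega : N0 < N)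
            linarith
          rw [div_lt_iff₀ (by positivity)] at h3
          rw [mul_div_assoc', div_le_iff₀ (by positivity)]
          nlinarith
  have h0 : |m * u - round (m * u)| = 0 :=
    le_antisymm (le_of_forall_pos_le_add (fun ε hε => by simpa using key ε hε)) (abs_nonneg _)
  have h1 : (m : ℝ) * u = round (m * u) := sub_eq_zero.1 (abs_eq_zero.1 h0)
  apply hu
  refine ⟨(round ((m : ℝ) * u) : ℚ) / m, ?_⟩
  push_cast
  rw [← h1]
  field_simp

theorem tendsto_iff (u : ℝ) : Tendsto (fun N : ℕ => disc u N) atTop (nhds 0) ↔ Irrational u := by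
  refine ⟨?_, tendsto_of_irrational u⟩
  rintro h ⟨r, rfl⟩
  have h1 : (0 : ℝ) < 1 / (3 * r.den) := by
    have : (0 : ℝ) < r.den := by exact_mod_cast r.den_pos
    positivity
  have h2 := ge_of_tendsto' h (fun N => disc_rat r N)
  linarith

/-- The relations with integral coefficients between `1`, `e`, `t` are trivial if and only if all
discrepancies tend to zero. -/
theorem criterion (t : ℝ) : (∀ a b c : ℤ, (a : ℝ) + b * exp 1 + c * t = 0 → a = 0 ∧ b = 0 ∧ c = 0) ↔
    ∀ x y : ℤ, (x ≠ 0 ∨ y ≠ 0) →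
      Tendsto (fun N : ℕ => disc (x * t + y * exp 1) N) atTop (nhds 0) := by
  constructor
  · intro h x y hxy
    rw [tendsto_iff]
    rintro ⟨r, hr⟩
    have hq : (r.den : ℝ) ≠ 0 := by exact_mod_cast r.den_nz
    have hr' : (r : ℝ) * r.den = r.num := by exact_mod_cast Rat.mul_den_eq_num r
    have h1 := h (-r.num) (r.den * y) (r.den * x) (by
      push_cast
      have : (r.num : ℝ) = (x * t + y * exp 1) * r.den := by rw [← hr, hr']
      rw [this]; ring)
    obtain ⟨_, h2, h3⟩ := h1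
    have hd : (r.den : ℤ) ≠ 0 := by exact_mod_cast r.den_nz
    rcases hxy with hx | hy
    · exact hx ((mul_eq_zero.1 h3).resolve_left hd)
    · exact hy ((mul_eq_zero.1 h2).resolve_left hd)
  · intro h a b c habc
    by_cases hbc : c ≠ 0 ∨ b ≠ 0
    · exfalso
      have h1 := (tendsto_iff _).1 (h c b hbc)
      apply h1
      refine ⟨((-a : ℤ) : ℚ), ?_⟩
      push_cast
      linarith
    · push Not at hbc
      obtain ⟨hc, hb⟩ := hbc
      subst hc; subst hb
      simp only [Int.cast_zero, zero_mul, add_zero] at habc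
      exact ⟨by exact_mod_cast habc, rfl, rfl⟩

/-- the product inequality for two directions -/
theorem directions (t : ℝ) (x y x' y' : ℤ) (hk : x' * y - x * y' ≠ 0) (N L M : ℕ) (hN : 0 < N)
    (hL : N ≤ L) (hM : N ≤ M) :
    disc (x * t + y * exp 1) L * disc (x' * t + y' * exp 1) M ≤
      60000 * √(|((x' * y - x * y' : ℤ) : ℝ)| * (|(x : ℝ)| + |(x' : ℝ)|) *
        (1 + log (|((x' * y - x * y' : ℤ) : ℝ)| * N)) / N) := by
  have h := lin (x * t + y * exp 1) (x' * t + y' * exp 1) x' (-x) (x' * y - x * y') 0 hk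
    (by push_cast; ring) N L M hN hL hM
  have e : |((-x : ℤ) : ℝ)| = |(x : ℝ)| := by push_cast; rw [abs_neg]
  rw [e, add_comm |(x' : ℝ)|] at h
  exact h

/-- the bad directions lie on one line -/
theorem line (t : ℝ) (N H : ℕ) (hN : 0 < N) (hH : 0 < H) (δ : ℝ) (hδ : 0 < δ)
    (h : 60000 * √(4 * H ^ 3 * (1 + log (2 * H ^ 2 * N)) / N) < δ ^ 2) :
    ∃ a b : ℤ, (a ≠ 0 ∨ b ≠ 0) ∧ ∀ x y : ℤ, |x| ≤ H → |y| ≤ H → ∀ M : ℕ, N ≤ M →
      δ ≤ disc (x * t + y * exp 1) M → a * x + b * y = 0 := by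
  have hNR : (1 : ℝ) ≤ N := by exact_mod_cast hN
  have hHR : (1 : ℝ) ≤ H := by exact_mod_cast hH
  -- two bad vectors are proportional
  have key : ∀ x y x' y' : ℤ, |x| ≤ H → |y| ≤ H → |x'| ≤ H → |y'| ≤ H → ∀ L M : ℕ, N ≤ L → N ≤ M →
      δ ≤ disc (x * t + y * exp 1) L → δ ≤ disc (x' * t + y' * exp 1) M →
      x' * y - x * y' = 0 := by
    intro x y x' y' hx hy hx' hy' L M hL hM h1 h2
    by_contra hk
    have h3 := directions t x y x' y' hk N L M hN hL hM
    have h4 : δ ^ 2 ≤ disc (x * t + y * exp 1) L * disc (x' * t + y' * exp 1) M := by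
      rw [sq]
      exact mul_le_mul h1 h2 hδ.le (disc_nonneg _ _)
    set k : ℝ := |((x' * y - x * y' : ℤ) : ℝ)| with hkdef
    have hk1 : 1 ≤ k := by
      rw [hkdef]
      exact_mod_cast Int.one_le_abs hk
    have hxR : |(x : ℝ)| ≤ H := by exact_mod_cast hx
    have hyR : |(y : ℝ)| ≤ H := by exact_mod_cast hy
    have hxR' : |(x' : ℝ)| ≤ H := by exact_mod_cast hx'
    have hyR' : |(y' : ℝ)| ≤ H := by exact_mod_cast hy'
    have hk2 : k ≤ 2 * H ^ 2 := by
      rw [hkdef]
      push_cast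
      calc |(x' : ℝ) * y - x * y'| ≤ |(x' : ℝ) * y| + |(x : ℝ) * y'| := abs_sub _ _
        _ = |(x' : ℝ)| * |(y : ℝ)| + |(x : ℝ)| * |(y' : ℝ)| := by rw [abs_mul, abs_mul]
        _ ≤ H * H + H * H := by gcongr
        _ = 2 * H ^ 2 := by ring
    have h5 : k * (|(x : ℝ)| + |(x' : ℝ)|) * (1 + log (k * N)) / N ≤
        4 * H ^ 3 * (1 + log (2 * H ^ 2 * N)) / N := by
      apply div_le_div_of_nonneg_right _ (by linarith)
      have h6 : log (k * N) ≤ log (2 * H ^ 2 * N) := by
        apply log_le_log (by positivity)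
        gcongr
      have h7 : 0 ≤ log (k * N) := log_nonneg (by nlinarith)
      have h8 : k * (|(x : ℝ)| + |(x' : ℝ)|) ≤ 4 * H ^ 3 := by
        calc k * (|(x : ℝ)| + |(x' : ℝ)|) ≤ (2 * H ^ 2) * (H + H) := by gcongr
          _ = 4 * H ^ 3 := by ring
      apply mul_le_mul h8 (by linarith) (by linarith) (by positivity)
    have h9 : √(k * (|(x : ℝ)| + |(x' : ℝ)|) * (1 + log (k * N)) / N) ≤
        √(4 * H ^ 3 * (1 + log (2 * H ^ 2 * N)) / N) := Real.sqrt_le_sqrt h5
    linarith
  by_cases hex : ∃ x y : ℤ, (x ≠ 0 ∨ y ≠ 0) ∧ |x| ≤ H ∧ |y| ≤ H ∧ ∃ M : ℕ, N ≤ M ∧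
      δ ≤ disc (x * t + y * exp 1) M
  · obtain ⟨x0, y0, h0, hx0, hy0, L, hL, hd⟩ := hex
    refine ⟨y0, -x0, ?_, ?_⟩
    · rcases h0 with h | h
      · right; exact neg_ne_zero.2 h
      · left; exact h
    · intro x y hx hy M hM hd'
      have := key x0 y0 x y hx0 hy0 hx hy L M hL hM hd hd'
      linarith
  · refine ⟨1, 0, Or.inl one_ne_zero, ?_⟩
    intro x y hx hy M hM hd
    by_contra hne
    apply hex
    refine ⟨x, y, ?_, hx, hy, M, hM, hd⟩
    left
    intro h
    apply hne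
    rw [h]; ring

end Pool.Agent.Q158.EqD
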