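import Mathlib
import Pool.Agent.Q158.EqD.Weyl
import Pool.Agent.W472.AC.EMeas2
set_option autoImplicit false

/-!
# The coefficients of a real polynomial with the root `e`
-/

namespace Pool.Agent.Q158.EqD
open Real Polynomial

/-- from the approximations to the polynomial -/
theorem poly_aux (n : ℕ) (c w : ℝ) (hw : 0 < w)
    (hmeas : W472.AC.MeasP (exp 1) n w c) (σ : Fin n → ℤ) (hσ : ∀ j, σ j = 1 ∨ σ j = -1)
    (T : ℝ) (hT : 0 ≤ T) (x : Fin n → ℝ) (hx : ∀ j, |x j| ≤ T)
    (hroot : exp 1 ^ n + ∑ j, σ j * x j * exp 1 ^ (j : ℕ) = 0) (N : ℝ) (hN : 1 ≤ N)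
    (δ : Fin n → ℝ) (hδ : ∀ j, 0 < δ j) (hδ1 : ∀ j, δ j ≤ 1) (hδN : ∀ j, 16 ≤ δ j * N)
    (r : Fin n → ℚ) (hr1 : ∀ j, ((r j).den : ℝ) ≤ 12 / δ j)
    (hr2 : ∀ j, |x j - r j| ≤ 16 / (δ j * N * (r j).den)) :
    c ≤ ((1 + n * (T + 1)) * 12 ^ n / ∏ j, δ j) ^ w *
      (16 * n * exp 1 ^ n * 12 ^ n / (N * ∏ j, δ j)) := by
  classical
  set q : Fin n → ℕ := fun j => (r j).den with hq
  have hq1 : ∀ j, (1 : ℝ) ≤ q j := fun j => by exact_mod_cast (r j).den_pos
  set D : ℕ := ∏ j, q j with hD
  have hD1 : 1 ≤ D := Finset.prod_pos fun j _ => (r j).den_pos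
  have hDR : (1 : ℝ) ≤ D := by exact_mod_cast hD1
  set m : Fin n → ℤ := fun j => (r j).num * ∏ i ∈ Finset.univ.erase j, (q i : ℤ) with hm
  have hmr : ∀ j, (m j : ℝ) = D * r j := by
    intro j
    have h1 : (r j : ℝ) = (r j).num / q j := by exact_mod_cast (Rat.num_div_den (r j)).symm
    have h2 : (D : ℝ) = q j * ∏ i ∈ Finset.univ.erase j, (q i : ℝ) := by
      rw [hD]; push_cast
      exact (Finset.mul_prod_erase Finset.univ (fun i => (q i : ℝ)) (Finset.mem_univ j)).symm
    have h3 : (q j : ℝ) ≠ 0 := by have := hq1 j; positivity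
    rw [h1, h2, hm]
    push_cast
    field_simp
  set P : ℤ[X] := C (D : ℤ) * X ^ n + ∑ j, C (σ j * m j) * X ^ (j : ℕ) with hP
  have hsum : ∑ j : Fin n, C (σ j * m j) * X ^ (j : ℕ) = ∑ j : Fin n, (monomial (j : ℕ) (σ j * m j)) := by
    apply Finset.sum_congr rfl
    intro j _
    rw [C_mul_X_pow_eq_monomial]
  have hcoeff : ∀ k, P.coeff k = (if k = n then (D : ℤ) else 0) +
      ∑ j : Fin n, (if (j : ℕ) = k then σ j * m j else 0) := by
    intro k
    rw [hP, coeff_add, hsum, finsetSum_coeff, coeff_C_mul, coeff_X_pow]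
    congr 1
    · by_cases hk : k = n <;> simp [hk]
    · apply Finset.sum_congr rfl
      intro j _
      rw [coeff_monomial]
  have hPn : P.coeff n = D := by
    rw [hcoeff, if_pos rfl, Finset.sum_eq_zero]
    · simp
    · intro j _
      rw [if_neg (by have := j.2; omega)]
  have hP0 : P ≠ 0 := by
    intro h
    rw [h, coeff_zero] at hPn
    have : (0 : ℤ) < D := by exact_mod_cast hD1
    omega
  have hdeg : P.natDegree ≤ n := by
    rw [natDegree_le_iff_coeff_eq_zero]
    intro k hk
    rw [hcoeff, if_neg (by omega), Finset.sum_eq_zero]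
    · simp
    · intro j _
      rw [if_neg (by have := j.2; omega)]
  have hrT : ∀ j, |(r j : ℝ)| ≤ T + 1 := by
    intro j
    have h1 : |x j - r j| ≤ 1 := by
      refine (hr2 j).trans ?_
      rw [div_le_one (by have := hδ j; have := hq1 j; positivity)]
      have := hδN j
      have := hq1 j
      nlinarith
    have h2 : |(r j : ℝ)| ≤ |x j| + |x j - r j| := by
      have := abs_sub_abs_le_abs_sub (r j : ℝ) (x j)
      rw [abs_sub_comm] at this
      linarith
    have := hx j
    linarith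
  have hσ1 : ∀ j, |(σ j : ℝ)| = 1 := by
    intro j
    rcases hσ j with h | h <;> rw [h] <;> norm_num
  have hmT : ∀ j, |(m j : ℝ)| ≤ D * (T + 1) := by
    intro j
    rw [hmr, abs_mul, abs_of_nonneg (by positivity : (0 : ℝ) ≤ D)]
    exact mul_le_mul_of_nonneg_left (hrT j) (by positivity)
  have hcb : ∀ k, |(P.coeff k : ℝ)| ≤ D * (1 + n * (T + 1)) := by
    intro k
    rw [hcoeff]
    push_cast
    have h1 : |(if k = n then (D : ℝ) else 0)| ≤ D := by
      split_ifs
      · rw [abs_of_nonneg (by positivity)]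
      · simp
    have h2 : |∑ j : Fin n, (if (j : ℕ) = k then (σ j : ℝ) * m j else 0)| ≤ n * (D * (T + 1)) := by
      refine (Finset.abs_sum_le_sum_abs _ _).trans ?_
      calc ∑ j : Fin n, |(if (j : ℕ) = k then (σ j : ℝ) * m j else 0)|
          ≤ ∑ _j : Fin n, D * (T + 1) := by
            apply Finset.sum_le_sum
            intro j _
            split_ifs
            · rw [abs_mul, hσ1, one_mul]; exact hmT j
            · rw [abs_zero]; positivity
        _ = n * (D * (T + 1)) := by simp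
    refine (abs_add_le _ _).trans ?_
    have h3 : |(if k = n then (D : ℝ) else 0)| + |∑ j : Fin n, (if (j : ℕ) = k then (σ j : ℝ) * m j
        else 0)| ≤ D + n * (D * (T + 1)) := add_le_add h1 h2
    have h4 : (D : ℝ) + n * (D * (T + 1)) = D * (1 + n * (T + 1)) := by ring
    rw [h4] at h3
    convert h3 using 3
  have hfac : (1 : ℝ) ≤ 1 + n * (T + 1) := by
    have : (0 : ℝ) ≤ n * (T + 1) := by positivity
    linarith
  have hH1 : (1 : ℝ) ≤ D * (1 + n * (T + 1)) := by nlinarith
  have h1 := hmeas P hP0 hdeg (D * (1 + n * (T + 1))) hH1 hcb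
  set Pr : ℝ := ∏ j, δ j with hPr
  have hPr0 : 0 < Pr := Finset.prod_pos fun j _ => hδ j
  have hDle : (D : ℝ) ≤ 12 ^ n / Pr := by
    rw [hD]; push_cast
    calc ∏ j, (q j : ℝ) ≤ ∏ j, (12 / δ j) := by
          apply Finset.prod_le_prod
          · intro j _; positivity
          · intro j _; exact hr1 j
      _ = 12 ^ n / Pr := by
          rw [Finset.prod_div_distrib, Finset.prod_const, Finset.card_univ, Fintype.card_fin]
  have hval : |aeval (exp 1) P| ≤ 16 * n * exp 1 ^ n * 12 ^ n / (N * Pr) := by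
    have e1 : aeval (exp 1) P = ∑ j, σ j * (m j - D * x j) * exp 1 ^ (j : ℕ) := by
      have h2 : aeval (exp 1) P = D * exp 1 ^ n + ∑ j, σ j * m j * exp 1 ^ (j : ℕ) := by
        rw [hP, map_add, map_mul, map_sum, map_pow, aeval_X]
        simp
      have h3 : (D : ℝ) * exp 1 ^ n = -∑ j, D * (σ j * x j * exp 1 ^ (j : ℕ)) := by
        rw [← Finset.mul_sum]
        linear_combination (D : ℝ) * hroot
      rw [h2, h3, neg_add_eq_sub, ← Finset.sum_sub_distrib]
      apply Finset.sum_congr rfl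
      intro j _
      ring
    rw [e1]
    refine (Finset.abs_sum_le_sum_abs _ _).trans ?_
    have h4 : ∀ j ∈ (Finset.univ : Finset (Fin n)), |(σ j : ℝ) * (m j - D * x j) * exp 1 ^ (j : ℕ)| ≤
        16 * exp 1 ^ n * 12 ^ n / (N * Pr) := by
      intro j _
      rw [abs_mul, abs_mul, hσ1, one_mul]
      have h5 : |(m j : ℝ) - D * x j| ≤ 16 * 12 ^ n / (N * Pr) := by
        have h6 : (m j : ℝ) - D * x j = -(D * (x j - r j)) := by rw [hmr]; ring
        rw [h6, abs_neg, abs_mul, abs_of_nonneg (by positivity : (0 : ℝ) ≤ D)]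
        have h7 : (D : ℝ) / q j ≤ 12 ^ n * δ j / Pr := by
          have h8 : (D : ℝ) / q j = ∏ i ∈ Finset.univ.erase j, (q i : ℝ) := by
            rw [hD]; push_cast
            rw [← Finset.mul_prod_erase Finset.univ (fun i => (q i : ℝ)) (Finset.mem_univ j)]
            have h3 : (q j : ℝ) ≠ 0 := by have := hq1 j; positivity
            field_simp
          rw [h8]
          have h9 : Pr = δ j * ∏ i ∈ Finset.univ.erase j, δ i := by
            exact (Finset.mul_prod_erase Finset.univ δ (Finset.mem_univ j)).symm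
          have h10 : 0 < ∏ i ∈ Finset.univ.erase j, δ i := Finset.prod_pos fun i _ => hδ i
          have h11 : (12 : ℝ) ^ n * δ j / Pr = 12 ^ n / ∏ i ∈ Finset.univ.erase j, δ i := by
            rw [h9]
            have := hδ j
            field_simp
          rw [h11]
          calc ∏ i ∈ Finset.univ.erase j, (q i : ℝ) ≤ ∏ i ∈ Finset.univ.erase j, (12 / δ i) := by
                apply Finset.prod_le_prod
                · intro i _; positivity
                · intro i _; exact hr1 i
            _ = 12 ^ (Finset.univ.erase j).card / ∏ i ∈ Finset.univ.erase j, δ i := by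
                rw [Finset.prod_div_distrib, Finset.prod_const]
            _ ≤ _ := by
                apply div_le_div_of_nonneg_right _ h10.le
                apply pow_le_pow_right₀ (by norm_num)
                calc (Finset.univ.erase j).card ≤ (Finset.univ : Finset (Fin n)).card :=
                      Finset.card_le_card (Finset.erase_subset _ _)
                  _ = n := by simp
        calc (D : ℝ) * |x j - r j| ≤ D * (16 / (δ j * N * q j)) := by
              gcongr
              exact hr2 j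
          _ = (D / q j) * (16 / (δ j * N)) := by
              have := hδ j
              have := hq1 j
              field_simp
          _ ≤ (12 ^ n * δ j / Pr) * (16 / (δ j * N)) := by
              have := hδ j
              gcongr
          _ = _ := by
              have := hδ j
              field_simp
      have h6 : exp 1 ^ (j : ℕ) ≤ exp 1 ^ n :=
        pow_le_pow_right₀ (by have := Real.add_one_le_exp 1; linarith) j.2.le
      rw [abs_of_nonneg (by positivity : (0 : ℝ) ≤ exp 1 ^ (j : ℕ))]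
      calc |(m j : ℝ) - D * x j| * exp 1 ^ (j : ℕ) ≤ (16 * 12 ^ n / (N * Pr)) * exp 1 ^ n := by
            gcongr
        _ = _ := by ring
    refine (Finset.sum_le_sum h4).trans (le_of_eq ?_)
    rw [Finset.sum_const, Finset.card_univ, Fintype.card_fin, nsmul_eq_mul]
    ring
  refine h1.trans ?_
  apply mul_le_mul _ hval (abs_nonneg _) (by positivity)
  apply Real.rpow_le_rpow (by positivity) _ hw.le
  calc (D : ℝ) * (1 + n * (T + 1)) ≤ (12 ^ n / Pr) * (1 + n * (T + 1)) := by gcongr
    _ = _ := by ring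

/-- **Product inequality** for the coefficients. -/
theorem poly (n : ℕ) (hn : 0 < n) (T η : ℝ) (hT : 0 ≤ T) (hη : 0 < η) :
    ∃ K : ℝ, 0 < K ∧ ∀ (σ : Fin n → ℤ) (x : Fin n → ℝ), (∀ j, σ j = 1 ∨ σ j = -1) →
      (∀ j, |x j| ≤ T) → exp 1 ^ n + ∑ j, σ j * x j * exp 1 ^ (j : ℕ) = 0 →
      ∀ (N : ℕ) (M : Fin n → ℕ), 0 < N → (∀ j, N ≤ M j) →
        ∏ j, disc (x j) (M j) ≤ K * (N : ℝ) ^ (-(1 / (n + 1 + η))) := by
  obtain ⟨c, hc, hmeas⟩ := W472.AC.e_measP n η hη
  set w : ℝ := n + η with hw
  have hw0 : 0 < w := by positivity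
  set A : ℝ := (1 + n * (T + 1)) * 12 ^ n with hA
  set B : ℝ := 16 * n * exp 1 ^ n * 12 ^ n with hB
  have hA0 : 0 < A := by
    have : (0 : ℝ) ≤ n * (T + 1) := by positivity
    positivity
  have hnR : (1 : ℝ) ≤ n := by exact_mod_cast hn
  have hB0 : 0 < B := by positivity
  set κ : ℝ := 1 / (n + 1 + η) with hκ
  have hκ0 : 0 < κ := by positivity
  have hκ1 : κ ≤ 1 := by
    rw [hκ, div_le_one (by positivity)]
    linarith
  refine ⟨32 + 2 ^ n * (A ^ w * B / c) ^ κ, by positivity, ?_⟩
  intro σ x hσ hx hroot N M hN hM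
  have hNR : (1 : ℝ) ≤ N := by exact_mod_cast hN
  have hN0 : (0 : ℝ) < N := by linarith
  have hpow0 : 0 < (N : ℝ) ^ (-κ) := Real.rpow_pos_of_pos hN0 _
  have hinv : 1 / (N : ℝ) ≤ (N : ℝ) ^ (-κ) := by
    rw [Real.rpow_neg hN0.le, ← one_div]
    apply one_div_le_one_div_of_le (Real.rpow_pos_of_pos hN0 _)
    calc (N : ℝ) ^ κ ≤ (N : ℝ) ^ (1 : ℝ) := Real.rpow_le_rpow_of_exponent_le hNR hκ1
      _ = N := Real.rpow_one _
  have hsecond : 0 ≤ 2 ^ n * (A ^ w * B / c) ^ κ * (N : ℝ) ^ (-κ) := by positivity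
  by_cases hsmall : ∃ j, disc (x j) (M j) < 32 / N
  · obtain ⟨j, hj⟩ := hsmall
    have h1 : ∏ i, disc (x i) (M i) ≤ disc (x j) (M j) := by
      rw [← Finset.mul_prod_erase _ _ (Finset.mem_univ j)]
      have : ∏ i ∈ Finset.univ.erase j, disc (x i) (M i) ≤ 1 :=
        Finset.prod_le_one (fun i _ => disc_nonneg _ _) (fun i _ => disc_le_one _ _)
      have h0 := disc_nonneg (x j) (M j)
      nlinarith
    have h2 : 32 / (N : ℝ) ≤ 32 * (N : ℝ) ^ (-κ) := by
      rw [div_eq_mul_one_div]
      exact mul_le_mul_of_nonneg_left hinv (by norm_num)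
    rw [add_mul]
    linarith
  · push Not at hsmall
    have hDpos : ∀ j, 0 < disc (x j) (M j) := fun j => lt_of_lt_of_le (by positivity) (hsmall j)
    set δ : Fin n → ℝ := fun j => disc (x j) (M j) / 2 with hδ
    have hδ0 : ∀ j, 0 < δ j := fun j => by have := hDpos j; rw [hδ]; simp only; linarith
    have hex : ∀ j, ∃ r : ℚ, (r.den : ℝ) ≤ 12 / δ j ∧ |x j - r| ≤ 16 / (δ j * N * r.den) := by
      intro j
      obtain ⟨r, h1, h2⟩ := approx (x j) (M j) (by have := hM j; omega) (δ j) (hδ0 j)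
        (by have := hDpos j; rw [hδ]; simp only; linarith)
      refine ⟨r, h1, h2.trans ?_⟩
      have hd : (0 : ℝ) < r.den := by exact_mod_cast r.den_pos
      have := hδ0 j
      have hMR : (N : ℝ) ≤ M j := by exact_mod_cast hM j
      apply div_le_div_of_nonneg_left (by norm_num) (by positivity)
      gcongr
    choose r hr1 hr2 using hex
    have h1 := poly_aux n c w hw0 hmeas σ hσ T hT x hx hroot N hNR δ hδ0
      (fun j => by have := disc_le_one (x j) (M j); rw [hδ]; simp only; linarith)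
      (fun j => by
        have := hsmall j
        rw [div_le_iff₀ hN0] at this
        rw [hδ]; simp only; linarith) r hr1 hr2
    set Pr : ℝ := ∏ j, δ j with hPr
    have hPr0 : 0 < Pr := Finset.prod_pos fun j _ => hδ0 j
    have hprod : ∏ j, disc (x j) (M j) = 2 ^ n * Pr := by
      rw [hPr, hδ]
      simp only
      rw [Finset.prod_div_distrib, Finset.prod_const, Finset.card_univ, Fintype.card_fin]
      field_simp
    rw [← hA, ← hB] at h1
    have h2 : Pr ^ (w + 1) ≤ A ^ w * B / c / N := by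
      have h3 : (A / Pr) ^ w = A ^ w / Pr ^ w := Real.div_rpow hA0.le hPr0.le w
      rw [h3] at h1
      have h4 : Pr ^ (w + 1) = Pr ^ w * Pr := by rw [Real.rpow_add hPr0, Real.rpow_one]
      have h5 : 0 < Pr ^ w := Real.rpow_pos_of_pos hPr0 w
      rw [h4, div_div, le_div_iff₀ (by positivity)]
      have h6 : A ^ w / Pr ^ w * (B / (N * Pr)) = A ^ w * B / (Pr ^ w * Pr * N) := by
        field_simp
      rw [h6, le_div_iff₀ (by positivity)] at h1
      linarith
    have h3 : Pr ≤ (A ^ w * B / c) ^ κ * (N : ℝ) ^ (-κ) := by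
      have h4 : Pr = (Pr ^ (w + 1)) ^ κ := by
        rw [← Real.rpow_mul hPr0.le, hκ, hw]
        have : ((n : ℝ) + η + 1) * (1 / (n + 1 + η)) = 1 := by
          field_simp
          ring
        rw [this, Real.rpow_one]
      rw [h4]
      calc (Pr ^ (w + 1)) ^ κ ≤ (A ^ w * B / c / N) ^ κ :=
            Real.rpow_le_rpow (by positivity) h2 hκ0.le
        _ = (A ^ w * B / c) ^ κ / (N : ℝ) ^ κ := Real.div_rpow (by positivity) hN0.le κ
        _ = _ := by rw [Real.rpow_neg hN0.le, div_eq_mul_inv]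
    rw [hprod, add_mul]
    have h4 : 2 ^ n * Pr ≤ 2 ^ n * ((A ^ w * B / c) ^ κ * (N : ℝ) ^ (-κ)) := by gcongr
    have h5 : 0 ≤ 32 * (N : ℝ) ^ (-κ) := by positivity
    linarith

end Pool.Agent.Q158.EqD
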