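import Mathlib
import Pool.Agent.Q158.EqD.Poly
set_option autoImplicit false

/-!
# Two numbers with `(v + a) y = u`, `y` a power of `e`
-/

namespace Pool.Agent.Q158.EqD
open Real

theorem mob_aux (y c w : ℝ) (hy : 0 < y) (hw : 0 < w)
    (hmeas : ∀ A B : ℤ, (A ≠ 0 ∨ B ≠ 0) → ∀ H : ℝ, 1 ≤ H → |(A : ℝ)| ≤ H → |(B : ℝ)| ≤ H →
      c ≤ H ^ w * |A * y + B|)
    (a : ℤ) (ha : |a| ≤ 1) (T τ : ℝ) (hT : 0 ≤ T) (u v : ℝ) (hu : |u| ≤ T) (hv : |v| ≤ T)
    (hτ : 0 < τ) (hτ1 : τ ≤ 1) (hu0 : τ ≤ |u|) (huv : (v + a) * y = u) (N : ℝ)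
    (hN : 1 ≤ N) (δ δ' : ℝ) (hδ : 0 < δ) (hδ' : 0 < δ') (hδN : 32 ≤ τ * (δ * N))
    (hδN' : 32 ≤ τ * (δ' * N))
    (r s : ℚ) (hr1 : (r.den : ℝ) ≤ 12 / δ) (hr2 : |u - r| ≤ 16 / (δ * N * r.den))
    (hs1 : (s.den : ℝ) ≤ 12 / δ') (hs2 : |v - s| ≤ 16 / (δ' * N * s.den)) :
    c ≤ (144 * (T + 2) / (δ * δ')) ^ w * (192 * (1 + y) / (N * (δ * δ'))) := by
  have hq : (1 : ℝ) ≤ r.den := by exact_mod_cast r.den_pos
  have hws : (1 : ℝ) ≤ s.den := by exact_mod_cast s.den_pos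
  have hr : (r : ℝ) = r.num / r.den := by exact_mod_cast (Rat.num_div_den r).symm
  have hs : (s : ℝ) = s.num / s.den := by exact_mod_cast (Rat.num_div_den s).symm
  set q := r.den with hqd
  set p := s.den with hpd
  set A : ℤ := q * (s.num + a * p) with hA
  set B : ℤ := -(r.num * p) with hB
  have hAr : (A : ℝ) = q * p * (s + a) := by
    rw [hA, hs]; push_cast; field_simp
  have hBr : (B : ℝ) = -(q * p * r) := by
    rw [hB, hr]; push_cast; field_simp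
  have hpos : (0 : ℝ) < q * p := by positivity
  have hclose : |u - r| < τ := by
    refine lt_of_le_of_lt hr2 ?_
    have h1 : 0 < δ * N := by positivity
    rw [div_lt_iff₀ (by positivity)]
    have : τ * (δ * N) ≤ τ * (δ * N * q) := by
      apply mul_le_mul_of_nonneg_left _ hτ.le
      nlinarith
    linarith
  have hclose' : |v - s| < 1 := by
    refine lt_of_le_of_lt hs2 ?_
    have h1 : 0 < δ' * N := by positivity
    rw [div_lt_iff₀ (by positivity)]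
    have h2 : τ * (δ' * N) ≤ 1 * (δ' * N) := by
      apply mul_le_mul_of_nonneg_right hτ1 h1.le
    nlinarith
  have hr0 : (r : ℝ) ≠ 0 := by
    intro h
    rw [h, sub_zero] at hclose
    linarith
  have hB0 : B ≠ 0 := by
    intro h
    have h1 : (B : ℝ) = 0 := by rw [h]; simp
    rw [hBr, neg_eq_zero] at h1
    exact hr0 ((mul_eq_zero.1 h1).resolve_left hpos.ne')
  have hrT : |(r : ℝ)| ≤ T + 1 := by
    have := abs_sub_abs_le_abs_sub (r : ℝ) u
    rw [abs_sub_comm] at this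
    linarith
  have hsT : |(s : ℝ)| ≤ T + 1 := by
    have := abs_sub_abs_le_abs_sub (s : ℝ) v
    rw [abs_sub_comm] at this
    linarith
  have haR : |(a : ℝ)| ≤ 1 := by exact_mod_cast ha
  have hAH : |(A : ℝ)| ≤ q * p * (T + 2) := by
    rw [hAr, abs_mul, abs_of_pos hpos]
    apply mul_le_mul_of_nonneg_left _ hpos.le
    have := abs_add_le (s : ℝ) a
    linarith
  have hBH : |(B : ℝ)| ≤ q * p * (T + 2) := by
    rw [hBr, abs_neg, abs_mul, abs_of_pos hpos]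
    apply mul_le_mul_of_nonneg_left _ hpos.le
    linarith
  have hqp1 : (1 : ℝ) ≤ q * p := by nlinarith
  have h1 := hmeas A B (Or.inr hB0) (q * p * (T + 2)) (by nlinarith) hAH hBH
  have hqpδ : (q : ℝ) * p ≤ 144 / (δ * δ') := by
    calc (q : ℝ) * p ≤ (12 / δ) * (12 / δ') := by gcongr
      _ = _ := by field_simp; norm_num
  have hval : |(A : ℝ) * y + B| ≤ 192 * (1 + y) / (N * (δ * δ')) := by
    have e1 : (A : ℝ) * y + B = q * p * ((s - v) * y - (r - u)) := by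
      rw [hAr, hBr]
      linear_combination ((q : ℝ) * p) * huv
    rw [e1, abs_mul, abs_of_pos hpos]
    have h2 : |((s : ℝ) - v) * y - (r - u)| ≤ 16 / (δ' * N * p) * y + 16 / (δ * N * q) := by
      refine (abs_sub _ _).trans ?_
      rw [abs_mul, abs_of_pos hy, abs_sub_comm (s : ℝ) v, abs_sub_comm (r : ℝ) u]
      gcongr
    calc (q : ℝ) * p * |((s : ℝ) - v) * y - (r - u)|
        ≤ q * p * (16 / (δ' * N * p) * y + 16 / (δ * N * q)) := by gcongr
      _ = 16 / N * (y * (q / δ') + p / δ) := by field_simp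
      _ ≤ 16 / N * (y * (12 / (δ * δ')) + 12 / (δ * δ')) := by
          have h3 : (q : ℝ) / δ' ≤ 12 / (δ * δ') := by
            rw [div_le_div_iff₀ hδ' (by positivity)]
            rw [le_div_iff₀ hδ] at hr1
            nlinarith
          have h4 : (p : ℝ) / δ ≤ 12 / (δ * δ') := by
            rw [div_le_div_iff₀ hδ (by positivity)]
            rw [le_div_iff₀ hδ'] at hs1
            nlinarith
          gcongr
      _ = _ := by field_simp; ring
  refine h1.trans ?_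
  apply mul_le_mul _ hval (abs_nonneg _) (by positivity)
  apply Real.rpow_le_rpow (by positivity) _ hw.le
  calc (q : ℝ) * p * (T + 2) ≤ (144 / (δ * δ')) * (T + 2) := by gcongr
    _ = _ := by ring

/-- **Product inequality** for `(v + a) y = u`, `y = exp k`. -/
theorem mob (k : ℕ) (hk : 0 < k) (a : ℤ) (ha : |a| ≤ 1) (T τ η : ℝ) (hT : 0 ≤ T) (hτ : 0 < τ)
    (hτ1 : τ ≤ 1) (hη : 0 < η) :
    ∃ K : ℝ, 0 < K ∧ ∀ u v : ℝ, |u| ≤ T → |v| ≤ T → τ ≤ |u| → (v + a) * exp k = u →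
      ∀ N L M : ℕ, 0 < N → N ≤ L → N ≤ M →
        disc u L * disc v M ≤ K * (N : ℝ) ^ (-(1 / (2 + η))) := by
  obtain ⟨c, hc, hmeas⟩ := W472.AC.e_meas 1 ![0, (k : ℤ)] (by
    intro i j hij
    fin_cases i <;> fin_cases j
    · rfl
    · exfalso
      simp at hij
      omega
    · exfalso
      simp at hij
      omega
    · rfl) (by simp) (by intro i; fin_cases i <;> simp) η hη
  set w : ℝ := (1 : ℕ) + η with hw
  have hw0 : 0 < w := by positivity
  have hmeas' : ∀ A B : ℤ, (A ≠ 0 ∨ B ≠ 0) → ∀ H : ℝ, 1 ≤ H → |(A : ℝ)| ≤ H → |(B : ℝ)| ≤ H →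
      c ≤ H ^ w * |A * exp k + B| := by
    intro A B hAB H hH hA hB
    have h := hmeas ![B, A] (by
      intro h0
      have h1 := congrFun h0 0
      have h2 := congrFun h0 1
      simp at h1 h2
      rcases hAB with h3 | h3
      · exact h3 h2
      · exact h3 h1) H hH (by intro j; fin_cases j <;> simp [hA, hB])
    rw [Fin.sum_univ_two] at h
    have e : ((![B, A] 0 : ℤ) : ℝ) * exp ((![0, (k : ℤ)] 0 : ℤ) : ℝ) +
        ((![B, A] 1 : ℤ) : ℝ) * exp ((![0, (k : ℤ)] 1 : ℤ) : ℝ) = A * exp k + B := by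
      simp
      ring
    rw [e] at h
    exact h
  set P : ℝ := 144 * (T + 2) with hP
  set Q : ℝ := 192 * (1 + exp k) with hQ
  have hP0 : 0 < P := by positivity
  have hQ0 : 0 < Q := by positivity
  set κ : ℝ := 1 / (2 + η) with hκ
  have hκ0 : 0 < κ := by positivity
  have hκ1 : κ ≤ 1 := by
    rw [hκ, div_le_one (by positivity)]
    linarith
  refine ⟨64 / τ + 4 * (P ^ w * Q / c) ^ κ, by positivity, ?_⟩
  intro u v hu hv hu0 huv N L M hN hL hM
  have hNR : (1 : ℝ) ≤ N := by exact_mod_cast hN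
  have hN0 : (0 : ℝ) < N := by linarith
  have hLR : (N : ℝ) ≤ L := by exact_mod_cast hL
  have hMR : (N : ℝ) ≤ M := by exact_mod_cast hM
  have hpow0 : 0 < (N : ℝ) ^ (-κ) := Real.rpow_pos_of_pos hN0 _
  have hinv : 1 / (N : ℝ) ≤ (N : ℝ) ^ (-κ) := by
    rw [Real.rpow_neg hN0.le, ← one_div]
    apply one_div_le_one_div_of_le (Real.rpow_pos_of_pos hN0 _)
    calc (N : ℝ) ^ κ ≤ (N : ℝ) ^ (1 : ℝ) := Real.rpow_le_rpow_of_exponent_le hNR hκ1
      _ = N := Real.rpow_one _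
  set D := disc u L with hD
  set D' := disc v M with hD'
  have hD0 : 0 ≤ D := disc_nonneg _ _
  have hD0' : 0 ≤ D' := disc_nonneg _ _
  have hD1 : D ≤ 1 := disc_le_one _ _
  have hD1' : D' ≤ 1 := disc_le_one _ _
  have hsecond : 0 ≤ 4 * (P ^ w * Q / c) ^ κ * (N : ℝ) ^ (-κ) := by positivity
  have hsm : ∀ X Y : ℝ, 0 ≤ X → 0 ≤ Y → Y ≤ 1 → X < 64 / τ / N →
      X * Y ≤ (64 / τ + 4 * (P ^ w * Q / c) ^ κ) * (N : ℝ) ^ (-κ) := by
    intro X Y hX hY hY1 hXs
    have h1 : X * Y ≤ X := by nlinarith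
    have h2 : 64 / τ / (N : ℝ) ≤ 64 / τ * (N : ℝ) ^ (-κ) := by
      rw [div_eq_mul_one_div (64 / τ)]
      exact mul_le_mul_of_nonneg_left hinv (by positivity)
    rw [add_mul]
    linarith
  by_cases hs1 : D < 64 / τ / N
  · exact hsm D D' hD0 hD0' hD1' hs1
  by_cases hs2 : D' < 64 / τ / N
  · rw [mul_comm]
    exact hsm D' D hD0' hD0 hD1 hs2
  push Not at hs1 hs2
  have hDp : 0 < D := lt_of_lt_of_le (by positivity) hs1
  have hDp' : 0 < D' := lt_of_lt_of_le (by positivity) hs2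
  obtain ⟨r, hr1, hr2'⟩ := approx u L (by omega) (D / 2) (by positivity) (by linarith)
  obtain ⟨s, hs1', hs2'⟩ := approx v M (by omega) (D' / 2) (by positivity) (by linarith)
  have hrd : (0 : ℝ) < r.den := by exact_mod_cast r.den_pos
  have hsd : (0 : ℝ) < s.den := by exact_mod_cast s.den_pos
  have hr2 : |u - r| ≤ 16 / (D / 2 * N * r.den) := by
    refine hr2'.trans ?_
    apply div_le_div_of_nonneg_left (by norm_num) (by positivity)
    gcongr
  have hs2'' : |v - s| ≤ 16 / (D' / 2 * N * s.den) := by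
    refine hs2'.trans ?_
    apply div_le_div_of_nonneg_left (by norm_num) (by positivity)
    gcongr
  have h32 : ∀ X : ℝ, 64 / τ / N ≤ X → 32 ≤ τ * (X / 2 * N) := by
    intro X hX
    rw [div_div, div_le_iff₀ (by positivity)] at hX
    nlinarith
  have h1 := mob_aux (exp k) c w (exp_pos _) hw0 hmeas' a ha T τ hT u v hu hv hτ hτ1 hu0 huv N hNR
    (D / 2) (D' / 2) (by positivity) (by positivity) (h32 D hs1) (h32 D' hs2) r s hr1 hr2 hs1' hs2''
  set Pr : ℝ := D / 2 * (D' / 2) with hPr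
  have hPr0 : 0 < Pr := by positivity
  rw [← hP, ← hQ] at h1
  have h2 : Pr ^ (w + 1) ≤ P ^ w * Q / c / N := by
    have h3 : (P / Pr) ^ w = P ^ w / Pr ^ w := Real.div_rpow hP0.le hPr0.le w
    rw [h3] at h1
    have h4 : Pr ^ (w + 1) = Pr ^ w * Pr := by rw [Real.rpow_add hPr0, Real.rpow_one]
    have h5 : 0 < Pr ^ w := Real.rpow_pos_of_pos hPr0 w
    rw [h4, div_div, le_div_iff₀ (by positivity)]
    have h6 : P ^ w / Pr ^ w * (Q / (N * Pr)) = P ^ w * Q / (Pr ^ w * Pr * N) := by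
      field_simp
    rw [h6, le_div_iff₀ (by positivity)] at h1
    linarith
  have h3 : Pr ≤ (P ^ w * Q / c) ^ κ * (N : ℝ) ^ (-κ) := by
    have h4 : Pr = (Pr ^ (w + 1)) ^ κ := by
      rw [← Real.rpow_mul hPr0.le, hκ, hw]
      have : (((1 : ℕ) : ℝ) + η + 1) * (1 / (2 + η)) = 1 := by
        push_cast
        field_simp
        ring
      rw [this, Real.rpow_one]
    rw [h4]
    calc (Pr ^ (w + 1)) ^ κ ≤ (P ^ w * Q / c / N) ^ κ :=
          Real.rpow_le_rpow (by positivity) h2 hκ0.le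
      _ = (P ^ w * Q / c) ^ κ / (N : ℝ) ^ κ := Real.div_rpow (by positivity) hN0.le κ
      _ = _ := by rw [Real.rpow_neg hN0.le, div_eq_mul_inv]
  have h4 : D * D' = 4 * Pr := by rw [hPr]; ring
  rw [h4, add_mul]
  have h5 : 0 ≤ 64 / τ * (N : ℝ) ^ (-κ) := by positivity
  linarith

/-- the linear case, with an exponent -/
theorem lin_pow (η : ℝ) (hη : 0 < η) : ∃ K : ℝ, 0 < K ∧ ∀ t : ℝ, ∀ N L M : ℕ, 0 < N → N ≤ L →
    N ≤ M → disc (t + exp 1) L * disc (t - exp 1) M ≤ K * (N : ℝ) ^ (-(1 / (2 + η))) := by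
  set κ : ℝ := 1 / (2 + η) with hκ
  have hκ0 : 0 < κ := by positivity
  have hκ2 : κ < 1 / 2 := by
    rw [hκ]
    apply one_div_lt_one_div_of_lt (by norm_num) (by linarith)
  set ε : ℝ := 1 - 2 * κ with hε
  have hε0 : 0 < ε := by rw [hε]; linarith
  refine ⟨60000 * √(4 * (2 + 1 / ε)), by positivity, ?_⟩
  intro t N L M hN hL hM
  have hNR : (1 : ℝ) ≤ N := by exact_mod_cast hN
  have hN0 : (0 : ℝ) < N := by linarith
  have h := lin (t + exp 1) (t - exp 1) 1 (-1) 2 0 (by norm_num)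
    (by push_cast; ring) N L M hN hL hM
  refine h.trans ?_
  rw [mul_assoc (60000 : ℝ) (√(4 * (2 + 1 / ε)))]
  apply mul_le_mul_of_nonneg_left _ (by norm_num)
  have e : |((2 : ℤ) : ℝ)| * (|((1 : ℤ) : ℝ)| + |((-1 : ℤ) : ℝ)|) *
      (1 + log (|((2 : ℤ) : ℝ)| * N)) / N ≤ (4 * (2 + 1 / ε)) * ((N : ℝ) ^ (-κ)) ^ 2 := by
    have h1 : |((2 : ℤ) : ℝ)| * (|((1 : ℤ) : ℝ)| + |((-1 : ℤ) : ℝ)|) = 4 := by norm_num
    rw [h1]
    have h2 : |((2 : ℤ) : ℝ)| = 2 := by norm_num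
    rw [h2, log_mul (by norm_num) (by linarith)]
    have h3 : log (N : ℝ) ≤ (N : ℝ) ^ ε / ε := Real.log_le_rpow_div hN0.le hε0
    have h4 : 1 ≤ (N : ℝ) ^ ε := Real.one_le_rpow hNR hε0.le
    have h5 : ((N : ℝ) ^ (-κ)) ^ 2 = (N : ℝ) ^ ε / N := by
      rw [← Real.rpow_natCast, ← Real.rpow_mul hN0.le, ← Real.rpow_sub_one hN0.ne']
      congr 1
      rw [hε]; push_cast; ring
    rw [h5, ← mul_div_assoc]
    apply div_le_div_of_nonneg_right _ hN0.le
    rw [mul_assoc]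
    apply mul_le_mul_of_nonneg_left _ (by norm_num)
    have h6 := Real.log_two_lt_d9
    have h7 : (N : ℝ) ^ ε / ε = 1 / ε * (N : ℝ) ^ ε := by ring
    rw [h7] at h3
    nlinarith
  calc √(|((2 : ℤ) : ℝ)| * (|((1 : ℤ) : ℝ)| + |((-1 : ℤ) : ℝ)|) *
      (1 + log (|((2 : ℤ) : ℝ)| * N)) / N) ≤ √((4 * (2 + 1 / ε)) * ((N : ℝ) ^ (-κ)) ^ 2) :=
        Real.sqrt_le_sqrt e
    _ = √(4 * (2 + 1 / ε)) * (N : ℝ) ^ (-κ) := by
        rw [Real.sqrt_mul (by positivity), Real.sqrt_sq (by positivity)]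

end Pool.Agent.Q158.EqD
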