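import Mathlib
import Pool.Agent.Q158.EqD.Mob
import Pool.Agent.TH456.TM.Inst
set_option autoImplicit false

/-!
# Two numbers with a bilinear relation over `ℤ[x]`
-/

namespace Pool.Agent.Q158.EqD
open Real Polynomial

/-- `x` has a transcendence measure of polynomial type in every degree. -/
def MeasR (x : ℝ) : Prop :=
  ∀ D : ℕ, ∃ w c : ℝ, 0 < w ∧ 0 < c ∧ ∀ P : ℤ[X], P ≠ 0 → P.natDegree ≤ D →
    ∀ H : ℝ, 1 ≤ H → (∀ j, |(P.coeff j : ℝ)| ≤ H) → c ≤ H ^ w * |aeval x P|

theorem measR_of_measT (x : ℝ) (h : TH456.TM.MeasT (x : ℂ)) : MeasR x := by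
  intro D
  obtain ⟨κ, c, hκ, hc, H⟩ := h D
  refine ⟨κ + 1, c, by linarith, hc, ?_⟩
  intro P hP hPD T hT hPT
  have h1 := H P hP hPD T hT hPT
  have h2 : ‖aeval (x : ℂ) P‖ = |aeval x P| := by
    have h3 : aeval (x : ℂ) P = ((aeval x P : ℝ) : ℂ) := by
      rw [aeval_def, aeval_def, eval₂_eq_sum_range, eval₂_eq_sum_range]
      push_cast
      rfl
    rw [h3, Complex.norm_real, Real.norm_eq_abs]
  rw [h2] at h1
  refine h1.trans ?_
  apply mul_le_mul_of_nonneg_right _ (abs_nonneg _)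
  exact Real.rpow_le_rpow_of_exponent_le hT (by linarith)

theorem measR_pi : MeasR π := measR_of_measT π TH456.TM.measT_pi

theorem measR_log (q : ℚ) (hq : 0 < q) (hq1 : q ≠ 1) : MeasR (Real.log q) :=
  measR_of_measT _ (TH456.TM.measT_real_log q hq hq1)

theorem measR_e : MeasR (exp 1) := by
  intro D
  obtain ⟨c, hc, h⟩ := W472.AC.e_measP D 1 one_pos
  exact ⟨D + 1, c, by positivity, hc, h⟩

/-- the integer polynomial attached to two rational numbers -/
noncomputable def pol (α β γ δ : ℤ[X]) (r s : ℚ) : ℤ[X] :=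
  C ((r.den : ℤ) * s.den) * α + C (r.num * s.den) * β + C (s.num * r.den) * γ +
    C (r.num * s.num) * δ

/-- a bound for the coefficients -/
theorem exists_coeff_bound (P : ℤ[X]) : ∃ B : ℝ, 0 ≤ B ∧ ∀ j, |(P.coeff j : ℝ)| ≤ B := by
  refine ⟨∑ j ∈ P.support, |(P.coeff j : ℝ)|, Finset.sum_nonneg fun _ _ => abs_nonneg _, ?_⟩
  intro j
  by_cases hj : j ∈ P.support
  · exact Finset.single_le_sum (f := fun j => |(P.coeff j : ℝ)|) (fun _ _ => abs_nonneg _) hj
  · rw [notMem_support_iff.1 hj]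
    simp only [Int.cast_zero, abs_zero]
    exact Finset.sum_nonneg fun _ _ => abs_nonneg _

/-- **Product inequality** for two numbers with a bilinear relation over `ℤ[x]`. -/
theorem gen (x : ℝ) (hx : MeasR x) (α β γ δ : ℤ[X]) (T τ : ℝ) (hT : 0 ≤ T) (hτ : 0 < τ) :
    ∃ κ K : ℝ, 0 < κ ∧ 0 < K ∧ ∀ u v : ℝ, |u| ≤ T → |v| ≤ T →
      aeval x α + u * aeval x β + v * aeval x γ + u * v * aeval x δ = 0 →
      (∀ r s : ℚ, |u - r| < τ → |v - s| < τ → pol α β γ δ r s ≠ 0) →
      ∀ N L M : ℕ, 0 < N → N ≤ L → N ≤ M → disc u L * disc v M ≤ K * (N : ℝ) ^ (-κ) := by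
  -- the smaller radius
  obtain ⟨τ', hτ', hτ'1, hττ'⟩ : ∃ τ' : ℝ, 0 < τ' ∧ τ' ≤ 1 ∧ τ' ≤ τ :=
    ⟨min τ 1, lt_min hτ one_pos, min_le_right _ _, min_le_left _ _⟩
  set d : ℕ := max (max α.natDegree β.natDegree) (max γ.natDegree δ.natDegree) with hd
  obtain ⟨w, c, hw, hc, hmeas⟩ := hx d
  obtain ⟨Bα, hBα0, hBα⟩ := exists_coeff_bound α
  obtain ⟨Bβ, hBβ0, hBβ⟩ := exists_coeff_bound β
  obtain ⟨Bγ, hBγ0, hBγ⟩ := exists_coeff_bound γ
  obtain ⟨Bδ, hBδ0, hBδ⟩ := exists_coeff_bound δ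
  set P0 : ℝ := 1 + Bα + (T + 1) * Bβ + (T + 1) * Bγ + (T + 1) ^ 2 * Bδ with hP0
  have hP1 : 1 ≤ P0 := by
    have h1 : 0 ≤ (T + 1) * Bβ := by positivity
    have h2 : 0 ≤ (T + 1) * Bγ := by positivity
    have h3 : 0 ≤ (T + 1) ^ 2 * Bδ := by positivity
    linarith
  set Q0 : ℝ := 1 + |aeval x β| + |aeval x γ| + (2 * T + 1) * |aeval x δ| with hQ0
  have hQ1 : 1 ≤ Q0 := by
    have h1 := abs_nonneg (aeval x β)
    have h2 := abs_nonneg (aeval x γ)
    have h3 : 0 ≤ (2 * T + 1) * |aeval x δ| := by positivity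
    linarith
  set P : ℝ := 144 * P0 with hP
  set Q : ℝ := 384 * Q0 with hQ
  have hPp : 0 < P := by positivity
  have hQp : 0 < Q := by positivity
  set κ : ℝ := 1 / (w + 1) with hκ
  have hκ0 : 0 < κ := by positivity
  have hκ1 : κ ≤ 1 := by
    rw [hκ, div_le_one (by positivity)]
    linarith
  refine ⟨κ, 64 / τ' + 4 * (P ^ w * Q / c) ^ κ, hκ0, by positivity, ?_⟩
  intro u v hu hv hrel hnd N L M hN hL hM
  have hNR : (1 : ℝ) ≤ N := by exact_mod_cast hN
  have hN0 : (0 : ℝ) < N := by linarith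
  have hLR : (N : ℝ) ≤ L := by exact_mod_cast hL
  have hMR : (N : ℝ) ≤ M := by exact_mod_cast hM
  have hpow0 : 0 < (N : ℝ) ^ (-κ) := Real.rpow_pos_of_pos hN0 _
  have hinv : 1 / (N : ℝ) ≤ (N : ℝ) ^ (-κ) := by
    rw [Real.rpow_neg hN0.le, ← one_div]
    apply one_div_le_one_div_of_le (Real.rpow_pos_of_pos hN0 _)
    calc (N : ℝ) ^ κ ≤ (N : ℝ) ^ (1 : ℝ) := Real.rpow_le_rpow_of_exponent_le hNR hκ1
      _ = N := Real.rpow_one _
  set D := disc u L with hD
  set D' := disc v M with hD'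
  have hD0 : 0 ≤ D := disc_nonneg _ _
  have hD0' : 0 ≤ D' := disc_nonneg _ _
  have hD1 : D ≤ 1 := disc_le_one _ _
  have hD1' : D' ≤ 1 := disc_le_one _ _
  have hsecond : 0 ≤ 4 * (P ^ w * Q / c) ^ κ * (N : ℝ) ^ (-κ) := by positivity
  have hsm : ∀ X Y : ℝ, 0 ≤ X → 0 ≤ Y → Y ≤ 1 → X < 64 / τ' / N →
      X * Y ≤ (64 / τ' + 4 * (P ^ w * Q / c) ^ κ) * (N : ℝ) ^ (-κ) := by
    intro X Y hX hY hY1 hXs
    have h1 : X * Y ≤ X := by nlinarith
    have h2 : 64 / τ' / (N : ℝ) ≤ 64 / τ' * (N : ℝ) ^ (-κ) := by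
      rw [div_eq_mul_one_div (64 / τ')]
      exact mul_le_mul_of_nonneg_left hinv (by positivity)
    rw [add_mul]
    linarith
  by_cases hs1 : D < 64 / τ' / N
  · exact hsm D D' hD0 hD0' hD1' hs1
  by_cases hs2 : D' < 64 / τ' / N
  · rw [mul_comm]
    exact hsm D' D hD0' hD0 hD1 hs2
  push Not at hs1 hs2
  have hDp : 0 < D := lt_of_lt_of_le (by positivity) hs1
  have hDp' : 0 < D' := lt_of_lt_of_le (by positivity) hs2
  obtain ⟨r, hr1, hr2'⟩ := approx u L (by omega) (D / 2) (by positivity) (by linarith)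
  obtain ⟨s, hs1', hs2'⟩ := approx v M (by omega) (D' / 2) (by positivity) (by linarith)
  have hrd : (1 : ℝ) ≤ r.den := by exact_mod_cast r.den_pos
  have hsd : (1 : ℝ) ≤ s.den := by exact_mod_cast s.den_pos
  have hr2 : |u - r| ≤ 16 / (D / 2 * N * r.den) := by
    refine hr2'.trans ?_
    apply div_le_div_of_nonneg_left (by norm_num) (by positivity)
    gcongr
  have hs2'' : |v - s| ≤ 16 / (D' / 2 * N * s.den) := by
    refine hs2'.trans ?_
    apply div_le_div_of_nonneg_left (by norm_num) (by positivity)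
    gcongr
  have hclose : ∀ X : ℝ, 64 / τ' / N ≤ X → ∀ m : ℝ, 1 ≤ m → 16 / (X / 2 * N * m) < τ' := by
    intro X hX m hm
    have h0 : 0 < X := lt_of_lt_of_le (by positivity) hX
    rw [div_div, div_le_iff₀ (by positivity)] at hX
    rw [div_lt_iff₀ (by positivity)]
    have h1 : τ' * (X / 2 * N) ≤ τ' * (X / 2 * N * m) := by
      apply mul_le_mul_of_nonneg_left _ hτ'.le
      have : 0 < X / 2 * N := by positivity
      nlinarith
    nlinarith
  have hur : |u - r| < τ' := lt_of_le_of_lt hr2 (hclose D hs1 _ hrd)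
  have hvs : |v - s| < τ' := lt_of_le_of_lt hs2'' (hclose D' hs2 _ hsd)
  have hne := hnd r s (hur.trans_le hττ') (hvs.trans_le hττ')
  have hrT : |(r : ℝ)| ≤ T + 1 := by
    have := abs_sub_abs_le_abs_sub (r : ℝ) u
    rw [abs_sub_comm] at this
    linarith
  have hsT : |(s : ℝ)| ≤ T + 1 := by
    have := abs_sub_abs_le_abs_sub (s : ℝ) v
    rw [abs_sub_comm] at this
    linarith
  set q : ℝ := (r.den : ℝ) with hq
  set p : ℝ := (s.den : ℝ) with hp
  have hqp : 0 < q * p := by positivity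
  have hqp1 : 1 ≤ q * p := by nlinarith
  have hrn : (r.num : ℝ) = q * r := by
    rw [hq]
    have : (r : ℝ) * r.den = r.num := by exact_mod_cast Rat.mul_den_eq_num r
    linarith
  have hsn : (s.num : ℝ) = p * s := by
    rw [hp]
    have : (s : ℝ) * s.den = s.num := by exact_mod_cast Rat.mul_den_eq_num s
    linarith
  have hdeg : (pol α β γ δ r s).natDegree ≤ d := by
    unfold pol
    refine (natDegree_add_le _ _).trans (max_le ((natDegree_add_le _ _).trans (max_le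
      ((natDegree_add_le _ _).trans (max_le ?_ ?_)) ?_)) ?_)
    · exact (natDegree_C_mul_le _ _).trans ((le_max_left _ _).trans (le_max_left _ _))
    · exact (natDegree_C_mul_le _ _).trans ((le_max_right _ _).trans (le_max_left _ _))
    · exact (natDegree_C_mul_le _ _).trans ((le_max_left _ _).trans (le_max_right _ _))
    · exact (natDegree_C_mul_le _ _).trans ((le_max_right _ _).trans (le_max_right _ _))
  have hcoeff : ∀ j, |((pol α β γ δ r s).coeff j : ℝ)| ≤ q * p * P0 := by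
    intro j
    have e1 : ((pol α β γ δ r s).coeff j : ℝ) = q * p * (α.coeff j + r * β.coeff j +
        s * γ.coeff j + r * s * δ.coeff j) := by
      unfold pol
      simp only [coeff_add, coeff_C_mul]
      push_cast
      rw [hrn, hsn]
      ring
    rw [e1, abs_mul, abs_of_pos hqp]
    apply mul_le_mul_of_nonneg_left _ hqp.le
    have h1 : |(r : ℝ) * β.coeff j| ≤ (T + 1) * Bβ := by
      rw [abs_mul]; exact mul_le_mul hrT (hBβ j) (abs_nonneg _) (by positivity)
    have h2 : |(s : ℝ) * γ.coeff j| ≤ (T + 1) * Bγ := by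
      rw [abs_mul]; exact mul_le_mul hsT (hBγ j) (abs_nonneg _) (by positivity)
    have h3 : |(r : ℝ) * s * δ.coeff j| ≤ (T + 1) ^ 2 * Bδ := by
      rw [abs_mul, abs_mul]
      apply mul_le_mul _ (hBδ j) (abs_nonneg _) (by positivity)
      rw [sq]
      exact mul_le_mul hrT hsT (abs_nonneg _) (by positivity)
    have h4 := hBα j
    have h5 := abs_add_le ((α.coeff j : ℝ) + r * β.coeff j + s * γ.coeff j) (r * s * δ.coeff j)
    have h6 := abs_add_le ((α.coeff j : ℝ) + r * β.coeff j) (s * γ.coeff j)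
    have h7 := abs_add_le (α.coeff j : ℝ) (r * β.coeff j)
    linarith
  have h1 := hmeas _ hne hdeg (q * p * P0) (by nlinarith) hcoeff
  have hval : |aeval x (pol α β γ δ r s)| ≤ q * p * (Q0 * (|u - r| + |v - s|)) := by
    have e1 : aeval x (pol α β γ δ r s) = q * p * ((r - u) * aeval x β + (s - v) * aeval x γ +
        (r * s - u * v) * aeval x δ) := by
      unfold pol
      simp only [map_add, map_mul, aeval_C]
      simp only [algebraMap_int_eq, eq_intCast]
      push_cast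
      rw [hrn, hsn]
      linear_combination (q * p) * hrel
    rw [e1, abs_mul, abs_of_pos hqp]
    apply mul_le_mul_of_nonneg_left _ hqp.le
    have a1 : |((r : ℝ) - u) * aeval x β| ≤ |u - r| * |aeval x β| := by
      rw [abs_mul, abs_sub_comm]
    have a2 : |((s : ℝ) - v) * aeval x γ| ≤ |v - s| * |aeval x γ| := by
      rw [abs_mul, abs_sub_comm]
    have a3 : |((r : ℝ) * s - u * v) * aeval x δ| ≤
        ((T + 1) * |v - s| + T * |u - r|) * |aeval x δ| := by
      rw [abs_mul]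
      apply mul_le_mul_of_nonneg_right _ (abs_nonneg _)
      have e2 : (r : ℝ) * s - u * v = r * (s - v) + v * (r - u) := by ring
      rw [e2]
      refine (abs_add_le _ _).trans ?_
      rw [abs_mul, abs_mul, abs_sub_comm (s : ℝ) v, abs_sub_comm (r : ℝ) u]
      exact add_le_add (mul_le_mul_of_nonneg_right hrT (abs_nonneg _))
        (mul_le_mul_of_nonneg_right hv (abs_nonneg _))
    have h5 := abs_add_le (((r : ℝ) - u) * aeval x β + (s - v) * aeval x γ)
      ((r * s - u * v) * aeval x δ)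
    have h6 := abs_add_le (((r : ℝ) - u) * aeval x β) ((s - v) * aeval x γ)
    have h7 : |u - r| * |aeval x β| + |v - s| * |aeval x γ| +
        ((T + 1) * |v - s| + T * |u - r|) * |aeval x δ| ≤ Q0 * (|u - r| + |v - s|) := by
      have b1 := abs_nonneg (aeval x β)
      have b2 := abs_nonneg (aeval x γ)
      have b3 := abs_nonneg (aeval x δ)
      have b4 := abs_nonneg (u - r)
      have b5 := abs_nonneg (v - s)
      rw [hQ0]
      have c1 : 0 ≤ |v - s| * |aeval x β| := by positivity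
      have c2 : 0 ≤ |u - r| * |aeval x γ| := by positivity
      have c3 : 0 ≤ |u - r| * |aeval x δ| := by positivity
      have c4 : 0 ≤ |v - s| * |aeval x δ| := by positivity
      have c5 : 0 ≤ T * (|u - r| * |aeval x δ|) := by positivity
      have c6 : 0 ≤ T * (|v - s| * |aeval x δ|) := by positivity
      nlinarith
    linarith
  set Pr : ℝ := D / 2 * (D' / 2) with hPr
  have hPr0 : 0 < Pr := by positivity
  have hqpPr : q * p ≤ 144 / Pr := by
    calc q * p ≤ (12 / (D / 2)) * (12 / (D' / 2)) := by gcongr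
      _ = _ := by rw [hPr]; field_simp; norm_num
  have hval2 : q * p * (Q0 * (|u - r| + |v - s|)) ≤ Q / (N * Pr) := by
    have h2 : q * p * (|u - r| + |v - s|) ≤ 384 / (N * Pr) := by
      have h3 : q * p * |u - r| ≤ 192 / (N * Pr) := by
        calc q * p * |u - r| ≤ q * p * (16 / (D / 2 * N * q)) := by gcongr
          _ = 16 * p / (D / 2 * N) := by field_simp
          _ ≤ 16 * (12 / (D' / 2)) / (D / 2 * N) := by gcongr
          _ = _ := by rw [hPr]; field_simp; norm_num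
      have h4 : q * p * |v - s| ≤ 192 / (N * Pr) := by
        calc q * p * |v - s| ≤ q * p * (16 / (D' / 2 * N * p)) := by gcongr
          _ = 16 * q / (D' / 2 * N) := by field_simp
          _ ≤ 16 * (12 / (D / 2)) / (D' / 2 * N) := by gcongr
          _ = _ := by rw [hPr]; field_simp; norm_num
      have h5 : 384 / ((N : ℝ) * Pr) = 192 / (N * Pr) + 192 / (N * Pr) := by ring
      rw [h5]
      linarith
    calc q * p * (Q0 * (|u - r| + |v - s|)) = Q0 * (q * p * (|u - r| + |v - s|)) := by ring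
      _ ≤ Q0 * (384 / (N * Pr)) := by gcongr
      _ = _ := by rw [hQ]; ring
  have h2 : c ≤ (P / Pr) ^ w * (Q / (N * Pr)) := by
    refine h1.trans ?_
    apply mul_le_mul _ (hval.trans hval2) (abs_nonneg _) (by positivity)
    apply Real.rpow_le_rpow (by positivity) _ hw.le
    calc q * p * P0 ≤ (144 / Pr) * P0 := by gcongr
      _ = _ := by rw [hP]; ring
  have h3 : Pr ^ (w + 1) ≤ P ^ w * Q / c / N := by
    have h4 : (P / Pr) ^ w = P ^ w / Pr ^ w := Real.div_rpow hPp.le hPr0.le w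
    rw [h4] at h2
    have h5 : Pr ^ (w + 1) = Pr ^ w * Pr := by rw [Real.rpow_add hPr0, Real.rpow_one]
    have h6 : 0 < Pr ^ w := Real.rpow_pos_of_pos hPr0 w
    rw [h5, div_div, le_div_iff₀ (by positivity)]
    have h7 : P ^ w / Pr ^ w * (Q / (N * Pr)) = P ^ w * Q / (Pr ^ w * Pr * N) := by
      field_simp
    rw [h7, le_div_iff₀ (by positivity)] at h2
    linarith
  have h4 : Pr ≤ (P ^ w * Q / c) ^ κ * (N : ℝ) ^ (-κ) := by
    have h5 : Pr = (Pr ^ (w + 1)) ^ κ := by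
      rw [← Real.rpow_mul hPr0.le, hκ]
      have : (w + 1) * (1 / (w + 1)) = 1 := by field_simp
      rw [this, Real.rpow_one]
    rw [h5]
    calc (Pr ^ (w + 1)) ^ κ ≤ (P ^ w * Q / c / N) ^ κ :=
          Real.rpow_le_rpow (by positivity) h3 hκ0.le
      _ = (P ^ w * Q / c) ^ κ / (N : ℝ) ^ κ := Real.div_rpow (by positivity) hN0.le κ
      _ = _ := by rw [Real.rpow_neg hN0.le, div_eq_mul_inv]
  have h5 : D * D' = 4 * Pr := by rw [hPr]; ring
  rw [h5, add_mul]
  have h6 : 0 ≤ 64 / τ' * (N : ℝ) ^ (-κ) := by positivity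
  linarith

/-- finitely many pairs of constants can be replaced by one pair -/
theorem unif {ι : Type*} (s : Finset ι) (Q : ι → ℝ → ℝ → Prop)
    (hmono : ∀ i κ K κ' K', Q i κ K → 0 < κ' → κ' ≤ κ → K ≤ K' → Q i κ' K')
    (h : ∀ i ∈ s, ∃ κ K : ℝ, 0 < κ ∧ 0 < K ∧ Q i κ K) :
    ∃ κ K : ℝ, 0 < κ ∧ 0 < K ∧ ∀ i ∈ s, Q i κ K := by
  classical
  induction s using Finset.induction_on with
  | empty => exact ⟨1, 1, one_pos, one_pos, by simp⟩
  | insert a s ha ih =>
    obtain ⟨κ1, K1, h1, h2, h3⟩ := ih fun i hi => h i (Finset.mem_insert_of_mem hi)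
    obtain ⟨κ2, K2, h4, h5, h6⟩ := h a (Finset.mem_insert_self a s)
    refine ⟨min κ1 κ2, max K1 K2, lt_min h1 h4, lt_max_of_lt_left h2, ?_⟩
    intro i hi
    rcases Finset.mem_insert.1 hi with rfl | hi
    · exact hmono _ _ _ _ _ h6 (lt_min h1 h4) (min_le_right _ _) (le_max_right _ _)
    · exact hmono _ _ _ _ _ (h3 i hi) (lt_min h1 h4) (min_le_left _ _) (le_max_left _ _)

/-- from the pairs to the families: at every scale at most one exception -/
theorem family {ι : Type*} (s : Finset ι) (i₁ : ι) (y : ι → ℝ) (κ K : ℝ)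
    (N : ℕ) (hN : 0 < N) (hpair : ∀ i ∈ s, ∀ j ∈ s, i ≠ j → ∀ L M : ℕ, N ≤ L → N ≤ M →
      disc (y i) L * disc (y j) M ≤ K * (N : ℝ) ^ (-κ)) (hK : 0 < K) :
    ∃ i₀ : ι, ∀ i ∈ s, i ≠ i₀ → ∀ M : ℕ, N ≤ M → disc (y i) M ≤ √K * (N : ℝ) ^ (-(κ / 2)) := by
  have hN0 : (0 : ℝ) < N := by exact_mod_cast hN
  set Z := √K * (N : ℝ) ^ (-(κ / 2)) with hZ
  have hZ0 : 0 ≤ Z := by positivity
  have hZZ : Z * Z = K * (N : ℝ) ^ (-κ) := by
    have e1 : Z * Z = (√K * √K) * ((N : ℝ) ^ (-(κ / 2)) * (N : ℝ) ^ (-(κ / 2))) := by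
      rw [hZ]; ring
    rw [e1, Real.mul_self_sqrt hK.le, ← Real.rpow_add hN0]
    congr 2
    ring
  by_contra hcon
  push Not at hcon
  obtain ⟨i, hi, _, L, hL, h1⟩ := hcon i₁
  obtain ⟨j, hj, hji, M, hM, h2⟩ := hcon i
  have h3 := hpair i hi j hj hji.symm L M hL hM
  have h4 := mul_lt_mul'' h1 h2 hZ0 hZ0
  linarith

end Pool.Agent.Q158.EqD
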