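import Mathlib
import Pool.Agent.Q158.EqD.Disc

/-!
# Bounds for the discrepancy of the multiples of a number from its rational approximations
-/

set_option autoImplicit false

namespace Pool.Agent.Q158.EqD
open Finset

/-- If `y` has no very good rational approximations with small denominators then its discrepancy is
small at all large scales. -/
theorem disc_of_far (y δ ε : ℝ) (hδ : 0 < δ) (hε : 0 < ε)
    (h : ∀ q p : ℤ, 1 ≤ q → (q : ℝ) ≤ 12 / δ → ε < |q * y - p|) (M : ℕ) (hM : 16 / (δ * ε) ≤ M) :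
    disc y M ≤ δ := by
  by_contra hcon
  push Not at hcon
  have hM0 : (0 : ℝ) < M := lt_of_lt_of_le (by positivity) hM
  obtain ⟨r, h1, h2⟩ := approx y M (by exact_mod_cast hM0) δ hδ hcon
  have hd : (0 : ℝ) < r.den := by exact_mod_cast r.den_pos
  have h3 := h (r.den : ℤ) r.num (by exact_mod_cast r.den_pos) (by exact_mod_cast h1)
  have h4 : ((r.den : ℤ) : ℝ) * y - r.num = r.den * (y - r) := by
    have : (r : ℝ) = r.num / r.den := by exact_mod_cast (Rat.num_div_den r).symm
    rw [this]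
    push_cast
    field_simp
  rw [h4, abs_mul, abs_of_pos hd] at h3
  have h5 : (r.den : ℝ) * |y - r| ≤ r.den * (16 / (δ * M * r.den)) :=
    mul_le_mul_of_nonneg_left h2 hd.le
  have h6 : (r.den : ℝ) * (16 / (δ * M * r.den)) = 16 / (δ * M) := by field_simp
  rw [h6] at h5
  have h7 : 16 / (δ * M) ≤ ε := by
    rw [div_le_iff₀ (by positivity)]
    rw [div_le_iff₀ (by positivity)] at hM
    nlinarith
  linarith

/-- The number of the `n` in a block of `N` consecutive integers with `n x` in `[a, b)` modulo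
one. -/
noncomputable def cntI (x : ℝ) (n0 N : ℕ) (a b : ℝ) : ℕ :=
  ((Ioc n0 (n0 + N)).filter fun n : ℕ => a ≤ Int.fract (n * x) ∧ Int.fract (n * x) < b).card

theorem cntI_le (x : ℝ) (n0 N : ℕ) (a b : ℝ) : cntI x n0 N a b ≤ N := by
  unfold cntI
  refine (card_filter_le _ _).trans ?_
  simp

theorem cntI_add (x : ℝ) (n0 N N' : ℕ) (a b : ℝ) :
    cntI x n0 (N + N') a b ≤ cntI x n0 N a b + cntI x (n0 + N) N' a b := by
  classical
  unfold cntI
  refine (card_le_card ?_).trans (card_union_le _ _)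
  intro n hn
  simp only [mem_filter, mem_Ioc, mem_union] at hn ⊢
  by_cases h : n ≤ n0 + N
  · exact Or.inl ⟨⟨hn.1.1, h⟩, hn.2⟩
  · exact Or.inr ⟨⟨by omega, by omega⟩, hn.2⟩

theorem cntI_blocks (x : ℝ) (r : ℚ) (hr : |x - r| ≤ 1 / (r.den : ℝ) ^ 2) (a b : ℝ) (hab : a ≤ b)
    (m : ℕ) : ∀ n0 : ℕ, (cntI x n0 (m * r.den) a b : ℝ) ≤ m * (r.den * (b - a) + 3) := by
  induction m with
  | zero =>
    intro n0
    have : cntI x n0 (0 * r.den) a b = 0 := by
      have := cntI_le x n0 (0 * r.den) a b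
      omega
    rw [this]
    simp
  | succ m ih =>
    intro n0
    have h1 : cntI x n0 ((m + 1) * r.den) a b ≤ cntI x n0 r.den a b +
        cntI x (n0 + r.den) (m * r.den) a b := by
      rw [show (m + 1) * r.den = r.den + m * r.den by ring]
      exact cntI_add x n0 _ _ a b
    have h2 := block x r hr n0 a b hab
    have h3 := ih (n0 + r.den)
    have h4 : (cntI x n0 ((m + 1) * r.den) a b : ℝ) ≤ cntI x n0 r.den a b +
        cntI x (n0 + r.den) (m * r.den) a b := by exact_mod_cast h1
    have h5 : (cntI x n0 r.den a b : ℝ) ≤ r.den * (b - a) + 3 := h2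
    push_cast
    linarith

/-- If at each scale `m` between `N0` and `N` there is a rational approximation whose denominator
is between `m / A` and `m`, then the points are distributed as well as possible. -/
theorem cntI_sharp (x A : ℝ) (hA : 0 ≤ A) (N0 : ℕ) (a b : ℝ) (_h0 : 0 ≤ a) (hab : a ≤ b)
    (N : ℕ) (h : ∀ m : ℕ, N0 < m → m ≤ N → ∃ r : ℚ, r.den ≤ m ∧ (m : ℝ) ≤ A * r.den ∧
      |x - r| ≤ 1 / (r.den : ℝ) ^ 2) (n0 : ℕ) :
    (cntI x n0 N a b : ℝ) ≤ N * (b - a) + 3 * A * (Nat.log 2 N + 1) + N0 := by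
  have hba : 0 ≤ b - a := by linarith
  induction N using Nat.strong_induction_on generalizing n0 with
  | _ N ih =>
    by_cases hN : N ≤ N0
    · have h1 : (cntI x n0 N a b : ℝ) ≤ N0 := by
        exact_mod_cast (cntI_le x n0 N a b).trans hN
      have h2 : (0 : ℝ) ≤ N * (b - a) := mul_nonneg (by positivity) hba
      have h3 : (0 : ℝ) ≤ 3 * A * (Nat.log 2 N + 1) := by positivity
      linarith
    · push Not at hN
      obtain ⟨r, hr1, hr2, hr3⟩ := h N hN le_rfl
      set q := r.den with hq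
      have hq0 : 0 < q := r.den_pos
      have hqR : (0 : ℝ) < q := by exact_mod_cast hq0
      have hm1 : 1 ≤ N / q := (Nat.one_le_div_iff hq0).2 hr1
      have hNe : N = N / q * q + N % q := by
        have := Nat.div_add_mod N q
        rw [mul_comm] at this
        exact this.symm
      have hlt : N % q < q := Nat.mod_lt _ hq0
      have hqle : q ≤ N / q * q := Nat.le_mul_of_pos_left q hm1
      have h2r : 2 * (N % q) ≤ N := by omega
      have hNlt : N % q < N := by omega
      have hmA : ((N / q : ℕ) : ℝ) ≤ A := by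
        have h1 : ((N / q : ℕ) : ℝ) ≤ (N : ℝ) / q := Nat.cast_div_le
        have h2 : (N : ℝ) / q ≤ A := by
          rw [div_le_iff₀ hqR]; exact hr2
        linarith
      have h1 : cntI x n0 N a b ≤ cntI x n0 (N / q * q) a b +
          cntI x (n0 + N / q * q) (N % q) a b := by
        conv_lhs => rw [hNe]
        exact cntI_add x n0 _ _ a b
      have h1' : (cntI x n0 N a b : ℝ) ≤ cntI x n0 (N / q * q) a b +
          cntI x (n0 + N / q * q) (N % q) a b := by exact_mod_cast h1
      have h2 := cntI_blocks x r hr3 a b hab (N / q) n0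
      have hNR : (N : ℝ) = (N / q : ℕ) * q + (N % q : ℕ) := by exact_mod_cast hNe
      have h4 : ((N / q : ℕ) : ℝ) * (q * (b - a) + 3) ≤ (N / q : ℕ) * q * (b - a) + 3 * A := by
        nlinarith
      by_cases hz : N % q = 0
      · have h5 : (cntI x (n0 + N / q * q) (N % q) a b : ℝ) = 0 := by
          have := cntI_le x (n0 + N / q * q) (N % q) a b
          rw [hz] at this ⊢
          exact_mod_cast Nat.le_zero.1 this
        have h6 : (0 : ℝ) ≤ 3 * A * Nat.log 2 N := by positivity
        rw [hz] at hNR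
        have h7 : (N : ℝ) * (b - a) = (N / q : ℕ) * q * (b - a) := by
          rw [hNR]; push_cast; ring
        have h8 : (0 : ℝ) ≤ N0 := by positivity
        rw [h7]
        linarith
      · have h3 := ih (N % q) hNlt (fun m hm1 hm2 => h m hm1 (by omega)) (n0 + N / q * q)
        have hlog : Nat.log 2 (N % q) + 1 ≤ Nat.log 2 N := by
          have h5 : Nat.log 2 (N % q * 2) = Nat.log 2 (N % q) + 1 :=
            Nat.log_mul_base (by norm_num) hz
          rw [← h5]
          exact Nat.log_mono_right (by omega)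
        have hlogR : ((Nat.log 2 (N % q) : ℕ) : ℝ) + 1 ≤ Nat.log 2 N := by exact_mod_cast hlog
        have h6 : 3 * A * ((Nat.log 2 (N % q) : ℕ) + 1) ≤ 3 * A * Nat.log 2 N :=
          mul_le_mul_of_nonneg_left hlogR (by positivity)
        have h7 : (N : ℝ) * (b - a) = (N / q : ℕ) * q * (b - a) + (N % q : ℕ) * (b - a) := by
          conv_lhs => rw [hNR]
          ring
        rw [h7]
        linarith

/-- **Discrepancy and partial quotients.** -/
theorem disc_sharp (x A : ℝ) (hA : 0 ≤ A) (N0 N : ℕ) (hN : 0 < N)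
    (h : ∀ m : ℕ, N0 < m → m ≤ N → ∃ r : ℚ, r.den ≤ m ∧ (m : ℝ) ≤ A * r.den ∧
      |x - r| ≤ 1 / (r.den : ℝ) ^ 2) :
    disc x N ≤ 2 * (3 * A * (Nat.log 2 N + 1) + N0) / N := by
  have hNR : (0 : ℝ) < N := by exact_mod_cast hN
  have hcI : ∀ a b : ℝ, cnt x N a b = cntI x 0 N a b := by
    intro a b
    unfold cnt cntI
    rw [zero_add]
    rfl
  set E : ℝ := 3 * A * (Nat.log 2 N + 1) + N0 with hE
  have hE0 : 0 ≤ E := by rw [hE]; positivity
  apply disc_le
  intro a b h0 h1 h2
  have hu := cntI_sharp x A hA N0 a b h0 h1 N h 0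
  have hl1 := cntI_sharp x A hA N0 0 a le_rfl h0 N h 0
  have hl2 := cntI_sharp x A hA N0 b 1 (h0.trans h1) h2 N h 0
  rw [← hcI] at hu hl1 hl2
  have ht := cnt_total x N a b
  have e : (cnt x N a b : ℝ) / N - (b - a) = ((cnt x N a b : ℝ) - N * (b - a)) / N := by
    field_simp
  rw [e, abs_div, abs_of_pos hNR]
  apply div_le_div_of_nonneg_right _ hNR.le
  rw [abs_le]
  constructor
  · rw [hE]; nlinarith
  · rw [hE]; nlinarith

/-- exponential version of `disc_of_far` -/
theorem disc_exp {C B : ℝ} (hC : 1 < C) (hB : 1 < B) (n : ℕ) (hn : 1 ≤ n) (y : ℝ)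
    (h : ∀ q p : ℤ, 1 ≤ q → (q : ℝ) ≤ (12 * C) ^ n → |q * y - p| < 1 →
      (B ^ n)⁻¹ < |q * y - p|) (M : ℕ) (hM : (16 * B * C) ^ n ≤ M) : disc y M ≤ (C ^ n)⁻¹ := by
  have hC0 : 0 < C := by linarith
  have hB0 : 0 < B := by linarith
  have h12 : (12 : ℝ) ≤ 12 ^ n := le_self_pow₀ (by norm_num) (by omega)
  have h16 : (16 : ℝ) ≤ 16 ^ n := le_self_pow₀ (by norm_num) (by omega)
  apply disc_of_far y ((C ^ n)⁻¹) ((B ^ n)⁻¹) (by positivity) (by positivity)
  · intro q p hq hqC
    by_cases h1 : |(q : ℝ) * y - p| < 1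
    · apply h q p hq _ h1
      rw [div_inv_eq_mul] at hqC
      rw [mul_pow]
      exact hqC.trans (mul_le_mul_of_nonneg_right h12 (by positivity))
    · push Not at h1
      refine lt_of_lt_of_le ?_ h1
      apply inv_lt_one_of_one_lt₀
      exact one_lt_pow₀ hB (by omega)
  · refine le_trans ?_ hM
    rw [← mul_inv, div_inv_eq_mul, mul_pow, mul_pow]
    calc (16 : ℝ) * (C ^ n * B ^ n) ≤ 16 ^ n * (C ^ n * B ^ n) := by gcongr
      _ = 16 ^ n * B ^ n * C ^ n := by ring

/-- the values of an integer polynomial with bounded coefficients -/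
theorem aeval_bound {k : ℕ} (x : Fin k → ℝ) (X : ℝ) (hX : 1 ≤ X) (hx : ∀ i, |x i| ≤ X) (d : ℕ)
    (P : MvPolynomial (Fin k) ℤ) (hP : P.totalDegree ≤ d) (H : ℝ) (hH : ∀ e, |((P.coeff e : ℤ) : ℝ)| ≤ H) :
    |MvPolynomial.aeval x P| ≤ ((d : ℝ) + 1) ^ k * (H * X ^ d) := by
  classical
  have hH0 : 0 ≤ H := (abs_nonneg _).trans (hH 0)
  have hmon : ∀ e ∈ P.support, |∏ i, x i ^ e i| ≤ X ^ d := by
    intro e he
    rw [Finset.abs_prod]
    have h1 : ∀ i ∈ (univ : Finset (Fin k)), |x i ^ e i| ≤ X ^ e i := fun i _ => by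
      rw [abs_pow]
      exact pow_le_pow_left₀ (abs_nonneg _) (hx i) _
    refine (Finset.prod_le_prod (fun i _ => abs_nonneg _) h1).trans ?_
    rw [Finset.prod_pow_eq_pow_sum]
    apply pow_le_pow_right₀ hX
    have h2 := MvPolynomial.le_totalDegree he
    rw [Finsupp.sum_fintype _ _ (fun _ => rfl)] at h2
    exact h2.trans hP
  have hcard : (P.support.card : ℝ) ≤ ((d : ℝ) + 1) ^ k := by
    have h1 : P.support.card ≤ (Fintype.piFinset fun _ : Fin k => range (d + 1)).card := by
      apply Finset.card_le_card_of_injOn (fun (e : Fin k →₀ ℕ) (i : Fin k) => e i)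
      · intro e he
        rw [Finset.mem_coe, Fintype.mem_piFinset]
        intro i
        rw [Finset.mem_range]
        show e i < d + 1
        have h2 := MvPolynomial.le_totalDegree he
        rw [Finsupp.sum_fintype _ _ (fun _ => rfl)] at h2
        have h3 : e i ≤ ∑ j, e j := Finset.single_le_sum (fun j _ => Nat.zero_le _) (mem_univ i)
        omega
      · intro e _ e' _ hee
        exact Finsupp.ext fun i => congrFun hee i
    rw [Fintype.card_piFinset] at h1
    simp only [card_range, prod_const, card_univ, Fintype.card_fin] at h1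
    exact_mod_cast h1
  rw [MvPolynomial.aeval_def, MvPolynomial.eval₂_eq]
  refine (Finset.abs_sum_le_sum_abs _ _).trans ?_
  have h3 : ∀ e ∈ P.support, |algebraMap ℤ ℝ (P.coeff e) * ∏ i ∈ e.support, x i ^ e i| ≤ H * X ^ d := by
    intro e he
    rw [abs_mul]
    apply mul_le_mul (hH e) _ (abs_nonneg _) hH0
    have : ∏ i ∈ e.support, x i ^ e i = ∏ i, x i ^ e i := by
      apply Finset.prod_subset (Finset.subset_univ _)
      intro i _ hi
      rw [Finsupp.notMem_support_iff.1 hi, pow_zero]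
    rw [this]
    exact hmon e he
  refine (Finset.sum_le_sum h3).trans ?_
  rw [sum_const, nsmul_eq_mul]
  apply mul_le_mul_of_nonneg_right hcard
  positivity

end Pool.Agent.Q158.EqD
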