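import Mathlib
import Pool.Agent.Q158.EqD.Gen

/-!
# The field generated by the numbers with a large discrepancy
-/

set_option autoImplicit false

namespace Pool.Agent.Q158.EqD
open Real Polynomial

/-- `y` has a rational approximation with denominator at most `Q` and error at most `ε`. -/
def App (y Q ε : ℝ) : Prop := ∃ r : ℚ, (r.den : ℝ) ≤ Q ∧ |y - r| ≤ ε

theorem App.mono {y Q ε Q' ε' : ℝ} (h : App y Q ε) (hQ : Q ≤ Q') (hε : ε ≤ ε') : App y Q' ε' := by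
  obtain ⟨r, h1, h2⟩ := h
  exact ⟨r, h1.trans hQ, h2.trans hε⟩

/-- `z` inherits approximations from `B`. -/
def Cls (B : Set ℝ) (z : ℝ) : Prop :=
  ∃ C : ℕ, ∀ Q ε : ℝ, 1 ≤ Q → 0 ≤ ε → C * Q ^ C * ε ≤ 1 → (∀ y ∈ B, App y Q ε) →
    App z (C * Q ^ C) (C * Q ^ C * ε)

theorem cq_mono {C C' : ℕ} (h : C ≤ C') {Q : ℝ} (hQ : 1 ≤ Q) : (C : ℝ) * Q ^ C ≤ C' * Q ^ C' := by
  have h1 : (C : ℝ) ≤ C' := by exact_mod_cast h
  have h2 : Q ^ C ≤ Q ^ C' := pow_le_pow_right₀ hQ h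
  exact mul_le_mul h1 h2 (by positivity) (by positivity)

theorem cq_bound {a C k : ℕ} (h : a ≤ C) (hk : k ≤ C) {Q : ℝ} (hQ : 1 ≤ Q) :
    (a : ℝ) * Q ^ k ≤ C * Q ^ C := by
  have h1 : (a : ℝ) ≤ C := by exact_mod_cast h
  have h2 : Q ^ k ≤ Q ^ C := pow_le_pow_right₀ hQ hk
  exact mul_le_mul h1 h2 (by positivity) (by positivity)

theorem cls_mem {B : Set ℝ} {z : ℝ} (h : z ∈ B) : Cls B z := by
  refine ⟨1, ?_⟩
  intro Q ε hQ hε _ hB
  refine (hB z h).mono ?_ ?_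
  · simp
  · simp only [Nat.cast_one, pow_one, one_mul]
    exact le_mul_of_one_le_left hε hQ

theorem cls_rat (B : Set ℝ) (r : ℚ) : Cls B r := by
  refine ⟨r.den, ?_⟩
  intro Q ε hQ hε _ _
  refine ⟨r, ?_, ?_⟩
  · have : (1 : ℝ) ≤ Q ^ r.den := one_le_pow₀ hQ
    have h0 : (0 : ℝ) < r.den := by exact_mod_cast r.den_pos
    nlinarith
  · rw [sub_self, abs_zero]
    positivity

theorem cls_neg {B : Set ℝ} {z : ℝ} (h : Cls B z) : Cls B (-z) := by
  obtain ⟨C, h⟩ := h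
  refine ⟨C, ?_⟩
  intro Q ε hQ hε h1 hB
  obtain ⟨r, h2, h3⟩ := h Q ε hQ hε h1 hB
  refine ⟨-r, ?_, ?_⟩
  · simpa using h2
  · push_cast
    rw [← abs_neg]
    convert h3 using 2
    ring

theorem den_add_le (r s : ℚ) : ((r + s).den : ℝ) ≤ r.den * s.den := by
  have := Nat.le_of_dvd (Nat.mul_pos r.den_pos s.den_pos) (Rat.add_den_dvd r s)
  exact_mod_cast this

theorem den_mul_le (r s : ℚ) : ((r * s).den : ℝ) ≤ r.den * s.den := by
  have := Nat.le_of_dvd (Nat.mul_pos r.den_pos s.den_pos) (Rat.mul_den_dvd r s)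
  exact_mod_cast this

theorem cls_add {B : Set ℝ} {z w : ℝ} (hz : Cls B z) (hw : Cls B w) : Cls B (z + w) := by
  obtain ⟨C1, h1⟩ := hz
  obtain ⟨C2, h2⟩ := hw
  refine ⟨C1 + C2 + C1 * C2, ?_⟩
  set C := C1 + C2 + C1 * C2 with hC
  intro Q ε hQ hε h3 hB
  have a1 : (C1 : ℝ) * Q ^ C1 ≤ C * Q ^ C := cq_mono (by omega) hQ
  have a2 : (C2 : ℝ) * Q ^ C2 ≤ C * Q ^ C := cq_mono (by omega) hQ
  obtain ⟨r, h4, h5⟩ := h1 Q ε hQ hε ((mul_le_mul_of_nonneg_right a1 hε).trans h3) hB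
  obtain ⟨s, h6, h7⟩ := h2 Q ε hQ hε ((mul_le_mul_of_nonneg_right a2 hε).trans h3) hB
  refine ⟨r + s, ?_, ?_⟩
  · refine (den_add_le r s).trans ?_
    calc (r.den : ℝ) * s.den ≤ (C1 * Q ^ C1) * (C2 * Q ^ C2) :=
          mul_le_mul h4 h6 (by positivity) (by positivity)
      _ = ((C1 * C2 : ℕ) : ℝ) * Q ^ (C1 + C2) := by push_cast; ring
      _ ≤ C * Q ^ C := cq_bound (by omega) (by omega) hQ
  · have h8 : |z + w - ((r + s : ℚ) : ℝ)| ≤ |z - r| + |w - s| := by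
      push_cast
      calc |z + w - (r + s)| = |(z - r) + (w - s)| := by ring_nf
        _ ≤ _ := abs_add_le _ _
    refine h8.trans ?_
    have a3 : (C1 : ℝ) * Q ^ C1 ≤ C1 * Q ^ (C1 + C2) :=
      mul_le_mul_of_nonneg_left (pow_le_pow_right₀ hQ (by omega)) (by positivity)
    have a4 : (C2 : ℝ) * Q ^ C2 ≤ C2 * Q ^ (C1 + C2) :=
      mul_le_mul_of_nonneg_left (pow_le_pow_right₀ hQ (by omega)) (by positivity)
    have a5 : ((C1 + C2 : ℕ) : ℝ) * Q ^ (C1 + C2) ≤ C * Q ^ C :=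
      cq_bound (by omega) (by omega) hQ
    push_cast at a5
    calc |z - r| + |w - s| ≤ C1 * Q ^ C1 * ε + C2 * Q ^ C2 * ε := add_le_add h5 h7
      _ = (C1 * Q ^ C1 + C2 * Q ^ C2) * ε := by ring
      _ ≤ C * Q ^ C * ε := mul_le_mul_of_nonneg_right (by linarith) hε

theorem cls_mul {B : Set ℝ} {z w : ℝ} (hz : Cls B z) (hw : Cls B w) : Cls B (z * w) := by
  obtain ⟨C1, h1⟩ := hz
  obtain ⟨C2, h2⟩ := hw
  obtain ⟨M, hM⟩ := exists_nat_ge (|z| + |w| + 1)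
  refine ⟨C1 + C2 + C1 * C2 + M * (C1 + C2), ?_⟩
  set C := C1 + C2 + C1 * C2 + M * (C1 + C2) with hC
  intro Q ε hQ hε h3 hB
  have a1 : (C1 : ℝ) * Q ^ C1 ≤ C * Q ^ C := cq_mono (by omega) hQ
  have a2 : (C2 : ℝ) * Q ^ C2 ≤ C * Q ^ C := cq_mono (by omega) hQ
  obtain ⟨r, h4, h5⟩ := h1 Q ε hQ hε ((mul_le_mul_of_nonneg_right a1 hε).trans h3) hB
  obtain ⟨s, h6, h7⟩ := h2 Q ε hQ hε ((mul_le_mul_of_nonneg_right a2 hε).trans h3) hB
  refine ⟨r * s, ?_, ?_⟩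
  · refine (den_mul_le r s).trans ?_
    calc (r.den : ℝ) * s.den ≤ (C1 * Q ^ C1) * (C2 * Q ^ C2) :=
          mul_le_mul h4 h6 (by positivity) (by positivity)
      _ = ((C1 * C2 : ℕ) : ℝ) * Q ^ (C1 + C2) := by push_cast; ring
      _ ≤ C * Q ^ C := cq_bound (by omega) (by omega) hQ
  · have hs : |(s : ℝ)| ≤ |w| + 1 := by
      have e1 : |w - s| ≤ 1 := h7.trans ((mul_le_mul_of_nonneg_right a2 hε).trans h3)
      have e2 : |(s : ℝ)| ≤ |w| + |w - s| := by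
        calc |(s : ℝ)| = |w - (w - s)| := by ring_nf
          _ ≤ |w| + |w - s| := abs_sub _ _
      linarith
    have h8 : |z * w - ((r * s : ℚ) : ℝ)| ≤ |z| * |w - s| + |(s : ℝ)| * |z - r| := by
      push_cast
      calc |z * w - r * s| = |z * (w - s) + s * (z - r)| := by ring_nf
        _ ≤ |z * (w - s)| + |s * (z - r)| := abs_add_le _ _
        _ = _ := by rw [abs_mul, abs_mul]
    refine h8.trans ?_
    have a3 : (C1 : ℝ) * Q ^ C1 ≤ C1 * Q ^ (C1 + C2) :=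
      mul_le_mul_of_nonneg_left (pow_le_pow_right₀ hQ (by omega)) (by positivity)
    have a4 : (C2 : ℝ) * Q ^ C2 ≤ C2 * Q ^ (C1 + C2) :=
      mul_le_mul_of_nonneg_left (pow_le_pow_right₀ hQ (by omega)) (by positivity)
    have a5 : ((M * (C1 + C2) : ℕ) : ℝ) * Q ^ (C1 + C2) ≤ C * Q ^ C :=
      cq_bound (by omega) (by
        have : C1 + C2 ≤ C := by omega
        exact this) hQ
    push_cast at a5
    have hz0 := abs_nonneg z
    have hw0 := abs_nonneg w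
    have b1 : |z| * |w - s| ≤ M * (C2 * Q ^ (C1 + C2) * ε) :=
      mul_le_mul (by linarith) (h7.trans (mul_le_mul_of_nonneg_right a4 hε)) (abs_nonneg _)
        (by positivity)
    have b2 : |(s : ℝ)| * |z - r| ≤ M * (C1 * Q ^ (C1 + C2) * ε) :=
      mul_le_mul (by linarith) (h5.trans (mul_le_mul_of_nonneg_right a3 hε)) (abs_nonneg _)
        (by positivity)
    calc |z| * |w - s| + |(s : ℝ)| * |z - r|
        ≤ M * (C2 * Q ^ (C1 + C2) * ε) + M * (C1 * Q ^ (C1 + C2) * ε) := add_le_add b1 b2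
      _ = (M * (C1 + C2) * Q ^ (C1 + C2)) * ε := by ring
      _ ≤ C * Q ^ C * ε := mul_le_mul_of_nonneg_right a5 hε

theorem cls_inv {B : Set ℝ} {z : ℝ} (hz : Cls B z) : Cls B z⁻¹ := by
  by_cases hz0 : z = 0
  · rw [hz0, inv_zero]
    simpa using cls_rat B 0
  obtain ⟨C1, h1⟩ := hz
  have hzp : 0 < |z| := abs_pos.2 hz0
  obtain ⟨M, hM⟩ := exists_nat_ge (|z| + 1 + 2 / |z|)
  have hd : 0 < 2 / |z| := by positivity
  refine ⟨C1 + M * C1 + M * M * C1, ?_⟩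
  set C := C1 + M * C1 + M * M * C1 with hC
  intro Q ε hQ hε h3 hB
  have a1 : (C1 : ℝ) * Q ^ C1 ≤ C * Q ^ C := cq_mono (by omega) hQ
  obtain ⟨r, h4, h5⟩ := h1 Q ε hQ hε ((mul_le_mul_of_nonneg_right a1 hε).trans h3) hB
  have hden : (1 : ℝ) ≤ r.den := by exact_mod_cast r.den_pos
  have hM1 : (1 : ℝ) ≤ M := by linarith [abs_nonneg z]
  have a2 : ((M * C1 : ℕ) : ℝ) * Q ^ C1 ≤ C * Q ^ C := cq_bound (by omega) (by omega) hQ
  have a3 : ((M * M * C1 : ℕ) : ℝ) * Q ^ C1 ≤ C * Q ^ C := cq_bound (by omega) (by omega) hQ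
  push_cast at a2 a3
  have he : |z - r| ≤ |z| / 2 := by
    have e1 : (M : ℝ) * (C1 * Q ^ C1 * ε) ≤ 1 := by
      calc (M : ℝ) * (C1 * Q ^ C1 * ε) = (M * C1 * Q ^ C1) * ε := by ring
        _ ≤ C * Q ^ C * ε := mul_le_mul_of_nonneg_right a2 hε
        _ ≤ 1 := h3
    have e2 : (M : ℝ) * |z - r| ≤ 1 := (mul_le_mul_of_nonneg_left h5 (by positivity)).trans e1
    have e3 : 2 / |z| * |z - r| ≤ 1 := by
      refine le_trans (mul_le_mul_of_nonneg_right ?_ (abs_nonneg _)) e2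
      linarith [abs_nonneg z]
    rw [div_mul_eq_mul_div, div_le_one hzp] at e3
    linarith
  have hr : |z| / 2 ≤ |(r : ℝ)| := by
    have : |z| ≤ |(r : ℝ)| + |z - r| := by
      calc |z| = |r + (z - r)| := by ring_nf
        _ ≤ _ := abs_add_le _ _
    linarith
  have hr2 : |(r : ℝ)| ≤ |z| + |z| / 2 := by
    have : |(r : ℝ)| ≤ |z| + |z - r| := by
      calc |(r : ℝ)| = |z - (z - r)| := by ring_nf
        _ ≤ |z| + |z - r| := abs_sub _ _
    linarith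
  have hrp : 0 < |(r : ℝ)| := by linarith
  have hr0 : (r : ℝ) ≠ 0 := abs_pos.1 hrp
  have hr0' : r ≠ 0 := by exact_mod_cast hr0
  refine ⟨r⁻¹, ?_, ?_⟩
  · have hnum : ((r⁻¹).den : ℝ) = |(r : ℝ)| * r.den := by
      have e1 : (r⁻¹).den = r.num.natAbs := by
        rw [Rat.den_inv_of_ne_zero hr0']
      rw [e1, Nat.cast_natAbs, Int.cast_abs]
      have e2 : (r : ℝ) = r.num / r.den := by exact_mod_cast (Rat.num_div_den r).symm
      rw [e2, abs_div, Nat.abs_cast]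
      field_simp
    rw [hnum]
    have e3 : |z| + |z| / 2 ≤ M * 2 := by
      linarith [abs_nonneg z]
    have hM2 : |(r : ℝ)| ≤ M := by
      by_cases hz1 : |z| ≤ 2
      · linarith
      · push Not at hz1
        have : |(r : ℝ)| ≤ |z| + 1 := by
          have e4 : |z - r| ≤ 1 := h5.trans ((mul_le_mul_of_nonneg_right a1 hε).trans h3)
          have : |(r : ℝ)| ≤ |z| + |z - r| := by
            calc |(r : ℝ)| = |z - (z - r)| := by ring_nf
              _ ≤ |z| + |z - r| := abs_sub _ _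
          linarith
        linarith
    calc |(r : ℝ)| * r.den ≤ M * (C1 * Q ^ C1) := mul_le_mul hM2 h4 (by positivity) (by positivity)
      _ = M * C1 * Q ^ C1 := by ring
      _ ≤ C * Q ^ C := a2
  · push_cast
    have e1 : |z⁻¹ - (r : ℝ)⁻¹| = |z - r| / (|z| * |(r : ℝ)|) := by
      rw [inv_sub_inv hz0 hr0, abs_div, abs_mul, abs_sub_comm]
    rw [e1, div_le_iff₀ (by positivity)]
    have e2 : 2 / |z| ≤ M := by linarith [abs_nonneg z]
    rw [div_le_iff₀ hzp] at e2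
    have e3 : 1 ≤ M * M * (|z| * |(r : ℝ)|) := by
      have f1 : 2 * 2 ≤ (M * |z|) * (M * |z|) := mul_le_mul e2 e2 (by norm_num) (by positivity)
      have f2 : (M : ℝ) * M * (|z| * (|z| / 2)) ≤ M * M * (|z| * |(r : ℝ)|) := by
        apply mul_le_mul_of_nonneg_left _ (by positivity)
        exact mul_le_mul_of_nonneg_left hr hzp.le
      nlinarith
    calc |z - r| ≤ C1 * Q ^ C1 * ε := h5
      _ ≤ (C1 * Q ^ C1 * ε) * (M * M * (|z| * |(r : ℝ)|)) :=
          le_mul_of_one_le_right (by positivity) e3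
      _ = (M * M * C1 * Q ^ C1) * ε * (|z| * |(r : ℝ)|) := by ring
      _ ≤ C * Q ^ C * ε * (|z| * |(r : ℝ)|) := by
          apply mul_le_mul_of_nonneg_right _ (by positivity)
          exact mul_le_mul_of_nonneg_right a3 hε

theorem cls_closure {B : Set ℝ} {z : ℝ} (hz : z ∈ Subfield.closure B) : Cls B z := by
  induction hz using Subfield.closure_induction with
  | mem x hx => exact cls_mem hx
  | one => simpa using cls_rat B 1
  | add x y _ _ h1 h2 => exact cls_add h1 h2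
  | neg x _ h => exact cls_neg h
  | inv x _ h => exact cls_inv h
  | mul x y _ _ h1 h2 => exact cls_mul h1 h2

/-- `B` is not simultaneously approximable. -/
def Good (B : Set ℝ) : Prop :=
  ∃ C : ℕ, ∀ Q ε : ℝ, 1 ≤ Q → 0 ≤ ε → (∀ y ∈ B, App y Q ε) → 1 < C * Q ^ C * ε

theorem good_of_sim {r : ℕ} (B : Set ℝ) (z : Fin r → ℝ) (c μ : ℝ) (hc : 0 < c) (hμ : 0 < μ)
    (hz : ∀ (q : ℕ) (p : Fin r → ℤ), 0 < q → ∃ i, c ≤ (q : ℝ) ^ μ * |z i - p i / q|)
    (hB : ∀ i, z i ∈ Subfield.closure B) : Good B := by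
  have h1 : ∀ i, Cls B (z i) := fun i => cls_closure (hB i)
  choose C hC using h1
  set S := ∑ i, C i with hS
  have hCS : ∀ i, C i ≤ S := fun i => Finset.single_le_sum (f := C) (fun _ _ => Nat.zero_le _)
    (Finset.mem_univ i)
  -- the common denominator is at most `(S Q^S)^r`
  obtain ⟨m, hm⟩ := exists_nat_ge (S * r * μ + S)
  obtain ⟨k, hk⟩ := exists_nat_gt (((S : ℝ) ^ r) ^ μ * S / c)
  refine ⟨S + m + k, ?_⟩
  set D := S + m + k with hD
  intro Q ε hQ hε hy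
  by_contra hcon
  push Not at hcon
  have hsmall : ∀ i, (C i : ℝ) * Q ^ C i * ε ≤ 1 := fun i =>
    (mul_le_mul_of_nonneg_right (cq_mono ((hCS i).trans (by omega)) hQ) hε).trans hcon
  have h2 : ∀ i, ∃ ρ : ℚ, (ρ.den : ℝ) ≤ S * Q ^ S ∧ |z i - ρ| ≤ S * Q ^ S * ε := fun i =>
    (hC i Q ε hQ hε (hsmall i) hy).mono (cq_mono (hCS i) hQ)
      (mul_le_mul_of_nonneg_right (cq_mono (hCS i) hQ) hε)
  choose ρ hρ1 hρ2 using h2
  have hq : 0 < ∏ i, (ρ i).den := Finset.prod_pos fun i _ => (ρ i).den_pos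
  obtain ⟨i, hi⟩ := hz (∏ i, (ρ i).den) (fun i => (ρ i).num * ∏ j ∈ Finset.univ.erase i, ((ρ j).den : ℤ)) hq
  have hfrac : (((ρ i).num * ∏ j ∈ Finset.univ.erase i, ((ρ j).den : ℤ) : ℤ) : ℝ) /
      ((∏ i, (ρ i).den : ℕ) : ℝ) = ρ i := by
    have e1 : ((∏ i, (ρ i).den : ℕ) : ℝ) = (ρ i).den * ∏ j ∈ Finset.univ.erase i, ((ρ j).den : ℝ) := by
      rw [← Finset.mul_prod_erase Finset.univ _ (Finset.mem_univ i)]
      push_cast
      rfl
    have e2 : (∏ j ∈ Finset.univ.erase i, ((ρ j).den : ℝ)) ≠ 0 :=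
      Finset.prod_ne_zero_iff.2 fun j _ => by exact_mod_cast (ρ j).den_pos.ne'
    have e3 : ((ρ i).den : ℝ) ≠ 0 := by exact_mod_cast (ρ i).den_pos.ne'
    rw [e1]
    push_cast
    rw [mul_div_mul_right _ _ e2]
    exact_mod_cast Rat.num_div_den (ρ i)
  rw [hfrac] at hi
  have hSQ : (1 : ℝ) ≤ S * Q ^ S := by
    have : (1 : ℝ) ≤ (ρ i).den := by exact_mod_cast (ρ i).den_pos
    linarith [hρ1 i]
  have hqle : ((∏ i, (ρ i).den : ℕ) : ℝ) ≤ (S * Q ^ S) ^ r := by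
    push_cast
    calc ∏ i, ((ρ i).den : ℝ) ≤ ∏ _i : Fin r, ((S : ℝ) * Q ^ S) :=
          Finset.prod_le_prod (fun i _ => by positivity) fun i _ => hρ1 i
      _ = _ := by simp
  have hq0 : (0 : ℝ) ≤ ((∏ i, (ρ i).den : ℕ) : ℝ) := by positivity
  have h3 : c ≤ ((S * Q ^ S) ^ r) ^ μ * (S * Q ^ S * ε) :=
    hi.trans (mul_le_mul (Real.rpow_le_rpow hq0 hqle hμ.le) (hρ2 i) (abs_nonneg _) (by positivity))
  have hQ0 : 0 < Q := by linarith
  have h4 : (((S : ℝ) * Q ^ S) ^ r) ^ μ = ((S : ℝ) ^ r) ^ μ * Q ^ ((S : ℝ) * r * μ) := by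
    rw [mul_pow, Real.mul_rpow (by positivity) (by positivity), ← pow_mul,
      ← Real.rpow_natCast Q (S * r), ← Real.rpow_mul hQ0.le]
    push_cast
    ring_nf
  have h5 : Q ^ ((S : ℝ) * r * μ) * Q ^ S ≤ Q ^ D := by
    rw [← Real.rpow_natCast Q S, ← Real.rpow_add hQ0, ← Real.rpow_natCast Q D]
    apply Real.rpow_le_rpow_of_exponent_le hQ
    refine hm.trans ?_
    exact_mod_cast (by omega : m ≤ D)
  have h6 : ((S : ℝ) ^ r) ^ μ * S < c * D := by
    rw [div_lt_iff₀ hc] at hk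
    have : (k : ℝ) ≤ D := by exact_mod_cast (by omega : k ≤ D)
    nlinarith
  have h7 : c * 1 ≥ c * (D * Q ^ D * ε) := mul_le_mul_of_nonneg_left hcon hc.le
  rw [h4] at h3
  have hε0 : 0 < ε := by
    rcases hε.lt_or_eq with h | h
    · exact h
    · rw [← h] at h3
      simp at h3
      linarith
  have h8 : c ≤ (((S : ℝ) ^ r) ^ μ * S) * (Q ^ D * ε) := by
    calc c ≤ ((S : ℝ) ^ r) ^ μ * Q ^ ((S : ℝ) * r * μ) * (S * Q ^ S * ε) := h3
      _ = (((S : ℝ) ^ r) ^ μ * S) * ((Q ^ ((S : ℝ) * r * μ) * Q ^ S) * ε) := by ring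
      _ ≤ _ := by
          apply mul_le_mul_of_nonneg_left _ (by positivity)
          exact mul_le_mul_of_nonneg_right h5 hε
  have h9 : 0 < Q ^ D * ε := by positivity
  have h10 : (((S : ℝ) ^ r) ^ μ * S) * (Q ^ D * ε) < (c * D) * (Q ^ D * ε) :=
    mul_lt_mul_of_pos_right h6 h9
  nlinarith

theorem good_of_alg (B : Set ℝ) (z : ℝ) (hz : MeasR z)
    (h : IsAlgebraic (Subfield.closure B) z) : Good B := by
  obtain ⟨P, hP0, hPz⟩ := h
  set d := P.natDegree with hd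
  have h1 : ∀ j, Cls B (P.coeff j : ℝ) := fun j => cls_closure (P.coeff j).2
  choose C hC using h1
  set S := ∑ j ∈ Finset.range (d + 1), C j with hS
  have hCS : ∀ j ∈ Finset.range (d + 1), C j ≤ S := fun j hj =>
    Finset.single_le_sum (f := C) (fun _ _ => Nat.zero_le _) hj
  obtain ⟨w, c, hw, hc, hmeas⟩ := hz d
  have hlead : (P.coeff d : ℝ) ≠ 0 := by
    have : P.coeff d ≠ 0 := by
      rw [hd]; exact Polynomial.leadingCoeff_ne_zero.2 hP0
    exact_mod_cast this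
  obtain ⟨F, hF⟩ := exists_nat_ge (∑ j ∈ Finset.range (d + 1), |(P.coeff j : ℝ)| + 1)
  obtain ⟨G, hG⟩ := exists_nat_ge (∑ j ∈ Finset.range (d + 1), |z| ^ j)
  obtain ⟨L, hL⟩ := exists_nat_gt (1 / |(P.coeff d : ℝ)|)
  obtain ⟨m, hm⟩ := exists_nat_ge (S * (d + 1) * w + S * (d + 1) + S)
  obtain ⟨k, hk⟩ := exists_nat_gt ((((S : ℝ) ^ (d + 1)) * F) ^ w * (S ^ (d + 1) * (S * G)) / c)
  refine ⟨S + m + k + L * S, ?_⟩
  set D := S + m + k + L * S with hD
  intro Q ε hQ hε hy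
  by_contra hcon
  push Not at hcon
  have hQ0 : 0 < Q := by linarith
  have hsmall : ∀ j ∈ Finset.range (d + 1), (C j : ℝ) * Q ^ C j * ε ≤ 1 := fun j hj =>
    (mul_le_mul_of_nonneg_right (cq_mono ((hCS j hj).trans (by omega)) hQ) hε).trans hcon
  have h2 : ∀ j : ℕ, ∃ ρ : ℚ, j ∈ Finset.range (d + 1) → (ρ.den : ℝ) ≤ S * Q ^ S ∧
      |(P.coeff j : ℝ) - ρ| ≤ S * Q ^ S * ε := by
    intro j
    by_cases hj : j ∈ Finset.range (d + 1)
    · obtain ⟨ρ, h⟩ := (hC j Q ε hQ hε (hsmall j hj) hy).mono (cq_mono (hCS j hj) hQ)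
        (mul_le_mul_of_nonneg_right (cq_mono (hCS j hj) hQ) hε)
      exact ⟨ρ, fun _ => h⟩
    · exact ⟨0, fun h => absurd h hj⟩
  choose ρ hρ using h2
  have hdmem : d ∈ Finset.range (d + 1) := Finset.mem_range.2 (by omega)
  have hSQ : (1 : ℝ) ≤ S * Q ^ S := by
    have : (1 : ℝ) ≤ (ρ d).den := by exact_mod_cast (ρ d).den_pos
    linarith [(hρ d hdmem).1]
  have hsm : S * Q ^ S * ε ≤ 1 := by
    refine le_trans (mul_le_mul_of_nonneg_right (cq_mono (by omega) hQ) hε) hcon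
  -- the integer polynomial
  set q := ∏ j ∈ Finset.range (d + 1), (ρ j).den with hq
  have hqpos : 0 < q := Finset.prod_pos fun j _ => (ρ j).den_pos
  set num : ℕ → ℤ := fun i => (ρ i).num * ∏ j ∈ (Finset.range (d + 1)).erase i, ((ρ j).den : ℤ)
    with hnum
  have hnumv : ∀ i ∈ Finset.range (d + 1), (num i : ℝ) = q * ρ i := by
    intro i hi
    have e1 : (q : ℝ) = (ρ i).den * ∏ j ∈ (Finset.range (d + 1)).erase i, ((ρ j).den : ℝ) := by
      rw [hq, ← Finset.mul_prod_erase (Finset.range (d + 1)) _ hi]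
      push_cast
      rfl
    have e3 : ((ρ i).den : ℝ) * ρ i = (ρ i).num := by
      exact_mod_cast Rat.den_mul_eq_num (ρ i)
    rw [e1, hnum]
    push_cast
    rw [← e3]
    ring
  set R : ℤ[X] := ∑ i ∈ Finset.range (d + 1), Polynomial.C (num i) * X ^ i with hR
  have hcoeff : ∀ j, R.coeff j = if j ∈ Finset.range (d + 1) then num j else 0 := by
    intro j
    rw [hR, Polynomial.finsetSum_coeff]
    simp only [Polynomial.coeff_C_mul, Polynomial.coeff_X_pow, mul_ite, mul_one, mul_zero]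
    rw [Finset.sum_ite_eq (Finset.range (d + 1)) j]
  have hRdeg : R.natDegree ≤ d := by
    rw [Polynomial.natDegree_le_iff_coeff_eq_zero]
    intro j hj
    rw [hcoeff, if_neg]
    rw [Finset.mem_range]
    omega
  have hRne : R ≠ 0 := by
    intro h0
    have e1 : R.coeff d = num d := by rw [hcoeff, if_pos hdmem]
    rw [h0, Polynomial.coeff_zero] at e1
    have e2 := hnumv d hdmem
    rw [← e1] at e2
    have e3 : (ρ d : ℝ) = 0 := by
      have : (q : ℝ) ≠ 0 := by exact_mod_cast hqpos.ne'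
      have e4 : (q : ℝ) * ρ d = 0 := by rw [← e2]; simp
      exact (mul_eq_zero.1 e4).resolve_left this
    have e4 := (hρ d hdmem).2
    rw [e3, sub_zero] at e4
    have hLp : 0 < |(P.coeff d : ℝ)| := abs_pos.2 hlead
    have e5 : ((L * S : ℕ) : ℝ) * Q ^ S * ε ≤ 1 :=
      (mul_le_mul_of_nonneg_right (cq_bound (by omega) (by omega) hQ) hε).trans hcon
    push_cast at e5
    have e6 : L * |(P.coeff d : ℝ)| ≤ 1 := by
      calc L * |(P.coeff d : ℝ)| ≤ L * (S * Q ^ S * ε) :=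
            mul_le_mul_of_nonneg_left e4 (by positivity)
        _ = L * S * Q ^ S * ε := by ring
        _ ≤ 1 := e5
    rw [div_lt_iff₀ hLp] at hL
    linarith
  have hqle : (q : ℝ) ≤ (S * Q ^ S) ^ (d + 1) := by
    rw [hq]
    push_cast
    calc ∏ j ∈ Finset.range (d + 1), ((ρ j).den : ℝ) ≤ ∏ _j ∈ Finset.range (d + 1), ((S : ℝ) * Q ^ S) :=
          Finset.prod_le_prod (fun i _ => by positivity) fun i hi => (hρ i hi).1
      _ = _ := by simp
  have hρabs : ∀ j ∈ Finset.range (d + 1), |(ρ j : ℝ)| ≤ F := by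
    intro j hj
    have e1 : |(ρ j : ℝ)| ≤ |(P.coeff j : ℝ)| + |(P.coeff j : ℝ) - ρ j| := by
      calc |(ρ j : ℝ)| = |(P.coeff j : ℝ) - (P.coeff j - ρ j)| := by ring_nf
        _ ≤ _ := abs_sub _ _
    have e2 : |(P.coeff j : ℝ)| ≤ ∑ j ∈ Finset.range (d + 1), |(P.coeff j : ℝ)| :=
      Finset.single_le_sum (f := fun j => |(P.coeff j : ℝ)|) (fun _ _ => abs_nonneg _) hj
    linarith [(hρ j hj).2]
  have hF1 : (1 : ℝ) ≤ F := by
    have : 0 ≤ ∑ j ∈ Finset.range (d + 1), |(P.coeff j : ℝ)| :=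
      Finset.sum_nonneg fun _ _ => abs_nonneg _
    linarith
  have hheight : ∀ j, |(R.coeff j : ℝ)| ≤ (S * Q ^ S) ^ (d + 1) * F := by
    intro j
    rw [hcoeff]
    split_ifs with hj
    · rw [hnumv j hj, abs_mul, Nat.abs_cast]
      exact mul_le_mul hqle (hρabs j hj) (abs_nonneg _) (by positivity)
    · simp only [Int.cast_zero, abs_zero]
      positivity
  have hH1 : (1 : ℝ) ≤ (S * Q ^ S) ^ (d + 1) * F := by
    have : (1 : ℝ) ≤ (S * Q ^ S) ^ (d + 1) := one_le_pow₀ hSQ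
    nlinarith
  have hval : |aeval z R| ≤ (S * Q ^ S) ^ (d + 1) * (S * Q ^ S * ε * G) := by
    have e1 : aeval z R = q * ∑ j ∈ Finset.range (d + 1), (ρ j : ℝ) * z ^ j := by
      rw [hR, map_sum, Finset.mul_sum]
      apply Finset.sum_congr rfl
      intro j hj
      rw [map_mul, aeval_C, map_pow, aeval_X]
      simp only [algebraMap_int_eq, Int.coe_castRingHom]
      rw [hnumv j hj]
      ring
    have e2 : ∑ j ∈ Finset.range (d + 1), (P.coeff j : ℝ) * z ^ j = 0 := by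
      rw [Polynomial.aeval_eq_sum_range] at hPz
      rw [← hPz]
      apply Finset.sum_congr rfl
      intro j _
      rfl
    have e3 : ∑ j ∈ Finset.range (d + 1), (ρ j : ℝ) * z ^ j =
        -∑ j ∈ Finset.range (d + 1), ((P.coeff j : ℝ) - ρ j) * z ^ j := by
      simp only [sub_mul, Finset.sum_sub_distrib]
      rw [e2]
      ring
    rw [e1, e3, abs_mul, abs_neg, Nat.abs_cast]
    apply mul_le_mul hqle _ (abs_nonneg _) (by positivity)
    calc |∑ j ∈ Finset.range (d + 1), ((P.coeff j : ℝ) - ρ j) * z ^ j|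
        ≤ ∑ j ∈ Finset.range (d + 1), |((P.coeff j : ℝ) - ρ j) * z ^ j| :=
          Finset.abs_sum_le_sum_abs _ _
      _ ≤ ∑ j ∈ Finset.range (d + 1), (S * Q ^ S * ε) * |z| ^ j := by
          apply Finset.sum_le_sum
          intro j hj
          rw [abs_mul, abs_pow]
          exact mul_le_mul_of_nonneg_right (hρ j hj).2 (by positivity)
      _ = S * Q ^ S * ε * ∑ j ∈ Finset.range (d + 1), |z| ^ j := by rw [Finset.mul_sum]
      _ ≤ _ := mul_le_mul_of_nonneg_left hG (by positivity)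
  have h3 := hmeas R hRne hRdeg _ hH1 hheight
  have h4 : c ≤ ((S * Q ^ S) ^ (d + 1) * F) ^ w * ((S * Q ^ S) ^ (d + 1) * (S * Q ^ S * ε * G)) :=
    h3.trans (mul_le_mul_of_nonneg_left hval (by positivity))
  have h5 : (((S : ℝ) * Q ^ S) ^ (d + 1) * F) ^ w =
      (((S : ℝ) ^ (d + 1)) * F) ^ w * Q ^ ((S : ℝ) * (d + 1) * w) := by
    have e1 : ((S : ℝ) * Q ^ S) ^ (d + 1) * F = ((S : ℝ) ^ (d + 1) * F) * Q ^ (S * (d + 1)) := by
      rw [mul_pow, ← pow_mul]; ring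
    rw [e1, Real.mul_rpow (by positivity) (by positivity), ← Real.rpow_natCast Q,
      ← Real.rpow_mul hQ0.le]
    push_cast
    ring_nf
  have h6 : Q ^ ((S : ℝ) * (d + 1) * w) * (Q ^ (S * (d + 1)) * Q ^ S) ≤ Q ^ D := by
    rw [← Real.rpow_natCast Q S, ← Real.rpow_natCast Q (S * (d + 1)), ← Real.rpow_add hQ0,
      ← Real.rpow_add hQ0, ← Real.rpow_natCast Q D]
    apply Real.rpow_le_rpow_of_exponent_le hQ
    push_cast
    have e1 : (m : ℝ) ≤ D := by exact_mod_cast (by omega : m ≤ D)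
    push_cast at e1
    linarith
  have h7 : (((S : ℝ) ^ (d + 1)) * F) ^ w * (S ^ (d + 1) * (S * G)) < c * D := by
    rw [div_lt_iff₀ hc] at hk
    have : (k : ℝ) ≤ D := by exact_mod_cast (by omega : k ≤ D)
    nlinarith
  have h8 : c ≤ ((((S : ℝ) ^ (d + 1)) * F) ^ w * (S ^ (d + 1) * (S * G))) * (Q ^ D * ε) := by
    calc c ≤ ((S * Q ^ S) ^ (d + 1) * F) ^ w * ((S * Q ^ S) ^ (d + 1) * (S * Q ^ S * ε * G)) := h4
      _ = ((((S : ℝ) ^ (d + 1)) * F) ^ w * (S ^ (d + 1) * (S * G))) *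
          ((Q ^ ((S : ℝ) * (d + 1) * w) * (Q ^ (S * (d + 1)) * Q ^ S)) * ε) := by
          rw [h5, mul_pow, ← pow_mul]
          ring
      _ ≤ _ := by
          apply mul_le_mul_of_nonneg_left _ (by positivity)
          exact mul_le_mul_of_nonneg_right h6 hε
  have hε0 : 0 < ε := by
    rcases hε.lt_or_eq with h | h
    · exact h
    · rw [← h] at h8
      simp at h8
      linarith
  have h9 : 0 < Q ^ D * ε := by positivity
  have h10 := mul_lt_mul_of_pos_right h7 h9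
  have h11 : c * (D * Q ^ D * ε) ≤ c * 1 := mul_le_mul_of_nonneg_left hcon hc.le
  nlinarith

/-- **The bad numbers.** -/
theorem bad_set (Y : Finset ℝ) : ∃ κ K : ℝ, 0 < κ ∧ 0 < K ∧ ∀ N : ℕ, 0 < N →
    ¬ Good {y | y ∈ Y ∧ ∃ M : ℕ, N ≤ M ∧ K * (N : ℝ) ^ (-κ) < disc y M} := by
  classical
  have h1 : ∀ S : Finset ℝ, ∃ C : ℕ, Good (S : Set ℝ) → ∀ Q ε : ℝ, 1 ≤ Q → 0 ≤ ε →
      (∀ y ∈ (S : Set ℝ), App y Q ε) → 1 < C * Q ^ C * ε := by
    intro S
    by_cases hS : Good (S : Set ℝ)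
    · obtain ⟨C, hC⟩ := hS
      exact ⟨C, fun _ => hC⟩
    · exact ⟨0, fun h => absurd h hS⟩
  choose C hC using h1
  obtain ⟨D, hD⟩ : ∃ D : ℕ, D = ∑ S ∈ Y.powerset, C S + 1 := ⟨_, rfl⟩
  have hCD : ∀ S ∈ Y.powerset, C S ≤ D := fun S hS => by
    rw [hD]
    exact (Finset.single_le_sum (f := C) (fun _ _ => Nat.zero_le _) hS).trans (Nat.le_succ _)
  have hD1 : (1 : ℝ) ≤ D := by
    rw [hD]; push_cast
    have : (0 : ℝ) ≤ ∑ S ∈ Y.powerset, (C S : ℝ) := by positivity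
    linarith
  refine ⟨1 / (D + 1), 192 * D, by positivity, by positivity, ?_⟩
  intro N hN hgood
  have hN1 : (1 : ℝ) ≤ N := by exact_mod_cast hN
  have hN0 : (0 : ℝ) < N := by linarith
  set δ : ℝ := 192 * D * (N : ℝ) ^ (-(1 / ((D : ℝ) + 1))) with hδ
  have hδ0 : 0 < δ := by positivity
  set B : Set ℝ := {y | y ∈ Y ∧ ∃ M : ℕ, N ≤ M ∧ δ < disc y M} with hB
  set S : Finset ℝ := Y.filter fun y => ∃ M : ℕ, N ≤ M ∧ δ < disc y M with hS
  have hSB : (S : Set ℝ) = B := by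
    ext y
    simp [hS, hB]
  rw [← hSB] at hgood
  have hSY : S ∈ Y.powerset := Finset.mem_powerset.2 (Finset.filter_subset _ _)
  have h2 := hC S hgood
  have h3 : ∀ y ∈ (S : Set ℝ), App y (12 / δ) (16 / (δ * N)) := by
    intro y hy
    rw [hSB] at hy
    obtain ⟨_, M, hNM, hM⟩ := hy
    obtain ⟨r, hr1, hr2⟩ := approx y M (by omega) δ hδ0 hM
    refine ⟨r, hr1, hr2.trans ?_⟩
    apply div_le_div_of_nonneg_left (by norm_num) (by positivity)
    have e1 : (1 : ℝ) ≤ r.den := by exact_mod_cast r.den_pos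
    have e2 : (N : ℝ) ≤ M := by exact_mod_cast hNM
    calc δ * N ≤ δ * M := mul_le_mul_of_nonneg_left e2 hδ0.le
      _ ≤ δ * M * r.den := le_mul_of_one_le_right (by positivity) e1
  rcases S.eq_empty_or_nonempty with hempty | ⟨y₀, hy₀⟩
  · have := h2 1 0 le_rfl le_rfl (by rw [hempty]; simp)
    simp at this
    linarith
  have hQ : 1 ≤ 12 / δ := by
    obtain ⟨r, hr1, _⟩ := h3 y₀ hy₀
    have e1 : (1 : ℝ) ≤ r.den := by exact_mod_cast r.den_pos
    linarith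
  have h4 := h2 (12 / δ) (16 / (δ * N)) hQ (by positivity) h3
  have h5 : (1 : ℝ) < D * (12 / δ) ^ D * (16 / (δ * N)) :=
    h4.trans_le (mul_le_mul_of_nonneg_right (cq_mono (hCD S hSY) hQ) (by positivity))
  have h6 : δ ^ (D + 1) = (192 * D) ^ (D + 1) * (N : ℝ)⁻¹ := by
    rw [hδ, mul_pow]
    congr 1
    rw [← Real.rpow_natCast, ← Real.rpow_mul hN0.le]
    have : -(1 / ((D : ℝ) + 1)) * ((D + 1 : ℕ) : ℝ) = -1 := by
      push_cast
      field_simp
    rw [this, Real.rpow_neg_one]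
  have h7 : (D : ℝ) * (12 / δ) ^ D * (16 / (δ * N)) = D * 12 ^ D * 16 / (192 * D) ^ (D + 1) := by
    rw [div_pow]
    have e1 : (D : ℝ) * (12 ^ D / δ ^ D) * (16 / (δ * N)) = D * 12 ^ D * 16 / (δ ^ (D + 1) * N) := by
      rw [pow_succ]
      field_simp
    rw [e1, h6]
    congr 1
    field_simp
  rw [h7] at h5
  have h8 : (D : ℝ) * 12 ^ D * 16 ≤ (192 * D) ^ (D + 1) := by
    rw [pow_succ, mul_comm ((192 * (D : ℝ)) ^ D)]
    have e1 : (12 : ℝ) ^ D ≤ (192 * D) ^ D := pow_le_pow_left₀ (by norm_num) (by linarith) D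
    nlinarith [pow_pos (show (0 : ℝ) < 12 by norm_num) D]
  rw [lt_div_iff₀ (by positivity)] at h5
  linarith

end Pool.Agent.Q158.EqD
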