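import Mathlib
import Pool.Agent.Q158.EqD.Field
import Pool.Agent.Q158.EqD.Weyl

/-!
# The field generated by the numbers with a large discrepancy: consequences
-/

set_option autoImplicit false

namespace Pool.Agent.Q158.EqD
open Real Polynomial

/-- The field `F` contains no numbers which are known to be hard to approximate. -/
def Poor (F : Subfield ℝ) : Prop :=
  (∀ z : ℝ, MeasR z → Transcendental F z) ∧
  (∀ (r : ℕ) (z : Fin r → ℝ) (c μ : ℝ), 0 < c → 0 < μ →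
    (∀ (q : ℕ) (p : Fin r → ℤ), 0 < q → ∃ i, c ≤ (q : ℝ) ^ μ * |z i - p i / q|) →
    ∃ i, z i ∉ F)

theorem bad_field (Y : Finset ℝ) : ∃ κ K : ℝ, 0 < κ ∧ 0 < K ∧ ∀ N : ℕ, 0 < N →
    Poor (Subfield.closure {y | y ∈ Y ∧ ∃ M : ℕ, N ≤ M ∧ K * (N : ℝ) ^ (-κ) < disc y M}) := by
  obtain ⟨κ, K, h1, h2, h3⟩ := bad_set Y
  refine ⟨κ, K, h1, h2, fun N hN => ⟨?_, ?_⟩⟩
  · intro z hz halg
    exact h3 N hN (good_of_alg _ z hz halg)
  · intro r z c μ hc hμ hz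
    by_contra hcon
    push Not at hcon
    exact h3 N hN (good_of_sim _ z c μ hc hμ hz hcon)

theorem Poor.one {F : Subfield ℝ} (h : Poor F) (z c μ : ℝ) (hc : 0 < c) (hμ : 0 < μ)
    (hz : ∀ (q : ℕ) (p : ℤ), 0 < q → c ≤ (q : ℝ) ^ μ * |z - p / q|) : z ∉ F := by
  obtain ⟨_, hi⟩ := h.2 1 (fun _ => z) c μ hc hμ (fun q p hq => ⟨0, hz q (p 0) hq⟩)
  exact hi

/-- irrational algebraic numbers -/
theorem Poor.algebraic {F : Subfield ℝ} (h : Poor F) (z : ℝ) (hz : IsAlgebraic ℚ z) (hzF : z ∈ F) :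
    ∃ r : ℚ, z = r := by
  by_contra hcon
  have hirr : Irrational z := by
    rintro ⟨r, hr⟩
    exact hcon ⟨r, hr.symm⟩
  obtain ⟨f, hf0, hfz⟩ : ∃ f : ℤ[X], f ≠ 0 ∧ aeval z f = 0 := by
    have := (IsFractionRing.isAlgebraic_iff ℤ ℚ ℝ).2 hz
    exact this
  have hfa : eval z (f.map (algebraMap ℤ ℝ)) = 0 := by
    rw [eval_map, ← aeval_def, hfz]
  obtain ⟨A, hA, h1⟩ := Liouville.exists_pos_real_of_irrational_root hirr hf0 hfa
  refine h.one z A⁻¹ (f.natDegree + 1) (by positivity) (by positivity) ?_ hzF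
  intro q p hq
  have hq1 : (1 : ℝ) ≤ q := by exact_mod_cast hq
  have h2 := h1 p (q - 1)
  have e1 : ((q - 1 : ℕ) : ℝ) + 1 = q := by
    have : q - 1 + 1 = q := by omega
    exact_mod_cast this
  rw [e1] at h2
  rw [inv_le_iff_one_le_mul₀ hA]
  refine h2.trans ?_
  have e2 : (q : ℝ) ^ f.natDegree ≤ (q : ℝ) ^ ((f.natDegree : ℝ) + 1) := by
    rw [← Real.rpow_natCast]
    apply Real.rpow_le_rpow_of_exponent_le hq1
    linarith
  calc (q : ℝ) ^ f.natDegree * (|z - p / q| * A) ≤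
      (q : ℝ) ^ ((f.natDegree : ℝ) + 1) * (|z - p / q| * A) :=
        mul_le_mul_of_nonneg_right e2 (by positivity)
    _ = _ := by ring

theorem group_key {n : ℕ} (x : Fin n → ℝ) (hx : ∀ i, x i ≠ 0) (B : Set (Fin n → ℤ))
    (F : Subfield ℝ) (hB : ∀ a ∈ B, ∏ j, x j ^ a j ∈ F) (v : Fin n → ℤ)
    (hv : v ∈ AddSubgroup.closure B) : ∏ j, x j ^ v j ∈ F := by
  induction hv using AddSubgroup.closure_induction with
  | mem a ha => exact hB a ha
  | zero => simp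
  | add a b _ _ h1 h2 =>
    have : ∏ j, x j ^ (a + b) j = (∏ j, x j ^ a j) * ∏ j, x j ^ b j := by
      rw [← Finset.prod_mul_distrib]
      apply Finset.prod_congr rfl
      intro j _
      rw [Pi.add_apply, zpow_add₀ (hx j)]
    rw [this]
    exact F.mul_mem h1 h2
  | neg a _ h =>
    have : ∏ j, x j ^ (-a) j = (∏ j, x j ^ a j)⁻¹ := by
      rw [← Finset.prod_inv_distrib]
      apply Finset.prod_congr rfl
      intro j _
      rw [Pi.neg_apply, zpow_neg]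
    rw [this]
    exact F.inv_mem h

/-- The exponents `a` with `|a j| ≤ k₀` of the bad monomials `∏ x j ^ a j`. -/
def badExp {n : ℕ} (x : Fin n → ℝ) (k₀ : ℕ) (κ K : ℝ) (N : ℕ) : Set (Fin n → ℤ) :=
  {a | (∀ j, |a j| ≤ k₀) ∧ ∃ M : ℕ, N ≤ M ∧ K * (N : ℝ) ^ (-κ) < disc (∏ j, x j ^ a j) M}

theorem monomials {n : ℕ} (x : Fin n → ℝ) (hx : ∀ i, x i ≠ 0) (k₀ : ℕ) :
    ∃ κ K : ℝ, 0 < κ ∧ 0 < K ∧ ∀ N : ℕ, 0 < N → ∃ F : Subfield ℝ, Poor F ∧
      ∀ v ∈ AddSubgroup.closure (badExp x k₀ κ K N), ∏ j, x j ^ v j ∈ F := by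
  classical
  obtain ⟨κ, K, h1, h2, h3⟩ := bad_field
    ((Fintype.piFinset fun _ : Fin n => Finset.Icc (-(k₀ : ℤ)) k₀).image fun a => ∏ j, x j ^ a j)
  refine ⟨κ, K, h1, h2, fun N hN => ⟨_, h3 N hN, fun v hv => ?_⟩⟩
  refine group_key x hx _ _ ?_ v hv
  rintro a ⟨ha, M, hM1, hM2⟩
  apply Subfield.subset_closure
  refine ⟨?_, M, hM1, hM2⟩
  rw [Finset.mem_image]
  refine ⟨a, ?_, rfl⟩
  rw [Fintype.mem_piFinset]
  intro j
  rw [Finset.mem_Icc]
  exact abs_le.1 (ha j)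

/-- a multiple of a unit vector gives a power -/
theorem prod_single {n : ℕ} (x : Fin n → ℝ) (i : Fin n) (m : ℤ) :
    ∏ j, x j ^ (Pi.single i m : Fin n → ℤ) j = x i ^ m := by
  rw [Finset.prod_eq_single i]
  · simp
  · intro j _ hj
    simp [Pi.single_eq_of_ne hj]
  · simp

theorem alg_of_zpow {F : Subfield ℝ} {z : ℝ} {m : ℤ} (hm : m ≠ 0) (h : z ^ m ∈ F) :
    IsAlgebraic F z := by
  have key : ∀ k : ℕ, k ≠ 0 → z ^ k ∈ F → IsAlgebraic F z := by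
    intro k hk h
    refine ⟨X ^ k - Polynomial.C (⟨z ^ k, h⟩ : F), ?_, ?_⟩
    · exact Polynomial.X_pow_sub_C_ne_zero (Nat.pos_of_ne_zero hk) _
    · rw [map_sub, map_pow, aeval_X, aeval_C]
      exact sub_self _
  rcases lt_or_gt_of_ne hm with h0 | h0
  · apply key (-m).toNat (by omega)
    have : z ^ (-m).toNat = (z ^ m)⁻¹ := by
      rw [← zpow_natCast, Int.toNat_of_nonneg (by omega), zpow_neg]
    rw [this]
    exact F.inv_mem h
  · apply key m.toNat (by omega)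
    rw [← zpow_natCast, Int.toNat_of_nonneg h0.le]
    exact h

end Pool.Agent.Q158.EqD
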