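import Mathlib
import Pool.Agent.Q158.EqD.Biv
import Pool.Agent.Q158.EqD.Gen
import Pool.Agent.Q158.EqD.Weyl

/-!
# The irreducible relation between two numbers at a scale
-/

set_option autoImplicit false

namespace Pool.Agent.Q158.EqD
open Polynomial Polynomial.Bivariate

/-- A small nonconstant irreducible polynomial. -/
def Small (x t : ℝ) (d m : ℕ) (B z : ℝ) (f : ℤ[X][Y]) : Prop :=
  Irreducible f ∧ 0 < wt f ∧ f.natDegree ≤ d ∧ (∀ i, (f.coeff i).natDegree ≤ d) ∧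
    (∀ i j, |((f.coeff i).coeff j : ℝ)| ≤ B) ∧ |ev x t f| ≤ 1 / z ^ m

/-- bidegree at most `d`, coefficients at most `H` -/
def Bd (d : ℕ) (H : ℝ) (P : ℤ[X][Y]) : Prop :=
  P.natDegree ≤ d ∧ (∀ i, (P.coeff i).natDegree ≤ d) ∧ ∀ i j, |((P.coeff i).coeff j : ℝ)| ≤ H

theorem aeval_bound (x T H : ℝ) (hT : 1 ≤ T) (hx : |x| ≤ T) (hH : 0 ≤ H) (d : ℕ) (p : ℤ[X])
    (hp : p.natDegree ≤ d) (hpH : ∀ j, |(p.coeff j : ℝ)| ≤ H) :
    |aeval x p| ≤ (d + 1) * T ^ d * H := by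
  rw [aeval_eq_sum_range' (show p.natDegree < d + 1 by omega)]
  refine (Finset.abs_sum_le_sum_abs _ _).trans ?_
  calc ∑ i ∈ Finset.range (d + 1), |p.coeff i • x ^ i|
      ≤ ∑ _i ∈ Finset.range (d + 1), T ^ d * H := by
        apply Finset.sum_le_sum
        intro i hi
        rw [zsmul_eq_mul, abs_mul, abs_pow, mul_comm]
        have hi' : i ≤ d := by
          have := Finset.mem_range.1 hi
          omega
        apply mul_le_mul _ (hpH i) (abs_nonneg _) (by positivity)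
        exact (pow_le_pow_left₀ (abs_nonneg _) hx i).trans (pow_le_pow_right₀ hT hi')
    _ = (d + 1) * T ^ d * H := by
        rw [Finset.sum_const, Finset.card_range, nsmul_eq_mul]
        push_cast
        ring

theorem ev_eq_sum (x t : ℝ) (d : ℕ) (P : ℤ[X][Y]) (hP : P.natDegree ≤ d) :
    ev x t P = ∑ i ∈ Finset.range (d + 1), aeval x (P.coeff i) * t ^ i := by
  unfold ev
  rw [coe_eval₂RingHom, eval₂_eq_sum_range' _ (show P.natDegree < d + 1 by omega)]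
  rfl

theorem ev_bound (x t T H : ℝ) (hT : 1 ≤ T) (hx : |x| ≤ T) (ht : |t| ≤ T) (hH : 0 ≤ H) (d : ℕ)
    (P : ℤ[X][Y]) (hP : Bd d H P) : |ev x t P| ≤ ((d + 1) * T ^ d) ^ 2 * H := by
  rw [ev_eq_sum x t d P hP.1]
  refine (Finset.abs_sum_le_sum_abs _ _).trans ?_
  calc ∑ i ∈ Finset.range (d + 1), |aeval x (P.coeff i) * t ^ i|
      ≤ ∑ _i ∈ Finset.range (d + 1), ((d + 1) * T ^ d * H) * T ^ d := by
        apply Finset.sum_le_sum
        intro i hi
        have hi' : i ≤ d := by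
          have := Finset.mem_range.1 hi
          omega
        rw [abs_mul, abs_pow]
        apply mul_le_mul (aeval_bound x T H hT hx hH d _ (hP.2.1 i) (hP.2.2 i)) _ (by positivity)
          (by positivity)
        exact (pow_le_pow_left₀ (abs_nonneg _) ht i).trans (pow_le_pow_right₀ hT hi')
    _ = ((d + 1) * T ^ d) ^ 2 * H := by
        rw [Finset.sum_const, Finset.card_range, nsmul_eq_mul]
        push_cast
        ring

/-- The constant for the heights of the factors. -/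
noncomputable def hc (d : ℕ) : ℝ := 2 ^ ((d + 1) ^ 2) * ((((d + 1) ^ 2 : ℕ) + 1) * 216)

theorem hc_ge (d : ℕ) : 1 ≤ hc d := by
  unfold hc
  have e1 : (1 : ℝ) ≤ 2 ^ ((d + 1) ^ 2) := one_le_pow₀ (by norm_num)
  have e2 : (1 : ℝ) ≤ (((d + 1) ^ 2 : ℕ) + 1) * 216 := by
    have : (0 : ℝ) ≤ ((d + 1) ^ 2 : ℕ) := by positivity
    linarith
  nlinarith

theorem pair_small (x t T : ℝ) (hT : 1 ≤ T) (hx : |x| ≤ T) (ht : |t| ≤ T) (d m : ℕ) (z : ℝ)
    (hz1 : 1 ≤ z) (hz : 192 * ((d + 1) * T ^ d) ^ 2 < z) (N M : ℕ) (hN : 0 < N) (hNM : N ≤ M)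
    (hzN : z ^ (2 * d * m + 4) = N) (P Q : ℤ[X][Y]) (hP : Bd d z P) (hQ : Bd d z Q)
    (hQ0 : ev x t Q ≠ 0) (hPQ : |ev x t P| ≤ z * |ev x t Q|)
    (hnc : ∀ (q : ℕ) (p : ℤ), 0 < q → C (C (q : ℤ)) * P ≠ C (C p) * Q)
    (hbad : 1 / z < disc (ev x t P / ev x t Q) M) :
    ∃ (q : ℕ) (p : ℤ) (f : ℤ[X][Y]), (0 < q ∧ (q : ℝ) ≤ 12 * z ∧
      |ev x t P / ev x t Q - p / q| ≤ 16 * z / N ∧ f ∣ C (C (q : ℤ)) * P - C (C p) * Q) ∧
      Small x t d m (hc d * z ^ 3) z f := by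
  have hzp : 0 < z := by linarith
  have hN0 : (0 : ℝ) < N := by exact_mod_cast hN
  set y := ev x t P / ev x t Q with hy
  obtain ⟨r, hr1, hr2⟩ := approx y M (by omega) (1 / z) (by positivity) hbad
  have hden1 : (1 : ℝ) ≤ r.den := by exact_mod_cast r.den_pos
  have hden0 : (0 : ℝ) < r.den := by linarith
  have hr1' : (r.den : ℝ) ≤ 12 * z := by
    refine hr1.trans (le_of_eq ?_)
    field_simp
  have hMN : (N : ℝ) ≤ M := by exact_mod_cast hNM
  have hM0 : (0 : ℝ) < M := by linarith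
  have hr2' : |y - r| ≤ 16 * z / N := by
    refine hr2.trans ?_
    rw [div_le_div_iff₀ (by positivity) hN0]
    have : 16 * z * (1 / z * M * r.den) = 16 * (M * r.den) := by
      field_simp
    rw [this]
    have : (N : ℝ) ≤ M * r.den := hMN.trans (le_mul_of_one_le_right (by positivity) hden1)
    linarith
  have hzle : z ≤ N := by
    rw [← hzN]
    exact le_self_pow₀ hz1 (by omega)
  have hyz : |y| ≤ z := by
    rw [hy, abs_div, div_le_iff₀ (abs_pos.2 hQ0)]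
    exact hPQ
  have hrnum : (r.den : ℝ) * r = r.num := by exact_mod_cast Rat.den_mul_eq_num r
  have hnum : |(r.num : ℝ)| ≤ 204 * z ^ 2 := by
    have e2 : |(r : ℝ)| ≤ |y| + |y - r| := by
      calc |(r : ℝ)| = |y - (y - r)| := by ring_nf
        _ ≤ _ := abs_sub _ _
    have e3 : 16 * z / N ≤ 16 := by
      rw [div_le_iff₀ hN0]
      linarith
    rw [← hrnum, abs_mul, abs_of_pos hden0]
    calc (r.den : ℝ) * |(r : ℝ)| ≤ 12 * z * (17 * z) :=
          mul_le_mul hr1' (by linarith) (abs_nonneg _) (by positivity)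
      _ = 204 * z ^ 2 := by ring
  set G : ℤ[X][Y] := C (C (r.den : ℤ)) * P - C (C r.num) * Q with hG
  have hG0 : G ≠ 0 := by
    intro h
    exact hnc r.den r.num r.den_pos (sub_eq_zero.1 h)
  have hGcoef : ∀ i, G.coeff i = C (r.den : ℤ) * P.coeff i - C r.num * Q.coeff i := by
    intro i
    rw [hG, coeff_sub, coeff_C_mul, coeff_C_mul]
  have hGdeg : G.natDegree ≤ d := by
    rw [natDegree_le_iff_coeff_eq_zero]
    intro n hn
    rw [hGcoef, coeff_eq_zero_of_natDegree_lt (lt_of_le_of_lt hP.1 hn),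
      coeff_eq_zero_of_natDegree_lt (lt_of_le_of_lt hQ.1 hn)]
    simp
  have hGdeg2 : ∀ i, (G.coeff i).natDegree ≤ d := by
    intro i
    rw [hGcoef, natDegree_le_iff_coeff_eq_zero]
    intro n hn
    rw [coeff_sub, coeff_C_mul, coeff_C_mul,
      coeff_eq_zero_of_natDegree_lt (lt_of_le_of_lt (hP.2.1 i) hn),
      coeff_eq_zero_of_natDegree_lt (lt_of_le_of_lt (hQ.2.1 i) hn)]
    simp
  have hGH : ∀ i j, |((G.coeff i).coeff j : ℝ)| ≤ 216 * z ^ 3 := by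
    intro i j
    rw [hGcoef, coeff_sub, coeff_C_mul, coeff_C_mul]
    push_cast
    refine (abs_sub _ _).trans ?_
    rw [abs_mul, abs_mul, abs_of_pos hden0]
    have e1 : (r.den : ℝ) * |((P.coeff i).coeff j : ℝ)| ≤ 12 * z * z :=
      mul_le_mul hr1' (hP.2.2 i j) (abs_nonneg _) (by positivity)
    have e2 : |(r.num : ℝ)| * |((Q.coeff i).coeff j : ℝ)| ≤ 204 * z ^ 2 * z :=
      mul_le_mul hnum (hQ.2.2 i j) (abs_nonneg _) (by positivity)
    have e3 : z ^ 2 ≤ z ^ 3 := pow_le_pow_right₀ hz1 (by norm_num)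
    nlinarith
  have hwt : wt G ≤ 2 * d := by
    unfold wt
    have := (swap_natDegree_le G d).2 hGdeg2
    omega
  have hval : |ev x t G| ≤ 192 * ((d + 1) * T ^ d) ^ 2 * z ^ 3 / N := by
    have e1 : ev x t G = r.den * ev x t Q * (y - r) := by
      rw [hG, map_sub, map_mul, map_mul, ev_CC, ev_CC, hy, ← hrnum]
      push_cast
      field_simp
    rw [e1, abs_mul, abs_mul, abs_of_pos hden0]
    have e2 := ev_bound x t T z hT hx ht hzp.le d Q hQ
    calc (r.den : ℝ) * |ev x t Q| * |y - r| ≤ 12 * z * (((d + 1) * T ^ d) ^ 2 * z) * (16 * z / N) := by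
          apply mul_le_mul _ hr2' (abs_nonneg _) (by positivity)
          exact mul_le_mul hr1' e2 (abs_nonneg _) (by positivity)
      _ = _ := by ring
  have hval2 : |ev x t G| < (1 / z ^ m) ^ wt G := by
    have e1 : (1 / z ^ m) ^ (2 * d) ≤ (1 / z ^ m) ^ wt G := by
      apply pow_le_pow_of_le_one (by positivity) _ hwt
      rw [div_le_one (by positivity)]
      exact one_le_pow₀ hz1
    refine lt_of_lt_of_le (lt_of_le_of_lt hval ?_) e1
    rw [← hzN, one_div, inv_pow, ← pow_mul, div_lt_iff₀ (by positivity)]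
    have e2 : (z ^ (m * (2 * d)))⁻¹ * z ^ (2 * d * m + 4) = z * z ^ 3 := by
      rw [pow_add, mul_comm (2 * d) m]
      field_simp
    rw [e2]
    exact mul_lt_mul_of_pos_right hz (by positivity)
  obtain ⟨f, hf1, hf2, hf3, hf4⟩ : ∃ f : ℤ[X][Y], Irreducible f ∧ 0 < wt f ∧ f ∣ G ∧
      |ev x t f| ≤ 1 / z ^ m := by
    by_contra hcon
    push Not at hcon
    have := small_factor2 x t (1 / z ^ m) (by positivity) (by
      rw [div_le_one (by positivity)]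
      exact one_le_pow₀ hz1) G hG0 hcon
    linarith
  obtain ⟨g1, g2, g3⟩ := factor_height2 G f hG0 hf3 d hGdeg hGdeg2 (216 * z ^ 3) hGH
  have hrr : (r.num : ℝ) / r.den = r := by exact_mod_cast Rat.num_div_den r
  refine ⟨r.den, r.num, f, ⟨r.den_pos, hr1', by rw [hrr]; exact hr2', hf3⟩, hf1, hf2, g1, g2, ?_, hf4⟩
  intro i j
  refine (g3 i j).trans (le_of_eq ?_)
  unfold hc
  ring

/-- powers of the scale absorb constants -/
theorem absorb_z (A w c z : ℝ) (hA : 1 ≤ A) (hw : 0 < w) (hc : 0 < c) (hz1 : 1 ≤ z) (a b m : ℕ)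
    (C : ℝ) (hC : 0 ≤ C) (hm : a * w + b + 1 ≤ m) (hz : A ^ w * C / c < z) :
    (A * z ^ a) ^ w * (C * z ^ b / z ^ m) < c := by
  have hzp : 0 < z := by linarith
  have e1 : (A * z ^ a) ^ w = A ^ w * z ^ ((a : ℝ) * w) := by
    rw [Real.mul_rpow (by linarith) (by positivity), ← Real.rpow_natCast z a, ← Real.rpow_mul hzp.le]
  have e2 : z ^ ((a : ℝ) * w) * z ^ b * z ≤ z ^ m := by
    rw [← Real.rpow_natCast z b, ← Real.rpow_natCast z m, ← Real.rpow_add hzp]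
    nth_rewrite 2 [← Real.rpow_one z]
    rw [← Real.rpow_add hzp]
    exact Real.rpow_le_rpow_of_exponent_le hz1 hm
  rw [div_lt_iff₀ hc] at hz
  have hzm : 0 < z ^ m := by positivity
  rw [e1]
  have e3 : A ^ w * z ^ ((a : ℝ) * w) * (C * z ^ b / z ^ m) =
      (A ^ w * C) * (z ^ ((a : ℝ) * w) * z ^ b) / z ^ m := by ring
  rw [e3, div_lt_iff₀ hzm]
  have e4 : 0 < z ^ ((a : ℝ) * w) * z ^ b := by positivity
  calc (A ^ w * C) * (z ^ ((a : ℝ) * w) * z ^ b) < (z * c) * (z ^ ((a : ℝ) * w) * z ^ b) :=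
        mul_lt_mul_of_pos_right hz e4
    _ = c * (z ^ ((a : ℝ) * w) * z ^ b * z) := by ring
    _ ≤ c * z ^ m := mul_le_mul_of_nonneg_left e2 hc.le

/-- A small irreducible polynomial contains the second variable. -/
theorem small_deg (x : ℝ) (hx : MeasR x) (d : ℕ) : ∃ (m0 : ℕ) (x0 : ℝ), ∀ m : ℕ, m0 ≤ m →
    ∀ z : ℝ, 1 ≤ z → x0 < z → ∀ (t : ℝ) (f : ℤ[X][Y]), Small x t d m (hc d * z ^ 3) z f →
      0 < f.natDegree := by
  obtain ⟨w, c, hw, hc0, hmeas⟩ := hx d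
  obtain ⟨m0, hm0⟩ := exists_nat_ge (3 * w + 1)
  refine ⟨m0, hc d ^ w * 1 / c, ?_⟩
  intro m hm z hz1 hz t f hf
  obtain ⟨hf1, hf2, hf3, hf4, hf5, hf6⟩ := hf
  by_contra hcon
  have h0 : f.natDegree = 0 := by omega
  have h1 : f = C (f.coeff 0) := eq_C_of_natDegree_eq_zero h0
  have hne : f.coeff 0 ≠ 0 := by
    intro h
    rw [h, C_0] at h1
    exact hf1.ne_zero h1
  have hval : |aeval x (f.coeff 0)| ≤ 1 / z ^ m := by
    rw [← ev_C x t, ← h1]
    exact hf6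
  have hzp : 0 < z := by linarith
  have hB : 1 ≤ hc d * z ^ 3 := by
    have : 1 ≤ z ^ 3 := one_le_pow₀ hz1
    nlinarith [hc_ge d]
  have h2 := hmeas (f.coeff 0) hne (hf4 0) (hc d * z ^ 3) hB (fun j => hf5 0 j)
  have h3 := absorb_z (hc d) w c z (hc_ge d) hw hc0 hz1 3 0 m 1 zero_le_one (by
    have : (m0 : ℝ) ≤ m := by exact_mod_cast hm
    push_cast
    linarith) hz
  have h4 : (hc d * z ^ 3) ^ w * |aeval x (f.coeff 0)| ≤
      (hc d * z ^ 3) ^ w * (1 * z ^ 0 / z ^ m) := by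
    apply mul_le_mul_of_nonneg_left _ (by positivity)
    simpa using hval
  linarith

/-- Two small irreducible polynomials are associated. -/
theorem small_assoc (x : ℝ) (hx : MeasR x) (T : ℝ) (hT : 1 ≤ T) (hxT : |x| ≤ T) (d : ℕ) :
    ∃ (m0 : ℕ) (x0 : ℝ), ∀ m : ℕ, m0 ≤ m → ∀ z : ℝ, 1 ≤ z → x0 < z → ∀ t : ℝ, |t| ≤ T →
      ∀ f g : ℤ[X][Y], Small x t d m (hc d * z ^ 3) z f → Small x t d m (hc d * z ^ 3) z g →
        0 < f.natDegree → 0 < g.natDegree → Associated f g := by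
  obtain ⟨w, c, hw, hc0, hmeas⟩ := hx (2 * d * d)
  set A : ℝ := ((2 * d).factorial : ℝ) * ((d + 1) * hc d) ^ (2 * d) with hA
  have hA1 : 1 ≤ A := by
    have e1 : (1 : ℝ) ≤ (2 * d).factorial := by exact_mod_cast Nat.factorial_pos _
    have e2 : (1 : ℝ) ≤ ((d + 1) * hc d) ^ (2 * d) := by
      apply one_le_pow₀
      have : (0 : ℝ) ≤ d := by positivity
      nlinarith [hc_ge d]
    nlinarith
  set C' : ℝ := (2 * d) * T ^ (2 * d) * ((2 * d).factorial * ((d + 1) * T ^ d * hc d) ^ (2 * d))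
    with hC'
  have hhc := hc_ge d
  have hC0 : 0 ≤ C' := by positivity
  obtain ⟨m0, hm0⟩ := exists_nat_ge ((6 * d : ℕ) * w + (6 * d : ℕ) + 1)
  refine ⟨m0, A ^ w * C' / c, ?_⟩
  intro m hm z hz1 hz t ht f g hf hg hf0 hg0
  obtain ⟨hf1, hf2, hf3, hf4, hf5, hf6⟩ := hf
  obtain ⟨hg1, hg2, hg3, hg4, hg5, hg6⟩ := hg
  by_contra hne
  have hzp : 0 < z := by linarith
  have hres := Pool.Agent.TH647.NR.resultant_ne_zero_of_irreducible f g hf1 hg1 hf0 hg0 hne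
  have hB1 : 1 ≤ hc d * z ^ 3 := by
    have : 1 ≤ z ^ 3 := one_le_pow₀ hz1
    nlinarith
  set H : ℤ := ⌊hc d * z ^ 3⌋ with hH
  have hH0 : 0 ≤ H := Int.floor_nonneg.2 (by linarith)
  have hHle : (H : ℝ) ≤ hc d * z ^ 3 := Int.floor_le _
  have hfH : ∀ i j, |(f.coeff i).coeff j| ≤ H := by
    intro i j
    rw [hH, Int.le_floor]
    push_cast
    exact hf5 i j
  have hgH : ∀ i j, |(g.coeff i).coeff j| ≤ H := by
    intro i j
    rw [hH, Int.le_floor]
    push_cast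
    exact hg5 i j
  obtain ⟨hR1, hR2⟩ := Pool.Agent.TH647.NR.resultant_bounds f g f.natDegree g.natDegree d H hH0
    hf4 hg4 hfH hgH
  set R := resultant f g f.natDegree g.natDegree with hR
  have hsum : f.natDegree + g.natDegree ≤ 2 * d := by omega
  have hRdeg : R.natDegree ≤ 2 * d * d := hR1.trans (Nat.mul_le_mul_right d hsum)
  have hRcoef : ∀ j, |(R.coeff j : ℝ)| ≤ A * z ^ (6 * d) := by
    intro j
    have e1 : |(R.coeff j : ℝ)| ≤ ((f.natDegree + g.natDegree).factorial : ℝ) *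
        ((d + 1) * H) ^ (f.natDegree + g.natDegree) := by
      have := hR2 j
      have h2 : ((|R.coeff j| : ℤ) : ℝ) ≤ (((f.natDegree + g.natDegree).factorial *
          ((d + 1) * H) ^ (f.natDegree + g.natDegree) : ℤ) : ℝ) := by exact_mod_cast this
      push_cast at h2
      exact h2
    refine e1.trans ?_
    have e2 : ((f.natDegree + g.natDegree).factorial : ℝ) ≤ (2 * d).factorial := by
      exact_mod_cast Nat.factorial_le hsum
    have e3 : (((d : ℝ) + 1) * H) ^ (f.natDegree + g.natDegree) ≤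
        ((d + 1) * (hc d * z ^ 3)) ^ (2 * d) := by
      have hH0' : (0 : ℝ) ≤ H := by exact_mod_cast hH0
      calc (((d : ℝ) + 1) * H) ^ (f.natDegree + g.natDegree)
          ≤ ((d + 1) * (hc d * z ^ 3)) ^ (f.natDegree + g.natDegree) := by
            apply pow_le_pow_left₀ (by positivity)
            exact mul_le_mul_of_nonneg_left hHle (by positivity)
        _ ≤ _ := by
            apply pow_le_pow_right₀ _ hsum
            have : (0 : ℝ) ≤ d := by positivity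
            nlinarith
    calc ((f.natDegree + g.natDegree).factorial : ℝ) * ((d + 1) * H) ^ (f.natDegree + g.natDegree)
        ≤ (2 * d).factorial * ((d + 1) * (hc d * z ^ 3)) ^ (2 * d) :=
          mul_le_mul e2 e3 (by have : (0 : ℝ) ≤ H := by exact_mod_cast hH0
                               positivity) (by positivity)
      _ = A * z ^ (6 * d) := by
          rw [hA, ← mul_assoc ((d : ℝ) + 1), mul_pow ((((d : ℝ) + 1)) * hc d), ← pow_mul]
          have : 3 * (2 * d) = 6 * d := by ring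
          rw [this]
          ring
  -- the value
  set φ : ℤ[X] →+* ℂ := eval₂RingHom (Int.castRingHom ℂ) (x : ℂ) with hφ
  have hφv : ∀ p : ℤ[X], ‖φ p‖ = |aeval x p| := by
    intro p
    have e1 : φ p = aeval (x : ℂ) p := rfl
    have e2 : aeval (x : ℂ) p = ((aeval x p : ℝ) : ℂ) := by
      rw [← Complex.coe_algebraMap, aeval_algebraMap_apply]
    rw [e1, e2, Complex.norm_real, Real.norm_eq_abs]
  have hφe : ∀ p : ℤ[X][Y], p.natDegree ≤ d → ‖(p.map φ).eval (t : ℂ)‖ = |ev x t p| := by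
    intro p hp
    have e1 : (p.map φ).eval (t : ℂ) = ((ev x t p : ℝ) : ℂ) := by
      rw [eval_map, eval₂_eq_sum_range' _ (show p.natDegree < d + 1 by omega), ev_eq_sum x t d p hp]
      push_cast
      apply Finset.sum_congr rfl
      intro i _
      congr 1
      have e1 : φ (p.coeff i) = aeval (x : ℂ) (p.coeff i) := rfl
      rw [e1, ← Complex.coe_algebraMap, aeval_algebraMap_apply]
    rw [e1, Complex.norm_real, Real.norm_eq_abs]
  have hBv : 1 ≤ (d + 1) * T ^ d * (hc d * z ^ 3) := by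
    have e1 : (1 : ℝ) ≤ T ^ d := one_le_pow₀ hT
    have e2 : (1 : ℝ) ≤ (d + 1) * T ^ d := by
      have : (0 : ℝ) ≤ d := by positivity
      nlinarith
    nlinarith
  have hval := Pool.Agent.TH647.NR.norm_resultant_le (f.map φ) (g.map φ) f.natDegree g.natDegree
    natDegree_map_le natDegree_map_le (by omega) ((d + 1) * T ^ d * (hc d * z ^ 3)) T (1 / z ^ m) hBv
    (fun i => by
      rw [coeff_map, hφv]
      exact aeval_bound x T _ hT hxT (by positivity) d _ (hf4 i) (hf5 i))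
    (fun i => by
      rw [coeff_map, hφv]
      exact aeval_bound x T _ hT hxT (by positivity) d _ (hg4 i) (hg5 i))
    (t : ℂ) hT (by rw [Complex.norm_real, Real.norm_eq_abs]; exact ht)
    (by rw [hφe f hf3]; exact hf6) (by rw [hφe g hg3]; exact hg6)
  rw [resultant_map_map, ← hR, hφv] at hval
  have hval' : |aeval x R| ≤ C' * z ^ (6 * d) / z ^ m := by
    refine hval.trans ?_
    have e0 : ((f.natDegree : ℝ) + g.natDegree) ≤ 2 * d := by exact_mod_cast hsum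
    have e1 : T ^ (f.natDegree + g.natDegree) ≤ T ^ (2 * d) := pow_le_pow_right₀ hT hsum
    have e2 : ((f.natDegree + g.natDegree).factorial : ℝ) ≤ (2 * d).factorial := by
      exact_mod_cast Nat.factorial_le hsum
    have e3 : ((d + 1) * T ^ d * (hc d * z ^ 3)) ^ (f.natDegree + g.natDegree) ≤
        ((d + 1) * T ^ d * (hc d * z ^ 3)) ^ (2 * d) := pow_le_pow_right₀ hBv hsum
    calc ((f.natDegree : ℝ) + g.natDegree) * (T ^ (f.natDegree + g.natDegree) * (1 / z ^ m)) *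
          ((f.natDegree + g.natDegree).factorial *
            ((d + 1) * T ^ d * (hc d * z ^ 3)) ^ (f.natDegree + g.natDegree))
        ≤ (2 * d) * (T ^ (2 * d) * (1 / z ^ m)) * ((2 * d).factorial *
            ((d + 1) * T ^ d * (hc d * z ^ 3)) ^ (2 * d)) := by gcongr
      _ = C' * z ^ (6 * d) / z ^ m := by
          rw [hC', ← mul_assoc (((d : ℝ) + 1) * T ^ d), mul_pow ((((d : ℝ) + 1)) * T ^ d * hc d),
            ← pow_mul]
          have : 3 * (2 * d) = 6 * d := by ring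
          rw [this]
          ring
  have hAz : 1 ≤ A * z ^ (6 * d) := by
    have : 1 ≤ z ^ (6 * d) := one_le_pow₀ hz1
    nlinarith
  have h2 := hmeas R hres hRdeg (A * z ^ (6 * d)) hAz hRcoef
  have h3 := absorb_z A w c z hA1 hw hc0 hz1 (6 * d) (6 * d) m C' hC0 (by
    have : (m0 : ℝ) ≤ m := by exact_mod_cast hm
    linarith) hz
  have h4 : (A * z ^ (6 * d)) ^ w * |aeval x R| ≤ (A * z ^ (6 * d)) ^ w * (C' * z ^ (6 * d) / z ^ m) :=
    mul_le_mul_of_nonneg_left hval' (by positivity)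
  linarith

/-- interchange of the variables -/
theorem ev_swap (x t : ℝ) (P : ℤ[X][Y]) : ev x t (Bivariate.swap P) = ev t x P := by
  have : (ev x t).comp (Bivariate.swap (R := ℤ) : ℤ[X][Y] →+* ℤ[X][Y]) = ev t x := by
    apply Polynomial.ringHom_ext'
    · apply Polynomial.ringHom_ext'
      · exact RingHom.ext_int _ _
      · simp [ev, Bivariate.swap_X]
    · simp [ev, Bivariate.swap_Y]
  exact congrArg (fun h => h P) this

theorem Small.swap {x t : ℝ} {d m : ℕ} {B z : ℝ} {f : ℤ[X][Y]} (h : Small x t d m B z f) :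
    Small t x d m B z (Bivariate.swap f) := by
  obtain ⟨hf1, hf2, hf3, hf4, hf5, hf6⟩ := h
  refine ⟨?_, ?_, (swap_natDegree_le f d).2 hf4, ?_, ?_, ?_⟩
  · exact (MulEquiv.irreducible_iff (Bivariate.swap (R := ℤ))).2 hf1
  · unfold wt at hf2 ⊢
    rw [Bivariate.swap_swap_apply]
    omega
  · rw [← swap_natDegree_le, Bivariate.swap_swap_apply]
    exact hf3
  · intro i j
    rw [coeff_swap]
    exact hf5 j i
  · rw [ev_swap]
    exact hf6

/-- `P / Q` is a nonconstant rational function with bidegrees at most `d` and coefficients at most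
`z`, which is at most `z` at `(x, t)`. -/
def RatFun (x t : ℝ) (d : ℕ) (z : ℝ) (P Q : ℤ[X][Y]) : Prop :=
  Bd d z P ∧ Bd d z Q ∧ ev x t Q ≠ 0 ∧ |ev x t P| ≤ z * |ev x t Q| ∧
    ∀ (q : ℕ) (p : ℤ), 0 < q → C (C (q : ℤ)) * P ≠ C (C p) * Q

/-- **The irreducible relation at a scale**, with a condition on the relation and a default
relation. -/
theorem minpol2d (x : ℝ) (hx : MeasR x) (T : ℝ) (S : Set ℝ) (hS : ∀ t ∈ S, |t| ≤ T)
    (G : ℤ[X][Y] → Prop) (d : ℕ) (f₀ : ℤ[X][Y]) (hf₀ : Irreducible f₀) (hf₀' : 0 < f₀.natDegree)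
    (hG0 : G f₀)
    (hG : ∃ (m1 : ℕ) (x1 : ℝ), ∀ m : ℕ, m1 ≤ m → ∀ z : ℝ, 1 ≤ z → x1 < z →
      ∀ t ∈ S, ∀ f : ℤ[X][Y], Small x t d m (hc d * z ^ 3) z f → G f) :
    ∃ κ K : ℝ, 0 < κ ∧ 0 < K ∧ ∀ t ∈ S, ∀ N : ℕ, 0 < N →
      ∃ f : ℤ[X][Y], Irreducible f ∧ 0 < f.natDegree ∧ G f ∧
        ∀ P Q : ℤ[X][Y], RatFun x t d ((N : ℝ) ^ κ) P Q →
          (∃ M : ℕ, N ≤ M ∧ K * (N : ℝ) ^ (-κ) < disc (ev x t P / ev x t Q) M) →
          ∃ (q : ℕ) (p : ℤ), 0 < q ∧ (q : ℝ) ≤ 12 * (N : ℝ) ^ κ ∧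
            |ev x t P / ev x t Q - p / q| ≤ 16 * (N : ℝ) ^ κ / N ∧
            f ∣ C (C (q : ℤ)) * P - C (C p) * Q := by
  classical
  obtain ⟨T', hT'⟩ : ∃ T' : ℝ, T' = max 1 (max |x| T) := ⟨_, rfl⟩
  have hT1 : 1 ≤ T' := by rw [hT']; exact le_max_left _ _
  have hxT : |x| ≤ T' := by rw [hT']; exact (le_max_left _ _).trans (le_max_right _ _)
  have htT : ∀ t ∈ S, |t| ≤ T' := fun t ht => by
    rw [hT']; exact (hS t ht).trans ((le_max_right _ _).trans (le_max_right _ _))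
  obtain ⟨m1, x1, h1⟩ := small_deg x hx d
  obtain ⟨m2, x2, h2⟩ := small_assoc x hx T' hT1 hxT d
  obtain ⟨m3, x3, h3⟩ := hG
  obtain ⟨m, hm⟩ : ∃ m : ℕ, m = m1 + m2 + m3 := ⟨_, rfl⟩
  obtain ⟨x0, hx0⟩ : ∃ x0 : ℝ, x0 = 1 + |x1| + |x2| + |x3| + 192 * ((d + 1) * T' ^ d) ^ 2 := ⟨_, rfl⟩
  have hc0 : 0 ≤ 192 * ((d + 1) * T' ^ d) ^ 2 := by positivity
  have hx01 : 1 ≤ x0 := by
    linarith [abs_nonneg x1, abs_nonneg x2, abs_nonneg x3]
  obtain ⟨E, hE⟩ : ∃ E : ℕ, E = 2 * d * m + 4 := ⟨_, rfl⟩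
  have hE0 : (0 : ℝ) < E := by rw [hE]; positivity
  refine ⟨1 / E, x0, by positivity, by linarith, ?_⟩
  intro t ht N hN
  have hN1 : (1 : ℝ) ≤ N := by exact_mod_cast hN
  have hN0 : (0 : ℝ) < N := by linarith
  obtain ⟨z, hz⟩ : ∃ z : ℝ, z = (N : ℝ) ^ (1 / (E : ℝ)) := ⟨_, rfl⟩
  have hzN : z ^ E = N := by
    rw [hz, ← Real.rpow_natCast, ← Real.rpow_mul hN0.le, one_div_mul_cancel hE0.ne', Real.rpow_one]
  have hz1 : 1 ≤ z := by
    rw [hz]; exact Real.one_le_rpow hN1 (by positivity)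
  have hzp : 0 < z := by linarith
  have hzinv : (N : ℝ) ^ (-(1 / (E : ℝ))) = 1 / z := by
    rw [hz, Real.rpow_neg hN0.le, one_div, one_div]
  rw [← hz, hzinv]
  have key : ∀ P Q : ℤ[X][Y], RatFun x t d z P Q →
      (∃ M : ℕ, N ≤ M ∧ x0 * (1 / z) < disc (ev x t P / ev x t Q) M) →
      x0 < z ∧ ∃ (q : ℕ) (p : ℤ) (f : ℤ[X][Y]), (0 < q ∧ (q : ℝ) ≤ 12 * z ∧
        |ev x t P / ev x t Q - p / q| ≤ 16 * z / N ∧ f ∣ C (C (q : ℤ)) * P - C (C p) * Q) ∧
        Small x t d m (hc d * z ^ 3) z f := by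
    intro P Q hPQ hbad
    obtain ⟨M, hNM, hM⟩ := hbad
    have hzx0 : x0 < z := by
      have h4 := disc_le_one (ev x t P / ev x t Q) M
      have h5 : x0 * (1 / z) < 1 := by linarith
      rw [mul_one_div, div_lt_one hzp] at h5
      exact h5
    have hδ : 1 / z < disc (ev x t P / ev x t Q) M := by
      refine lt_of_le_of_lt ?_ hM
      have : 0 < 1 / z := by positivity
      nlinarith
    refine ⟨hzx0, pair_small x t T' hT1 hxT (htT t ht) d m z hz1 ?_ N M hN hNM (by rw [← hE]; exact hzN)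
      P Q hPQ.1 hPQ.2.1 hPQ.2.2.1 hPQ.2.2.2.1 hPQ.2.2.2.2 hδ⟩
    linarith [abs_nonneg x1, abs_nonneg x2, abs_nonneg x3]
  by_cases hex : ∃ P Q : ℤ[X][Y], RatFun x t d z P Q ∧
      ∃ M : ℕ, N ≤ M ∧ x0 * (1 / z) < disc (ev x t P / ev x t Q) M
  · obtain ⟨P, Q, hPQ, hbad⟩ := hex
    obtain ⟨hzx, q, p, f, hf1, hf2⟩ := key P Q hPQ hbad
    have g1 : x1 < z := by linarith [le_abs_self x1, abs_nonneg x2, abs_nonneg x3]
    have g2 : x2 < z := by linarith [le_abs_self x2, abs_nonneg x1, abs_nonneg x3]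
    have g3 : x3 < z := by linarith [le_abs_self x3, abs_nonneg x1, abs_nonneg x2]
    have hdeg : ∀ f : ℤ[X][Y], Small x t d m (hc d * z ^ 3) z f → 0 < f.natDegree := fun f hf =>
      h1 m (by omega) z hz1 g1 t f hf
    refine ⟨f, hf2.1, hdeg f hf2, h3 m (by omega) z hz1 g3 t ht f hf2, ?_⟩
    intro P' Q' hPQ' hbad'
    obtain ⟨_, q', p', f', ⟨hq', k1, k2, hf1'⟩, hf2'⟩ := key P' Q' hPQ' hbad'
    refine ⟨q', p', hq', k1, k2, ?_⟩
    have := h2 m (by omega) z hz1 g2 t (htT t ht) f f' hf2 hf2' (hdeg f hf2) (hdeg f' hf2')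
    exact this.dvd.trans hf1'
  · refine ⟨f₀, hf₀, hf₀', hG0, ?_⟩
    intro P Q hPQ hbad
    exact absurd ⟨P, Q, hPQ, hbad⟩ hex

/-- **The irreducible relation at a scale**, with a condition on the relation. -/
theorem minpol2 (x : ℝ) (hx : MeasR x) (T : ℝ) (S : Set ℝ) (hS : ∀ t ∈ S, |t| ≤ T)
    (G : ℤ[X][Y] → Prop) (d : ℕ) (hG0 : G (Y - C X))
    (hG : ∃ (m1 : ℕ) (x1 : ℝ), ∀ m : ℕ, m1 ≤ m → ∀ z : ℝ, 1 ≤ z → x1 < z →
      ∀ t ∈ S, ∀ f : ℤ[X][Y], Small x t d m (hc d * z ^ 3) z f → G f) :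
    ∃ κ K : ℝ, 0 < κ ∧ 0 < K ∧ ∀ t ∈ S, ∀ N : ℕ, 0 < N →
      ∃ f : ℤ[X][Y], Irreducible f ∧ 0 < f.natDegree ∧ G f ∧
        ∀ P Q : ℤ[X][Y], RatFun x t d ((N : ℝ) ^ κ) P Q →
          (∃ M : ℕ, N ≤ M ∧ K * (N : ℝ) ^ (-κ) < disc (ev x t P / ev x t Q) M) →
          ∃ (q : ℕ) (p : ℤ), 0 < q ∧ (q : ℝ) ≤ 12 * (N : ℝ) ^ κ ∧
            |ev x t P / ev x t Q - p / q| ≤ 16 * (N : ℝ) ^ κ / N ∧
            f ∣ C (C (q : ℤ)) * P - C (C p) * Q :=
  minpol2d x hx T S hS G d (Y - C X) (prime_X_sub_C _).irreducible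
    (by rw [natDegree_X_sub_C]; exact one_pos) hG0 hG

theorem swap_YX : 0 < (Bivariate.swap (Y - C X : ℤ[X][Y])).natDegree := by
  rw [map_sub, Bivariate.swap_Y, Bivariate.swap_X, natDegree_sub, natDegree_X_sub_C]
  exact one_pos

/-- one number with a transcendence measure, the other one arbitrary -/
theorem minpol2_any (x : ℝ) (hx : MeasR x) (T : ℝ) (d : ℕ) :
    ∃ κ K : ℝ, 0 < κ ∧ 0 < K ∧ ∀ t : ℝ, |t| ≤ T → ∀ N : ℕ, 0 < N →
      ∃ f : ℤ[X][Y], Irreducible f ∧ 0 < f.natDegree ∧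
        ∀ P Q : ℤ[X][Y], RatFun x t d ((N : ℝ) ^ κ) P Q →
          (∃ M : ℕ, N ≤ M ∧ K * (N : ℝ) ^ (-κ) < disc (ev x t P / ev x t Q) M) →
          ∃ (q : ℕ) (p : ℤ), 0 < q ∧ (q : ℝ) ≤ 12 * (N : ℝ) ^ κ ∧
            |ev x t P / ev x t Q - p / q| ≤ 16 * (N : ℝ) ^ κ / N ∧
            f ∣ C (C (q : ℤ)) * P - C (C p) * Q := by
  obtain ⟨κ, K, h1, h2, h3⟩ := minpol2 x hx T {t | |t| ≤ T} (fun t ht => ht) (fun _ => True) d trivial
    ⟨0, 0, fun _ _ _ _ _ _ _ _ _ => trivial⟩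
  refine ⟨κ, K, h1, h2, fun t ht N hN => ?_⟩
  obtain ⟨f, hf1, hf2, _, hf3⟩ := h3 t ht N hN
  exact ⟨f, hf1, hf2, hf3⟩

/-- two numbers with transcendence measures -/
theorem minpol2_both (x t : ℝ) (hx : MeasR x) (ht : MeasR t) (d : ℕ) :
    ∃ κ K : ℝ, 0 < κ ∧ 0 < K ∧ ∀ N : ℕ, 0 < N →
      ∃ f : ℤ[X][Y], Irreducible f ∧ 0 < f.natDegree ∧ 0 < (Bivariate.swap f).natDegree ∧
        ∀ P Q : ℤ[X][Y], RatFun x t d ((N : ℝ) ^ κ) P Q →
          (∃ M : ℕ, N ≤ M ∧ K * (N : ℝ) ^ (-κ) < disc (ev x t P / ev x t Q) M) →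
          ∃ (q : ℕ) (p : ℤ), 0 < q ∧ (q : ℝ) ≤ 12 * (N : ℝ) ^ κ ∧
            |ev x t P / ev x t Q - p / q| ≤ 16 * (N : ℝ) ^ κ / N ∧
            f ∣ C (C (q : ℤ)) * P - C (C p) * Q := by
  obtain ⟨κ, K, h1, h2, h3⟩ := minpol2 x hx |t| {t} (fun s hs => by rw [Set.mem_singleton_iff.1 hs])
    (fun f => 0 < (Bivariate.swap f).natDegree) d swap_YX (by
      obtain ⟨m1, x1, h⟩ := small_deg t ht d
      refine ⟨m1, x1, fun m hm z hz hzx s hs f hf => ?_⟩
      rw [Set.mem_singleton_iff.1 hs] at hf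
      exact h m hm z hz hzx x _ hf.swap)
  refine ⟨κ, K, h1, h2, fun N hN => ?_⟩
  exact h3 t rfl N hN

end Pool.Agent.Q158.EqD
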