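import Mathlib
import Pool.Agent.Q158.EqD.FieldApp

/-!
# Fields which contain no numbers that are hard to approximate: linear combinations
-/

set_option autoImplicit false

namespace Pool.Agent.Q158.EqD
open Real Polynomial

theorem Poor.fintype {F : Subfield ℝ} (h : Poor F) {ι : Type*} [Fintype ι] (z : ι → ℝ) (c μ : ℝ)
    (hc : 0 < c) (hμ : 0 < μ)
    (hz : ∀ (q : ℕ) (p : ι → ℤ), 0 < q → ∃ i, c ≤ (q : ℝ) ^ μ * |z i - p i / q|) :
    ∃ i, z i ∉ F := by
  obtain ⟨i, hi⟩ := h.2 (Fintype.card ι) (fun i => z ((Fintype.equivFin ι).symm i)) c μ hc hμ (by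
    intro q p hq
    obtain ⟨i, hi⟩ := hz q (fun i => p (Fintype.equivFin ι i)) hq
    exact ⟨Fintype.equivFin ι i, by simpa using hi⟩)
  exact ⟨_, hi⟩

theorem Poor.large {F : Subfield ℝ} (h : Poor F) {ι : Type*} [Fintype ι] (z : ι → ℝ) (c μ : ℝ)
    (q0 : ℕ) (hc : 0 < c) (hμ : 0 < μ)
    (hz : ∀ (q : ℕ), q0 ≤ q → 0 < q → ∀ (p : ι → ℤ), ∃ i, c ≤ (q : ℝ) ^ μ * |z i - p i / q|) :
    ∃ i, z i ∉ F := by
  apply h.fintype z (c / ((q0 : ℝ) + 1) ^ μ) μ (by positivity) hμ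
  intro q p hq
  obtain ⟨i, hi⟩ := hz ((q0 + 1) * q) (by nlinarith) (by positivity) (fun i => (q0 + 1) * p i)
  refine ⟨i, ?_⟩
  have hq0 : (0 : ℝ) < q := by exact_mod_cast hq
  have h1 : (0 : ℝ) < (q0 : ℝ) + 1 := by positivity
  rw [div_le_iff₀ (by positivity)]
  push_cast at hi
  rw [mul_div_mul_left _ _ h1.ne', Real.mul_rpow h1.le hq0.le] at hi
  linarith

/-- If the numbers `ζ i` are far from all the combinations `(p₀ + ∑ p_l v_l) / q` simultaneously,
then some of them is not in `F + F v_1 + ⋯ + F v_D`. -/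
theorem Poor.comb {F : Subfield ℝ} (h : Poor F) {D : ℕ} (v : Fin D → ℝ) {ι : Type*} [Fintype ι]
    (ζ : ι → ℝ) (E : ℕ)
    (hfar : ∃ q0 : ℕ, ∀ q : ℕ, q0 ≤ q → ∀ (p₀ : ι → ℤ) (p : ι → Fin D → ℤ),
      (∀ i l, |(p i l : ℝ)| ≤ (q : ℝ) ^ 2) →
      ∃ i, 1 / (q : ℝ) ^ E ≤ |(q : ℝ) * ζ i - p₀ i - ∑ l, (p i l : ℝ) * v l|) :
    ∃ i, ζ i ∉ Submodule.span F (insert (1 : ℝ) (Set.range v)) := by
  by_contra hcon
  push Not at hcon
  have h1 : ∀ i, ∃ (f0 : F) (f : Fin D → F), ζ i = f0 + ∑ l, (f l : ℝ) * v l := by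
    intro i
    obtain ⟨a, w, hw, hi⟩ := Submodule.mem_span_insert.1 (hcon i)
    obtain ⟨f, hf⟩ := (Submodule.mem_span_range_iff_exists_fun F).1 hw
    refine ⟨a, f, ?_⟩
    rw [hi, ← hf]
    simp only [Subfield.smul_def, smul_eq_mul, mul_one]
  choose f0 f hf using h1
  obtain ⟨q0, hq0⟩ := hfar
  obtain ⟨m, hm⟩ := exists_nat_ge (∑ i, ∑ l, |(f i l : ℝ)| + 1)
  set W : ℝ := 1 + ∑ l, |v l| with hW
  have hW1 : 1 ≤ W := by
    have : 0 ≤ ∑ l, |v l| := Finset.sum_nonneg fun _ _ => abs_nonneg _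
    linarith
  have hW0 : 0 < W := by linarith
  obtain ⟨i, hi⟩ := h.large (ι := ι ⊕ (ι × Fin D))
    (Sum.elim (fun i => (f0 i : ℝ)) (fun x => (f x.1 x.2 : ℝ))) (1 / W) (E + 1) (q0 + m)
    (by positivity) (by positivity) (by
      intro q hq hq1 p
      by_contra hall
      push Not at hall
      have hqp : (0 : ℝ) < q := by exact_mod_cast hq1
      have hq1' : (1 : ℝ) ≤ q := by exact_mod_cast hq1
      have hmq : (m : ℝ) ≤ q := by exact_mod_cast (by omega : m ≤ q)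
      have hpow : (q : ℝ) ^ ((E : ℝ) + 1) = (q : ℝ) ^ E * q := by
        rw [Real.rpow_add hqp, Real.rpow_natCast, Real.rpow_one]
      have hpE : (0 : ℝ) < (q : ℝ) ^ E := by positivity
      rw [hpow] at hall
      have key : ∀ i, |(q : ℝ) * Sum.elim (fun i => (f0 i : ℝ)) (fun x : ι × Fin D => (f x.1 x.2 : ℝ)) i
          - p i| < 1 / (W * (q : ℝ) ^ E) := by
        intro i
        have e1 := hall i
        set x := Sum.elim (fun i => (f0 i : ℝ)) (fun x : ι × Fin D => (f x.1 x.2 : ℝ)) i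
        have e2 : |(q : ℝ) * x - p i| = q * |x - p i / q| := by
          rw [← abs_of_pos hqp, ← abs_mul, abs_of_pos hqp]
          congr 1
          field_simp
        rw [e2, lt_div_iff₀ (by positivity)]
        rw [lt_div_iff₀ hW0] at e1
        calc (q : ℝ) * |x - p i / q| * (W * q ^ E) = q ^ E * q * |x - p i / q| * W := by ring
          _ < 1 := e1
      obtain ⟨i, hi⟩ := hq0 q (by omega) (fun i => p (Sum.inl i)) (fun i l => p (Sum.inr (i, l))) (by
        intro i l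
        have e1 := key (Sum.inr (i, l))
        simp only [Sum.elim_inr] at e1
        have e2 : 1 / (W * (q : ℝ) ^ E) ≤ 1 := by
          rw [div_le_one (by positivity)]
          have : (1 : ℝ) ≤ (q : ℝ) ^ E := one_le_pow₀ hq1'
          nlinarith
        have e3 : |(f i l : ℝ)| ≤ ∑ i, ∑ l, |(f i l : ℝ)| := by
          have s1 : |(f i l : ℝ)| ≤ ∑ l, |(f i l : ℝ)| :=
            Finset.single_le_sum (f := fun l => |(f i l : ℝ)|) (fun _ _ => abs_nonneg _)
              (Finset.mem_univ l)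
          have s2 : ∑ l, |(f i l : ℝ)| ≤ ∑ i, ∑ l, |(f i l : ℝ)| :=
            Finset.single_le_sum (f := fun i => ∑ l, |(f i l : ℝ)|)
              (fun _ _ => Finset.sum_nonneg fun _ _ => abs_nonneg _) (Finset.mem_univ i)
          exact s1.trans s2
        have e4 : |(p (Sum.inr (i, l)) : ℝ)| ≤ |(q : ℝ) * (f i l : ℝ)| + |(q : ℝ) * (f i l : ℝ) -
            p (Sum.inr (i, l))| := by
          calc |(p (Sum.inr (i, l)) : ℝ)| = |(q : ℝ) * (f i l : ℝ) -
              ((q : ℝ) * (f i l : ℝ) - p (Sum.inr (i, l)))| := by ring_nf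
            _ ≤ _ := abs_sub _ _
        rw [abs_mul, abs_of_pos hqp] at e4
        have e5 : |(f i l : ℝ)| + 1 ≤ q := by linarith
        nlinarith [abs_nonneg (f i l : ℝ)])
      have e0 := key (Sum.inl i)
      simp only [Sum.elim_inl] at e0
      have e1 : |(q : ℝ) * ζ i - p (Sum.inl i) - ∑ l, (p (Sum.inr (i, l)) : ℝ) * v l| ≤
          |(q : ℝ) * f0 i - p (Sum.inl i)| +
            ∑ l, |(q : ℝ) * f i l - p (Sum.inr (i, l))| * |v l| := by
        have : (q : ℝ) * ζ i - p (Sum.inl i) - ∑ l, (p (Sum.inr (i, l)) : ℝ) * v l =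
            ((q : ℝ) * f0 i - p (Sum.inl i)) +
              ∑ l, ((q : ℝ) * f i l - p (Sum.inr (i, l))) * v l := by
          rw [hf i]
          simp only [sub_mul, Finset.sum_sub_distrib]
          rw [mul_add, Finset.mul_sum]
          have : ∑ l, (q : ℝ) * ((f i l : ℝ) * v l) = ∑ l, (q : ℝ) * (f i l : ℝ) * v l :=
            Finset.sum_congr rfl fun l _ => by ring
          rw [this]
          ring
        rw [this]
        refine (abs_add_le _ _).trans (add_le_add le_rfl ?_)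
        refine (Finset.abs_sum_le_sum_abs _ _).trans (le_of_eq ?_)
        exact Finset.sum_congr rfl fun l _ => abs_mul _ _
      have e2 : ∑ l, |(q : ℝ) * f i l - p (Sum.inr (i, l))| * |v l| ≤
          ∑ l, 1 / (W * (q : ℝ) ^ E) * |v l| := by
        apply Finset.sum_le_sum
        intro l _
        have := key (Sum.inr (i, l))
        simp only [Sum.elim_inr] at this
        exact mul_le_mul_of_nonneg_right this.le (abs_nonneg _)
      rw [← Finset.mul_sum] at e2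
      have e3 : 1 / (W * (q : ℝ) ^ E) + 1 / (W * (q : ℝ) ^ E) * ∑ l, |v l| = 1 / (q : ℝ) ^ E := by
        have : 1 / (W * (q : ℝ) ^ E) + 1 / (W * (q : ℝ) ^ E) * ∑ l, |v l| =
            1 / (W * (q : ℝ) ^ E) * W := by rw [hW]; ring
        rw [this]
        field_simp
      linarith)
  rcases i with i | ⟨i, l⟩
  · exact hi (f0 i).2
  · exact hi (f i l).2

/-- The counting version. -/
theorem Poor.count {F : Subfield ℝ} (h : Poor F) {D : ℕ} (v : Fin D → ℝ) (ζ : ℕ → ℝ)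
    (S : Set ℕ) (hS : S.Finite) (E K : ℕ)
    (hfar : ∃ q0 : ℕ, ∀ q : ℕ, q0 ≤ q → K ≤ Set.ncard {j : ℕ | j ∈ S ∧
      ∀ (p₀ : ℤ) (p : Fin D → ℤ), (∀ l, |(p l : ℝ)| ≤ (q : ℝ) ^ 2) →
        1 / (q : ℝ) ^ E ≤ |(q : ℝ) * ζ j - p₀ - ∑ l, (p l : ℝ) * v l|}) :
    K ≤ Set.ncard {j : ℕ | j ∈ S ∧ ζ j ∉ Submodule.span F (insert (1 : ℝ) (Set.range v))} := by
  classical
  by_contra hcon
  push Not at hcon
  obtain ⟨q0, hq0⟩ := hfar
  set G : Set ℕ := {j : ℕ | j ∈ S ∧ ζ j ∉ Submodule.span F (insert (1 : ℝ) (Set.range v))} with hG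
  have hGf : G.Finite := hS.subset fun j hj => hj.1
  have hJf : (S \ G).Finite := hS.subset Set.diff_subset
  haveI : Fintype ↥(S \ G) := hJf.fintype
  obtain ⟨⟨j, hj⟩, hj2⟩ := h.comb v (ι := ↥(S \ G)) (fun j => ζ j.1) E ⟨q0, by
    intro q hq p₀ p hp
    have h1 := hq0 q hq
    set Gq : Set ℕ := {j : ℕ | j ∈ S ∧
      ∀ (p₀ : ℤ) (p : Fin D → ℤ), (∀ l, |(p l : ℝ)| ≤ (q : ℝ) ^ 2) →
        1 / (q : ℝ) ^ E ≤ |(q : ℝ) * ζ j - p₀ - ∑ l, (p l : ℝ) * v l|} with hGq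
    have hGqf : Gq.Finite := hS.subset fun j hj => hj.1
    have h2 : ¬ Gq ⊆ G := by
      intro hsub
      have := Set.ncard_le_ncard hsub hGf
      omega
    obtain ⟨j, hjq, hjG⟩ := Set.not_subset.1 h2
    exact ⟨⟨j, hjq.1, hjG⟩, hjq.2 _ _ (hp _)⟩⟩
  exact hj.2 ⟨hj.1, hj2⟩

end Pool.Agent.Q158.EqD
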