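import Mathlib
import Pool.Agent.Q158.EqD.Far

/-!
# Sequences of numbers with approximations of exponent two: sharp discrepancies
-/

set_option autoImplicit false

namespace Pool.Agent.Q158.EqD
open Finset Filter

/-- `(a n + b) B₁ ^ n ≤ B ^ n` for large `n` -/
theorem exp_dom (a b : ℝ) {B₁ B : ℝ} (h1 : 1 ≤ B₁) (h2 : B₁ < B) :
    ∃ n0 : ℕ, ∀ n : ℕ, n0 ≤ n → (a * n + b) * B₁ ^ n ≤ B ^ n := by
  have hB1 : 0 < B₁ := by linarith
  have hr : 1 < B / B₁ := by rwa [one_lt_div hB1]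
  have h3 : Tendsto (fun n : ℕ => (a * n + b) / (B / B₁) ^ n) atTop (nhds 0) := by
    have h4 : Tendsto (fun n : ℕ => (n : ℝ) / (B / B₁) ^ n) atTop (nhds 0) :=
      by simpa using tendsto_pow_const_div_const_pow_of_one_lt 1 hr
    have h5 : Tendsto (fun n : ℕ => (1 : ℝ) / (B / B₁) ^ n) atTop (nhds 0) := by
      simpa using tendsto_pow_const_div_const_pow_of_one_lt 0 hr
    have h6 := (h4.const_mul a).add (h5.const_mul b)
    simp only [mul_zero, add_zero] at h6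
    refine h6.congr fun n => ?_
    ring
  have h7 := h3.eventually (ge_mem_nhds (show (0 : ℝ) < 1 by norm_num))
  obtain ⟨n0, hn0⟩ := eventually_atTop.1 h7
  refine ⟨n0, fun n hn => ?_⟩
  have h8 := hn0 n hn
  have h9 : 0 < (B / B₁) ^ n := by positivity
  rw [div_le_one h9, div_pow, le_div_iff₀ (by positivity)] at h8
  exact h8

theorem log_le (C : ℝ) (n M : ℕ) (hM : 0 < M) (h : (M : ℝ) ≤ C ^ n) :
    ((Nat.log 2 M : ℕ) : ℝ) ≤ n * Real.logb 2 (max |C| 1) := by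
  have h1 : ((2 : ℕ) ^ (Nat.log 2 M) : ℕ) ≤ M := Nat.pow_log_le_self 2 hM.ne'
  have h2 : (2 : ℝ) ^ (Nat.log 2 M) ≤ (max |C| 1) ^ n := by
    calc (2 : ℝ) ^ (Nat.log 2 M) ≤ M := by exact_mod_cast h1
      _ ≤ |C| ^ n := by rw [← abs_pow]; exact h.trans (le_abs_self _)
      _ ≤ (max |C| 1) ^ n := by gcongr; exact le_max_left _ _
  have h3 := Real.logb_le_logb_of_le (b := 2) (by norm_num) (by positivity) h2
  rw [Real.logb_pow, Real.logb_pow, Real.logb_self_eq_one (by norm_num), mul_one] at h3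
  exact h3

/-- the best approximation with a denominator at most `m` -/
theorem exists_app (y A : ℝ) (m : ℕ) (hm : 0 < m)
    (h : ∀ r : ℚ, r.den ≤ m → |y - r| ≤ 1 / (((m : ℝ) + 1) * r.den) → (m : ℝ) ≤ A * r.den) :
    ∃ r : ℚ, r.den ≤ m ∧ (m : ℝ) ≤ A * r.den ∧ |y - r| ≤ 1 / (r.den : ℝ) ^ 2 := by
  obtain ⟨r, h1, h2⟩ := Real.exists_rat_abs_sub_le_and_den_le y hm
  refine ⟨r, h2, h r h2 h1, h1.trans ?_⟩
  have hd : (0 : ℝ) < r.den := by exact_mod_cast r.den_pos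
  have hdm : (r.den : ℝ) ≤ m := by exact_mod_cast h2
  apply one_div_le_one_div_of_le (by positivity)
  rw [sq]
  apply mul_le_mul_of_nonneg_right _ hd.le
  linarith

/-- **Sharp discrepancies for a sequence of numbers.** -/
theorem sharp_seq (x : ℕ → ℝ) (E K : ℝ) (hE : 1 ≤ E) (hK : 0 ≤ K)
    (h : ∀ C B : ℝ, 1 < B → ∃ n0 : ℕ, ∀ n : ℕ, n0 ≤ n → ∀ m : ℕ, 0 < m → K * E ^ n < m →
      (m : ℝ) ≤ C ^ n → ∀ r : ℚ, r.den ≤ m → |x n - r| ≤ 1 / (((m : ℝ) + 1) * r.den) →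
      (m : ℝ) ≤ B ^ n * r.den) (C B : ℝ) (hB : 1 < B) :
    ∃ n0 : ℕ, ∀ n : ℕ, n0 ≤ n → ∀ M : ℕ, 0 < M → (M : ℝ) ≤ C ^ n →
      disc (x n) M ≤ (E * B) ^ n / M := by
  set B₁ : ℝ := √B with hB1
  have hB0 : 0 < B := by linarith
  have h1 : 1 < B₁ := by
    rw [hB1, Real.lt_sqrt (by norm_num)]; linarith
  have h2 : B₁ < B := by
    rw [hB1, Real.sqrt_lt' hB0]; nlinarith
  obtain ⟨n1, hn1⟩ := h C B₁ h1
  set κ : ℝ := Real.logb 2 (max |C| 1) with hκ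
  have hκ0 : 0 ≤ κ := Real.logb_nonneg (by norm_num) (le_max_right _ _)
  obtain ⟨n2, hn2⟩ := exp_dom (6 * κ) (6 + 2 * K) h1.le h2
  refine ⟨n1 + n2, fun n hn M hM hMC => ?_⟩
  have hMR : (0 : ℝ) < M := by exact_mod_cast hM
  have hlog := log_le C n M hM hMC
  rw [← hκ] at hlog
  have hEn : 1 ≤ E ^ n := one_le_pow₀ hE
  have hmain := disc_sharp (x n) (B₁ ^ n) (by positivity) ⌊K * E ^ n⌋₊ M hM (by
    intro m hm1 hm2
    have hm : K * E ^ n < m := Nat.lt_of_floor_lt hm1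
    have hm0 : 0 < m := by omega
    apply exists_app (x n) (B₁ ^ n) m hm0
    intro r hr1 hr2
    apply hn1 n (by omega) m hm0 hm _ r hr1 hr2
    exact le_trans (by exact_mod_cast hm2) hMC)
  refine hmain.trans ?_
  apply div_le_div_of_nonneg_right _ hMR.le
  have hfl : ((⌊K * E ^ n⌋₊ : ℕ) : ℝ) ≤ K * E ^ n := Nat.floor_le (by positivity)
  have hB1n : 1 ≤ B₁ ^ n := one_le_pow₀ h1.le
  have h5 := hn2 n (by omega)
  have h6 : (6 * κ * n + (6 + 2 * K)) * B₁ ^ n * E ^ n ≤ (E * B) ^ n := by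
    rw [mul_pow, mul_comm (E ^ n)]
    exact mul_le_mul_of_nonneg_right h5 (by positivity)
  refine le_trans ?_ h6
  have h7 : B₁ ^ n * ((Nat.log 2 M : ℕ) + 1) ≤ B₁ ^ n * (n * κ + 1) := by
    apply mul_le_mul_of_nonneg_left _ (by positivity)
    linarith
  have h8 : B₁ ^ n * (n * κ + 1) ≤ B₁ ^ n * (n * κ + 1) * E ^ n :=
    le_mul_of_one_le_right (by positivity) hEn
  have h9 : K * E ^ n ≤ K * E ^ n * B₁ ^ n := le_mul_of_one_le_right (by positivity) hB1n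
  calc 2 * (3 * B₁ ^ n * ((Nat.log 2 M : ℕ) + 1) + (⌊K * E ^ n⌋₊ : ℕ))
      = 6 * (B₁ ^ n * ((Nat.log 2 M : ℕ) + 1)) + 2 * (⌊K * E ^ n⌋₊ : ℕ) := by ring
    _ ≤ 6 * (B₁ ^ n * (n * κ + 1) * E ^ n) + 2 * (K * E ^ n * B₁ ^ n) := by
        have e1 := h7.trans h8
        have e2 := hfl.trans h9
        linarith
    _ = (6 * κ * n + (6 + 2 * K)) * B₁ ^ n * E ^ n := by ring

end Pool.Agent.Q158.EqD
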