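import Mathlib
import Pool.Agent.Q158.EqD.Disc

/-!
# Simultaneous approximation and the discrepancies of several numbers at every scale
-/

set_option autoImplicit false

namespace Pool.Agent.Q158.EqD
open Finset

/-- If the numbers `z i` are far from all the rational points, then at every scale `N` one of them
has small discrepancies at all the scales `M ≥ N`, together with all its rational multiples with
small numerators and denominators. -/
theorem simul_disc {ι : Type*} [Fintype ι] (z : ι → ℝ) (c : ℝ) (μ : ℕ) (hc : 0 < c)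
    (hz : ∀ (q : ℕ) (p : ι → ℤ), 0 < q → ∃ i, c ≤ (q : ℝ) ^ μ * |z i - p i / q|) :
    ∃ K : ℝ, 0 < K ∧ ∀ N H : ℕ, 0 < N → 0 < H → ∃ i, ∀ (a b : ℤ), a ≠ 0 → 0 < b → |a| ≤ H → b ≤ H →
      ∀ M : ℕ, N ≤ M →
      disc (a / b * z i) M ≤ K * H * (N : ℝ) ^ (-(1 / ((Fintype.card ι * μ + 1 : ℕ) : ℝ))) := by
  classical
  set k := Fintype.card ι with hk
  set E : ℕ := k * μ + 1 with hE
  have hE0 : (0 : ℝ) < E := by rw [hE]; positivity
  set B : ℝ := 16 * 12 ^ (k * μ) / c with hB
  have hB0 : 0 < B := by rw [hB]; positivity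
  set K : ℝ := B ^ (1 / (E : ℝ)) + 1 with hK
  have hK0 : 0 < K := by rw [hK]; positivity
  have hKE : B < K ^ E := by
    have h1 : (B ^ (1 / (E : ℝ))) ^ E = B := by
      rw [← Real.rpow_natCast, ← Real.rpow_mul hB0.le, one_div, inv_mul_cancel₀ hE0.ne', Real.rpow_one]
    calc B = (B ^ (1 / (E : ℝ))) ^ E := h1.symm
      _ < K ^ E := by
        apply pow_lt_pow_left₀ _ (by positivity) (by rw [hE]; omega)
        rw [hK]; linarith
  refine ⟨K, hK0, fun N H hN hH => ?_⟩
  by_contra hcon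
  push Not at hcon
  have hNR : (0 : ℝ) < N := by exact_mod_cast hN
  have hHR : (0 : ℝ) < H := by exact_mod_cast hH
  set δ : ℝ := K * (N : ℝ) ^ (-(1 / (E : ℝ))) with hδ
  have hδ0 : 0 < δ := by rw [hδ]; positivity
  have hδE : δ ^ E * N = K ^ E := by
    rw [hδ, mul_pow, ← Real.rpow_natCast ((N : ℝ) ^ _), ← Real.rpow_mul hNR.le]
    have e : -(1 / (E : ℝ)) * (E : ℝ) = -1 := by field_simp
    rw [e, Real.rpow_neg_one]
    field_simp
  choose a b ha hb haH hbH M hM hdisc using hcon
  have hMpos : ∀ i, 0 < M i := fun i => lt_of_lt_of_le hN (hM i)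
  have hdisc' : ∀ i, δ * H < disc (a i / b i * z i) (M i) := fun i => by
    have := hdisc i
    rw [hδ]
    calc K * (N : ℝ) ^ (-(1 / (E : ℝ))) * H = K * H * (N : ℝ) ^ (-(1 / (E : ℝ))) := by ring
      _ < _ := this
  have happ := fun i => approx (a i / b i * z i) (M i) (hMpos i) (δ * H) (by positivity) (hdisc' i)
  choose r hr1 hr2 using happ
  have haR : ∀ i, (0 : ℝ) < |(a i : ℝ)| := fun i => abs_pos.2 (by exact_mod_cast ha i)
  have ha1 : ∀ i, (1 : ℝ) ≤ |(a i : ℝ)| := fun i => by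
    exact_mod_cast Int.one_le_abs (ha i)
  have hbR : ∀ i, (0 : ℝ) < (b i : ℝ) := fun i => by exact_mod_cast hb i
  have haH' : ∀ i, |(a i : ℝ)| ≤ H := fun i => by exact_mod_cast haH i
  have hbH' : ∀ i, (b i : ℝ) ≤ H := fun i => by exact_mod_cast hbH i
  set q : ℕ := ∏ i, ((r i).den * (a i).natAbs) with hq
  have hq0 : 0 < q := Finset.prod_pos fun i _ => Nat.mul_pos (r i).den_pos (Int.natAbs_pos.2 (ha i))
  have hqR : (0 : ℝ) < q := by exact_mod_cast hq0
  obtain ⟨i, hi⟩ := hz q (fun i => (r i).num * b i * (a i).sign *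
    ∏ j ∈ univ.erase i, (((r j).den * (a j).natAbs : ℕ) : ℤ)) hq0
  have hsign : ((a i).sign : ℝ) * a i = |(a i : ℝ)| := by
    have := Int.sign_mul_self_eq_abs (a i)
    exact_mod_cast this
  have hpi : ((((r i).num * b i * (a i).sign *
      ∏ j ∈ univ.erase i, (((r j).den * (a j).natAbs : ℕ) : ℤ) : ℤ)) : ℝ) / q =
      b i / a i * (r i : ℝ) := by
    have h1 : (q : ℝ) = ((r i).den * |(a i : ℝ)|) *
        ∏ j ∈ univ.erase i, (((r j).den : ℝ) * |(a j : ℝ)|) := by
      rw [hq]
      push_cast [Nat.cast_natAbs]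
      exact (Finset.mul_prod_erase univ (fun j => ((r j).den : ℝ) * |(a j : ℝ)|) (mem_univ i)).symm
    have h2 : (r i : ℝ) = (r i).num / (r i).den := by
      exact_mod_cast (Rat.num_div_den (r i)).symm
    have h3 : (0 : ℝ) < ∏ j ∈ univ.erase i, (((r j).den : ℝ) * |(a j : ℝ)|) :=
      Finset.prod_pos fun j _ => mul_pos (by exact_mod_cast (r j).den_pos) (haR j)
    have h4 : (0 : ℝ) < (r i).den := by exact_mod_cast (r i).den_pos
    have h5 : (a i : ℝ) ≠ 0 := by exact_mod_cast ha i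
    rw [h1, h2]
    push_cast [Nat.cast_natAbs]
    rw [div_mul_div_comm, div_eq_div_iff (by have := haR i; positivity) (by positivity)]
    have h6 : (a i : ℝ) * ((a i).sign : ℝ) = |(a i : ℝ)| := by rw [mul_comm]; exact hsign
    linear_combination ((r i).num : ℝ) * b i *
      (∏ j ∈ univ.erase i, (((r j).den : ℝ) * |(a j : ℝ)|)) * (r i).den * h6
  rw [hpi] at hi
  have hden : (1 : ℝ) ≤ (r i).den := by exact_mod_cast (r i).den_pos
  have h5 : |z i - b i / a i * r i| ≤ 16 / (δ * N) := by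
    have e1 : z i - b i / a i * r i = b i / a i * (a i / b i * z i - r i) := by
      have h5 : (a i : ℝ) ≠ 0 := by exact_mod_cast ha i
      have h6 : (b i : ℝ) ≠ 0 := (hbR i).ne'
      field_simp
    rw [e1, abs_mul, abs_div, abs_of_pos (hbR i)]
    have h8 : (b i : ℝ) / |(a i : ℝ)| ≤ H := by
      rw [div_le_iff₀ (haR i)]
      calc (b i : ℝ) ≤ H := hbH' i
        _ = H * 1 := by ring
        _ ≤ H * |(a i : ℝ)| := by gcongr; exact ha1 i
    calc (b i : ℝ) / |(a i : ℝ)| * |a i / b i * z i - r i|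
        ≤ H * (16 / (δ * H * M i * (r i).den)) := by
          apply mul_le_mul h8 (hr2 i) (abs_nonneg _) hHR.le
      _ = 16 / (δ * M i * (r i).den) := by
          have : (0 : ℝ) < M i := by exact_mod_cast hMpos i
          field_simp
      _ ≤ 16 / (δ * N) := by
          apply div_le_div_of_nonneg_left (by norm_num) (by positivity)
          have hMN : (N : ℝ) ≤ M i := by exact_mod_cast hM i
          calc δ * N ≤ δ * M i := by gcongr
            _ = δ * M i * 1 := by ring
            _ ≤ δ * M i * (r i).den := by gcongr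
  have h6' : ∀ i ∈ univ, ((r i).den : ℝ) * |(a i : ℝ)| ≤ 12 / δ := fun i _ => by
    calc ((r i).den : ℝ) * |(a i : ℝ)| ≤ 12 / (δ * H) * H := by
          apply mul_le_mul (hr1 i) (haH' i) (abs_nonneg _) (by positivity)
      _ = 12 / δ := by field_simp
  have h6 : (q : ℝ) ≤ (12 / δ) ^ k := by
    rw [hq]
    push_cast [Nat.cast_natAbs]
    have h0 : ∀ i ∈ univ, (0 : ℝ) ≤ ((r i).den : ℝ) * |(a i : ℝ)| := fun i _ => by positivity
    have := Finset.prod_le_prod h0 h6'
    rw [prod_const, card_univ] at this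
    exact this
  have h7 : c ≤ ((12 / δ) ^ k) ^ μ * (16 / (δ * N)) := by
    refine hi.trans ?_
    gcongr
  rw [← pow_mul, div_pow, div_mul_div_comm, le_div_iff₀ (by positivity)] at h7
  have h8 : c * (δ ^ (k * μ) * (δ * N)) = c * K ^ E := by
    rw [← hδE, hE]; ring
  rw [h8] at h7
  have h9 : K ^ E ≤ B := by
    rw [hB, le_div_iff₀ hc]
    linarith
  linarith

end Pool.Agent.Q158.EqD
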