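import Mathlib
import Pool.Agent.Q158.EqD.MinPol2

/-!
# Rational functions which look algebraic at a scale
-/

set_option autoImplicit false

namespace Pool.Agent.Q158.EqD
open Polynomial Polynomial.Bivariate

/-- the algebraic closure of `ℚ(X)` -/
def LL : Type := AlgebraicClosure (FractionRing ℤ[X])

noncomputable instance : Field LL := inferInstanceAs (Field (AlgebraicClosure (FractionRing ℤ[X])))

instance : IsAlgClosed LL := inferInstanceAs (IsAlgClosed (AlgebraicClosure (FractionRing ℤ[X])))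

noncomputable instance : Algebra (FractionRing ℤ[X]) LL :=
  inferInstanceAs (Algebra (FractionRing ℤ[X]) (AlgebraicClosure (FractionRing ℤ[X])))

noncomputable def iL : ℤ[X] →+* LL :=
  (algebraMap (FractionRing ℤ[X]) LL).comp (algebraMap ℤ[X] (FractionRing ℤ[X]))

theorem iL_inj : Function.Injective iL :=
  (FaithfulSMul.algebraMap_injective (FractionRing ℤ[X]) LL).comp (IsFractionRing.injective _ _)

instance : CharZero LL := charZero_of_injective_algebraMap
  (FaithfulSMul.algebraMap_injective (FractionRing ℤ[X]) LL)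

/-- the variable -/
noncomputable def xL : LL := iL X

theorem aeval_xL (p : ℤ[X]) : aeval xL p = iL p := by
  have h : ((aeval xL : ℤ[X] →ₐ[ℤ] LL) : ℤ[X] →+* LL) = iL := by
    apply Polynomial.ringHom_ext'
    · exact RingHom.ext_int _ _
    · simp [xL]
  exact congrArg (fun g => g p) h

theorem trans_xL : Transcendental ℤ xL := by
  rintro ⟨p, hp, h⟩
  rw [aeval_xL] at h
  exact hp ((map_eq_zero_iff _ iL_inj).1 h)

theorem xL_ne : xL ≠ 0 := by
  intro h
  apply trans_xL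
  rw [h]
  exact isAlgebraic_zero

/-- evaluation at `(X, y)` -/
noncomputable def evL (y : LL) : ℤ[X][Y] →+* LL := eval₂RingHom iL y

theorem exists_root (f : ℤ[X][Y]) (hf : 0 < f.natDegree) : ∃ y : LL, evL y f = 0 := by
  obtain ⟨y, hy⟩ := IsAlgClosed.exists_eval₂_eq_zero_of_injective iL iL_inj f (by
    intro h
    have := natDegree_eq_zero_iff_degree_le_zero.2 h.le
    omega)
  exact ⟨y, hy⟩

theorem root_ne (f : ℤ[X][Y]) (hf : Irreducible f) (hf0 : ¬ Associated f Y) (y : LL)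
    (hy : evL y f = 0) : y ≠ 0 := by
  intro h
  apply hf0
  rw [h] at hy
  have h1 : f.coeff 0 = 0 := by
    have : evL 0 f = iL (f.coeff 0) := by
      unfold evL
      rw [coe_eval₂RingHom, eval₂_at_zero]
    rw [this] at hy
    exact (map_eq_zero_iff _ iL_inj).1 hy
  have h2 : Y ∣ f := X_dvd_iff.2 h1
  exact (Irreducible.associated_of_dvd (prime_X (R := ℤ[X])).irreducible hf h2).symm

theorem root_trans (f : ℤ[X][Y]) (hf : Irreducible f) (hf0 : 0 < f.natDegree)
    (hf1 : 0 < (Bivariate.swap f).natDegree) (y : LL) (hy : evL y f = 0) : Transcendental ℤ y := by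
  rintro ⟨h, hh0, hh⟩
  set H : ℤ[X][Y] := h.map C with hH
  have hH0 : H ≠ 0 := by
    rw [hH]
    exact (Polynomial.map_ne_zero_iff (C_injective)).2 hh0
  have hHy : evL y H = 0 := by
    rw [hH]
    unfold evL
    rw [coe_eval₂RingHom, eval₂_map, ← hh]
    have : iL.comp C = algebraMap ℤ LL := RingHom.ext_int _ _
    rw [this]
    rfl
  set K := FractionRing ℤ[X] with hK
  set ι := algebraMap ℤ[X] K with hι
  have hfp : f.IsPrimitive := hf.isPrimitive hf0.ne'
  have hf' : Irreducible (f.map ι) :=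
    (IsPrimitive.irreducible_iff_irreducible_map_fraction_map (K := K) hfp).1 hf
  have hev : ∀ g : ℤ[X][Y], aeval y (g.map ι) = evL y g := by
    intro g
    rw [aeval_def, eval₂_map]
    rfl
  have hdvd : f.map ι ∣ H.map ι := by
    by_contra hnd
    obtain ⟨a, b, hab⟩ := (hf'.coprime_iff_not_dvd).2 hnd
    have := congrArg (aeval y) hab
    rw [map_add, map_mul, map_mul, hev, hev, hy, hHy, map_one] at this
    simp at this
  have h1 : f ∣ H := hfp.dvd_of_fraction_map_dvd_fraction_map (K := K) hdvd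
  have h2 := swap_dvd h1
  rw [hH, Bivariate.swap_map_C] at h2
  have h3 := natDegree_le_of_dvd h2 (by rwa [Ne, C_eq_zero])
  rw [natDegree_C] at h3
  omega

/-- the numerator of `P(u / v)` -/
noncomputable def comp (P : ℤ[X]) (u v : ℤ[X][Y]) (n : ℕ) : ℤ[X][Y] :=
  ∑ i ∈ Finset.range (n + 1), C (C (P.coeff i)) * (u ^ i * v ^ (n - i))

theorem map_comp' {F : Type*} [Field F] [CharZero F] (φ : ℤ[X][Y] →+* F) (P : ℤ[X]) (u v : ℤ[X][Y])
    (n : ℕ) (hP : P.natDegree ≤ n) (hv : φ v ≠ 0) :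
    φ (comp P u v n) = φ v ^ n * aeval (φ u / φ v) P := by
  unfold comp
  rw [map_sum, aeval_eq_sum_range' (show P.natDegree < n + 1 by omega), Finset.mul_sum]
  apply Finset.sum_congr rfl
  intro i hi
  have hi' : i ≤ n := by
    have := Finset.mem_range.1 hi
    omega
  have h1 : φ (C (C (P.coeff i))) = (P.coeff i : F) := by
    have : (φ.comp (C : ℤ[X] →+* ℤ[X][Y])).comp (C : ℤ →+* ℤ[X]) = Int.castRingHom F :=
      RingHom.ext_int _ _
    exact congrArg (fun g => g (P.coeff i)) this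
  rw [map_mul, map_mul, map_pow, map_pow, h1, zsmul_eq_mul, div_pow]
  have h2 : φ v ^ n = φ v ^ (n - i) * φ v ^ i := by
    rw [← pow_add]; congr 1; omega
  rw [h2]
  field_simp

theorem alg_of_const {F : Type*} [Field F] [CharZero F] (φ : ℤ[X][Y] →+* F) (P : ℤ[X])
    (u v : ℤ[X][Y]) (n : ℕ) (hP : P.natDegree ≤ n) (hP0 : 0 < P.natDegree) (hv : φ v ≠ 0) (q : ℕ)
    (p : ℤ) (hq : 0 < q) (h : φ (C (C (q : ℤ)) * comp P u v n - C (C p) * v ^ n) = 0) :
    IsAlgebraic ℤ (φ u / φ v) := by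
  have hCC : ∀ k : ℤ, φ (C (C k)) = (k : F) := by
    intro k
    have : (φ.comp (C : ℤ[X] →+* ℤ[X][Y])).comp (C : ℤ →+* ℤ[X]) = Int.castRingHom F :=
      RingHom.ext_int _ _
    exact congrArg (fun g => g k) this
  refine ⟨C (q : ℤ) * P - C p, ?_, ?_⟩
  · intro h0
    have h1 : (C (q : ℤ) * P - C p).natDegree = P.natDegree := by
      rw [natDegree_sub_C, natDegree_C_mul]
      exact_mod_cast hq.ne'
    rw [h0, natDegree_zero] at h1
    omega
  · rw [map_sub, map_mul, map_mul, map_pow, hCC, hCC, map_comp' φ P u v n hP hv] at h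
    have h2 : φ v ^ n * ((q : ℤ) * aeval (φ u / φ v) P - p) = 0 := by
      rw [← h]; ring
    have h3 := (mul_eq_zero.1 h2).resolve_left (pow_ne_zero _ hv)
    rw [map_sub, map_mul, aeval_C, aeval_C]
    simpa using h3

/-- sums of monomials -/
theorem bd_sum {ι : Type*} (s : Finset ι) (α β : ι → ℕ) (c : ι → ℤ) (D : ℕ) (H : ℝ)
    (hα : ∀ i ∈ s, α i ≤ D) (hβ : ∀ i ∈ s, β i ≤ D) (hc : ∑ i ∈ s, |(c i : ℝ)| ≤ H) :
    Bd D H (∑ i ∈ s, monomial (β i) (monomial (α i) (c i))) := by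
  classical
  refine ⟨?_, ?_, ?_⟩
  · apply natDegree_sum_le_of_forall_le
    intro i hi
    exact (natDegree_monomial_le _).trans (hβ i hi)
  · intro k
    rw [finsetSum_coeff]
    apply natDegree_sum_le_of_forall_le
    intro i hi
    rw [coeff_monomial]
    split_ifs
    · exact (natDegree_monomial_le _).trans (hα i hi)
    · simp
  · intro k j
    rw [finsetSum_coeff, finsetSum_coeff]
    push_cast
    refine (Finset.abs_sum_le_sum_abs _ _).trans (le_trans ?_ hc)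
    apply Finset.sum_le_sum
    intro i _
    rw [coeff_monomial]
    split_ifs with h1
    · rw [coeff_monomial]
      split_ifs with h2
      · exact le_rfl
      · simp
    · simp

theorem Bd.mono {D D' : ℕ} {H H' : ℝ} {P : ℤ[X][Y]} (h : Bd D H P) (hD : D ≤ D') (hH : H ≤ H') :
    Bd D' H' P :=
  ⟨h.1.trans hD, fun i => (h.2.1 i).trans hD, fun i j => (h.2.2 i j).trans hH⟩

/-- **The general theorem.** -/
theorem trans_general (x : ℝ) (hx : MeasR x) (T : ℝ) (S : Set ℝ) (hS : ∀ t ∈ S, |t| ≤ T)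
    (G : ℤ[X][Y] → Prop) (D : ℕ) (hG0 : G (Y - C X))
    (hG : ∃ (m1 : ℕ) (x1 : ℝ), ∀ m : ℕ, m1 ≤ m → ∀ z : ℝ, 1 ≤ z → x1 < z →
      ∀ t ∈ S, ∀ f : ℤ[X][Y], Small x t D m (hc D * z ^ 3) z f → G f) (n e : ℕ) (A : ℝ) (hA : 1 ≤ A) :
    ∃ κ K : ℝ, 0 < κ ∧ 0 < K ∧ ∀ t ∈ S, ∀ N : ℕ, 0 < N →
      ∃ f : ℤ[X][Y], Irreducible f ∧ 0 < f.natDegree ∧ G f ∧
        ∀ (u v : ℤ[X][Y]) (P : ℤ[X]), 0 < P.natDegree → P.natDegree ≤ n →
          Bd D (A * ((N : ℝ) ^ κ) ^ e) (comp P u v n) → Bd D (A * ((N : ℝ) ^ κ) ^ e) (v ^ n) →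
          ev x t v ≠ 0 → |aeval (ev x t u / ev x t v) P| ≤ A * ((N : ℝ) ^ κ) ^ e →
          (∀ (q : ℕ) (p : ℤ), 0 < q → C (C (q : ℤ)) * comp P u v n ≠ C (C p) * v ^ n) →
          (∃ M : ℕ, N ≤ M ∧ K * (N : ℝ) ^ (-κ) < disc (aeval (ev x t u / ev x t v) P) M) →
          ∀ y : LL, evL y f = 0 → evL y v ≠ 0 → IsAlgebraic ℤ (evL y u / evL y v) := by
  obtain ⟨κ₀, K₀, hκ₀, hK₀, h⟩ := minpol2 x hx T S hS G D hG0 hG
  have he0 : (0 : ℝ) < (e : ℝ) + 1 := by positivity
  have hAK : 0 < max K₀ A := lt_max_of_lt_left hK₀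
  refine ⟨κ₀ / (e + 1), max K₀ A, by positivity, hAK, ?_⟩
  intro t ht N hN
  obtain ⟨f, hf1, hf2, hf3, hf4⟩ := h t ht N hN
  refine ⟨f, hf1, hf2, hf3, ?_⟩
  intro u v P hP0 hPn hB1 hB2 hv hρ hnc hbad y hy hyv
  have hN1 : (1 : ℝ) ≤ N := by exact_mod_cast hN
  have hN0 : (0 : ℝ) < N := by linarith
  obtain ⟨w, hw⟩ : ∃ w : ℝ, w = (N : ℝ) ^ (κ₀ / (e + 1)) := ⟨_, rfl⟩
  have hw1 : 1 ≤ w := by
    rw [hw]; exact Real.one_le_rpow hN1 (by positivity)
  have hwp : 0 < w := by linarith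
  have hwe : w ^ (e + 1) = (N : ℝ) ^ κ₀ := by
    rw [hw, ← Real.rpow_natCast, ← Real.rpow_mul hN0.le]
    congr 1
    push_cast
    field_simp
  have hwinv : (N : ℝ) ^ (-(κ₀ / (e + 1))) = 1 / w := by
    rw [hw, Real.rpow_neg hN0.le, one_div]
  rw [← hw] at hB1 hB2 hρ
  rw [hwinv] at hbad
  obtain ⟨M, hNM, hM⟩ := hbad
  have hwA : A < w := by
    have h1 := disc_le_one (aeval (ev x t u / ev x t v) P) M
    have h2 : max K₀ A * (1 / w) < 1 := by linarith
    rw [mul_one_div, div_lt_one hwp] at h2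
    exact (le_max_right _ _).trans_lt h2
  have hH : A * w ^ e ≤ (N : ℝ) ^ κ₀ := by
    rw [← hwe, pow_succ, mul_comm]
    exact mul_le_mul_of_nonneg_left hwA.le (by positivity)
  have hev : ev x t (comp P u v n) / ev x t (v ^ n) = aeval (ev x t u / ev x t v) P := by
    rw [map_comp' (ev x t) P u v n hPn hv, map_pow]
    field_simp
  obtain ⟨q, p, hq, _, _, hdvd⟩ := hf4 (comp P u v n) (v ^ n)
    ⟨hB1.mono le_rfl hH, hB2.mono le_rfl hH, by rw [map_pow]; exact pow_ne_zero _ hv, by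
      rw [map_comp' (ev x t) P u v n hPn hv, map_pow, abs_mul, mul_comm]
      exact mul_le_mul_of_nonneg_right (hρ.trans hH) (abs_nonneg _), hnc⟩ (by
      refine ⟨M, hNM, ?_⟩
      rw [hev]
      refine lt_of_le_of_lt ?_ hM
      rw [Real.rpow_neg hN0.le, ← hwe]
      have h1 : (w ^ (e + 1))⁻¹ ≤ 1 / w := by
        rw [one_div]
        apply inv_anti₀ hwp
        exact le_self_pow₀ hw1 (by omega)
      exact mul_le_mul (le_max_left _ _) h1 (by positivity) hAK.le)
  apply alg_of_const (evL y) P u v n hPn hP0 hyv q p hq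
  obtain ⟨g, hg⟩ := hdvd
  rw [hg, map_mul, hy, zero_mul]

end Pool.Agent.Q158.EqD
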