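import Mathlib
import Pool.Agent.Q158.EqD.Trans

/-!
# Monomials and linear forms which look algebraic at a scale
-/

set_option autoImplicit false

namespace Pool.Agent.Q158.EqD
open Polynomial Polynomial.Bivariate

theorem alg_zpow {F : Type*} [Field F] [CharZero F] {z : F} (h : IsAlgebraic ℤ z) (k : ℤ) :
    IsAlgebraic ℤ (z ^ k) := by
  rcases k with k | k
  · simpa using h.pow k
  · rw [zpow_negSucc]
    exact (h.pow (k + 1)).inv

theorem alg_of_zpow' {F : Type*} [Field F] [CharZero F] {z : F} {k : ℤ} (hk : k ≠ 0)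
    (h : IsAlgebraic ℤ (z ^ k)) : IsAlgebraic ℤ z := by
  rcases lt_or_gt_of_ne hk with h0 | h0
  · have h1 : IsAlgebraic ℤ (z ^ (-k).toNat) := by
      have : z ^ (-k).toNat = (z ^ k)⁻¹ := by
        rw [← zpow_natCast, Int.toNat_of_nonneg (by omega), zpow_neg]
      rw [this]
      exact h.inv
    exact h1.of_pow (by omega)
  · have h1 : IsAlgebraic ℤ (z ^ k.toNat) := by
      rw [← zpow_natCast, Int.toNat_of_nonneg h0.le]
      exact h
    exact h1.of_pow (by omega)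

/-- the numerator of a monomial -/
noncomputable def mn (a b : ℕ) : ℤ[X][Y] := monomial b (monomial a 1)

theorem mn_pow (a b k : ℕ) : mn a b ^ k = mn (a * k) (b * k) := by
  unfold mn
  rw [monomial_pow, monomial_pow, one_pow]

theorem mn_mul (a b a' b' : ℕ) : mn a b * mn a' b' = mn (a + a') (b + b') := by
  unfold mn
  rw [monomial_mul_monomial, monomial_mul_monomial, one_mul]

theorem C_mn (c : ℤ) (a b : ℕ) : C (C c) * mn a b = monomial b (monomial a c) := by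
  unfold mn
  rw [C_mul_monomial, C_mul_monomial, mul_one]

theorem comp_mn (P : ℤ[X]) (a1 b1 a2 b2 n : ℕ) : comp P (mn a1 b1) (mn a2 b2) n =
    ∑ i ∈ Finset.range (n + 1), monomial (b1 * i + b2 * (n - i))
      (monomial (a1 * i + a2 * (n - i)) (P.coeff i)) := by
  unfold comp
  apply Finset.sum_congr rfl
  intro i _
  rw [mn_pow, mn_pow, mn_mul, C_mn]

theorem ev_mn (x t : ℝ) (a b : ℕ) : ev x t (mn a b) = x ^ a * t ^ b := by
  unfold ev mn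
  rw [coe_eval₂RingHom, eval₂_monomial, coe_eval₂RingHom, eval₂_monomial]
  simp

theorem evL_mn (y : LL) (a b : ℕ) : evL y (mn a b) = xL ^ a * y ^ b := by
  unfold evL mn
  rw [coe_eval₂RingHom, eval₂_monomial]
  congr 1
  have : (monomial a (1 : ℤ) : ℤ[X]) = X ^ a := by
    rw [monomial_one_right_eq_X_pow]
  rw [this, map_pow]
  rfl

theorem quot_zpow {F : Type*} [Field F] (x t : F) (hx : x ≠ 0) (ht : t ≠ 0) (a b : ℤ) :
    (x ^ a.toNat * t ^ b.toNat) / (x ^ (-a).toNat * t ^ (-b).toNat) = x ^ a * t ^ b := by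
  have key : ∀ (z : F), z ≠ 0 → ∀ k : ℤ, z ^ k.toNat / z ^ (-k).toNat = z ^ k := by
    intro z hz k
    rw [← zpow_natCast, ← zpow_natCast, ← zpow_sub₀ hz]
    congr 1
    omega
  rw [mul_div_mul_comm, key x hx, key t ht]

theorem toNat_le {a : ℤ} {k : ℕ} (h : |a| ≤ k) : a.toNat ≤ k ∧ (-a).toNat ≤ k := by
  rw [abs_le] at h
  omega

/-- nonconstant -/
theorem nonconst_mn (P : ℤ[X]) (hP0 : 0 < P.natDegree) (n : ℕ) (hPn : P.natDegree ≤ n) (a b : ℤ)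
    (hab : ¬ (a = 0 ∧ b = 0)) (q : ℕ) (p : ℤ) (hq : 0 < q) :
    C (C (q : ℤ)) * comp P (mn a.toNat b.toNat) (mn (-a).toNat (-b).toNat) n ≠
      C (C p) * mn (-a).toNat (-b).toNat ^ n := by
  intro h
  obtain ⟨m, hm⟩ : ∃ m : ℤ, a + b * m ≠ 0 := by
    by_cases ha : a = 0
    · exact ⟨1, fun h => hab ⟨ha, by omega⟩⟩
    · exact ⟨0, by simpa using ha⟩
  have hy : xL ^ m ≠ 0 := zpow_ne_zero _ xL_ne
  have hv : evL (xL ^ m) (mn (-a).toNat (-b).toNat) ≠ 0 := by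
    rw [evL_mn]
    exact mul_ne_zero (pow_ne_zero _ xL_ne) (pow_ne_zero _ hy)
  have h1 := alg_of_const (evL (xL ^ m)) P (mn a.toNat b.toNat) (mn (-a).toNat (-b).toNat) n hPn hP0
    hv q p hq (by rw [h, sub_self, map_zero])
  rw [evL_mn, evL_mn, quot_zpow xL (xL ^ m) xL_ne hy, ← zpow_mul, ← zpow_add₀ xL_ne] at h1
  apply trans_xL
  refine alg_of_zpow' (k := a + m * b) ?_ h1
  rwa [mul_comm m b]

theorem sum_coeff_le (P : ℤ[X]) (n : ℕ) (w : ℝ) (hP : ∀ i, |(P.coeff i : ℝ)| ≤ w) :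
    ∑ i ∈ Finset.range (n + 1), |(P.coeff i : ℝ)| ≤ (n + 1) * w := by
  calc ∑ i ∈ Finset.range (n + 1), |(P.coeff i : ℝ)| ≤ ∑ _i ∈ Finset.range (n + 1), w :=
        Finset.sum_le_sum fun i _ => hP i
    _ = (n + 1) * w := by
        rw [Finset.sum_const, Finset.card_range, nsmul_eq_mul]
        push_cast
        ring

/-- the powers are bounded -/
theorem zpow_le_max (z R : ℝ) (hz : 0 < z) (h1 : z ≤ R) (h2 : z⁻¹ ≤ R) (hR : 1 ≤ R) (a : ℤ) (k : ℕ)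
    (ha : |a| ≤ k) : z ^ a ≤ R ^ k := by
  have key : ∀ (y : ℝ), 0 < y → y ≤ R → ∀ j : ℕ, j ≤ k → y ^ j ≤ R ^ k := fun y hy hyR j hj =>
    (pow_le_pow_left₀ hy.le hyR j).trans (pow_le_pow_right₀ hR hj)
  rw [abs_le] at ha
  rcases le_total 0 a with h | h
  · have : z ^ a = z ^ a.toNat := by
      rw [← zpow_natCast, Int.toNat_of_nonneg h]
    rw [this]
    exact key z hz h1 _ (by omega)
  · have : z ^ a = z⁻¹ ^ (-a).toNat := by
      rw [← zpow_natCast, Int.toNat_of_nonneg (by omega), inv_zpow', neg_neg]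
    rw [this]
    exact key _ (by positivity) h2 _ (by omega)

/-- **Monomials**, general form. -/
theorem mono_general (x : ℝ) (hx : MeasR x) (hx0 : 0 < x) (τ T : ℝ) (hτ : 0 < τ) (S : Set ℝ)
    (hS : ∀ t ∈ S, τ ≤ t ∧ t ≤ T) (G : ℤ[X][Y] → Prop) (n k₀ : ℕ) (hG0 : G (Y - C X))
    (hG : ∃ (m1 : ℕ) (x1 : ℝ), ∀ m : ℕ, m1 ≤ m → ∀ z : ℝ, 1 ≤ z → x1 < z →
      ∀ t ∈ S, ∀ f : ℤ[X][Y], Small x t (k₀ * n) m (hc (k₀ * n) * z ^ 3) z f → G f) :
    ∃ κ K : ℝ, 0 < κ ∧ 0 < K ∧ ∀ t ∈ S, ∀ N : ℕ, 0 < N →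
      ∃ f : ℤ[X][Y], Irreducible f ∧ 0 < f.natDegree ∧ G f ∧ ¬ Associated f Y ∧
        ∀ a b : ℤ, |a| ≤ k₀ → |b| ≤ k₀ → ¬ (a = 0 ∧ b = 0) →
          ∀ P : ℤ[X], 0 < P.natDegree → P.natDegree ≤ n → (∀ i, |(P.coeff i : ℝ)| ≤ (N : ℝ) ^ κ) →
          (∃ M : ℕ, N ≤ M ∧ K * (N : ℝ) ^ (-κ) < disc (aeval (x ^ a * t ^ b) P) M) →
          ∀ y : LL, evL y f = 0 → IsAlgebraic ℤ (xL ^ a * y ^ b) := by
  obtain ⟨R, hR⟩ : ∃ R : ℝ, R = 1 + x + x⁻¹ + |T| + τ⁻¹ := ⟨_, rfl⟩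
  have hxi : 0 < x⁻¹ := by positivity
  have hτi : 0 < τ⁻¹ := by positivity
  have hT0 := abs_nonneg T
  have hR1 : 1 ≤ R := by rw [hR]; linarith
  obtain ⟨A, hA⟩ : ∃ A : ℝ, A = (n + 1) * ((R ^ k₀ * R ^ k₀) ^ n) := ⟨_, rfl⟩
  have hRR : 1 ≤ R ^ k₀ * R ^ k₀ := by
    have : 1 ≤ R ^ k₀ := one_le_pow₀ hR1
    nlinarith
  have hRRn : 1 ≤ (R ^ k₀ * R ^ k₀) ^ n := one_le_pow₀ hRR
  have hn0 : (0 : ℝ) ≤ n := by positivity
  have hA1 : (n : ℝ) + 1 ≤ A := by rw [hA]; nlinarith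
  obtain ⟨m1, x1, hG1⟩ := hG
  obtain ⟨κ, K, h1, h2, h3⟩ := trans_general x hx |T| S (fun t ht => by
      rw [abs_of_pos (hτ.trans_le (hS t ht).1)]
      exact (hS t ht).2.trans (le_abs_self _))
    (fun f => G f ∧ ¬ Associated f Y) (k₀ * n)
    ⟨hG0, by
      intro h
      have h0 : Y ∣ (Y - C X : ℤ[X][Y]) := h.symm.dvd
      rw [X_dvd_iff] at h0
      simp at h0⟩
    ⟨m1 + 1, max x1 τ⁻¹, by
      intro m hm z hz1 hz t ht f hf
      refine ⟨hG1 m (by omega) z hz1 ((le_max_left _ _).trans_lt hz) t ht f hf, ?_⟩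
      rintro ⟨u, hu⟩
      obtain ⟨hf1, hf2, hf3, hf4, hf5, hf6⟩ := hf
      have h4 : |ev x t f| = t := by
        have e1 : ev x t f * ev x t u = t := by
          rw [← map_mul, hu]
          unfold ev
          rw [coe_eval₂RingHom, eval₂_X]
        obtain ⟨r, hr, hru⟩ := Polynomial.isUnit_iff.1 u.isUnit
        obtain ⟨s, hs, hsr⟩ := Polynomial.isUnit_iff.1 hr
        have e2 : |ev x t (u : ℤ[X][Y])| = 1 := by
          rw [← hru, ← hsr, ev_CC]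
          rcases Int.isUnit_iff.1 hs with h | h <;> simp [h]
        have e3 := congrArg abs e1
        rw [abs_mul, e2, mul_one, abs_of_pos (hτ.trans_le (hS t ht).1)] at e3
        exact e3
      rw [h4] at hf6
      have hzp : 0 < z := by linarith
      have h5 : 1 / z ^ m ≤ 1 / z := by
        apply one_div_le_one_div_of_le hzp
        exact le_self_pow₀ hz1 (by omega)
      have h6 : 1 / z < τ := by
        rw [div_lt_iff₀ hzp]
        have := (le_max_right x1 τ⁻¹).trans_lt hz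
        rw [inv_lt_iff_one_lt_mul₀ hτ] at this
        linarith
      linarith [(hS t ht).1]⟩ n 1 A (by linarith)
  refine ⟨κ, K, h1, h2, fun t ht N hN => ?_⟩
  obtain ⟨f, hf1, hf2, ⟨hf3, hf3'⟩, hf4⟩ := h3 t ht N hN
  refine ⟨f, hf1, hf2, hf3, hf3', ?_⟩
  intro a b ha hb hab P hP0 hPn hPN hbad y hy
  have hN1 : (1 : ℝ) ≤ N := by exact_mod_cast hN
  have hw1 : 1 ≤ (N : ℝ) ^ κ := Real.one_le_rpow hN1 h1.le
  obtain ⟨ha1, ha2⟩ := toNat_le ha
  obtain ⟨hb1, hb2⟩ := toNat_le hb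
  have htp : 0 < t := hτ.trans_le (hS t ht).1
  have hy0 : y ≠ 0 := root_ne f hf1 hf3' y hy
  have hval : ev x t (mn a.toNat b.toNat) / ev x t (mn (-a).toNat (-b).toNat) = x ^ a * t ^ b := by
    rw [ev_mn, ev_mn, quot_zpow x t hx0.ne' htp.ne']
  have hsum : ∀ (u v i : ℕ), u ≤ k₀ → v ≤ k₀ → i ≤ n → u * i + v * (n - i) ≤ k₀ * n := by
    intro u v i hu hv hi
    calc u * i + v * (n - i) ≤ k₀ * i + k₀ * (n - i) :=
          Nat.add_le_add (Nat.mul_le_mul_right _ hu) (Nat.mul_le_mul_right _ hv)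
      _ = k₀ * (i + (n - i)) := by ring
      _ = k₀ * n := by congr 1; omega
  have hle : ∀ i ∈ Finset.range (n + 1), i ≤ n := fun i hi => by
    have := Finset.mem_range.1 hi
    omega
  have h5 := hf4 (mn a.toNat b.toNat) (mn (-a).toNat (-b).toNat) P hP0 hPn
    (by
      rw [comp_mn]
      apply bd_sum
      · intro i hi
        exact hsum _ _ _ ha1 ha2 (hle i hi)
      · intro i hi
        exact hsum _ _ _ hb1 hb2 (hle i hi)
      · refine (sum_coeff_le P n _ hPN).trans ?_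
        rw [pow_one]
        exact mul_le_mul_of_nonneg_right hA1 (by linarith))
    (by
      rw [mn_pow]
      have := bd_sum (Finset.range 1) (fun _ => (-a).toNat * n) (fun _ => (-b).toNat * n)
        (fun _ => (1 : ℤ)) (k₀ * n) (A * ((N : ℝ) ^ κ) ^ 1) (fun _ _ => Nat.mul_le_mul_right _ ha2)
        (fun _ _ => Nat.mul_le_mul_right _ hb2) (by
          simp only [Finset.range_one, Finset.sum_singleton, Int.cast_one, abs_one, pow_one]
          nlinarith)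
      simpa [mn] using this)
    (by
      rw [ev_mn]
      positivity)
    (by
      rw [hval]
      have hb3 : |x ^ a * t ^ b| ≤ R ^ k₀ * R ^ k₀ := by
        rw [abs_of_pos (by positivity)]
        apply mul_le_mul
        · exact zpow_le_max x R hx0 (by rw [hR]; linarith) (by rw [hR]; linarith) hR1 a k₀ ha
        · have hti : t⁻¹ ≤ τ⁻¹ := inv_anti₀ hτ (hS t ht).1
          exact zpow_le_max t R htp (by rw [hR]; linarith [(hS t ht).2, le_abs_self T])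
            (by rw [hR]; linarith) hR1 b k₀ hb
        · positivity
        · positivity
      have := aeval_bound (x ^ a * t ^ b) (R ^ k₀ * R ^ k₀) ((N : ℝ) ^ κ) hRR hb3 (by linarith) n P hPn
        hPN
      rw [hA, pow_one]
      exact this)
    (fun q p hq => nonconst_mn P hP0 n hPn a b hab q p hq)
    (by rw [hval]; exact hbad) y hy
    (by
      rw [evL_mn]
      exact mul_ne_zero (pow_ne_zero _ xL_ne) (pow_ne_zero _ hy0))
  rw [evL_mn, evL_mn, quot_zpow xL y xL_ne hy0] at h5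
  exact h5

theorem line_of_alg (y : LL) (hy0 : y ≠ 0) (a b c d : ℤ) (h1 : IsAlgebraic ℤ (xL ^ a * y ^ b))
    (h2 : IsAlgebraic ℤ (xL ^ c * y ^ d)) : a * d = b * c := by
  by_contra hne
  have h3 : a * d - b * c ≠ 0 := sub_ne_zero.2 hne
  apply trans_xL
  refine alg_of_zpow' h3 ?_
  have e : xL ^ (a * d - b * c) = (xL ^ a * y ^ b) ^ d * (xL ^ c * y ^ d) ^ (-b) := by
    rw [mul_zpow, mul_zpow, ← zpow_mul, ← zpow_mul, ← zpow_mul, ← zpow_mul]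
    have e1 : xL ^ (a * d) * y ^ (b * d) * (xL ^ (c * -b) * y ^ (d * -b)) =
        (xL ^ (a * d) * xL ^ (c * -b)) * (y ^ (b * d) * y ^ (d * -b)) := by ring
    rw [e1, ← zpow_add₀ xL_ne, ← zpow_add₀ hy0]
    have e2 : b * d + d * -b = 0 := by ring
    have e3 : a * d + c * -b = a * d - b * c := by ring
    rw [e2, e3, zpow_zero, mul_one]
  rw [e]
  exact (alg_zpow h1 d).mul (alg_zpow h2 (-b))

/-- **Monomials**, one number arbitrary. -/
theorem mono_any (x : ℝ) (hx : MeasR x) (hx0 : 0 < x) (τ T : ℝ) (hτ : 0 < τ) (n k₀ : ℕ) :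
    ∃ κ K : ℝ, 0 < κ ∧ 0 < K ∧ ∀ t : ℝ, τ ≤ t → t ≤ T → ∀ N : ℕ, 0 < N →
      ∃ a₀ b₀ : ℤ, b₀ ≠ 0 ∧ ∀ a b : ℤ, |a| ≤ k₀ → |b| ≤ k₀ → a * b₀ ≠ b * a₀ →
        ∀ P : ℤ[X], 0 < P.natDegree → P.natDegree ≤ n → (∀ i, |(P.coeff i : ℝ)| ≤ (N : ℝ) ^ κ) →
          ∀ M : ℕ, N ≤ M → disc (aeval (x ^ a * t ^ b) P) M ≤ K * (N : ℝ) ^ (-κ) := by
  obtain ⟨κ, K, h1, h2, h3⟩ := mono_general x hx hx0 τ T hτ {t | τ ≤ t ∧ t ≤ T} (fun t ht => ht)
    (fun _ => True) n k₀ trivial ⟨0, 0, fun _ _ _ _ _ _ _ _ _ => trivial⟩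
  refine ⟨κ, K, h1, h2, fun t ht1 ht2 N hN => ?_⟩
  obtain ⟨f, hf1, hf2, _, hf3, hf4⟩ := h3 t ⟨ht1, ht2⟩ N hN
  obtain ⟨y, hy⟩ := exists_root f hf2
  have hy0 := root_ne f hf1 hf3 y hy
  by_cases hex : ∃ a b : ℤ, |a| ≤ k₀ ∧ |b| ≤ k₀ ∧ ¬ (a = 0 ∧ b = 0) ∧ IsAlgebraic ℤ (xL ^ a * y ^ b)
  · obtain ⟨a₀, b₀, _, _, hab, halg⟩ := hex
    refine ⟨a₀, b₀, ?_, ?_⟩
    · intro hb
      rw [hb, zpow_zero, mul_one] at halg
      refine trans_xL (alg_of_zpow' (fun ha => hab ⟨ha, hb⟩) halg)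
    · intro a b ha hb hne P hP0 hPn hPN M hM
      by_contra hcon
      push Not at hcon
      have hab' : ¬ (a = 0 ∧ b = 0) := by
        rintro ⟨ha0, hb0⟩
        apply hne
        rw [ha0, hb0, zero_mul, zero_mul]
      have h5 := hf4 a b ha hb hab' P hP0 hPn hPN ⟨M, hM, hcon⟩ y hy
      exact hne (line_of_alg y hy0 a b a₀ b₀ h5 halg)
  · refine ⟨1, 1, one_ne_zero, ?_⟩
    intro a b ha hb hne P hP0 hPn hPN M hM
    by_contra hcon
    push Not at hcon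
    have hab' : ¬ (a = 0 ∧ b = 0) := by
      rintro ⟨ha0, hb0⟩
      apply hne
      rw [ha0, hb0]
    exact hex ⟨a, b, ha, hb, hab', hf4 a b ha hb hab' P hP0 hPn hPN ⟨M, hM, hcon⟩ y hy⟩

/-- **Monomials**, both numbers with measures. -/
theorem mono_both (x t : ℝ) (hx : MeasR x) (hx0 : 0 < x) (ht : MeasR t) (ht0 : 0 < t) (n k₀ : ℕ) :
    ∃ κ K : ℝ, 0 < κ ∧ 0 < K ∧ ∀ N : ℕ, 0 < N →
      ∃ a₀ b₀ : ℤ, a₀ ≠ 0 ∧ b₀ ≠ 0 ∧ ∀ a b : ℤ, |a| ≤ k₀ → |b| ≤ k₀ → a * b₀ ≠ b * a₀ →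
        ∀ P : ℤ[X], 0 < P.natDegree → P.natDegree ≤ n → (∀ i, |(P.coeff i : ℝ)| ≤ (N : ℝ) ^ κ) →
          ∀ M : ℕ, N ≤ M → disc (aeval (x ^ a * t ^ b) P) M ≤ K * (N : ℝ) ^ (-κ) := by
  obtain ⟨κ, K, h1, h2, h3⟩ := mono_general x hx hx0 t t ht0 {t}
    (fun s hs => by rw [Set.mem_singleton_iff.1 hs]; exact ⟨le_rfl, le_rfl⟩)
    (fun f => 0 < (Bivariate.swap f).natDegree) n k₀ swap_YX (by
      obtain ⟨m1, x1, h⟩ := small_deg t ht (k₀ * n)
      refine ⟨m1, x1, fun m hm z hz hzx s hs f hf => ?_⟩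
      rw [Set.mem_singleton_iff.1 hs] at hf
      exact h m hm z hz hzx x _ hf.swap)
  refine ⟨κ, K, h1, h2, fun N hN => ?_⟩
  obtain ⟨f, hf1, hf2, hf2', hf3, hf4⟩ := h3 t rfl N hN
  obtain ⟨y, hy⟩ := exists_root f hf2
  have hy0 := root_ne f hf1 hf3 y hy
  have hyt := root_trans f hf1 hf2 hf2' y hy
  by_cases hex : ∃ a b : ℤ, |a| ≤ k₀ ∧ |b| ≤ k₀ ∧ ¬ (a = 0 ∧ b = 0) ∧ IsAlgebraic ℤ (xL ^ a * y ^ b)
  · obtain ⟨a₀, b₀, _, _, hab, halg⟩ := hex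
    refine ⟨a₀, b₀, ?_, ?_, ?_⟩
    · intro ha
      rw [ha, zpow_zero, one_mul] at halg
      exact hyt (alg_of_zpow' (fun hb => hab ⟨ha, hb⟩) halg)
    · intro hb
      rw [hb, zpow_zero, mul_one] at halg
      exact trans_xL (alg_of_zpow' (fun ha => hab ⟨ha, hb⟩) halg)
    · intro a b ha hb hne P hP0 hPn hPN M hM
      by_contra hcon
      push Not at hcon
      have hab' : ¬ (a = 0 ∧ b = 0) := by
        rintro ⟨ha0, hb0⟩
        apply hne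
        rw [ha0, hb0, zero_mul, zero_mul]
      have h5 := hf4 a b ha hb hab' P hP0 hPn hPN ⟨M, hM, hcon⟩ y hy
      exact hne (line_of_alg y hy0 a b a₀ b₀ h5 halg)
  · refine ⟨1, 1, one_ne_zero, one_ne_zero, ?_⟩
    intro a b ha hb hne P hP0 hPn hPN M hM
    by_contra hcon
    push Not at hcon
    have hab' : ¬ (a = 0 ∧ b = 0) := by
      rintro ⟨ha0, hb0⟩
      apply hne
      rw [ha0, hb0]
    exact hex ⟨a, b, ha, hb, hab', hf4 a b ha hb hab' P hP0 hPn hPN ⟨M, hM, hcon⟩ y hy⟩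

end Pool.Agent.Q158.EqD
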