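import Mathlib
import Pool.Agent.Q158.EqD.TransApp

/-!
# Linear forms which look algebraic at a scale; a criterion for transcendence
-/

set_option autoImplicit false

namespace Pool.Agent.Q158.EqD
open Polynomial Polynomial.Bivariate

/-- A number is transcendental if and only if the values of all nonconstant integer polynomials have
discrepancies tending to zero. -/
theorem trans_iff (y : ℝ) : Transcendental ℚ y ↔ ∀ P : ℤ[X], 0 < P.natDegree →
    Filter.Tendsto (fun N : ℕ => disc (aeval y P) N) Filter.atTop (nhds 0) := by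
  constructor
  · intro hy P hP
    rw [tendsto_iff]
    rintro ⟨r, hr⟩
    apply hy
    refine ⟨P.map (Int.castRingHom ℚ) - C r, ?_, ?_⟩
    · intro h0
      have h1 : (P.map (Int.castRingHom ℚ) - C r).natDegree = P.natDegree := by
        rw [natDegree_sub_C, natDegree_map_eq_of_injective (RingHom.injective_int _)]
      rw [h0, natDegree_zero] at h1
      omega
    · rw [map_sub, aeval_C]
      have : aeval y (P.map (Int.castRingHom ℚ)) = aeval y P := by
        have := aeval_map_algebraMap ℚ y P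
        simpa using this
      rw [this, ← hr]
      simp
  · intro h halg
    have halg' : IsAlgebraic ℤ y := (IsFractionRing.isAlgebraic_iff ℤ ℚ ℝ).2 halg
    obtain ⟨p, hp, hpy⟩ := halg'
    have hdeg : 0 < p.natDegree := by
      by_contra hcon
      have h0 : p.natDegree = 0 := by omega
      rw [eq_C_of_natDegree_eq_zero h0, aeval_C] at hpy
      apply hp
      rw [eq_C_of_natDegree_eq_zero h0]
      have : p.coeff 0 = 0 := by simpa using hpy
      rw [this, C_0]
    have h1 := h p hdeg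
    rw [hpy, tendsto_iff] at h1
    exact h1 ⟨0, by simp⟩

/-- the form `r Y + s X` -/
noncomputable def lf (r s : ℤ) : ℤ[X][Y] := monomial 1 (monomial 0 r) + monomial 0 (monomial 1 s)

theorem lf_pow (r s : ℤ) (i : ℕ) : lf r s ^ i = ∑ m ∈ Finset.range (i + 1),
    monomial m (monomial (i - m) (r ^ m * s ^ (i - m) * (i.choose m : ℤ))) := by
  unfold lf
  rw [add_pow]
  apply Finset.sum_congr rfl
  intro m _
  rw [monomial_pow, monomial_pow, monomial_pow, monomial_pow, monomial_mul_monomial,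
    monomial_mul_monomial]
  have : ((i.choose m : ℕ) : ℤ[X][Y]) = monomial 0 (monomial 0 ((i.choose m : ℕ) : ℤ)) := by
    rw [monomial_zero_left, monomial_zero_left]
    simp
  rw [this, monomial_mul_monomial, monomial_mul_monomial]
  simp

theorem comp_lf (P : ℤ[X]) (r s : ℤ) (n : ℕ) : comp P (lf r s) (C (C r)) n =
    ∑ j ∈ (Finset.range (n + 1)).sigma (fun i => Finset.range (i + 1)), monomial j.2
      (monomial (j.1 - j.2) (P.coeff j.1 * (r ^ j.2 * s ^ (j.1 - j.2) * (j.1.choose j.2 : ℤ)) *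
        r ^ (n - j.1))) := by
  unfold comp
  rw [Finset.sum_sigma]
  apply Finset.sum_congr rfl
  intro i _
  rw [lf_pow, Finset.sum_mul, Finset.mul_sum]
  apply Finset.sum_congr rfl
  intro m _
  rw [← C_pow, ← C_pow, mul_comm (monomial m _) (C _), ← mul_assoc, ← C_mul, ← C_mul,
    C_mul_monomial, C_mul_monomial]
  congr 2
  ring

theorem bd_lf (P : ℤ[X]) (r s : ℤ) (n : ℕ) (w : ℝ) (hw : 1 ≤ w) (hP : ∀ i, |(P.coeff i : ℝ)| ≤ w)
    (hr : |(r : ℝ)| ≤ w) (hs : |(s : ℝ)| ≤ w) :
    Bd n (((n + 1) * (n + 1) * 2 ^ n : ℕ) * w ^ (n + 1)) (comp P (lf r s) (C (C r)) n) := by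
  rw [comp_lf]
  apply bd_sum
  · rintro ⟨i, m⟩ hj
    rw [Finset.mem_sigma, Finset.mem_range, Finset.mem_range] at hj
    dsimp at hj ⊢
    omega
  · rintro ⟨i, m⟩ hj
    rw [Finset.mem_sigma, Finset.mem_range, Finset.mem_range] at hj
    dsimp at hj ⊢
    omega
  · calc ∑ j ∈ (Finset.range (n + 1)).sigma (fun i => Finset.range (i + 1)),
        |((P.coeff j.1 * (r ^ j.2 * s ^ (j.1 - j.2) * (j.1.choose j.2 : ℤ)) * r ^ (n - j.1) : ℤ) : ℝ)|
        ≤ ∑ _j ∈ (Finset.range (n + 1)).sigma (fun i => Finset.range (i + 1)),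
          (2 ^ n : ℕ) * w ^ (n + 1) := by
          apply Finset.sum_le_sum
          rintro ⟨i, m⟩ hj
          rw [Finset.mem_sigma, Finset.mem_range, Finset.mem_range] at hj
          dsimp at hj ⊢
          push_cast
          rw [abs_mul, abs_mul, abs_mul, abs_mul, abs_pow, abs_pow, abs_pow, Nat.abs_cast]
          have e1 : ((i.choose m : ℕ) : ℝ) ≤ 2 ^ n := by
            have : i.choose m ≤ 2 ^ n :=
              (Nat.choose_le_two_pow _ _).trans (Nat.pow_le_pow_right (by norm_num) (by omega))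
            exact_mod_cast this
          have e2 : |(r : ℝ)| ^ m ≤ w ^ m := pow_le_pow_left₀ (abs_nonneg _) hr _
          have e3 : |(s : ℝ)| ^ (i - m) ≤ w ^ (i - m) := pow_le_pow_left₀ (abs_nonneg _) hs _
          have e4 : |(r : ℝ)| ^ (n - i) ≤ w ^ (n - i) := pow_le_pow_left₀ (abs_nonneg _) hr _
          calc |(P.coeff i : ℝ)| * (|(r : ℝ)| ^ m * |(s : ℝ)| ^ (i - m) * (i.choose m : ℝ)) *
                |(r : ℝ)| ^ (n - i)
              ≤ w * (w ^ m * w ^ (i - m) * 2 ^ n) * w ^ (n - i) := by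
                gcongr
                exact hP i
            _ = 2 ^ n * w ^ (1 + m + (i - m) + (n - i)) := by
                rw [pow_add, pow_add, pow_add, pow_one]; ring
            _ = 2 ^ n * w ^ (n + 1) := by
                congr 2
                omega
      _ = (((Finset.range (n + 1)).sigma (fun i => Finset.range (i + 1))).card : ℝ) *
          ((2 ^ n : ℕ) * w ^ (n + 1)) := by
          rw [Finset.sum_const, nsmul_eq_mul]
      _ ≤ ((n + 1) * (n + 1) : ℕ) * ((2 ^ n : ℕ) * w ^ (n + 1)) := by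
          apply mul_le_mul_of_nonneg_right _ (by positivity)
          have : ((Finset.range (n + 1)).sigma (fun i => Finset.range (i + 1))).card ≤
              (n + 1) * (n + 1) := by
            rw [Finset.card_sigma]
            calc ∑ i ∈ Finset.range (n + 1), (Finset.range (i + 1)).card
                ≤ ∑ _i ∈ Finset.range (n + 1), (n + 1) := by
                  apply Finset.sum_le_sum
                  intro i hi
                  rw [Finset.card_range]
                  have := Finset.mem_range.1 hi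
                  omega
              _ = (n + 1) * (n + 1) := by
                  rw [Finset.sum_const, Finset.card_range, smul_eq_mul]
          exact_mod_cast this
      _ = _ := by push_cast; ring

theorem ev_lf (x t : ℝ) (r s : ℤ) : ev x t (lf r s) = r * t + s * x := by
  unfold ev lf
  rw [map_add, coe_eval₂RingHom, eval₂_monomial, eval₂_monomial, coe_eval₂RingHom, eval₂_monomial,
    eval₂_monomial]
  simp

theorem evL_CC (y : LL) (r : ℤ) : evL y (C (C r)) = r := by
  have : ((evL y).comp (C : ℤ[X] →+* ℤ[X][Y])).comp (C : ℤ →+* ℤ[X]) = Int.castRingHom LL :=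
    RingHom.ext_int _ _
  exact congrArg (fun g => g r) this

theorem evL_lf (y : LL) (r s : ℤ) : evL y (lf r s) = r * y + s * xL := by
  have h1 : lf r s = C (C r) * Y + C (C s) * C X := by
    unfold lf
    rw [← C_mul, ← C_mul_X_eq_monomial, monomial_zero_left, monomial_zero_left,
      ← C_mul_X_eq_monomial]
  have h2 : evL y Y = y := by
    unfold evL
    rw [coe_eval₂RingHom, eval₂_X]
  have h3 : evL y (C X) = xL := by
    unfold evL
    rw [coe_eval₂RingHom, eval₂_C]
    rfl
  rw [h1, map_add, map_mul, map_mul, evL_CC, evL_CC, h2, h3]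

/-- **Linear forms `t + a x`.** -/
theorem aff (x : ℝ) (hx : MeasR x) (T : ℝ) (n : ℕ) :
    ∃ κ K : ℝ, 0 < κ ∧ 0 < K ∧ ∀ t : ℝ, |t| ≤ T → ∀ N : ℕ, 0 < N → ∃ a₀ : ℚ, ∀ a : ℚ,
      |(a.num : ℝ)| ≤ (N : ℝ) ^ κ → (a.den : ℝ) ≤ (N : ℝ) ^ κ → a ≠ a₀ →
      ∀ P : ℤ[X], 0 < P.natDegree → P.natDegree ≤ n → (∀ i, |(P.coeff i : ℝ)| ≤ (N : ℝ) ^ κ) →
        ∀ M : ℕ, N ≤ M → disc (aeval (t + a * x) P) M ≤ K * (N : ℝ) ^ (-κ) := by
  obtain ⟨R, hR⟩ : ∃ R : ℝ, R = 1 + |T| + |x| := ⟨_, rfl⟩
  have hT0 := abs_nonneg T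
  have hxa := abs_nonneg x
  have hR1 : 1 ≤ R := by rw [hR]; linarith
  obtain ⟨A, hA⟩ : ∃ A : ℝ, A = ((n + 1) * (n + 1) * 2 ^ n : ℕ) + (n + 1) * R ^ n := ⟨_, rfl⟩
  have hA0 : (0 : ℝ) ≤ (n + 1) * R ^ n := by positivity
  have hA0' : (1 : ℝ) ≤ ((n + 1) * (n + 1) * 2 ^ n : ℕ) := by
    have : 1 ≤ (n + 1) * (n + 1) * 2 ^ n := Nat.one_le_iff_ne_zero.2 (by positivity)
    exact_mod_cast this
  have hA1 : 1 ≤ A := by linarith
  obtain ⟨κ, K, h1, h2, h3⟩ := trans_general x hx T {t | |t| ≤ T} (fun t ht => ht) (fun _ => True) n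
    trivial ⟨0, 0, fun _ _ _ _ _ _ _ _ _ => trivial⟩ n (n + 1) A hA1
  refine ⟨κ, K, h1, h2, fun t ht N hN => ?_⟩
  obtain ⟨f, hf1, hf2, _, hf3⟩ := h3 t ht N hN
  obtain ⟨y, hy⟩ := exists_root f hf2
  have hN1 : (1 : ℝ) ≤ N := by exact_mod_cast hN
  have hw1 : 1 ≤ (N : ℝ) ^ κ := Real.one_le_rpow hN1 h1.le
  have hw0 : 0 < (N : ℝ) ^ κ := by linarith
  -- a bad slope gives an algebraic number
  have key : ∀ a : ℚ, |(a.num : ℝ)| ≤ (N : ℝ) ^ κ → (a.den : ℝ) ≤ (N : ℝ) ^ κ →
      (∃ P : ℤ[X], 0 < P.natDegree ∧ P.natDegree ≤ n ∧ (∀ i, |(P.coeff i : ℝ)| ≤ (N : ℝ) ^ κ) ∧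
        ∃ M : ℕ, N ≤ M ∧ K * (N : ℝ) ^ (-κ) < disc (aeval (t + a * x) P) M) →
      IsAlgebraic ℤ (y + a * xL) := by
    rintro a ha1 ha2 ⟨P, hP0, hPn, hPN, hbad⟩
    have hden : (a.den : ℤ) ≠ 0 := by exact_mod_cast a.den_pos.ne'
    have hdenR : (a.den : ℝ) ≠ 0 := by exact_mod_cast a.den_pos.ne'
    have hdenL : (a.den : LL) ≠ 0 := by exact_mod_cast a.den_pos.ne'
    have haR : (a : ℝ) = a.num / a.den := by exact_mod_cast (Rat.num_div_den a).symm
    have haL : (a : LL) = a.num / a.den := by exact_mod_cast (Rat.num_div_den a).symm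
    have hval : ev x t (lf a.den a.num) / ev x t (C (C (a.den : ℤ))) = t + a * x := by
      rw [ev_lf, ev_CC, haR]
      push_cast
      field_simp
    have hvalL : ∀ y : LL, evL y (lf a.den a.num) / evL y (C (C (a.den : ℤ))) = y + a * xL := by
      intro y
      rw [evL_lf, evL_CC, haL]
      push_cast
      field_simp
    have hdenabs : |((a.den : ℤ) : ℝ)| ≤ (N : ℝ) ^ κ := by
      rw [Int.cast_natCast, Nat.abs_cast]
      exact ha2
    have h5 := hf3 (lf a.den a.num) (C (C (a.den : ℤ))) P hP0 hPn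
      ((bd_lf P a.den a.num n _ hw1 hPN hdenabs ha1).mono le_rfl (by
        apply mul_le_mul_of_nonneg_right _ (by positivity)
        rw [hA]
        linarith))
      (by
        have := bd_sum (Finset.range 1) (fun _ => 0) (fun _ => 0) (fun _ => (a.den : ℤ) ^ n) n
          (A * ((N : ℝ) ^ κ) ^ (n + 1)) (fun _ _ => by omega) (fun _ _ => by omega) (by
            simp only [Finset.range_one, Finset.sum_singleton]
            push_cast
            rw [abs_of_nonneg (by positivity)]
            have e1 : (a.den : ℝ) ^ n ≤ ((N : ℝ) ^ κ) ^ n := pow_le_pow_left₀ (by positivity) ha2 n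
            have e2 : ((N : ℝ) ^ κ) ^ n ≤ ((N : ℝ) ^ κ) ^ (n + 1) := pow_le_pow_right₀ hw1 (by omega)
            have e3 : 0 < ((N : ℝ) ^ κ) ^ (n + 1) := by positivity
            nlinarith)
        simpa using this)
      (by rw [ev_CC]; exact_mod_cast hden)
      (by
        rw [hval]
        have hb1 : |t + a * x| ≤ R * (N : ℝ) ^ κ := by
          have e1 : |(a : ℝ)| ≤ (N : ℝ) ^ κ := by
            rw [haR, abs_div, Nat.abs_cast]
            have : (1 : ℝ) ≤ a.den := by exact_mod_cast a.den_pos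
            rw [div_le_iff₀ (by linarith)]
            nlinarith
          calc |t + a * x| ≤ |t| + |(a : ℝ)| * |x| := by
                rw [← abs_mul]; exact abs_add_le _ _
            _ ≤ |T| + (N : ℝ) ^ κ * |x| := by
                apply add_le_add
                · exact ht.trans (le_abs_self _)
                · exact mul_le_mul_of_nonneg_right e1 hxa
            _ ≤ R * (N : ℝ) ^ κ := by
                rw [hR]
                nlinarith
        have := aeval_bound (t + a * x) (R * (N : ℝ) ^ κ) ((N : ℝ) ^ κ) (by nlinarith) hb1 (by linarith)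
          n P hPn hPN
        refine this.trans ?_
        calc (n + 1) * (R * (N : ℝ) ^ κ) ^ n * (N : ℝ) ^ κ
            = ((n + 1) * R ^ n) * ((N : ℝ) ^ κ) ^ (n + 1) := by
              rw [mul_pow, pow_succ]; ring
          _ ≤ A * ((N : ℝ) ^ κ) ^ (n + 1) := by
              apply mul_le_mul_of_nonneg_right _ (by positivity)
              rw [hA]
              linarith)
      (by
        intro q p hq h
        have h6 := alg_of_const (evL ((1 - a) * xL)) P (lf a.den a.num) (C (C (a.den : ℤ))) n hPn hP0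
          (by rw [evL_CC]; exact_mod_cast hdenL) q p hq (by rw [h, sub_self, map_zero])
        rw [hvalL] at h6
        apply trans_xL
        have : (1 - (a : LL)) * xL + a * xL = xL := by ring
        rwa [this] at h6)
      (by rw [hval]; exact hbad) y hy (by rw [evL_CC]; exact_mod_cast hdenL)
    rw [hvalL] at h5
    exact h5
  by_cases hex : ∃ a : ℚ, IsAlgebraic ℤ (y + a * xL)
  · obtain ⟨a₀, ha₀⟩ := hex
    refine ⟨a₀, fun a ha1 ha2 hne P hP0 hPn hPN M hM => ?_⟩
    by_contra hcon
    push Not at hcon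
    have h5 := key a ha1 ha2 ⟨P, hP0, hPn, hPN, M, hM, hcon⟩
    have h6 : IsAlgebraic ℤ ((y + a * xL) - (y + a₀ * xL)) := h5.sub ha₀
    have h7 : (y + a * xL) - (y + a₀ * xL) = ((a - a₀ : ℚ) : LL) * xL := by
      push_cast
      ring
    rw [h7] at h6
    have hsub : ((a - a₀ : ℚ) : LL) ≠ 0 := by
      exact_mod_cast sub_ne_zero.2 hne
    have h8 : IsAlgebraic ℤ (((a - a₀ : ℚ) : LL)⁻¹) := by
      have : IsAlgebraic ℤ (((a - a₀ : ℚ) : LL)) := by
        have e1 : ((a - a₀ : ℚ) : LL) = ((a - a₀).num : LL) * ((a - a₀).den : LL)⁻¹ := by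
          rw [← div_eq_mul_inv]
          exact_mod_cast (Rat.num_div_den (a - a₀)).symm
        rw [e1]
        exact (isAlgebraic_int _).mul (isAlgebraic_nat _).inv
      exact this.inv
    have h9 := h8.mul h6
    rw [inv_mul_cancel_left₀ hsub] at h9
    exact trans_xL h9
  · refine ⟨0, fun a ha1 ha2 _ P hP0 hPn hPN M hM => ?_⟩
    by_contra hcon
    push Not at hcon
    exact hex ⟨a, key a ha1 ha2 ⟨P, hP0, hPn, hPN, M, hM, hcon⟩⟩

end Pool.Agent.Q158.EqD
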