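import Mathlib
import Pool.Agent.Q158.EqD.TransAff

/-!
# All rational functions of a given degree which look algebraic at a scale
-/

set_option autoImplicit false

namespace Pool.Agent.Q158.EqD
open Polynomial Polynomial.Bivariate

theorem coeff_mul_sum {R : Type*} [CommRing R] (P Q : R[X]) (D : ℕ) (hP : P.natDegree ≤ D) (k : ℕ) :
    (P * Q).coeff k = ∑ i ∈ Finset.range (D + 1), if i ≤ k then P.coeff i * Q.coeff (k - i) else 0 := by
  conv_lhs => rw [P.as_sum_range' (D + 1) (by omega), Finset.sum_mul, finsetSum_coeff]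
  apply Finset.sum_congr rfl
  intro i _
  rw [← C_mul_X_pow_eq_monomial, mul_assoc, coeff_C_mul, coeff_X_pow_mul']
  split_ifs <;> simp

theorem coeff_mul_le (p q : ℤ[X]) (D : ℕ) (hp : p.natDegree ≤ D) (H₁ H₂ : ℝ) (hH₁ : 0 ≤ H₁)
    (hH₂ : 0 ≤ H₂) (h1 : ∀ j, |(p.coeff j : ℝ)| ≤ H₁) (h2 : ∀ j, |(q.coeff j : ℝ)| ≤ H₂) (k : ℕ) :
    |((p * q).coeff k : ℝ)| ≤ (D + 1) * (H₁ * H₂) := by
  rw [coeff_mul_sum p q D hp k]
  push_cast
  refine (Finset.abs_sum_le_sum_abs _ _).trans ?_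
  calc ∑ i ∈ Finset.range (D + 1), |(if i ≤ k then (p.coeff i : ℝ) * (q.coeff (k - i) : ℝ) else 0)|
      ≤ ∑ _i ∈ Finset.range (D + 1), H₁ * H₂ := by
        apply Finset.sum_le_sum
        intro i _
        split_ifs
        · rw [abs_mul]
          exact mul_le_mul (h1 i) (h2 _) (abs_nonneg _) hH₁
        · rw [abs_zero]; positivity
    _ = (D + 1) * (H₁ * H₂) := by
        rw [Finset.sum_const, Finset.card_range, nsmul_eq_mul]
        push_cast
        ring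

theorem Bd.mul {D₁ D₂ : ℕ} {H₁ H₂ : ℝ} {P Q : ℤ[X][Y]} (hP : Bd D₁ H₁ P) (hQ : Bd D₂ H₂ Q) :
    Bd (D₁ + D₂) (((D₁ + 1 : ℕ) ^ 2 : ℕ) * (H₁ * H₂)) (P * Q) := by
  obtain ⟨a1, a2, a3⟩ := hP
  obtain ⟨b1, b2, b3⟩ := hQ
  have hH₁ : 0 ≤ H₁ := (abs_nonneg _).trans (a3 0 0)
  have hH₂ : 0 ≤ H₂ := (abs_nonneg _).trans (b3 0 0)
  refine ⟨natDegree_mul_le.trans (add_le_add a1 b1), ?_, ?_⟩
  · intro k
    rw [coeff_mul]
    apply natDegree_sum_le_of_forall_le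
    intro x _
    exact natDegree_mul_le.trans (add_le_add (a2 _) (b2 _))
  · intro k l
    rw [coeff_mul_sum P Q D₁ a1 k, finsetSum_coeff]
    push_cast
    refine (Finset.abs_sum_le_sum_abs _ _).trans ?_
    calc ∑ i ∈ Finset.range (D₁ + 1),
          |(((if i ≤ k then P.coeff i * Q.coeff (k - i) else 0 : ℤ[X]).coeff l : ℤ) : ℝ)|
        ≤ ∑ _i ∈ Finset.range (D₁ + 1), ((D₁ : ℝ) + 1) * (H₁ * H₂) := by
          apply Finset.sum_le_sum
          intro i _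
          split_ifs
          · exact coeff_mul_le _ _ D₁ (a2 i) H₁ H₂ hH₁ hH₂ (a3 i) (b3 _) l
          · rw [coeff_zero, Int.cast_zero, abs_zero]; positivity
      _ = ((D₁ : ℝ) + 1) ^ 2 * (H₁ * H₂) := by
          rw [Finset.sum_const, Finset.card_range, nsmul_eq_mul]
          push_cast
          ring

theorem Bd.pow {k : ℕ} {H : ℝ} {u : ℤ[X][Y]} (hu : Bd k H u) (i : ℕ) :
    Bd (k * i) ((((k + 1) ^ 2) ^ i : ℕ) * H ^ i) (u ^ i) := by
  induction i with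
  | zero =>
    rw [pow_zero, pow_zero, pow_zero, mul_zero, Nat.cast_one, mul_one]
    refine ⟨by simp, fun i => ?_, fun i j => ?_⟩
    · rw [coeff_one]
      split_ifs <;> simp
    · rw [coeff_one]
      split_ifs
      · rw [coeff_one]
        split_ifs <;> simp
      · simp
  | succ i ih =>
    have := hu.mul ih
    rw [← pow_succ'] at this
    refine this.mono (by rw [mul_add, mul_one, add_comm]) ?_
    push_cast
    apply le_of_eq
    ring

theorem Bd.add_sum {ι : Type*} (s : Finset ι) (F : ι → ℤ[X][Y]) (D : ℕ) (H : ℝ)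
    (h : ∀ i ∈ s, Bd D H (F i)) : Bd D (s.card * H) (∑ i ∈ s, F i) := by
  refine ⟨natDegree_sum_le_of_forall_le _ _ fun i hi => (h i hi).1, fun k => ?_, fun k l => ?_⟩
  · rw [finsetSum_coeff]
    exact natDegree_sum_le_of_forall_le _ _ fun i hi => (h i hi).2.1 k
  · rw [finsetSum_coeff, finsetSum_coeff]
    push_cast
    refine (Finset.abs_sum_le_sum_abs _ _).trans ?_
    calc ∑ i ∈ s, |(((F i).coeff k).coeff l : ℝ)| ≤ ∑ _i ∈ s, H :=
          Finset.sum_le_sum fun i hi => (h i hi).2.2 k l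
      _ = s.card * H := by rw [Finset.sum_const, nsmul_eq_mul]

theorem Bd.CC_mul {D : ℕ} {H : ℝ} {P : ℤ[X][Y]} (hP : Bd D H P) (c : ℤ) (w : ℝ)
    (hc : |(c : ℝ)| ≤ w) : Bd D (w * H) (C (C c) * P) := by
  refine ⟨natDegree_C_mul_le _ _ |>.trans hP.1, fun k => ?_, fun k l => ?_⟩
  · rw [coeff_C_mul]
    exact (natDegree_C_mul_le _ _).trans (hP.2.1 k)
  · rw [coeff_C_mul, coeff_C_mul]
    push_cast
    rw [abs_mul]
    exact mul_le_mul hc (hP.2.2 k l) (abs_nonneg _) ((abs_nonneg _).trans hc)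

/-- The bound for the numerator of `P(u / v)`. -/
theorem bd_comp (P : ℤ[X]) (u v : ℤ[X][Y]) (k n m : ℕ) (w : ℝ) (hw : 1 ≤ w) (hm : m ≤ n)
    (hP : ∀ i, |(P.coeff i : ℝ)| ≤ w) (hu : Bd k w u) (hv : Bd k w v) :
    Bd (k * n) (((n + 1) * ((k * n + 1) ^ 2 * ((k + 1) ^ 2) ^ n) : ℕ) * w ^ (n + 1))
      (comp P u v m) := by
  unfold comp
  have h1 : ∀ i ∈ Finset.range (m + 1), Bd (k * n)
      (w * (((k * n + 1) ^ 2 * ((k + 1) ^ 2) ^ n : ℕ) * w ^ n))
      (C (C (P.coeff i)) * (u ^ i * v ^ (m - i))) := by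
    intro i hi
    have hi' : i ≤ m := by
      have := Finset.mem_range.1 hi
      omega
    have h2 := (hu.pow i).mul (hv.pow (m - i))
    refine (h2.mono (D' := k * n) (H' := ((k * n + 1) ^ 2 * ((k + 1) ^ 2) ^ n : ℕ) * w ^ n) ?_ ?_).CC_mul
      _ _ (hP i)
    · rw [← mul_add]
      exact Nat.mul_le_mul_left _ (by omega)
    · push_cast
      have e1 : (((k : ℝ) + 1) ^ 2) ^ i * w ^ i * ((((k : ℝ) + 1) ^ 2) ^ (m - i) * w ^ (m - i)) =
          (((k : ℝ) + 1) ^ 2) ^ m * w ^ m := by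
        have e2 : (((k : ℝ) + 1) ^ 2) ^ m = (((k : ℝ) + 1) ^ 2) ^ i * (((k : ℝ) + 1) ^ 2) ^ (m - i) := by
          rw [← pow_add]; congr 1; omega
        have e3 : w ^ m = w ^ i * w ^ (m - i) := by
          rw [← pow_add]; congr 1; omega
        rw [e2, e3]; ring
      rw [e1]
      have e4 : (((k : ℝ) + 1) ^ 2) ^ m ≤ (((k : ℝ) + 1) ^ 2) ^ n :=
        pow_le_pow_right₀ (by nlinarith [(Nat.cast_nonneg k : (0 : ℝ) ≤ k)]) hm
      have e5 : w ^ m ≤ w ^ n := pow_le_pow_right₀ hw hm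
      have e6 : ((k : ℝ) * i + 1) ^ 2 ≤ ((k : ℝ) * n + 1) ^ 2 := by
        have : (i : ℝ) ≤ n := by exact_mod_cast hi'.trans hm
        gcongr
      calc ((k : ℝ) * i + 1) ^ 2 * ((((k : ℝ) + 1) ^ 2) ^ m * w ^ m)
          ≤ ((k : ℝ) * n + 1) ^ 2 * ((((k : ℝ) + 1) ^ 2) ^ n * w ^ n) := by gcongr
        _ = _ := by ring
  refine (Bd.add_sum _ _ _ _ h1).mono le_rfl ?_
  rw [Finset.card_range]
  push_cast
  have e1 : (m : ℝ) ≤ n := by exact_mod_cast hm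
  calc ((m : ℝ) + 1) * (w * (((k : ℝ) * n + 1) ^ 2 * (((k : ℝ) + 1) ^ 2) ^ n * w ^ n))
      ≤ ((n : ℝ) + 1) * (w * (((k : ℝ) * n + 1) ^ 2 * (((k : ℝ) + 1) ^ 2) ^ n * w ^ n)) := by gcongr
    _ = _ := by ring

/-- the numerator of `g(u / v)` is divisible by `f` -/
def AlgMod (f u v : ℤ[X][Y]) : Prop := ∃ g : ℤ[X], 0 < g.natDegree ∧ f ∣ comp g u v g.natDegree

theorem AlgMod.isAlgebraic {f u v : ℤ[X][Y]} (h : AlgMod f u v) (y : LL) (hy : evL y f = 0)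
    (hv : evL y v ≠ 0) : IsAlgebraic ℤ (evL y u / evL y v) := by
  obtain ⟨g, hg, w, hw⟩ := h
  have h1 := map_comp' (evL y) g u v g.natDegree le_rfl hv
  rw [hw, map_mul, hy, zero_mul] at h1
  refine ⟨g, fun h0 => ?_, (mul_eq_zero.1 h1.symm).resolve_left (pow_ne_zero _ hv)⟩
  rw [h0, natDegree_zero] at hg
  omega

/-- **The general dichotomy.** -/
theorem trans_field (x : ℝ) (hx : MeasR x) (T : ℝ) (S : Set ℝ) (hS : ∀ t ∈ S, |t| ≤ T)
    (G : ℤ[X][Y] → Prop) (k n : ℕ) (f₀ : ℤ[X][Y]) (hf₀ : Irreducible f₀) (hf₀' : 0 < f₀.natDegree)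
    (hG0 : G f₀)
    (hG : ∃ (m1 : ℕ) (x1 : ℝ), ∀ m : ℕ, m1 ≤ m → ∀ z : ℝ, 1 ≤ z → x1 < z →
      ∀ t ∈ S, ∀ f : ℤ[X][Y], Small x t (k * n) m (hc (k * n) * z ^ 3) z f → G f) :
    ∃ κ K : ℝ, 0 < κ ∧ 0 < K ∧ ∀ t ∈ S, ∀ N : ℕ, 0 < N →
      ∃ f : ℤ[X][Y], Irreducible f ∧ 0 < f.natDegree ∧ G f ∧
        ∀ u v : ℤ[X][Y], Bd k ((N : ℝ) ^ κ) u → Bd k ((N : ℝ) ^ κ) v → ev x t v ≠ 0 →
          |ev x t u| ≤ (N : ℝ) ^ κ * |ev x t v| →
          ∀ P : ℤ[X], 0 < P.natDegree → P.natDegree ≤ n → (∀ i, |(P.coeff i : ℝ)| ≤ (N : ℝ) ^ κ) →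
          (∃ M : ℕ, N ≤ M ∧ K * (N : ℝ) ^ (-κ) < disc (aeval (ev x t u / ev x t v) P) M) →
          AlgMod f u v := by
  obtain ⟨κ₀, K₀, hκ₀, hK₀, h⟩ := minpol2d x hx T S hS G (k * n) f₀ hf₀ hf₀' hG0 hG
  obtain ⟨A, hA⟩ : ∃ A : ℝ, A = ((n + 1) * ((k * n + 1) ^ 2 * ((k + 1) ^ 2) ^ n) : ℕ) := ⟨_, rfl⟩
  have hA1 : 1 ≤ A := by
    rw [hA]
    have : 1 ≤ (n + 1) * ((k * n + 1) ^ 2 * ((k + 1) ^ 2) ^ n) := Nat.one_le_iff_ne_zero.2 (by positivity)
    exact_mod_cast this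
  have hAn : (n : ℝ) + 1 ≤ A := by
    rw [hA]
    have : n + 1 ≤ (n + 1) * ((k * n + 1) ^ 2 * ((k + 1) ^ 2) ^ n) :=
      Nat.le_mul_of_pos_right _ (by positivity)
    exact_mod_cast this
  have he0 : (0 : ℝ) < (n : ℝ) + 2 := by positivity
  have hAK : 0 < max K₀ A := lt_max_of_lt_left hK₀
  refine ⟨κ₀ / (n + 2), max K₀ A, by positivity, hAK, ?_⟩
  intro t ht N hN
  obtain ⟨f, hf1, hf2, hf3, hf4⟩ := h t ht N hN
  refine ⟨f, hf1, hf2, hf3, ?_⟩
  intro u v hu hv hv0 huv P hP0 hPn hPc hbad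
  have hN1 : (1 : ℝ) ≤ N := by exact_mod_cast hN
  have hN0 : (0 : ℝ) < N := by linarith
  obtain ⟨w, hw⟩ : ∃ w : ℝ, w = (N : ℝ) ^ (κ₀ / (n + 2)) := ⟨_, rfl⟩
  have hw1 : 1 ≤ w := by
    rw [hw]; exact Real.one_le_rpow hN1 (by positivity)
  have hwp : 0 < w := by linarith
  have hwe : w ^ (n + 2) = (N : ℝ) ^ κ₀ := by
    rw [hw, ← Real.rpow_natCast, ← Real.rpow_mul hN0.le]
    congr 1
    push_cast
    field_simp
  have hwinv : (N : ℝ) ^ (-(κ₀ / (n + 2))) = 1 / w := by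
    rw [hw, Real.rpow_neg hN0.le, one_div]
  rw [← hw] at hu hv huv hPc
  rw [hwinv] at hbad
  obtain ⟨M, hNM, hM⟩ := hbad
  have hwA : A < w := by
    have h1 := disc_le_one (aeval (ev x t u / ev x t v) P) M
    have h2 : max K₀ A * (1 / w) < 1 := by linarith
    rw [mul_one_div, div_lt_one hwp] at h2
    exact (le_max_right _ _).trans_lt h2
  have hH : A * w ^ (n + 1) ≤ (N : ℝ) ^ κ₀ := by
    rw [← hwe, pow_succ w (n + 1), mul_comm]
    exact mul_le_mul_of_nonneg_left hwA.le (by positivity)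
  set m := P.natDegree with hm
  have hB1 : Bd (k * n) ((N : ℝ) ^ κ₀) (comp P u v m) :=
    (bd_comp P u v k n m w hw1 hPn hPc hu hv).mono le_rfl (by rw [← hA]; exact hH)
  have hB2 : Bd (k * n) ((N : ℝ) ^ κ₀) (v ^ m) := by
    refine (hv.pow m).mono (Nat.mul_le_mul_left _ hPn) (le_trans ?_ hH)
    have e1 : ((((k + 1) ^ 2) ^ m : ℕ) : ℝ) ≤ A := by
      rw [hA]
      have : ((k + 1) ^ 2) ^ m ≤ (n + 1) * ((k * n + 1) ^ 2 * ((k + 1) ^ 2) ^ n) :=
        calc ((k + 1) ^ 2) ^ m ≤ ((k + 1) ^ 2) ^ n := Nat.pow_le_pow_right (by positivity) hPn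
          _ ≤ (k * n + 1) ^ 2 * ((k + 1) ^ 2) ^ n := Nat.le_mul_of_pos_left _ (by positivity)
          _ ≤ _ := Nat.le_mul_of_pos_left _ (by positivity)
      exact_mod_cast this
    have e2 : w ^ m ≤ w ^ (n + 1) := pow_le_pow_right₀ hw1 (by omega)
    exact mul_le_mul e1 e2 (by positivity) (by linarith)
  have hval : |ev x t u / ev x t v| ≤ w := by
    rw [abs_div, div_le_iff₀ (abs_pos.2 hv0)]
    exact huv
  have hρ : |aeval (ev x t u / ev x t v) P| ≤ (N : ℝ) ^ κ₀ := by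
    refine (aeval_bound _ w w hw1 hval hwp.le n P hPn hPc).trans (le_trans ?_ hH)
    calc ((n : ℝ) + 1) * w ^ n * w = ((n : ℝ) + 1) * w ^ (n + 1) := by ring
      _ ≤ A * w ^ (n + 1) := mul_le_mul_of_nonneg_right hAn (by positivity)
  have hev : ev x t (comp P u v m) / ev x t (v ^ m) = aeval (ev x t u / ev x t v) P := by
    rw [map_comp' (ev x t) P u v m le_rfl hv0, map_pow]
    field_simp
  -- the polynomial `q P - p`
  have hgen : ∀ (q : ℕ) (p : ℤ), 0 < q →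
      f ∣ C (C (q : ℤ)) * comp P u v m - C (C p) * v ^ m → AlgMod f u v := by
    intro q p hq hdvd
    have hdeg : (C (q : ℤ) * P - C p).natDegree = m := by
      rw [natDegree_sub_C, natDegree_C_mul]
      exact_mod_cast hq.ne'
    refine ⟨C (q : ℤ) * P - C p, by rw [hdeg]; exact hP0, ?_⟩
    rw [hdeg]
    have : comp (C (q : ℤ) * P - C p) u v m = C (C (q : ℤ)) * comp P u v m - C (C p) * v ^ m := by
      unfold comp
      rw [Finset.mul_sum]
      have e1 : C (C p) * v ^ m = ∑ i ∈ Finset.range (m + 1),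
          if i = 0 then C (C p) * v ^ m else 0 := by
        rw [Finset.sum_ite_eq' (Finset.range (m + 1)) 0, if_pos (Finset.mem_range.2 (by omega))]
      rw [e1, ← Finset.sum_sub_distrib]
      apply Finset.sum_congr rfl
      intro i _
      rw [coeff_sub, coeff_C_mul, coeff_C]
      split_ifs with hi
      · rw [hi, pow_zero, one_mul, Nat.sub_zero, C_sub, C_sub, C_mul, C_mul]
        ring
      · rw [sub_zero, sub_zero, C_mul, C_mul, mul_assoc]
    rw [this]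
    exact hdvd
  by_cases hnc : ∀ (q : ℕ) (p : ℤ), 0 < q → C (C (q : ℤ)) * comp P u v m ≠ C (C p) * v ^ m
  · obtain ⟨q, p, hq, _, _, hdvd⟩ := hf4 (comp P u v m) (v ^ m)
      ⟨hB1, hB2, by rw [map_pow]; exact pow_ne_zero _ hv0, by
        rw [map_comp' (ev x t) P u v m le_rfl hv0, map_pow, abs_mul, mul_comm]
        exact mul_le_mul_of_nonneg_right hρ (abs_nonneg _), hnc⟩ (by
        refine ⟨M, hNM, ?_⟩
        rw [hev]
        refine lt_of_le_of_lt ?_ hM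
        rw [Real.rpow_neg hN0.le, ← hwe]
        have h1 : (w ^ (n + 2))⁻¹ ≤ 1 / w := by
          rw [one_div]
          apply inv_anti₀ hwp
          exact le_self_pow₀ hw1 (by omega)
        exact mul_le_mul (le_max_left _ _) h1 (by positivity) hAK.le)
    exact hgen q p hq hdvd
  · push Not at hnc
    obtain ⟨q, p, hq, hqp⟩ := hnc
    exact hgen q p hq (by rw [hqp, sub_self]; exact dvd_zero _)

/-- a pair with measures -/
theorem trans_field_both (x t : ℝ) (hx : MeasR x) (ht : MeasR t) (k n : ℕ) :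
    ∃ κ K : ℝ, 0 < κ ∧ 0 < K ∧ ∀ N : ℕ, 0 < N →
      ∃ f : ℤ[X][Y], Irreducible f ∧ 0 < f.natDegree ∧ 0 < (Bivariate.swap f).natDegree ∧
        ∀ u v : ℤ[X][Y], Bd k ((N : ℝ) ^ κ) u → Bd k ((N : ℝ) ^ κ) v → ev x t v ≠ 0 →
          |ev x t u| ≤ (N : ℝ) ^ κ * |ev x t v| →
          ∀ P : ℤ[X], 0 < P.natDegree → P.natDegree ≤ n → (∀ i, |(P.coeff i : ℝ)| ≤ (N : ℝ) ^ κ) →
          (∃ M : ℕ, N ≤ M ∧ K * (N : ℝ) ^ (-κ) < disc (aeval (ev x t u / ev x t v) P) M) →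
          AlgMod f u v := by
  obtain ⟨κ, K, h1, h2, h3⟩ := trans_field x hx |t| {t}
    (fun s hs => by rw [Set.mem_singleton_iff.1 hs])
    (fun f => 0 < (Bivariate.swap f).natDegree) k n (Y - C X) (prime_X_sub_C _).irreducible
    (by rw [natDegree_X_sub_C]; exact one_pos) swap_YX (by
      obtain ⟨m1, x1, h⟩ := small_deg t ht (k * n)
      refine ⟨m1, x1, fun m hm z hz hzx s hs f hf => ?_⟩
      rw [Set.mem_singleton_iff.1 hs] at hf
      exact h m hm z hz hzx x _ hf.swap)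
  exact ⟨κ, K, h1, h2, fun N hN => h3 t rfl N hN⟩

/-- an arbitrary second number -/
theorem trans_field_any (x : ℝ) (hx : MeasR x) (T : ℝ) (k n : ℕ) :
    ∃ κ K : ℝ, 0 < κ ∧ 0 < K ∧ ∀ t : ℝ, |t| ≤ T → ∀ N : ℕ, 0 < N →
      ∃ f : ℤ[X][Y], Irreducible f ∧ 0 < f.natDegree ∧
        ∀ u v : ℤ[X][Y], Bd k ((N : ℝ) ^ κ) u → Bd k ((N : ℝ) ^ κ) v → ev x t v ≠ 0 →
          |ev x t u| ≤ (N : ℝ) ^ κ * |ev x t v| →
          ∀ P : ℤ[X], 0 < P.natDegree → P.natDegree ≤ n → (∀ i, |(P.coeff i : ℝ)| ≤ (N : ℝ) ^ κ) →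
          (∃ M : ℕ, N ≤ M ∧ K * (N : ℝ) ^ (-κ) < disc (aeval (ev x t u / ev x t v) P) M) →
          AlgMod f u v := by
  obtain ⟨κ, K, h1, h2, h3⟩ := trans_field x hx T {t | |t| ≤ T} (fun t ht => ht) (fun _ => True) k n
    (Y - C X) (prime_X_sub_C _).irreducible (by rw [natDegree_X_sub_C]; exact one_pos) trivial ⟨0, 0, fun _ _ _ _ _ _ _ _ _ => trivial⟩
  refine ⟨κ, K, h1, h2, fun t ht N hN => ?_⟩
  obtain ⟨f, hf1, hf2, _, hf3⟩ := h3 t ht N hN
  exact ⟨f, hf1, hf2, hf3⟩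

theorem swap_sq : 0 < (Bivariate.swap (Y - C (X ^ 2) : ℤ[X][Y])).natDegree := by
  have h : Bivariate.swap (Y - C (X ^ 2) : ℤ[X][Y]) = -(X ^ 2 - C X : ℤ[X][Y]) := by
    rw [map_sub, Bivariate.swap_Y, C_pow, map_pow, Bivariate.swap_X]
    ring
  rw [h, natDegree_neg, natDegree_X_pow_sub_C]
  exact two_pos

/-- the second coordinate is not `± X` -/
def NotPM (f : ℤ[X][Y]) : Prop := ∀ y : LL, evL y f = 0 → y ≠ xL ∧ y ≠ -xL

theorem evL_Y (y : LL) : evL y Y = y := by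
  unfold evL
  rw [coe_eval₂RingHom, eval₂_X]

theorem evL_C (y : LL) (p : ℤ[X]) : evL y (C p) = iL p := by
  unfold evL
  rw [coe_eval₂RingHom, eval₂_C]

theorem xL_sq : xL ^ 2 ≠ xL ∧ xL ^ 2 ≠ -xL := by
  constructor
  · intro h
    have h1 : xL * (xL - 1) = 0 := by
      have : xL * (xL - 1) = xL ^ 2 - xL := by ring
      rw [this, h, sub_self]
    have h2 := (mul_eq_zero.1 h1).resolve_left xL_ne
    apply trans_xL
    rw [sub_eq_zero.1 h2]
    exact isAlgebraic_one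
  · intro h
    have h1 : xL * (xL + 1) = 0 := by
      have : xL * (xL + 1) = xL ^ 2 - -xL := by ring
      rw [this, h, sub_self]
    have h2 := (mul_eq_zero.1 h1).resolve_left xL_ne
    apply trans_xL
    rw [eq_neg_of_add_eq_zero_left h2]
    exact isAlgebraic_one.neg

theorem notPM_sq : NotPM (Y - C (X ^ 2)) := by
  intro y hy
  rw [map_sub, evL_Y, evL_C, map_pow] at hy
  have hy' : y = xL ^ 2 := sub_eq_zero.1 hy
  rw [hy']
  exact xL_sq

/-- an irreducible polynomial with the root `p(X)` is associated to `Y - p` -/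
theorem assoc_of_evL (f : ℤ[X][Y]) (hf : Irreducible f) (p : ℤ[X]) (h : evL (iL p) f = 0) :
    Associated f (Y - C p) := by
  have h1 : iL (f.eval p) = 0 := by
    rw [← h]
    unfold evL
    rw [coe_eval₂RingHom, ← eval₂_hom]
  have h2 : (Y - C p) ∣ f := dvd_iff_isRoot.2 ((map_eq_zero_iff _ iL_inj).1 h1)
  exact (Irreducible.associated_of_dvd (prime_X_sub_C p).irreducible hf h2).symm

theorem ev_assoc (x t : ℝ) {f g : ℤ[X][Y]} (h : Associated f g) : |ev x t f| = |ev x t g| := by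
  obtain ⟨u, hu⟩ := h
  obtain ⟨r, hr, hru⟩ := Polynomial.isUnit_iff.1 u.isUnit
  obtain ⟨s, hs, hsr⟩ := Polynomial.isUnit_iff.1 hr
  have e2 : |ev x t (u : ℤ[X][Y])| = 1 := by
    rw [← hru, ← hsr, ev_CC]
    rcases Int.isUnit_iff.1 hs with h | h <;> simp [h]
  rw [← hu, map_mul, abs_mul, e2, mul_one]

/-- small polynomials do not vanish for `Y = ± X` -/
theorem notPM_small (x t : ℝ) (h1 : t ≠ x) (h2 : t ≠ -x) (d : ℕ) :
    ∃ (m1 : ℕ) (x1 : ℝ), ∀ m : ℕ, m1 ≤ m → ∀ z : ℝ, 1 ≤ z → x1 < z →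
      ∀ f : ℤ[X][Y], Small x t d m (hc d * z ^ 3) z f → NotPM f := by
  obtain ⟨δ, hδ⟩ : ∃ δ : ℝ, δ = min |t - x| |t + x| := ⟨_, rfl⟩
  have hδ0 : 0 < δ := by
    rw [hδ]
    apply lt_min
    · exact abs_pos.2 (sub_ne_zero.2 h1)
    · rw [abs_pos]
      intro h
      exact h2 (by linarith)
  refine ⟨1, 1 / δ, fun m hm z hz hzx f hf y hy => ?_⟩
  have hzp : 0 < z := by linarith
  have key : ∀ p : ℤ[X], iL p = y → δ ≤ |t - aeval x p| → False := by
    intro p hp hle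
    rw [← hp] at hy
    have h3 := assoc_of_evL f hf.1 p hy
    have h4 := ev_assoc x t h3
    have h5 : ev x t (Y - C p) = t - aeval x p := by
      rw [map_sub, ev_C]
      unfold ev
      rw [coe_eval₂RingHom, eval₂_X]
    rw [h5] at h4
    have h6 := hf.2.2.2.2.2
    rw [h4] at h6
    have h7 : 1 / z ^ m ≤ 1 / z := by
      apply one_div_le_one_div_of_le hzp
      exact le_self_pow₀ hz (by omega)
    have h8 : 1 / z < δ := by
      rw [div_lt_iff₀ hzp]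
      rw [div_lt_iff₀ hδ0] at hzx
      linarith
    linarith
  constructor
  · intro h
    apply key X h.symm
    rw [aeval_X, hδ]
    exact min_le_left _ _
  · intro h
    apply key (-X) (by rw [map_neg, h]; rfl)
    rw [map_neg, aeval_X, sub_neg_eq_add, hδ]
    exact min_le_right _ _

/-- a pair with measures, not equal up to the sign -/
theorem trans_field_both' (x t : ℝ) (hx : MeasR x) (ht : MeasR t) (h1 : t ≠ x) (h2 : t ≠ -x) (k n : ℕ) :
    ∃ κ K : ℝ, 0 < κ ∧ 0 < K ∧ ∀ N : ℕ, 0 < N →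
      ∃ f : ℤ[X][Y], Irreducible f ∧ 0 < f.natDegree ∧ 0 < (Bivariate.swap f).natDegree ∧ NotPM f ∧
        ∀ u v : ℤ[X][Y], Bd k ((N : ℝ) ^ κ) u → Bd k ((N : ℝ) ^ κ) v → ev x t v ≠ 0 →
          |ev x t u| ≤ (N : ℝ) ^ κ * |ev x t v| →
          ∀ P : ℤ[X], 0 < P.natDegree → P.natDegree ≤ n → (∀ i, |(P.coeff i : ℝ)| ≤ (N : ℝ) ^ κ) →
          (∃ M : ℕ, N ≤ M ∧ K * (N : ℝ) ^ (-κ) < disc (aeval (ev x t u / ev x t v) P) M) →
          AlgMod f u v := by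
  obtain ⟨κ, K, h3, h4, h5⟩ := trans_field x hx |t| {t}
    (fun s hs => by rw [Set.mem_singleton_iff.1 hs])
    (fun f => 0 < (Bivariate.swap f).natDegree ∧ NotPM f) k n (Y - C (X ^ 2))
    (prime_X_sub_C _).irreducible (by rw [natDegree_X_sub_C]; exact one_pos) ⟨swap_sq, notPM_sq⟩ (by
      obtain ⟨m1, x1, h⟩ := small_deg t ht (k * n)
      obtain ⟨m2, x2, h'⟩ := notPM_small x t h1 h2 (k * n)
      refine ⟨max m1 m2, max x1 x2, fun m hm z hz hzx s hs f hf => ?_⟩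
      rw [Set.mem_singleton_iff.1 hs] at hf
      exact ⟨h m ((le_max_left _ _).trans hm) z hz ((le_max_left _ _).trans_lt hzx) x _ hf.swap,
        h' m ((le_max_right _ _).trans hm) z hz ((le_max_right _ _).trans_lt hzx) f hf⟩)
  refine ⟨κ, K, h3, h4, fun N hN => ?_⟩
  obtain ⟨f, a, b, ⟨c, d⟩, e⟩ := h5 t rfl N hN
  exact ⟨f, a, b, c, d, e⟩

theorem isAlg_sq {z : LL} (h : IsAlgebraic ℤ (z ^ 2)) : IsAlgebraic ℤ z := h.of_pow two_pos

/-- Any two of the four numbers `y + x`, `y - x`, `x y`, `y / x` determine the others. -/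
theorem four_alg (y : LL) (hy : Transcendental ℤ y) (h1 : y ≠ xL) (h2 : y ≠ -xL) :
    (IsAlgebraic ℤ (y + xL) → ¬ IsAlgebraic ℤ (y - xL)) ∧
    (IsAlgebraic ℤ (y + xL) → ¬ IsAlgebraic ℤ (xL * y)) ∧
    (IsAlgebraic ℤ (y + xL) → ¬ IsAlgebraic ℤ (y / xL)) ∧
    (IsAlgebraic ℤ (y - xL) → ¬ IsAlgebraic ℤ (xL * y)) ∧
    (IsAlgebraic ℤ (y - xL) → ¬ IsAlgebraic ℤ (y / xL)) ∧
    (IsAlgebraic ℤ (xL * y) → ¬ IsAlgebraic ℤ (y / xL)) := by
  have hy0 : y ≠ 0 := by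
    intro h
    rw [h] at hy
    exact hy isAlgebraic_zero
  have i2 : IsAlgebraic ℤ ((2 : LL)⁻¹) := by
    have : IsAlgebraic ℤ ((2 : ℕ) : LL) := isAlgebraic_natCast 2
    simpa using this.inv
  have i4 : IsAlgebraic ℤ ((4 : ℕ) : LL) := isAlgebraic_natCast 4
  have t2 : (2 : LL) ≠ 0 := two_ne_zero
  have pm : IsAlgebraic ℤ (y + xL) → ¬ IsAlgebraic ℤ (y - xL) := by
    intro a b
    apply hy
    have e : y = (2 : LL)⁻¹ * ((y + xL) + (y - xL)) := by
      field_simp; ring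
    rw [e]
    exact i2.mul (a.add b)
  refine ⟨pm, ?_, ?_, ?_, ?_, ?_⟩
  · intro a b
    apply pm a
    apply isAlg_sq
    have e : (y - xL) ^ 2 = (y + xL) ^ 2 - (4 : ℕ) * (xL * y) := by push_cast; ring
    rw [e]
    exact (a.pow 2).sub (i4.mul b)
  · intro a b
    have c : IsAlgebraic ℤ (y / xL + 1) := b.add isAlgebraic_one
    have c0 : y / xL + 1 ≠ 0 := by
      intro h
      apply h2
      field_simp [xL_ne] at h
      linear_combination h
    apply trans_xL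
    have e : xL = (y + xL) * (y / xL + 1)⁻¹ := by
      rw [eq_mul_inv_iff_mul_eq₀ c0]
      field_simp [xL_ne]
    rw [e]
    exact a.mul c.inv
  · intro a b
    have c : IsAlgebraic ℤ (y + xL) := by
      apply isAlg_sq
      have e : (y + xL) ^ 2 = (y - xL) ^ 2 + (4 : ℕ) * (xL * y) := by push_cast; ring
      rw [e]
      exact (a.pow 2).add (i4.mul b)
    exact pm c a
  · intro a b
    have c : IsAlgebraic ℤ (y / xL - 1) := b.sub isAlgebraic_one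
    have c0 : y / xL - 1 ≠ 0 := by
      intro h
      apply h1
      field_simp [xL_ne] at h
      linear_combination h
    apply trans_xL
    have e : xL = (y - xL) * (y / xL - 1)⁻¹ := by
      rw [eq_mul_inv_iff_mul_eq₀ c0]
      field_simp [xL_ne]
    rw [e]
    exact a.mul c.inv
  · intro a b
    apply hy
    apply isAlg_sq
    have e : y ^ 2 = (xL * y) * (y / xL) := by
      field_simp [xL_ne]
    rw [e]
    exact a.mul b

end Pool.Agent.Q158.EqD
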