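import Mathlib
import Pool.Agent.Q158.EqD.Poor
import Pool.Agent.Y926.TW.Dist

/-!
# Odd zeta values outside spaces over poor fields
-/

set_option autoImplicit false

namespace Pool.Agent.Q158.EqD
open Real

theorem poor_odd {F : Subfield ℝ} (h : Poor F) (b K s D : ℕ) (hK : 1 ≤ K)
    (hs : (2 : ℝ) ^ (132 * (D + 1)) * ((b : ℝ) + 1) ^ 2 * (K : ℝ) ^ 3 * Real.log (K + 1) ≤ (s : ℝ) ^ 2)
    (v : Fin D → ℝ) :
    K ≤ Set.ncard {j : ℕ | b < j ∧ j ≤ s ∧ Odd j ∧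
      (∑' n : ℕ, 1 / ((n : ℝ) + 1) ^ j) ∉ Submodule.span F (insert (1 : ℝ) (Set.range v))} := by
  have hfin : {j : ℕ | b < j ∧ j ≤ s ∧ Odd j}.Finite :=
    (Set.finite_Iic s).subset fun j hj => hj.2.1
  have h1 := h.count v (fun j => ∑' n : ℕ, 1 / ((n : ℝ) + 1) ^ j) {j : ℕ | b < j ∧ j ≤ s ∧ Odd j} hfin
    (D * (D + 2) * 2 + 2 * D + 2) K (by
      obtain ⟨q0, hq0⟩ := Pool.Agent.Y926.TW.window_dist hK hs v 2
      refine ⟨q0, fun q hq => (hq0 q hq).trans (le_of_eq ?_)⟩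
      congr 1
      ext j
      simp only [Set.mem_setOf_eq]
      tauto)
  refine h1.trans (le_of_eq ?_)
  congr 1
  ext j
  simp only [Set.mem_setOf_eq]
  tauto

end Pool.Agent.Q158.EqD
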