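import Mathlib
import Pool.Agent.Q158.EqD.Poor
import Pool.Agent.TH957.ZM.Fin

/-!
# `ζ(7), ..., ζ(13)` and poor fields
-/

set_option autoImplicit false

namespace Pool.Agent.Q158.EqD
open Real

theorem poor_7_13 {F : Subfield ℝ} (h : Poor F) :
    ∃ j : ℕ, (j = 7 ∨ j = 9 ∨ j = 11 ∨ j = 13) ∧ (∑' n : ℕ, 1 / ((n : ℝ) + 1) ^ j) ∉ F := by
  obtain ⟨c, hc, hm⟩ := Pool.Agent.TH957.ZM.main
  obtain ⟨i, hi⟩ := h.fintype (ι := Fin 4) (fun i => ∑' n : ℕ, 1 / ((n : ℝ) + 1) ^ (7 + 2 * (i : ℕ)))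
    c 29400 hc (by norm_num) (by
      intro q p hq
      obtain ⟨j, hj, hle⟩ := hm (fun j => if h : (j - 7) / 2 < 4 then p ⟨(j - 7) / 2, h⟩ else 0) q hq
      have hqp : (0 : ℝ) < q := by exact_mod_cast hq
      have hlt : (j - 7) / 2 < 4 := by omega
      refine ⟨⟨(j - 7) / 2, hlt⟩, ?_⟩
      rw [dif_pos hlt] at hle
      rw [div_le_iff₀ (by positivity)] at hle
      have e1 : 7 + 2 * ((j - 7) / 2) = j := by omega
      have e2 : (q : ℝ) ^ (29400 : ℝ) = (q : ℝ) ^ (29400 : ℕ) := by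
        rw [← Real.rpow_natCast]; norm_num
      rw [e2]
      dsimp only
      rw [e1]
      have hle' : c ≤ |(∑' n : ℕ, 1 / ((n : ℝ) + 1) ^ j) - p ⟨(j - 7) / 2, hlt⟩ / q| * (q : ℝ) ^ 29400 :=
        hle
      linarith)
  refine ⟨7 + 2 * (i : ℕ), ?_, hi⟩
  have := i.2
  omega

end Pool.Agent.Q158.EqD
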