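import Mathlib
import Pool.Agent.Q158.EqD.Poor
import Pool.Agent.H103R2.LM.M

/-!
# `ζ(3)` and poor fields
-/

set_option autoImplicit false

namespace Pool.Agent.Q158.EqD
open Real

theorem base : ∃ c : ℝ, 0 < c ∧ ∃ κ : ℝ, 0 < κ ∧ ∀ a b d : ℤ, ∀ H : ℝ, 1 ≤ H → d ≠ 0 →
    |(b : ℝ)| ≤ H → |(d : ℝ)| ≤ H →
    c * H ^ (-κ) ≤ |(a : ℝ) + b * Real.pi ^ 2 + d * (∑' n : ℕ, 1 / ((n : ℝ) + 1) ^ 3)| := by
  obtain ⟨c, hc, κ, hκ, h⟩ := Pool.Agent.LM.measure_d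
  refine ⟨c * 6 ^ (-κ), by positivity, κ, hκ, ?_⟩
  intro a b d H hH hd hb hdH
  have h1 := h a (6 * b) d (6 * H) (by linarith) hd (by
    push_cast
    rw [abs_mul, abs_of_pos (by norm_num : (0 : ℝ) < 6)]
    linarith) (by linarith)
  have e2 : Pool.Agent.H337R2.zr 2 = Real.pi ^ 2 / 6 := Pool.Agent.LZ.Z2_value
  have e3 : Pool.Agent.H337R2.zr 3 = ∑' n : ℕ, 1 / ((n : ℝ) + 1) ^ 3 := rfl
  rw [e2, e3] at h1
  rw [Real.mul_rpow (by norm_num) (by linarith)] at h1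
  have e4 : (a : ℝ) + ((6 * b : ℤ) : ℝ) * (Real.pi ^ 2 / 6) + d * (∑' n : ℕ, 1 / ((n : ℝ) + 1) ^ 3) =
      (a : ℝ) + b * Real.pi ^ 2 + d * (∑' n : ℕ, 1 / ((n : ℝ) + 1) ^ 3) := by
    push_cast
    ring
  rw [e4] at h1
  linarith

/-- `c q ^ (-2κ)` is larger than `1 / q ^ E` for large `q`. -/
theorem absorb' (c κ : ℝ) (hc : 0 < c) (hκ : 0 < κ) : ∃ E q0 : ℕ, ∀ q : ℕ, q0 ≤ q → 0 < q →
    1 / (q : ℝ) ^ E ≤ c * ((q : ℝ) ^ 2) ^ (-κ) := by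
  obtain ⟨E, hE⟩ := exists_nat_ge (2 * κ + 1)
  obtain ⟨q0, hq0⟩ := exists_nat_ge (1 / c)
  refine ⟨E, q0, ?_⟩
  intro q hq hq1
  have hqp : (0 : ℝ) < q := by exact_mod_cast hq1
  have hq1' : (1 : ℝ) ≤ q := by exact_mod_cast hq1
  have h1 : 1 / c ≤ q := hq0.trans (by exact_mod_cast hq)
  have h2 : ((q : ℝ) ^ 2) ^ (-κ) = (q : ℝ) ^ (-(2 * κ)) := by
    rw [← Real.rpow_natCast, ← Real.rpow_mul hqp.le]
    congr 1
    push_cast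
    ring
  rw [h2]
  have h3 : (1 : ℝ) / (q : ℝ) ^ E = (q : ℝ) ^ (-(E : ℝ)) := by
    rw [Real.rpow_neg hqp.le, Real.rpow_natCast, one_div]
  rw [h3]
  have h4 : (q : ℝ) ^ (-(E : ℝ)) ≤ (q : ℝ) ^ (-(2 * κ) + (-1)) :=
    Real.rpow_le_rpow_of_exponent_le hq1' (by linarith)
  refine h4.trans ?_
  rw [Real.rpow_add hqp, Real.rpow_neg_one, mul_comm]
  apply mul_le_mul_of_nonneg_right _ (by positivity)
  rw [div_le_iff₀ hc] at h1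
  rw [inv_le_iff_one_le_mul₀ hqp]
  linarith

theorem poor_z3 {F : Subfield ℝ} (h : Poor F) :
    (∑' n : ℕ, 1 / ((n : ℝ) + 1) ^ 3) ∉ Submodule.span F (insert (1 : ℝ) (Set.range fun _ : Fin 1 => π ^ 2)) := by
  obtain ⟨c, hc, κ, hκ, hm⟩ := base
  obtain ⟨E, q0, hq0⟩ := absorb' c κ hc hκ
  obtain ⟨_, hi⟩ := h.comb (fun _ : Fin 1 => π ^ 2) (ι := Fin 1)
    (fun _ => ∑' n : ℕ, 1 / ((n : ℝ) + 1) ^ 3) E ⟨q0 + 1, by
    intro q hq p₀ p hp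
    have hq1 : 0 < q := by omega
    have hqp : (0 : ℝ) < q := by exact_mod_cast hq1
    have hq1' : (1 : ℝ) ≤ q := by exact_mod_cast hq1
    refine ⟨0, (hq0 q (by omega) hq1).trans ?_⟩
    have h1 := hm (-p₀ 0) (-p 0 0) q ((q : ℝ) ^ 2) (by nlinarith) (by exact_mod_cast hq1.ne') (by
      have := hp 0 0
      push_cast
      rwa [abs_neg]) (by
      rw [Int.cast_natCast, abs_of_pos hqp]
      nlinarith)
    refine h1.trans (le_of_eq ?_)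
    congr 1
    push_cast
    rw [Fin.sum_univ_one]
    ring⟩
  exact hi

/-- `1, π ^ 2, ζ(3)` are linearly independent over `F`. -/
theorem poor_pi2_z3 {F : Subfield ℝ} (h : Poor F) (a b d : ℝ) (ha : a ∈ F) (hb : b ∈ F) (hd : d ∈ F)
    (h0 : a + b * π ^ 2 + d * (∑' n : ℕ, 1 / ((n : ℝ) + 1) ^ 3) = 0) : a = 0 ∧ b = 0 ∧ d = 0 := by
  have hpi : Transcendental F π := h.1 π measR_pi
  obtain ⟨z, hz⟩ : ∃ z : ℝ, z = ∑' n : ℕ, 1 / ((n : ℝ) + 1) ^ 3 := ⟨_, rfl⟩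
  have h3 := poor_z3 h
  rw [← hz] at h0 h3
  have hd0 : d = 0 := by
    by_contra hne
    apply h3
    rw [Submodule.mem_span_insert]
    refine ⟨⟨-a / d, F.div_mem (F.neg_mem ha) hd⟩, (-b / d) * π ^ 2, ?_, ?_⟩
    · rw [Submodule.mem_span_range_iff_exists_fun]
      refine ⟨fun _ => ⟨-b / d, F.div_mem (F.neg_mem hb) hd⟩, ?_⟩
      rw [Fin.sum_univ_one]
      rfl
    · rw [Subfield.smul_def, smul_eq_mul, mul_one]
      have : z = (-a - b * π ^ 2) / d := by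
        rw [eq_div_iff hne]
        linarith
      rw [this]
      ring
  rw [hd0, zero_mul, add_zero] at h0
  have hb0 : b = 0 := by
    by_contra hne
    apply hpi
    apply alg_of_zpow (m := 2) (by norm_num)
    have : π ^ (2 : ℤ) = -a / b := by
      rw [eq_div_iff hne]
      have : π ^ (2 : ℤ) = π ^ 2 := by norm_cast
      rw [this]
      linarith
    rw [this]
    exact F.div_mem (F.neg_mem ha) hb
  rw [hb0, zero_mul, add_zero] at h0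
  exact ⟨h0, hb0, hd0⟩

/-- a measure of irrationality of `ζ(3)` -/
theorem z3_measure : ∃ c μ : ℝ, 0 < c ∧ 0 < μ ∧ ∀ (q : ℕ) (p : ℤ), 0 < q →
    c ≤ (q : ℝ) ^ μ * |(∑' n : ℕ, 1 / ((n : ℝ) + 1) ^ 3 : ℝ) - p / q| := by
  obtain ⟨c, hc, κ, hκ, hm⟩ := base
  refine ⟨c, κ + 1, hc, by linarith, ?_⟩
  intro q p hq
  have hqp : (0 : ℝ) < q := by exact_mod_cast hq
  have hq1 : (1 : ℝ) ≤ q := by exact_mod_cast hq
  have h1 := hm (-p) 0 q q hq1 (by exact_mod_cast hq.ne') (by simp) (by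
    rw [Int.cast_natCast, abs_of_pos hqp])
  obtain ⟨z, hz⟩ : ∃ z : ℝ, z = ∑' n : ℕ, 1 / ((n : ℝ) + 1) ^ 3 := ⟨_, rfl⟩
  rw [← hz] at h1 ⊢
  have e1 : ((-p : ℤ) : ℝ) + ((0 : ℤ) : ℝ) * π ^ 2 + ((q : ℤ) : ℝ) * z = q * (z - p / q) := by
    push_cast
    field_simp
    ring
  rw [e1, abs_mul, abs_of_pos hqp] at h1
  have e2 : (q : ℝ) ^ (κ + 1) = (q : ℝ) ^ κ * q := by
    rw [Real.rpow_add hqp, Real.rpow_one]
  have e3 : (q : ℝ) ^ κ * (q : ℝ) ^ (-κ) = 1 := by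
    rw [← Real.rpow_add hqp]; simp
  calc c = (q : ℝ) ^ κ * (c * (q : ℝ) ^ (-κ)) := by rw [mul_left_comm, e3, mul_one]
    _ ≤ (q : ℝ) ^ κ * (q * |z - p / q|) := mul_le_mul_of_nonneg_left h1 (by positivity)
    _ = _ := by rw [e2]; ring

end Pool.Agent.Q158.EqD
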